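import Pool.Agent.H616R2.TR.Basic

set_option autoImplicit false

/-! Task N1: levels and thresholds. -/

namespace H616TR

open Finset

variable {b N : ℕ}

/-! ### Task N1: levels -/

theorem NumA_log {x : ℕ} (hx : B0 ≤ x) : 64 ≤ Nat.log 2 x ∧ 2 ^ Nat.log 2 x ≤ x := by
  have hx0 : x ≠ 0 := by
    have : 0 < B0 := by unfold B0; positivity
    omega
  refine ⟨?_, Nat.pow_log_le_self 2 hx0⟩
  exact Nat.le_log_of_pow_le (by norm_num) hx

theorem NumA_exp1 (L : ℕ) (hL : 64 ≤ L) : 16000 * (L + 1) < 2 ^ L := by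
  induction L, hL using Nat.le_induction with
  | base => norm_num
  | succ L hL ih => rw [pow_succ]; omega

theorem NumA_pow6 (m : ℕ) (hm : 65 ≤ m) : (m + 1) ^ 6 ≤ 2 * m ^ 6 := by
  have h1 : 65 * (m + 1) ≤ 66 * m := by omega
  have h2 := Nat.pow_le_pow_left h1 6
  rw [mul_pow, mul_pow] at h2
  have h3 : (66 : ℕ) ^ 6 * m ^ 6 ≤ (2 * 65 ^ 6) * m ^ 6 := Nat.mul_le_mul_right _ (by norm_num)
  have h4 : 65 ^ 6 * (m + 1) ^ 6 ≤ 65 ^ 6 * (2 * m ^ 6) := by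
    calc 65 ^ 6 * (m + 1) ^ 6 ≤ 66 ^ 6 * m ^ 6 := h2
      _ ≤ (2 * 65 ^ 6) * m ^ 6 := h3
      _ = 65 ^ 6 * (2 * m ^ 6) := by ring
  exact Nat.le_of_mul_le_mul_left h4 (by norm_num)

theorem NumA_exp2 (L : ℕ) (hL : 64 ≤ L) : 2 * (16 * (L + 1)) ^ 6 ≤ 2 ^ L := by
  induction L, hL using Nat.le_induction with
  | base => norm_num
  | succ L hL ih =>
    have h1 := NumA_pow6 (L + 1) (by omega)
    rw [pow_succ 2 L]
    rw [mul_pow] at ih ⊢
    calc 2 * (16 ^ 6 * (L + 1 + 1) ^ 6) ≤ 2 * (16 ^ 6 * (2 * (L + 1) ^ 6)) := by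
          apply Nat.mul_le_mul_left
          apply Nat.mul_le_mul_left
          exact h1
      _ = (2 * (16 ^ 6 * (L + 1) ^ 6)) * 2 := by ring
      _ ≤ 2 ^ L * 2 := Nat.mul_le_mul_right _ ih

theorem nx_lt {x : ℕ} (hx : B0 ≤ x) : 1000 * nx x < x := by
  obtain ⟨h1, h2⟩ := NumA_log hx
  have h3 := NumA_exp1 _ h1
  unfold nx
  omega

theorem nx_ge {x : ℕ} (hx : B0 ≤ x) : 1000 ≤ nx x := by
  obtain ⟨h1, h2⟩ := NumA_log hx
  unfold nx
  omega

theorem nx_mono {x y : ℕ} (h : x ≤ y) : nx x ≤ nx y := by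
  unfold nx
  have := Nat.log_mono_right (b := 2) h
  omega

theorem two_nx6_le {x : ℕ} (hx : B0 ≤ x) : 2 * (nx x) ^ 6 ≤ x := by
  obtain ⟨h1, h2⟩ := NumA_log hx
  exact (NumA_exp2 _ h1).trans h2

theorem pow_le_two_nx (x : ℕ) : x ^ 16 ≤ 2 ^ nx x := by
  have h1 : x < 2 ^ (Nat.log 2 x + 1) := Nat.lt_pow_succ_log_self (by norm_num) x
  calc x ^ 16 ≤ (2 ^ (Nat.log 2 x + 1)) ^ 16 := Nat.pow_le_pow_left h1.le 16
    _ = 2 ^ nx x := by
      unfold nx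
      rw [← pow_mul, mul_comm]

theorem NumA_pos {x : ℕ} (h : Big b N x) : 1 ≤ x ∧ 0 < N := by
  have h0 : 1 ≤ B0 := by unfold B0; exact Nat.one_le_two_pow
  have h1 : 1 ≤ x := h0.trans h.x0
  refine ⟨h1, ?_⟩
  have h2 : 1 ≤ b := h1.trans h.xb
  exact lt_of_lt_of_le (Nat.pow_pos h2) h.Nb

/-- `Δ` is large and small -/
theorem dl_pos {x : ℕ} (h : Big b N x) : 1 ≤ dl N x := by
  obtain ⟨h1, h2⟩ := NumA_pos h
  unfold dl
  apply Nat.div_pos _ (Nat.pow_pos h1)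
  calc x ^ 5 ≤ b ^ 5 := Nat.pow_le_pow_left h.xb 5
    _ ≤ b ^ 40 := Nat.pow_le_pow_right (h1.trans h.xb) (by norm_num)
    _ ≤ N := h.Nb

theorem dl_le {x : ℕ} (h : Big b N x) : (dl N x : ℝ) ≤ (N : ℝ) / (x : ℝ) ^ 5 := by
  have _ := h
  unfold dl
  have := @Nat.cast_div_le ℝ _ _ _ N (x ^ 5)
  push_cast at this
  exact this

theorem lt_dl {x : ℕ} (h : Big b N x) : (N : ℝ) / (x : ℝ) ^ 5 < (dl N x : ℝ) + 1 := by
  obtain ⟨h1, h2⟩ := NumA_pos h
  have hx : (0 : ℝ) < x := by exact_mod_cast h1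
  unfold dl
  rw [div_lt_iff₀ (by positivity)]
  have h3 := Nat.lt_mul_div_succ N (Nat.pow_pos (n := 5) h1)
  have h4 : (N : ℝ) < ((x ^ 5 * (N / x ^ 5 + 1) : ℕ) : ℝ) := by exact_mod_cast h3
  push_cast at h4
  linarith

/-- few pigeons above the next level is below the next `Δ` -/
theorem div_sq_le_dl {x n : ℕ} (h : Big b N x) (hn : (n : ℝ) < (N : ℝ) / (x : ℝ) ^ 2) :
    n ≤ dl N (nx x) := by
  obtain ⟨h1, h2⟩ := NumA_pos h
  have hx : (0 : ℝ) < x := by exact_mod_cast h1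
  have hnx : 1000 ≤ nx x := nx_ge h.x0
  unfold dl
  rw [Nat.le_div_iff_mul_le (Nat.pow_pos (by omega))]
  rw [lt_div_iff₀ (by positivity)] at hn
  have h3 : n * x ^ 2 < N := by exact_mod_cast hn
  have h4 : (nx x) ^ 5 ≤ x ^ 2 := by
    calc (nx x) ^ 5 ≤ (nx x) ^ 6 := Nat.pow_le_pow_right (by omega) (by norm_num)
      _ ≤ 2 * (nx x) ^ 6 := by omega
      _ ≤ x := two_nx6_le h.x0
      _ ≤ x ^ 2 := Nat.le_self_pow (by norm_num) x
  exact (Nat.mul_le_mul_left n h4).trans h3.le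

theorem ph_pos {x : ℕ} (h : Big b N x) : 0 < ph N x := by
  obtain ⟨h1, h2⟩ := NumA_pos h
  have hx : (0 : ℝ) < x := by exact_mod_cast h1
  have hN : (0 : ℝ) < N := by exact_mod_cast h2
  have hnx : 1000 ≤ nx x := nx_ge h.x0
  have hnx' : (0 : ℝ) < nx x := by exact_mod_cast (by omega : 0 < nx x)
  unfold ph
  positivity

theorem NumA_nx1 {x : ℕ} (h : Big b N x) : (0 : ℝ) ≤ 1 - 1 / (nx x : ℝ) := by
  have hnx : 1000 ≤ nx x := nx_ge h.x0
  have hnx' : (1 : ℝ) ≤ nx x := by exact_mod_cast (by omega : 1 ≤ nx x)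
  rw [sub_nonneg, div_le_one (by linarith)]
  exact hnx'

theorem Kth_anti {x a a' : ℕ} (h : Big b N x) (ha : a ≤ a') : Kth N x a' ≤ Kth N x a := by
  obtain ⟨h1, h2⟩ := NumA_pos h
  have hN : (0 : ℝ) < N := by exact_mod_cast h2
  have hph := ph_pos h
  have ha' : (a : ℝ) ≤ a' := by exact_mod_cast ha
  unfold Kth
  apply mul_le_mul_of_nonneg_right _ (by positivity)
  apply mul_le_mul_of_nonneg_left _ (NumA_nx1 h)
  have h3 : ((a : ℝ) + 1) * ph N x / N ≤ ((a' : ℝ) + 1) * ph N x / N := by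
    apply div_le_div_of_nonneg_right _ hN.le
    apply mul_le_mul_of_nonneg_right _ hph.le
    linarith
  linarith

/-- the threshold is below the typical value -/
theorem Kth_le {x a : ℕ} (h : Big b N x) {n : ℕ}
    (hn : (n : ℝ) ≤ ((a : ℝ) + 1) * ph N x + 10 * (dl N x : ℝ)) :
    Kth N x a ≤ (1 - 1 / (nx x : ℝ)) * (1 - (n : ℝ) / N) * 2 ^ (nx x) := by
  obtain ⟨h1, h2⟩ := NumA_pos h
  have hN : (0 : ℝ) < N := by exact_mod_cast h2
  unfold Kth
  apply mul_le_mul_of_nonneg_right _ (by positivity)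
  apply mul_le_mul_of_nonneg_left _ (NumA_nx1 h)
  have h3 : (n : ℝ) / N ≤ (((a : ℝ) + 1) * ph N x + 10 * (dl N x : ℝ)) / N :=
    div_le_div_of_nonneg_right hn hN.le
  rw [add_div] at h3
  linarith

theorem InLim.mono {x : ℕ} {T T' : Finset (Fin N)} (hT : T'.card ≤ T.card)
    (h : InLim N x T) : InLim N x T' := by
  unfold InLim at *
  have : (T'.card : ℝ) ≤ T.card := by exact_mod_cast hT
  linarith

/-- ranges are ordered -/
theorem InLim.of_nx {x : ℕ} (hx : B0 ≤ x) {T : Finset (Fin N)} (h : InLim N (nx x) T) :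
    InLim N x T := by
  unfold InLim at *
  refine h.trans ?_
  apply mul_le_mul_of_nonneg_left _ (Nat.cast_nonneg N)
  have hnx : 1000 ≤ nx x := nx_ge hx
  have hnx' : (0 : ℝ) < nx x := by exact_mod_cast (by omega : 0 < nx x)
  have hlt := nx_lt hx
  have hle : (nx x : ℝ) ≤ x := by exact_mod_cast (by omega : nx x ≤ x)
  have h1 : 1 / (8 * (x : ℝ) ^ 2) ≤ 1 / (8 * (nx x : ℝ) ^ 2) := by
    apply one_div_le_one_div_of_le (by positivity)
    have := pow_le_pow_left₀ hnx'.le hle 2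
    linarith
  linarith

end H616TR
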