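import Pool.Agent.H616R2.TR.Tail
import Pool.Agent.H616R2.TR.NumA

set_option autoImplicit false

/-! Task P3: atypical cubes are rare. -/

namespace H616TR

open Finset

variable {b N : ℕ}

/-- number of subcubes of a cube: `3^{fc r}` (at most) -/
theorem card_sub_le (r : Par b) :
    ((univ : Finset (Par b)).filter (fun r' => Sub r r')).card ≤ 3 ^ fc r := by
  classical
  have h : (univ : Finset ({t // t ∈ fr r} → Option Bool)).card = 3 ^ fc r := by
    rw [Finset.card_univ, Fintype.card_fun, Fintype.card_coe]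
    simp [fc]
  rw [← h]
  refine Finset.card_le_card_of_injOn (fun r' t => r' t.1) (by simp) ?_
  intro r1 h1 r2 h2 he
  have h1' := (Finset.mem_filter.mp (Finset.mem_coe.mp h1)).2
  have h2' := (Finset.mem_filter.mp (Finset.mem_coe.mp h2)).2
  funext t
  by_cases ht : t ∈ fr r
  · exact congrFun he ⟨t, ht⟩
  · have hn : r t ≠ none := fun h => ht (mem_fr.mpr h)
    obtain ⟨v, hv⟩ := Option.ne_none_iff_exists'.mp hn
    rw [h1' t v hv, h2' t v hv]

theorem AtypP_num {x : ℕ} (hx : 4 ≤ x) {E : ℝ} (hE : (x : ℝ) ^ 12 / 32 ≤ E) :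
    (3 : ℝ) ^ x * (2 * Real.exp (-E)) ≤ (1 / 2 : ℝ) ^ (2 * x ^ 8) := by
  have hx4 : (4 : ℝ) ≤ x := by exact_mod_cast hx
  have h3 : (3 : ℝ) ^ x ≤ Real.exp (2 * x) := by
    have h : (3 : ℝ) ≤ Real.exp 2 := by
      have := Real.add_one_le_exp (2 : ℝ)
      linarith
    calc (3 : ℝ) ^ x ≤ (Real.exp 2) ^ x := pow_le_pow_left₀ (by norm_num) h x
      _ = Real.exp (2 * x) := by rw [← Real.exp_nat_mul]; ring_nf
  have h2 : (2 : ℝ) ≤ Real.exp 1 := by
    have := Real.add_one_le_exp (1 : ℝ)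
    linarith
  have hhalf : Real.exp (-(2 * (x : ℝ) ^ 8)) ≤ (1 / 2 : ℝ) ^ (2 * x ^ 8) := by
    have h : Real.exp (-1) ≤ 1 / 2 := by
      rw [Real.exp_neg, one_div]
      exact inv_anti₀ (by norm_num) h2
    calc Real.exp (-(2 * (x : ℝ) ^ 8)) = (Real.exp (-1)) ^ (2 * x ^ 8) := by
          rw [← Real.exp_nat_mul]
          push_cast
          ring_nf
      _ ≤ (1 / 2 : ℝ) ^ (2 * x ^ 8) := pow_le_pow_left₀ (Real.exp_pos _).le h _
  calc (3 : ℝ) ^ x * (2 * Real.exp (-E)) ≤ Real.exp (2 * x) * (Real.exp 1 * Real.exp (-E)) := by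
        gcongr
    _ = Real.exp (2 * x + (1 + -E)) := by rw [← Real.exp_add, ← Real.exp_add]
    _ ≤ Real.exp (-(2 * (x : ℝ) ^ 8)) := by
        rw [Real.exp_le_exp]
        have h8 : (x : ℝ) ≤ (x : ℝ) ^ 8 := by
          calc (x : ℝ) = (x : ℝ) ^ 1 := (pow_one _).symm
            _ ≤ (x : ℝ) ^ 8 := pow_le_pow_right₀ (by linarith) (by norm_num)
        have h12 : 256 * (x : ℝ) ^ 8 ≤ (x : ℝ) ^ 12 := by
          have : (4 : ℝ) ^ 4 ≤ (x : ℝ) ^ 4 := pow_le_pow_left₀ (by norm_num) hx4 4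
          have h0 : (0 : ℝ) ≤ (x : ℝ) ^ 8 := by positivity
          nlinarith
        linarith
    _ ≤ _ := hhalf

/-- a cube of dimension at most `x` is atypical with tiny probability:
`3^x * 2 * exp(-(1/F²)(1/(8x²)) 2^F / 4) ≤ 2^{-2 x^8}` as `2^F ≥ x^16` -/
theorem avg_Atyp_le {x : ℕ} (hx : B0 ≤ x) (hN : 0 < N) (r : Par b) (hr : fc r ≤ x)
    (T : Finset (Fin N)) (hT : InLim N x T) :
    avg (fun τ => if Atyp τ x r T then 1 else 0) ≤ (1 / 2 : ℝ) ^ (2 * x ^ 8) := by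
  classical
  have : NeZero N := ⟨hN.ne'⟩
  have hNr : (0 : ℝ) < N := by exact_mod_cast hN
  have hx4 : 4 ≤ x := le_trans (by norm_num [B0]) hx
  have hx0 : (0 : ℝ) < x := by
    have : 0 < x := by omega
    exact_mod_cast this
  have hF1 : 1000 ≤ nx x := nx_ge hx
  have hF0 : (0 : ℝ) < (nx x : ℝ) := by
    have : 0 < nx x := by omega
    exact_mod_cast this
  have hFx : (nx x : ℝ) ≤ x := by
    have := nx_lt hx
    have h2 : nx x ≤ x := by omega
    exact_mod_cast h2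
  set η : ℝ := 1 / (nx x : ℝ) with hη
  have hη0 : 0 < η := by positivity
  have hη1 : η ≤ 1 := by
    rw [hη, div_le_one hF0]
    have : 1 ≤ nx x := by omega
    exact_mod_cast this
  set q : ℝ := 1 - (T.card : ℝ) / N with hq
  have hqlow : 1 / (8 * (x : ℝ) ^ 2) ≤ q := by
    unfold InLim at hT
    have h1 : (T.card : ℝ) / N ≤ 1 - 1 / (8 * (x : ℝ) ^ 2) := by
      rw [div_le_iff₀ hNr]
      linarith
    rw [hq]
    linarith
  have hq0 : 0 ≤ q := le_trans (by positivity) hqlow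
  have hηq : 0 ≤ η ^ 2 * q := mul_nonneg (sq_nonneg _) hq0
  set E : ℝ := η ^ 2 * q * 2 ^ (nx x) / 4 with hE
  have hElow : (x : ℝ) ^ 12 / 32 ≤ E := by
    have h16 : (x : ℝ) ^ 16 ≤ 2 ^ nx x := by exact_mod_cast pow_le_two_nx x
    have hη2 : 1 / (x : ℝ) ^ 2 ≤ η ^ 2 := by
      rw [hη, div_pow, one_pow]
      exact one_div_le_one_div_of_le (by positivity) (pow_le_pow_left₀ hF0.le hFx 2)
    calc (x : ℝ) ^ 12 / 32 = (1 / (x : ℝ) ^ 2) * (1 / (8 * (x : ℝ) ^ 2)) * (x : ℝ) ^ 16 / 4 := by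
          field_simp
          ring
      _ ≤ η ^ 2 * q * 2 ^ (nx x) / 4 := by gcongr
      _ = E := rfl
  let S : Finset (Par b) := (univ : Finset (Par b)).filter (fun r' => Sub r r' ∧ fc r' = nx x)
  have hScard : (S.card : ℝ) ≤ 3 ^ x := by
    have h1 : S.card ≤ ((univ : Finset (Par b)).filter (fun r' => Sub r r')).card := by
      refine Finset.card_le_card (fun r' h => ?_)
      rw [Finset.mem_filter] at h ⊢
      exact ⟨h.1, h.2.1⟩
    have h2 := card_sub_le r
    have h3 : 3 ^ fc r ≤ 3 ^ x := Nat.pow_le_pow_right (by norm_num) hr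
    have h4 : S.card ≤ 3 ^ x := by omega
    exact_mod_cast h4
  have hpt : ∀ τ : Lab b → Fin N, (if Atyp τ x r T then (1 : ℝ) else 0) ≤
      ∑ r' ∈ S, ((if (av τ r' T : ℝ) < (1 - η) * q * 2 ^ (fc r') then (1 : ℝ) else 0) +
        (if (1 + η) * q * 2 ^ (fc r') < (av τ r' T : ℝ) then (1 : ℝ) else 0)) := by
    intro τ
    have hnn : ∀ r' ∈ S, (0 : ℝ) ≤
        ((if (av τ r' T : ℝ) < (1 - η) * q * 2 ^ (fc r') then (1 : ℝ) else 0) +
        (if (1 + η) * q * 2 ^ (fc r') < (av τ r' T : ℝ) then (1 : ℝ) else 0)) := by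
      intro r' _
      split_ifs <;> norm_num
    by_cases hA : Atyp τ x r T
    · rw [if_pos hA]
      obtain ⟨r', hr', hfr', hor⟩ := hA
      have hmem : r' ∈ S := by
        rw [Finset.mem_filter]
        exact ⟨Finset.mem_univ _, hr', hfr'⟩
      refine le_trans ?_ (Finset.single_le_sum (f := fun r' =>
        ((if (av τ r' T : ℝ) < (1 - η) * q * 2 ^ (fc r') then (1 : ℝ) else 0) +
        (if (1 + η) * q * 2 ^ (fc r') < (av τ r' T : ℝ) then (1 : ℝ) else 0))) hnn hmem)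
      simp only [hfr']
      rcases hor with h | h
      · rw [if_pos h]
        split_ifs <;> norm_num
      · rw [if_pos h]
        split_ifs <;> norm_num
    · rw [if_neg hA]
      exact Finset.sum_nonneg hnn
  have hmain : avg (fun τ => if Atyp τ x r T then (1 : ℝ) else 0) ≤
      (S.card : ℝ) * (2 * Real.exp (-E)) := by
    refine le_trans (avg_mono hpt) ?_
    rw [avg_sum]
    have hterm : ∀ r' ∈ S, avg (fun τ : Lab b → Fin N =>
        ((if (av τ r' T : ℝ) < (1 - η) * q * 2 ^ (fc r') then (1 : ℝ) else 0) +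
        (if (1 + η) * q * 2 ^ (fc r') < (av τ r' T : ℝ) then (1 : ℝ) else 0))) ≤
        2 * Real.exp (-E) := by
      intro r' hr'
      have hf := (Finset.mem_filter.mp hr').2.2
      rw [avg_add]
      have h1 := chern_down (N := N) r' T η hη0 hη1
      have h2 := chern_up (N := N) r' T η hη0 hη1
      have hEE : η ^ 2 * (1 - (T.card : ℝ) / N) * 2 ^ fc r' / 4 = E := by rw [hf]
      rw [hEE] at h1 h2
      linarith
    calc ∑ r' ∈ S, avg (fun τ : Lab b → Fin N =>
        ((if (av τ r' T : ℝ) < (1 - η) * q * 2 ^ (fc r') then (1 : ℝ) else 0) +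
        (if (1 + η) * q * 2 ^ (fc r') < (av τ r' T : ℝ) then (1 : ℝ) else 0)))
        ≤ ∑ _r' ∈ S, 2 * Real.exp (-E) := Finset.sum_le_sum hterm
      _ = (S.card : ℝ) * (2 * Real.exp (-E)) := by rw [Finset.sum_const, nsmul_eq_mul]
  refine le_trans hmain (le_trans ?_ (AtypP_num hx4 hElow))
  exact mul_le_mul_of_nonneg_right hScard (by positivity)

end H616TR
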