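import Pool.Agent.H616R2.TR.Basic

set_option autoImplicit false

/-! Task P1: averages over labellings of one pigeon. -/

namespace H616TR

open Finset

variable {b N : ℕ}

/-! ### Task P1: averages of functions of independent values -/

theorem Avg_card_pos [NeZero N] : (0 : ℝ) < (Fintype.card (Lab b → Fin N) : ℝ) := by
  exact_mod_cast Fintype.card_pos

theorem avg_const [NeZero N] (c : ℝ) : avg (fun _ : Lab b → Fin N => c) = c := by
  unfold avg
  rw [Finset.sum_const, Finset.card_univ, nsmul_eq_mul]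
  field_simp [(Avg_card_pos (b := b) (N := N)).ne']

theorem avg_mono {f g : (Lab b → Fin N) → ℝ} (h : ∀ τ, f τ ≤ g τ) : avg f ≤ avg g :=
  div_le_div_of_nonneg_right (Finset.sum_le_sum (fun τ _ => h τ)) (Nat.cast_nonneg _)

theorem avg_nonneg {f : (Lab b → Fin N) → ℝ} (h : ∀ τ, 0 ≤ f τ) : 0 ≤ avg f :=
  div_nonneg (Finset.sum_nonneg (fun τ _ => h τ)) (Nat.cast_nonneg _)

theorem avg_add (f g : (Lab b → Fin N) → ℝ) : avg (fun τ => f τ + g τ) = avg f + avg g := by
  unfold avg
  rw [Finset.sum_add_distrib, add_div]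

theorem avg_sum {α : Type} (s : Finset α) (f : α → (Lab b → Fin N) → ℝ) :
    avg (fun τ => ∑ a ∈ s, f a τ) = ∑ a ∈ s, avg (f a) := by
  unfold avg
  rw [Finset.sum_comm, Finset.sum_div]

theorem avg_mul_const (f : (Lab b → Fin N) → ℝ) (c : ℝ) :
    avg (fun τ => c * f τ) = c * avg f := by
  unfold avg
  rw [← Finset.mul_sum, mul_div_assoc]

/-- products over labels factorise -/
theorem avg_prod [NeZero N] (A : Finset (Lab b)) (f : Lab b → Fin N → ℝ) :
    avg (fun τ => ∏ y ∈ A, f y (τ y)) = ∏ y ∈ A, ((∑ h, f y h) / (N : ℝ)) := by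
  classical
  have hN : (N : ℝ) ≠ 0 := by exact_mod_cast NeZero.ne N
  let F : Lab b → Fin N → ℝ := fun y h => if y ∈ A then f y h else 1
  have h1 : ∀ τ : Lab b → Fin N, ∏ y ∈ A, f y (τ y) = ∏ y, F y (τ y) := by
    intro τ
    simp only [F]
    rw [Finset.prod_ite_mem]
    simp
  have h2 : ∑ τ : Lab b → Fin N, ∏ y, F y (τ y) = ∏ y, ∑ h, F y h := by
    rw [Fintype.prod_sum]
  have h3 : (Fintype.card (Lab b → Fin N) : ℝ) = ∏ _y : Lab b, (N : ℝ) := by
    rw [Fintype.card_fun, Fintype.card_fin, Finset.prod_const, Finset.card_univ]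
    push_cast
    rfl
  unfold avg
  simp only [h1]
  rw [h2, h3, ← Finset.prod_div_distrib]
  have h4 : ∀ y, (∑ h, F y h) / (N : ℝ) = if y ∈ A then (∑ h, f y h) / (N : ℝ) else 1 := by
    intro y
    simp only [F]
    by_cases hy : y ∈ A
    · simp [hy]
    · simp [hy, hN]
  simp only [h4]
  rw [Finset.prod_ite_mem]
  simp

/-- independence: functions that depend on disjoint sets of labels -/
theorem avg_indep [NeZero N] (A B : Finset (Lab b)) (hAB : Disjoint A B)
    (f g : (Lab b → Fin N) → ℝ)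
    (hf : ∀ τ τ', (∀ y ∈ A, τ y = τ' y) → f τ = f τ')
    (hg : ∀ τ τ', (∀ y ∈ B, τ y = τ' y) → g τ = g τ') :
    avg (fun τ => f τ * g τ) = avg f * avg g := by
  classical
  let mix : (Lab b → Fin N) → (Lab b → Fin N) → (Lab b → Fin N) :=
    fun τ τ' y => if y ∈ A then τ y else τ' y
  have hmix : ∀ τ τ', mix (mix τ τ') (mix τ' τ) = τ := by
    intro τ τ'
    funext y
    simp only [mix]
    by_cases hy : y ∈ A <;> simp [hy]
  have key : ∑ x : (Lab b → Fin N) × (Lab b → Fin N), f x.1 * g x.2 =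
      ∑ x : (Lab b → Fin N) × (Lab b → Fin N), f x.1 * g x.1 := by
    refine Finset.sum_nbij' (fun x => (mix x.1 x.2, mix x.2 x.1))
      (fun x => (mix x.1 x.2, mix x.2 x.1)) (by simp) (by simp) ?_ ?_ ?_
    · rintro ⟨τ, τ'⟩ _
      simp [hmix]
    · rintro ⟨τ, τ'⟩ _
      simp [hmix]
    · rintro ⟨τ, τ'⟩ _
      have e1 : f τ = f (mix τ τ') := by
        refine hf _ _ (fun y hy => ?_)
        simp [mix, hy]
      have e2 : g τ' = g (mix τ τ') := by
        refine hg _ _ (fun y hy => ?_)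
        have : y ∉ A := fun h => (Finset.disjoint_left.mp hAB) h hy
        simp [mix, this]
      show f τ * g τ' = f (mix τ τ') * g (mix τ τ')
      rw [e1, e2]
  rw [Fintype.sum_prod_type, Fintype.sum_prod_type] at key
  have k1 : ∑ x : Lab b → Fin N, ∑ y : Lab b → Fin N, f x * g y =
      (∑ x, f x) * ∑ y, g y := by
    rw [Finset.sum_mul_sum]
  have k2 : ∑ x : Lab b → Fin N, ∑ _y : Lab b → Fin N, f x * g x =
      (Fintype.card (Lab b → Fin N) : ℝ) * ∑ x, f x * g x := by
    rw [Finset.mul_sum]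
    refine Finset.sum_congr rfl (fun x _ => ?_)
    rw [Finset.sum_const, Finset.card_univ, nsmul_eq_mul]
  have key2 : (∑ x, f x) * ∑ y, g y =
      (Fintype.card (Lab b → Fin N) : ℝ) * ∑ x, f x * g x := by
    rw [← k1, ← k2]
    exact key
  have hc := (Avg_card_pos (b := b) (N := N)).ne'
  unfold avg
  rw [div_mul_div_comm, key2]
  field_simp


end H616TR
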