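import Pool.Agent.H616R2.TR.Avg

set_option autoImplicit false

/-! Task X1: averages over labellings of all pigeons. -/

namespace H616TR

open Finset

variable {b N : ℕ}

/-- average over all `σ` -/
noncomputable def avgS (f : (Fin (N + 1) → Lab b → Fin N) → ℝ) : ℝ :=
  (∑ σ : Fin (N + 1) → Lab b → Fin N, f σ) / (Fintype.card (Fin (N + 1) → Lab b → Fin N) : ℝ)

/-- Task X1.  Products over pigeons factorise. -/
theorem avgS_prod [NeZero N] (S : Finset (Fin (N + 1))) (f : Fin (N + 1) → (Lab b → Fin N) → ℝ) :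
    avgS (fun σ => ∏ i ∈ S, f i (σ i)) = ∏ i ∈ S, avg (f i) := by
  classical
  have h1 : ∀ σ : Fin (N + 1) → Lab b → Fin N, ∏ i ∈ S, f i (σ i) =
      ∏ i, (if i ∈ S then f i (σ i) else 1) := by
    intro σ
    rw [Finset.prod_ite_mem, Finset.univ_inter]
  have h2 : ∏ i ∈ S, avg (f i) = ∏ i, (if i ∈ S then avg (f i) else 1) := by
    rw [Finset.prod_ite_mem, Finset.univ_inter]
  have h3 : ∑ σ : Fin (N + 1) → Lab b → Fin N, ∏ i, (if i ∈ S then f i (σ i) else 1) =
      ∏ i, ∑ τ : Lab b → Fin N, (if i ∈ S then f i τ else 1) := by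
    rw [Finset.prod_univ_sum]
    rw [Fintype.piFinset_univ]
  unfold avgS
  simp only [h1]
  rw [h3, h2]
  rw [Fintype.card_pi, Nat.cast_prod, ← Finset.prod_div_distrib]
  refine Finset.prod_congr rfl (fun i _ => ?_)
  split_ifs with hi
  · rfl
  · have hc : (Fintype.card (Lab b → Fin N) : ℝ) ≠ 0 := by
      exact_mod_cast Fintype.card_ne_zero
    rw [Finset.sum_const, Finset.card_univ, nsmul_eq_mul, mul_one]
    exact div_self hc

theorem avgS_mono {f g : (Fin (N + 1) → Lab b → Fin N) → ℝ} (h : ∀ σ, f σ ≤ g σ) :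
    avgS f ≤ avgS g := by
  unfold avgS
  exact div_le_div_of_nonneg_right (Finset.sum_le_sum fun σ _ => h σ) (Nat.cast_nonneg _)

theorem avgS_sum {α : Type} (s : Finset α) (f : α → (Fin (N + 1) → Lab b → Fin N) → ℝ) :
    avgS (fun σ => ∑ a ∈ s, f a σ) = ∑ a ∈ s, avgS (f a) := by
  unfold avgS
  rw [Finset.sum_comm, Finset.sum_div]

theorem avgS_add (f g : (Fin (N + 1) → Lab b → Fin N) → ℝ) :
    avgS (fun σ => f σ + g σ) = avgS f + avgS g := by
  unfold avgS
  rw [Finset.sum_add_distrib, add_div]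

/-- some value is at most the average -/
theorem exists_le_avgS [NeZero N] (f : (Fin (N + 1) → Lab b → Fin N) → ℝ) :
    ∃ σ, f σ ≤ avgS f := by
  classical
  by_contra hn
  push Not at hn
  have hc : (0 : ℝ) < (Fintype.card (Fin (N + 1) → Lab b → Fin N) : ℝ) := by
    exact_mod_cast Fintype.card_pos
  have h1 : ∑ _σ : Fin (N + 1) → Lab b → Fin N, avgS f <
      ∑ σ : Fin (N + 1) → Lab b → Fin N, f σ :=
    Finset.sum_lt_sum_of_nonempty Finset.univ_nonempty (fun σ _ => hn σ)
  rw [Finset.sum_const, Finset.card_univ, nsmul_eq_mul] at h1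
  have h2 : (Fintype.card (Fin (N + 1) → Lab b → Fin N) : ℝ) * avgS f =
      ∑ σ : Fin (N + 1) → Lab b → Fin N, f σ := by
    unfold avgS
    rw [mul_div_cancel₀]
    exact hc.ne'
  linarith


end H616TR
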