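import Pool.Agent.H616R2.TR.Defs

set_option autoImplicit false

/-! Basic facts about partial labels (task B0). -/

namespace H616TR

open Finset

variable {b N : ℕ}

theorem mem_fr {r : Par b} {t : Fin b} : t ∈ fr r ↔ r t = none := by
  simp [fr]

theorem mem_pts {r : Par b} {y : Lab b} : y ∈ pts r ↔ ∀ t v, r t = some v → y t = v := by
  simp [pts]

theorem Sub.refl (r : Par b) : Sub r r := fun _ _ h => h

theorem Sub.trans {r r' r'' : Par b} (h : Sub r r') (h' : Sub r' r'') : Sub r r'' :=
  fun t v e => h' t v (h t v e)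

theorem sub_up {r : Par b} {t : Fin b} (h : r t = none) (v : Bool) : Sub r (up r t v) := by
  intro s w hs
  have hne : s ≠ t := by
    rintro rfl
    rw [h] at hs
    exact absurd hs (by simp)
  rw [up, Function.update_of_ne hne]
  exact hs

theorem fc_up {r : Par b} {t : Fin b} (h : r t = none) (v : Bool) : fc (up r t v) + 1 = fc r := by
  have h1 : fr (up r t v) = (fr r).erase t := by
    ext s
    rw [Finset.mem_erase, mem_fr, mem_fr]
    by_cases hs : s = t
    · subst hs
      simp [up]
    · simp [up, Function.update_of_ne hs, hs]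
  unfold fc
  rw [h1]
  exact Finset.card_erase_add_one (mem_fr.2 h)

theorem fc_mono {r r' : Par b} (h : Sub r r') : fc r' ≤ fc r := by
  apply Finset.card_le_card
  intro t ht
  rw [mem_fr] at ht ⊢
  rcases hr : r t with _ | v
  · rfl
  · have := h t v hr
    rw [ht] at this
    exact absurd this (by simp)

theorem eq_of_sub_fc {r r' : Par b} (h : Sub r r') (hf : fc r' = fc r) : r' = r := by
  have hsub : fr r' ⊆ fr r := by
    intro t ht
    rw [mem_fr] at ht ⊢
    rcases hr : r t with _ | v
    · rfl
    · have := h t v hr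
      rw [ht] at this
      exact absurd this (by simp)
  have heq : fr r' = fr r := Finset.eq_of_subset_of_card_le hsub (by
    unfold fc at hf
    exact hf.ge)
  funext t
  rcases hr : r t with _ | v
  · exact mem_fr.1 (heq ▸ mem_fr.2 hr)
  · exact h t v hr

theorem fc_le (r : Par b) : fc r ≤ b := by
  unfold fc
  refine (Finset.card_le_univ _).trans ?_
  simp

theorem fc_emp : fc (emp : Par b) = b := by
  unfold fc fr emp
  simp

theorem mem_pts_up {r : Par b} {t : Fin b} (h : r t = none) (v : Bool) {y : Lab b} :
    y ∈ pts (up r t v) ↔ y ∈ pts r ∧ y t = v := by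
  rw [mem_pts, mem_pts]
  constructor
  · intro hy
    refine ⟨fun s w hs => hy s w (sub_up h v s w hs), hy t v (by simp [up])⟩
  · rintro ⟨hy, hyt⟩ s w hs
    by_cases hst : s = t
    · subst hst
      simp only [up, Function.update_self, Option.some.injEq] at hs
      rw [hyt, hs]
    · rw [up, Function.update_of_ne hst] at hs
      exact hy s w hs

theorem pts_mono {r r' : Par b} (h : Sub r r') : pts r' ⊆ pts r := by
  intro y hy
  rw [mem_pts] at hy ⊢
  exact fun t v hr => hy t v (h t v hr)

theorem card_pts (r : Par b) : (pts r).card = 2 ^ fc r := by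
  classical
  have h1 : pts r = Fintype.piFinset (fun t => if r t = none then (univ : Finset Bool) else
      univ.filter (fun v => r t = some v)) := by
    ext y
    rw [mem_pts, Fintype.mem_piFinset]
    constructor
    · intro h t
      rcases hr : r t with _ | v
      · simp
      · have := h t v hr
        simp [this]
    · intro h t v hr
      have := h t
      rw [hr] at this
      simp at this
      exact this.symm
  rw [h1, Fintype.card_piFinset]
  have h2 : ∀ t, (if r t = none then (univ : Finset Bool) else
      univ.filter (fun v => r t = some v)).card = if r t = none then 2 else 1 := by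
    intro t
    rcases hr : r t with _ | v
    · simp
    · simp only [reduceCtorEq, if_false, Option.some.injEq]
      rw [Finset.card_eq_one]
      exact ⟨v, by ext w; simp [eq_comm]⟩
  rw [Finset.prod_congr rfl fun t _ => h2 t, Finset.prod_ite]
  simp [fc, fr]

/-- every free set of coordinates and every point of the subcube give a subcube -/
theorem exists_sub_of_mem (r : Par b) (y : Lab b) (hy : y ∈ pts r) (A : Finset (Fin b))
    (hA : A ⊆ fr r) : ∃ r' : Par b, Sub r r' ∧ fr r' = A ∧ y ∈ pts r' := by
  refine ⟨fun t => if t ∈ A then none else some (y t), ?_, ?_, ?_⟩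
  · intro t v hr
    have hA' : t ∉ A := fun h => by
      have := mem_fr.1 (hA h)
      rw [hr] at this
      exact absurd this (by simp)
    rw [mem_pts] at hy
    simp [hA', hy t v hr]
  · ext t
    rw [mem_fr]
    by_cases h : t ∈ A <;> simp [h]
  · rw [mem_pts]
    intro t v h
    by_cases hA' : t ∈ A
    · simp [hA'] at h
    · simpa [hA'] using h

theorem exists_sub {r : Par b} {F : ℕ} (h : F ≤ fc r) : ∃ r' : Par b, Sub r r' ∧ fc r' = F := by
  obtain ⟨A, hA, hAc⟩ := Finset.exists_subset_card_eq h
  obtain ⟨r', h1, h2, _⟩ := exists_sub_of_mem r (fun t => (r t).getD false) (by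
    rw [mem_pts]
    intro t v hr
    simp [hr]) A hA
  refine ⟨r', h1, ?_⟩
  unfold fc
  rw [h2, hAc]

theorem exists_none {r : Par b} (h : 0 < fc r) : ∃ t, r t = none := by
  obtain ⟨t, ht⟩ := Finset.card_pos.1 h
  exact ⟨t, mem_fr.1 ht⟩

theorem av_le (τ : Lab b → Fin N) (r : Par b) (T : Finset (Fin N)) : av τ r T ≤ 2 ^ fc r := by
  unfold av
  exact (Finset.card_filter_le _ _).trans (card_pts r).le

theorem av_mono {τ : Lab b → Fin N} {r r' : Par b} (h : Sub r r') (T : Finset (Fin N)) :
    av τ r' T ≤ av τ r T := by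
  unfold av
  exact Finset.card_le_card (Finset.filter_subset_filter _ (pts_mono h))

theorem av_anti {τ : Lab b → Fin N} {r : Par b} {T T' : Finset (Fin N)} (h : T ⊆ T') :
    av τ r T' ≤ av τ r T := by
  unfold av
  apply Finset.card_le_card
  intro y hy
  rw [Finset.mem_filter] at hy ⊢
  exact ⟨hy.1, fun h' => hy.2 (h h')⟩

theorem av_split {τ : Lab b → Fin N} {r : Par b} {t : Fin b} (h : r t = none)
    (T : Finset (Fin N)) : av τ r T = av τ (up r t false) T + av τ (up r t true) T := by
  classical
  unfold av
  rw [← Finset.card_union_of_disjoint]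
  · congr 1
    ext y
    simp only [Finset.mem_filter, Finset.mem_union, mem_pts_up h]
    cases y t <;> simp
  · rw [Finset.disjoint_left]
    intro y hy hy'
    rw [Finset.mem_filter, mem_pts_up h] at hy hy'
    rw [hy.1.2] at hy'
    exact absurd hy'.1.2 (by simp)

theorem av_pos_iff {τ : Lab b → Fin N} {r : Par b} {T : Finset (Fin N)} :
    av τ r T ≠ 0 ↔ ∃ y ∈ pts r, τ y ∉ T := by
  unfold av
  rw [Finset.card_ne_zero]
  constructor
  · rintro ⟨y, hy⟩
    rw [Finset.mem_filter] at hy
    exact ⟨y, hy⟩
  · rintro ⟨y, hy⟩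
    exact ⟨y, Finset.mem_filter.2 hy⟩

/-- lower bounds for availability pass from subcubes of dimension `F` to larger ones -/
theorem av_ge_of_sub {τ : Lab b → Fin N} {T : Finset (Fin N)} {F : ℕ} {κ : ℝ} (r : Par b)
    (hF : F ≤ fc r)
    (h : ∀ r', Sub r r' → fc r' = F → κ * 2 ^ F ≤ (av τ r' T : ℝ)) :
    κ * 2 ^ fc r ≤ (av τ r T : ℝ) := by
  induction hn : fc r generalizing r with
  | zero =>
    have h1 := h r (Sub.refl r) (by omega)
    have h2 : F = 0 := by omega
    rw [h2] at h1
    exact h1
  | succ n ih =>
    rcases Nat.eq_or_lt_of_le hF with h0 | h0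
    · have h1 := h r (Sub.refl r) h0.symm
      rw [h0, hn] at h1
      exact h1
    · obtain ⟨t, ht⟩ := exists_none (r := r) (by omega)
      have key : ∀ v, κ * 2 ^ n ≤ (av τ (up r t v) T : ℝ) := by
        intro v
        have h1 := fc_up ht v
        exact ih (up r t v) (by omega) (fun r' hr' hf => h r' ((sub_up ht v).trans hr') hf)
          (by omega)
      rw [av_split ht T]
      push_cast
      have h1 := key false
      have h2 := key true
      rw [pow_succ]
      linarith

/-- upper bounds for availability pass from subcubes of dimension `F` to larger ones -/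
theorem av_le_of_sub {τ : Lab b → Fin N} {T : Finset (Fin N)} {F : ℕ} {κ : ℝ} (r : Par b)
    (hF : F ≤ fc r)
    (h : ∀ r', Sub r r' → fc r' = F → (av τ r' T : ℝ) ≤ κ * 2 ^ F) :
    (av τ r T : ℝ) ≤ κ * 2 ^ fc r := by
  induction hn : fc r generalizing r with
  | zero =>
    have h1 := h r (Sub.refl r) (by omega)
    have h2 : F = 0 := by omega
    rw [h2] at h1
    exact h1
  | succ n ih =>
    rcases Nat.eq_or_lt_of_le hF with h0 | h0
    · have h1 := h r (Sub.refl r) h0.symm
      rw [h0, hn] at h1
      exact h1
    · obtain ⟨t, ht⟩ := exists_none (r := r) (by omega)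
      have key : ∀ v, (av τ (up r t v) T : ℝ) ≤ κ * 2 ^ n := by
        intro v
        have h1 := fc_up ht v
        exact ih (up r t v) (by omega) (fun r' hr' hf => h r' ((sub_up ht v).trans hr') hf)
          (by omega)
      rw [av_split ht T]
      push_cast
      have h1 := key false
      have h2 := key true
      rw [pow_succ]
      linarith

/-- badness is monotone in the set of forbidden holes -/
theorem BadS.mono {τ : Lab b → Fin N} {x : ℕ} {K : ℝ} {r : Par b} {T T' : Finset (Fin N)}
    (hT : T ⊆ T') (h : BadS τ x K r T) : BadS τ x K r T' := by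
  unfold BadS at h ⊢
  split_ifs at h ⊢ with hx
  · have := av_anti (τ := τ) (r := r) hT
    omega
  · obtain ⟨r', h1, h2, h3⟩ := h
    refine ⟨r', h1, h2, lt_of_le_of_lt ?_ h3⟩
    exact_mod_cast av_anti (τ := τ) (r := r') hT

/-- badness is monotone in the threshold -/
theorem BadS.monoK {τ : Lab b → Fin N} {x : ℕ} {K K' : ℝ} {r : Par b} {T : Finset (Fin N)}
    (hK : K ≤ K') (h : BadS τ x K r T) : BadS τ x K' r T := by
  unfold BadS at h ⊢
  split_ifs at h ⊢ with hx
  · exact h
  · obtain ⟨r', h1, h2, h3⟩ := h
    exact ⟨r', h1, h2, h3.trans_le hK⟩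

/-- badness passes to larger cubes, for cubes of dimension at most `x` -/
theorem BadS.sub {τ : Lab b → Fin N} {x : ℕ} {K : ℝ} {r r' : Par b} {T : Finset (Fin N)}
    (hr : Sub r r') (hx : fc r ≤ x) (h : BadS τ x K r' T) : BadS τ x K r T := by
  unfold BadS at h ⊢
  have h1 := fc_mono hr
  rw [if_neg (by omega)] at h ⊢
  obtain ⟨r'', h2, h3, h4⟩ := h
  exact ⟨r'', hr.trans h2, h3, h4⟩

/-- badness only depends on the forbidden holes among the options of the pigeon -/
theorem BadS.loc {τ : Lab b → Fin N} {x : ℕ} {K : ℝ} {r : Par b} {T : Finset (Fin N)}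
    (h : BadS τ x K r T) : BadS τ x K r (T ∩ (pts r).image τ) := by
  have key : ∀ r', Sub r r' → av τ r' (T ∩ (pts r).image τ) = av τ r' T := by
    intro r' hr
    unfold av
    congr 1
    apply Finset.filter_congr
    intro y hy
    rw [Finset.mem_inter]
    constructor
    · intro h1 h2
      exact h1 ⟨h2, Finset.mem_image_of_mem _ (pts_mono hr hy)⟩
    · intro h1 h2
      exact h1 h2.1
  unfold BadS at h ⊢
  split_ifs at h ⊢ with hx
  · rw [key r (Sub.refl r)]
    exact h
  · obtain ⟨r', h1, h2, h3⟩ := h
    refine ⟨r', h1, h2, ?_⟩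
    rw [key r' h1]
    exact h3

theorem upv_self (ρ : Vis b N) (i : Fin (N + 1)) (t : Fin b) (v : Bool) :
    upv ρ i t v i = up (ρ i) t v := by
  simp [upv]

theorem upv_ne (ρ : Vis b N) (i : Fin (N + 1)) (t : Fin b) (v : Bool) {j : Fin (N + 1)}
    (h : j ≠ i) : upv ρ i t v j = ρ j := by
  simp [upv, h]

end H616TR
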