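import Mathlib

set_option autoImplicit false

namespace H616TR

open Finset

/-- Task C1.  Commitment closure.

Paper proof.  Let `T₀ = insert h T` and let `𝒴` be the family of the sets `Y` disjoint from `T₀` with
`|Y| ≤ D` and `|Y| < 2 #{i ∈ U | bad i (T₀ ∪ Y)}`.  If `𝒴 = ∅` take `S = ∅`, `T' = T₀`.  Otherwise let
`Y₂ ∈ 𝒴` have maximal cardinality, `S = {i ∈ U | bad i (T₀ ∪ Y₂)}`, `T' = T₀ ∪ Y₂`.
* `|Y₂| < 2|S| ≤ D` by `hA`.
* Hall: for `S₃ ⊆ S` put `Y₃ = Y₂ ∩ ⋃_{i∈S₃} opts i`.  By `hloc`, `hmono` every `i ∈ S₃` is bad for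
  `T ∪ ({h} ∪ Y₃)`, so `2|S₃| ≤ |Y₃| + 1` by `hCL`, so `|S₃| ≤ |Y₃|`.  Hall's theorem
  (`Finset.all_card_le_biUnion_card_iff_exists_injective`) gives `η : S → Y₂`.
* If `Y` is disjoint from `T'`, `|Y| ≤ D` and `S₃ = {i ∈ U \ S | bad i (T' ∪ Y)}` has `2|S₃| > |Y|`, then
  `Y ≠ ∅` (else `S₃ ⊆ S`), and `2#{i ∈ U | bad i (T₀ ∪ (Y₂ ∪ Y))} ≥ 2|S| + 2|S₃| > |Y₂ ∪ Y|` while this
  number is at most `D` by `hA`; so `Y₂ ∪ Y ∈ 𝒴`, contradicting the maximality of `|Y₂|`. -/
theorem closure_commit {P H : Type} [Fintype P] [DecidableEq P] [Fintype H] [DecidableEq H]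
    (U : Finset P) (bad : P → Finset H → Prop) [∀ i T, Decidable (bad i T)]
    (opts : P → Finset H) (T : Finset H) (D : ℕ)
    (hmono : ∀ i T1 T2, T1 ⊆ T2 → bad i T1 → bad i T2)
    (hloc : ∀ i T1, bad i T1 → bad i (T1 ∩ opts i))
    (hA : ∀ T1 : Finset H, T1.card ≤ T.card + 2 * D + 1 →
      2 * (U.filter (fun i => bad i T1)).card ≤ D)
    (hCL : ∀ Y : Finset H, Disjoint Y T → Y.card ≤ D →
      2 * (U.filter (fun i => bad i (T ∪ Y))).card ≤ Y.card)
    (h : H) (hh : h ∉ T) :
    ∃ (S : Finset P) (η : P → H) (T' : Finset H), S ⊆ U ∧ insert h T ⊆ T' ∧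
      T'.card ≤ T.card + 1 + 2 * S.card ∧
      (∀ i ∈ S, η i ∈ opts i ∧ η i ∈ T' ∧ η i ∉ insert h T) ∧
      (∀ i ∈ S, ∀ j ∈ S, η i = η j → i = j) ∧
      (∀ i ∈ S, bad i T') ∧
      (∀ Y : Finset H, Disjoint Y T' → Y.card ≤ D →
        2 * ((U \ S).filter (fun i => bad i (T' ∪ Y))).card ≤ Y.card) := by
  classical
  have hT0 : (insert h T).card = T.card + 1 := card_insert_of_notMem hh
  set 𝒴 : Finset (Finset H) := (univ : Finset (Finset H)).filter (fun Y =>
    Disjoint Y (insert h T) ∧ Y.card ≤ D ∧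
      Y.card < 2 * (U.filter (fun i => bad i (insert h T ∪ Y))).card) with h𝒴
  rcases 𝒴.eq_empty_or_nonempty with hE | hne
  · refine ⟨∅, fun _ => h, insert h T, empty_subset _, Subset.refl _, by simp [hT0], ?_, ?_, ?_, ?_⟩
    · intro i hi; exact absurd hi (notMem_empty i)
    · intro i hi; exact absurd hi (notMem_empty i)
    · intro i hi; exact absurd hi (notMem_empty i)
    · intro Y hY hYD
      rw [sdiff_empty]
      by_contra hcon
      push Not at hcon
      have : Y ∈ 𝒴 := mem_filter.2 ⟨mem_univ _, hY, hYD, hcon⟩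
      rw [hE] at this
      exact notMem_empty _ this
  · obtain ⟨Y₂, hY₂, hmax⟩ := exists_max_image 𝒴 card hne
    obtain ⟨hd, hD, hlt⟩ := (mem_filter.1 hY₂).2
    set S : Finset P := U.filter (fun i => bad i (insert h T ∪ Y₂)) with hS
    have hT'c : (insert h T ∪ Y₂).card = T.card + 1 + Y₂.card := by
      rw [card_union_of_disjoint hd.symm, hT0]
    have hSD : 2 * S.card ≤ D := hA _ (by omega)
    have hdT : Disjoint Y₂ T := disjoint_of_subset_right (subset_insert h T) hd
    have hhY : h ∉ Y₂ := fun hc => (disjoint_left.1 hd) hc (mem_insert_self _ _)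
    -- Hall
    have hall : ∀ s : Finset {i // i ∈ S}, s.card ≤ (s.biUnion fun i => Y₂ ∩ opts i.1).card := by
      intro s
      set Y₃ := s.biUnion fun i => Y₂ ∩ opts i.1 with hY₃
      have hsub : Y₃ ⊆ Y₂ := by
        intro x hx
        obtain ⟨i, _, hi⟩ := mem_biUnion.1 hx
        exact (mem_inter.1 hi).1
      have h1 : Disjoint ({h} ∪ Y₃) T := by
        rw [disjoint_union_left]
        exact ⟨disjoint_singleton_left.2 hh, disjoint_of_subset_left hsub hdT⟩
      have hc3 : Y₃.card ≤ Y₂.card := card_le_card hsub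
      have h2 : ({h} ∪ Y₃).card ≤ Y₃.card + 1 := by
        refine (card_union_le _ _).trans ?_
        rw [card_singleton]; omega
      have h3 := hCL ({h} ∪ Y₃) h1 (by omega)
      have h4 : s.card ≤ (U.filter (fun i => bad i (T ∪ ({h} ∪ Y₃)))).card := by
        apply card_le_card_of_injOn (fun i => i.1)
        · intro i hi
          have hiS := (mem_filter.1 i.2)
          refine mem_coe.2 (mem_filter.2 ⟨hiS.1, ?_⟩)
          refine hmono _ _ _ ?_ (hloc _ _ hiS.2)
          intro x hx
          obtain ⟨hx1, hx2⟩ := mem_inter.1 hx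
          rcases mem_union.1 hx1 with hx1 | hx1
          · rcases mem_insert.1 hx1 with hx1 | hx1
            · exact mem_union_right _ (mem_union_left _ (mem_singleton.2 hx1))
            · exact mem_union_left _ hx1
          · exact mem_union_right _ (mem_union_right _ (mem_biUnion.2
              ⟨i, mem_coe.1 hi, mem_inter.2 ⟨hx1, hx2⟩⟩))
        · intro i _ j _ hij
          exact Subtype.ext hij
      omega
    obtain ⟨f, hf, hft⟩ := (Finset.all_card_le_biUnion_card_iff_exists_injective
      (fun i : {i // i ∈ S} => Y₂ ∩ opts i.1)).1 hall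
    refine ⟨S, fun i => if hi : i ∈ S then f ⟨i, hi⟩ else h, insert h T ∪ Y₂, filter_subset _ _,
      subset_union_left, by omega, ?_, ?_, ?_, ?_⟩
    · intro i hi
      have h1 := mem_inter.1 (hft ⟨i, hi⟩)
      simp only [hi, dif_pos]
      exact ⟨h1.2, mem_union_right _ h1.1, fun hc => (disjoint_left.1 hd) h1.1 hc⟩
    · intro i hi j hj hij
      simp only [hi, hj, dif_pos] at hij
      exact congrArg Subtype.val (hf hij)
    · intro i hi
      exact (mem_filter.1 hi).2
    · intro Y hY hYD
      by_contra hcon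
      push Not at hcon
      set S₃ := (U \ S).filter (fun i => bad i (insert h T ∪ Y₂ ∪ Y)) with hS₃
      have hdis : Disjoint Y₂ Y := (disjoint_of_subset_right subset_union_right hY).symm
      have hdis0 : Disjoint Y (insert h T) := disjoint_of_subset_right subset_union_left hY
      have hc : (Y₂ ∪ Y).card = Y₂.card + Y.card := card_union_of_disjoint hdis
      have hbig : S.card + S₃.card ≤
          (U.filter (fun i => bad i (insert h T ∪ (Y₂ ∪ Y)))).card := by
        rw [← card_union_of_disjoint]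
        · apply card_le_card
          intro i hi
          rcases mem_union.1 hi with hi | hi
          · obtain ⟨h1, h2⟩ := mem_filter.1 hi
            refine mem_filter.2 ⟨h1, hmono _ _ _ ?_ h2⟩
            rw [← union_assoc]; exact subset_union_left
          · obtain ⟨h1, h2⟩ := mem_filter.1 hi
            refine mem_filter.2 ⟨(mem_sdiff.1 h1).1, ?_⟩
            rw [← union_assoc]; exact h2
        · rw [disjoint_left]
          intro i hi hi'
          exact (mem_sdiff.1 (mem_filter.1 hi').1).2 hi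
      have hTc : (insert h T ∪ (Y₂ ∪ Y)).card ≤ T.card + 1 + (Y₂.card + Y.card) := by
        refine (card_union_le _ _).trans ?_
        omega
      have h5 := hA (insert h T ∪ (Y₂ ∪ Y)) (by omega)
      have hmem : Y₂ ∪ Y ∈ 𝒴 := by
        refine mem_filter.2 ⟨mem_univ _, ?_, ?_, ?_⟩
        · rw [disjoint_union_left]; exact ⟨hd, hdis0⟩
        · omega
        · omega
      have h6 := hmax _ hmem
      have hY0 : Y.card = 0 := by omega
      have hY0' : Y = ∅ := card_eq_zero.1 hY0
      have : S₃ = ∅ := by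
        rw [hS₃, hY0', union_empty]
        ext i
        simp only [mem_filter, mem_sdiff, hS, notMem_empty, iff_false]
        tauto
      rw [this, card_empty] at hcon
      omega

end H616TR
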