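import Mathlib

set_option autoImplicit false

namespace H616TR

open Finset

/-- Task C2.  Closure at a change of scale.

Paper proof.  For `Y` disjoint from `T0` let `B(Y) = {i ∈ G ∪ U | bad i (T0 ∪ Y)}`,
`N(Y) = Y ∪ M(B(Y) ∩ G)` and `φ(Y) = 3|B(Y)| - |N(Y)|` (an integer).  Let `Y₁` maximise `φ` among the
`Y` disjoint from `T0` with `|Y| ≤ 10Δ`, and put `Y0 = N(Y₁)`.
* `φ(Y₁) ≥ φ(∅) ≥ 2|B(∅)| ≥ 0`, so `|Y0| = 3|B(Y₁)| - φ(Y₁) ≤ 6Δ`.
* `φ(Y0) ≥ 3|B(Y0)| - |Y0| - |B(Y0) \ B(Y₁)| = φ(Y₁) + 2|B(Y0) \ B(Y₁)|`; so `B(Y0) = B(Y₁)`,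
  `N(Y0) = Y0` and `φ(Y0) = 3|B(Y0)| - |Y0|` is maximal too.
* For `Y` with `|Y| ≤ 4Δ`, disjoint from `T0 ∪ Y0`, and `d = |B(Y0 ∪ Y) \ B(Y0)|`:
  `φ(Y0 ∪ Y) ≥ 3|B(Y0)| + 3d - |Y0| - |Y| - d`, and this is at most `φ(Y0)`, so `2d ≤ |Y|`. -/
theorem closure_switch {P H : Type} [Fintype P] [DecidableEq P] [Fintype H] [DecidableEq H]
    (G U : Finset P) (bad : P → Finset H → Prop) [∀ i T, Decidable (bad i T)]
    (M : P → H) (T0 : Finset H) (Δ : ℕ)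
    (hmono : ∀ i T1 T2, T1 ⊆ T2 → bad i T1 → bad i T2)
    (hM : ∀ i ∈ G, M i ∉ T0)
    (hA : ∀ Y : Finset H, Y.card ≤ 10 * Δ →
      ((G ∪ U).filter (fun i => bad i (T0 ∪ Y))).card ≤ 2 * Δ) :
    ∃ Y0 : Finset H, Disjoint Y0 T0 ∧ Y0.card ≤ 6 * Δ ∧
      (∀ i ∈ G, bad i (T0 ∪ Y0) → M i ∈ Y0) ∧
      (∀ Y : Finset H, Disjoint Y (T0 ∪ Y0) → Y.card ≤ 4 * Δ →
        2 * ((G ∪ U).filter (fun i => bad i (T0 ∪ Y0 ∪ Y) ∧ ¬ bad i (T0 ∪ Y0))).card ≤ Y.card) := by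
  classical
  set B : Finset H → Finset P := fun Y => (G ∪ U).filter (fun i => bad i (T0 ∪ Y)) with hB
  set N : Finset H → Finset H := fun Y => Y ∪ ((B Y).filter (fun i => i ∈ G)).image M with hN
  set φ : Finset H → ℤ := fun Y => 3 * ((B Y).card : ℤ) - ((N Y).card : ℤ) with hφ
  have hBmono : ∀ Y Z, Y ⊆ Z → B Y ⊆ B Z := by
    intro Y Z hYZ i hi
    obtain ⟨h1, h2⟩ := mem_filter.1 hi
    exact mem_filter.2 ⟨h1, hmono _ _ _ (union_subset_union_right hYZ) h2⟩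
  have hNcard : ∀ (Z : Finset H) (B1 : Finset P), B1 ⊆ B Z →
      (∀ i ∈ B1, i ∈ G → M i ∈ Z) → (N Z).card ≤ Z.card + (B Z \ B1).card := by
    intro Z B1 hB1 hM1
    have hsub : N Z ⊆ Z ∪ (B Z \ B1).image M := by
      intro x hx
      rcases mem_union.1 hx with hx | hx
      · exact mem_union_left _ hx
      · obtain ⟨i, hi, rfl⟩ := mem_image.1 hx
        obtain ⟨h1, h2⟩ := mem_filter.1 hi
        by_cases hi1 : i ∈ B1
        · exact mem_union_left _ (hM1 i hi1 h2)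
        · exact mem_union_right _ (mem_image_of_mem _ (mem_sdiff.2 ⟨h1, hi1⟩))
    refine (card_le_card hsub).trans ((card_union_le _ _).trans ?_)
    exact Nat.add_le_add_left card_image_le _
  set 𝒴 : Finset (Finset H) := (univ : Finset (Finset H)).filter (fun Y =>
    Disjoint Y T0 ∧ Y.card ≤ 10 * Δ) with h𝒴
  have hemp : (∅ : Finset H) ∈ 𝒴 := mem_filter.2 ⟨mem_univ _, disjoint_empty_left _, by simp⟩
  obtain ⟨Y₁, hY₁, hmax⟩ := exists_max_image 𝒴 φ ⟨∅, hemp⟩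
  obtain ⟨hd1, hc1⟩ := (mem_filter.1 hY₁).2
  have h0 : 0 ≤ φ Y₁ := by
    refine le_trans ?_ (hmax ∅ hemp)
    have h1 := hNcard ∅ ∅ (empty_subset _) (fun i hi => absurd hi (notMem_empty i))
    rw [card_empty, sdiff_empty, zero_add] at h1
    have h2 : ((N ∅).card : ℤ) ≤ (B ∅).card := by exact_mod_cast h1
    have h3 : (0 : ℤ) ≤ (B ∅).card := Nat.cast_nonneg _
    simp only [hφ]
    omega
  have hB1 : (B Y₁).card ≤ 2 * Δ := hA Y₁ hc1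
  set Y0 := N Y₁ with hY0
  have hφ1 : φ Y₁ = 3 * ((B Y₁).card : ℤ) - (Y0.card : ℤ) := rfl
  have hY0c : Y0.card ≤ 6 * Δ := by omega
  have hY1sub : Y₁ ⊆ Y0 := subset_union_left
  have hMY0 : ∀ i ∈ B Y₁, i ∈ G → M i ∈ Y0 := by
    intro i hi hiG
    exact mem_union_right _ (mem_image_of_mem _ (mem_filter.2 ⟨hi, hiG⟩))
  have hY0d : Disjoint Y0 T0 := by
    rw [disjoint_left]
    intro x hx hx0
    rcases mem_union.1 hx with hx | hx
    · exact (disjoint_left.1 hd1) hx hx0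
    · obtain ⟨i, hi, rfl⟩ := mem_image.1 hx
      exact hM i (mem_filter.1 hi).2 hx0
  have hY0mem : Y0 ∈ 𝒴 := mem_filter.2 ⟨mem_univ _, hY0d, by omega⟩
  have hBsub := hBmono _ _ hY1sub
  have hBeq : B Y0 = B Y₁ := by
    have h1 := hNcard Y0 (B Y₁) hBsub hMY0
    have h2 := hmax Y0 hY0mem
    have h3 : (B Y0 \ B Y₁).card + (B Y₁).card = (B Y0).card := card_sdiff_add_card_eq_card hBsub
    have h4 : φ Y0 = 3 * ((B Y0).card : ℤ) - ((N Y0).card : ℤ) := rfl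
    have h5 : (B Y0 \ B Y₁).card = 0 := by omega
    have h6 : B Y0 \ B Y₁ = ∅ := card_eq_zero.1 h5
    exact Subset.antisymm (sdiff_eq_empty_iff_subset.1 h6) hBsub
  refine ⟨Y0, hY0d, hY0c, ?_, ?_⟩
  · intro i hiG hbad
    apply hMY0 i _ hiG
    rw [← hBeq]
    exact mem_filter.2 ⟨mem_union_left _ hiG, hbad⟩
  · intro Y hYd hYc
    have hYT : Disjoint Y T0 := disjoint_of_subset_right subset_union_left hYd
    have hYY : Disjoint Y0 Y := (disjoint_of_subset_right subset_union_right hYd).symm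
    have hZc : (Y0 ∪ Y).card = Y0.card + Y.card := card_union_of_disjoint hYY
    have hZmem : Y0 ∪ Y ∈ 𝒴 := mem_filter.2 ⟨mem_univ _, disjoint_union_left.2 ⟨hY0d, hYT⟩, by omega⟩
    have h1 := hmax _ hZmem
    have hsub := hBmono Y0 (Y0 ∪ Y) subset_union_left
    have h2 := hNcard (Y0 ∪ Y) (B Y0) hsub (by
      intro i hi hiG
      rw [hBeq] at hi
      exact mem_union_left _ (hMY0 i hi hiG))
    have h3 : (B (Y0 ∪ Y) \ B Y0).card + (B Y0).card = (B (Y0 ∪ Y)).card :=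
      card_sdiff_add_card_eq_card hsub
    have h4 : φ (Y0 ∪ Y) = 3 * ((B (Y0 ∪ Y)).card : ℤ) - ((N (Y0 ∪ Y)).card : ℤ) := rfl
    have h5 : (G ∪ U).filter (fun i => bad i (T0 ∪ Y0 ∪ Y) ∧ ¬ bad i (T0 ∪ Y0)) =
        B (Y0 ∪ Y) \ B Y0 := by
      ext i
      simp only [hB, mem_filter, mem_sdiff, union_assoc]
      tauto
    rw [h5]
    rw [hBeq] at h3 h2 ⊢
    omega

end H616TR
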