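import Mathlib

set_option autoImplicit false

namespace H616TR

open Finset

/-- Task C3.  New labels for old uncommitted pigeons at a change of scale.

Paper proof (Hall).  For `S₃ ⊆ S` let `Y₃ = (Y0 \ To) ∩ ⋃_{i∈S₃} opts i`.  If `|Y₃| > D` then
`|S₃| ≤ |S| ≤ D < |Y₃|`.  Otherwise every `i ∈ S₃` has `opts i ⊆ To ∪ Y₃`, so `2|S₃| ≤ |Y₃|`. -/
theorem sdr_switch {P H : Type} [Fintype P] [DecidableEq P] [Fintype H] [DecidableEq H]
    [Nonempty H]
    (U S : Finset P) (opts : P → Finset H) (T0 To Y0 : Finset H) (D : ℕ)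
    (hS : S ⊆ U) (hT : T0 ⊆ To) (hY : ∀ i ∈ S, opts i ⊆ T0 ∪ Y0)
    (hCL : ∀ Y : Finset H, Disjoint Y To → Y.card ≤ D →
      2 * (U.filter (fun i => opts i ⊆ To ∪ Y)).card ≤ Y.card)
    (hD : 2 * S.card ≤ D) :
    ∃ η : P → H, (∀ i ∈ S, η i ∈ opts i ∧ η i ∈ Y0 ∧ η i ∉ To) ∧
      (∀ i ∈ S, ∀ j ∈ S, η i = η j → i = j) := by
  have hall : ∀ s : Finset {i // i ∈ S},
      s.card ≤ (s.biUnion (fun i => (opts i.1 ∩ Y0) \ To)).card := by
    intro s
    by_contra hlt
    push Not at hlt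
    have hs : s.card ≤ S.card := by
      have := Finset.card_le_univ s
      simpa using this
    have h1 := hCL (s.biUnion (fun i => (opts i.1 ∩ Y0) \ To)) (by
      rw [Finset.disjoint_left]
      intro a ha
      obtain ⟨i, -, hi⟩ := Finset.mem_biUnion.1 ha
      exact (Finset.mem_sdiff.1 hi).2) (by omega)
    have h2 : s.card ≤ (U.filter (fun i => opts i ⊆
        To ∪ s.biUnion (fun i => (opts i.1 ∩ Y0) \ To))).card := by
      rw [← Finset.card_map (⟨Subtype.val, Subtype.val_injective⟩ : {i // i ∈ S} ↪ P)]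
      refine Finset.card_le_card fun i hi => ?_
      obtain ⟨j, hj, rfl⟩ := Finset.mem_map.1 hi
      rw [Finset.mem_filter]
      refine ⟨hS j.2, fun a ha => ?_⟩
      rw [Finset.mem_union]
      by_cases haT : a ∈ To
      · exact Or.inl haT
      · refine Or.inr (Finset.mem_biUnion.2 ⟨j, hj, Finset.mem_sdiff.2
          ⟨Finset.mem_inter.2 ⟨ha, ?_⟩, haT⟩⟩)
        rcases Finset.mem_union.1 (hY j.1 j.2 ha) with h3 | h3
        · exact absurd (hT h3) haT
        · exact h3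
    omega
  obtain ⟨f, hf1, hf2⟩ := (Finset.all_card_le_biUnion_card_iff_exists_injective _).1 hall
  refine ⟨fun i => if h : i ∈ S then f ⟨i, h⟩ else Classical.arbitrary H, ?_, ?_⟩
  · intro i hi
    have h1 := hf2 ⟨i, hi⟩
    rw [Finset.mem_sdiff, Finset.mem_inter] at h1
    simp only [hi, dif_pos]
    exact ⟨h1.1.1, h1.1.2, h1.2⟩
  · intro i hi j hj h
    simp only [hi, hj, dif_pos] at h
    exact congrArg Subtype.val (hf1 h)

end H616TR
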