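import Pool.Agent.H616R2.TR.NumA

set_option autoImplicit false

/-! Task K1: counting injective extensions. -/

namespace H616TR

open Finset

variable {b N : ℕ}

/-- the extensions counted in `count_ext` -/
noncomputable def countExt (σ : Fin (N + 1) → Lab b → Fin N) (ρ : Vis b N)
    (G : Finset (Fin (N + 1))) (T : Finset (Fin N)) : Finset (Fin (N + 1) → Lab b) :=
  (Fintype.piFinset (fun i => if i ∈ G then pts (ρ i) else {fun _ => false})).filter
      (fun z => (∀ i ∈ G, σ i (z i) ∉ T) ∧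
        (∀ i ∈ G, ∀ j ∈ G, σ i (z i) = σ j (z j) → i = j))

theorem countExt_triv (σ : Fin (N + 1) → Lab b → Fin N) (ρ : Vis b N)
    (G : Finset (Fin (N + 1))) (T : Finset (Fin N)) :
    ((countExt σ ρ G T).card : ℝ) ≤ ∏ i ∈ G, (2 : ℝ) ^ fc (ρ i) := by
  have h1 : (countExt σ ρ G T).card ≤ ∏ i ∈ G, 2 ^ fc (ρ i) := by
    refine (card_filter_le _ _).trans ?_
    rw [Fintype.card_piFinset]
    have h2 : ∀ i, (if i ∈ G then pts (ρ i) else {fun _ => false} : Finset (Lab b)).card =
        if i ∈ G then 2 ^ fc (ρ i) else 1 := by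
      intro i
      split_ifs
      · exact card_pts _
      · exact card_singleton _
    rw [Finset.prod_congr rfl fun i _ => h2 i, Finset.prod_ite_mem, Finset.univ_inter]
  exact_mod_cast h1

theorem countExt_step (σ : Fin (N + 1) → Lab b → Fin N) (ρ : Vis b N)
    (G : Finset (Fin (N + 1))) (T : Finset (Fin N)) (i : Fin (N + 1)) (hi : i ∈ G) :
    (countExt σ ρ G T).card ≤ ∑ y ∈ (pts (ρ i)).filter (fun y => σ i y ∉ T),
      (countExt σ ρ (G.erase i) (insert (σ i y) T)).card := by
  classical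
  have hmap : ∀ z ∈ countExt σ ρ G T, z i ∈ (pts (ρ i)).filter (fun y => σ i y ∉ T) := by
    intro z hz
    rw [countExt, mem_filter, Fintype.mem_piFinset] at hz
    rw [mem_filter]
    have := hz.1 i
    rw [if_pos hi] at this
    exact ⟨this, hz.2.1 i hi⟩
  rw [Finset.card_eq_sum_card_fiberwise hmap]
  apply Finset.sum_le_sum
  intro y hy
  apply Finset.card_le_card_of_injOn (fun z => Function.update z i (fun _ => false))
  · intro z hz
    rw [mem_coe, mem_filter, countExt, mem_filter, Fintype.mem_piFinset] at hz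
    obtain ⟨⟨h1, h2, h3⟩, h4⟩ := hz
    rw [mem_coe, countExt, mem_filter, Fintype.mem_piFinset]
    have hne : ∀ j ∈ G.erase i, Function.update z i (fun _ => false) j = z j := by
      intro j hj
      exact Function.update_of_ne (ne_of_mem_erase hj) _ _
    refine ⟨?_, ?_, ?_⟩
    · intro j
      by_cases hj : j ∈ G.erase i
      · rw [if_pos hj]
        have h5 := h1 j
        rw [if_pos (mem_of_mem_erase hj)] at h5
        show Function.update z i (fun _ => false) j ∈ pts (ρ j)
        rw [hne j hj]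
        exact h5
      · rw [if_neg hj, mem_singleton]
        show Function.update z i (fun _ => false) j = _
        by_cases hji : j = i
        · subst hji
          exact Function.update_self _ _ _
        · have hjG : j ∉ G := fun h => hj (mem_erase.2 ⟨hji, h⟩)
          have h5 := h1 j
          rw [if_neg hjG, mem_singleton] at h5
          rw [Function.update_of_ne hji, h5]
    · intro j hj
      show σ j (Function.update z i (fun _ => false) j) ∉ _
      rw [hne j hj, mem_insert, not_or]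
      refine ⟨?_, h2 j (mem_of_mem_erase hj)⟩
      rw [← h4]
      intro h
      exact ne_of_mem_erase hj (h3 j (mem_of_mem_erase hj) i hi h)
    · intro j hj k hk h
      have h' : σ j (Function.update z i (fun _ => false) j) =
        σ k (Function.update z i (fun _ => false) k) := h
      rw [hne j hj, hne k hk] at h'
      exact h3 j (mem_of_mem_erase hj) k (mem_of_mem_erase hk) h'
  · intro z hz z' hz' h
    rw [mem_coe, mem_filter] at hz hz'
    funext j
    by_cases hji : j = i
    · subst hji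
      rw [hz.2, hz'.2]
    · have := congrFun h j
      simp only [Function.update_of_ne hji] at this
      exact this

theorem countExt_nonneg {x : ℕ} (hN : 0 < N) (t v : ℕ) :
    0 ≤ ∏ u ∈ Ico t (min v ⌊(N : ℝ) * (1 - 1 / (8 * (x : ℝ) ^ 2))⌋₊),
          ((1 + 1 / (nx x : ℝ)) * (1 - (u : ℝ) / N)) := by
  apply Finset.prod_nonneg
  intro u hu
  rw [mem_Ico, lt_min_iff] at hu
  have h1 : 0 ≤ (1 + 1 / (nx x : ℝ)) := by positivity
  have hN' : (0 : ℝ) < N := by exact_mod_cast hN
  have h2 : (u : ℝ) ≤ (N : ℝ) * (1 - 1 / (8 * (x : ℝ) ^ 2)) := by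
    by_contra hcon
    push Not at hcon
    have h5 : ⌊(N : ℝ) * (1 - 1 / (8 * (x : ℝ) ^ 2))⌋₊ ≤ u := Nat.floor_le_of_le hcon.le
    omega
  have h3 : (0 : ℝ) ≤ 1 / (8 * (x : ℝ) ^ 2) := by positivity
  have h4 : (u : ℝ) ≤ N := by
    refine h2.trans ?_
    nlinarith
  have h5 : (u : ℝ) / N ≤ 1 := by
    rw [div_le_one hN']
    exact h4
  apply mul_nonneg h1
  linarith

theorem count_ext_aux {σ : Fin (N + 1) → Lab b → Fin N} {x : ℕ} {ρ : Vis b N}
    (hB : Big b N x) (hA : ProA σ x ρ) (n : ℕ) : ∀ (G : Finset (Fin (N + 1))), G.card = n →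
    (∀ i ∈ G, nx x ≤ fc (ρ i) ∧ fc (ρ i) ≤ x) → ∀ (T : Finset (Fin N)),
    ((countExt σ ρ G T).card : ℝ)
      ≤ (∏ i ∈ G, (2 : ℝ) ^ fc (ρ i)) *
        ∏ u ∈ Ico T.card (min (T.card + G.card - dl N x) ⌊(N : ℝ) * (1 - 1 / (8 * (x : ℝ) ^ 2))⌋₊),
          ((1 + 1 / (nx x : ℝ)) * (1 - (u : ℝ) / N)) := by
  classical
  have hN : 0 < N := by
    have h1 := hB.Nb
    have h2 : 0 < b := by
      have h3 := hB.x0
      have h4 := hB.xb
      have h5 : 0 < B0 := by unfold B0; positivity
      omega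
    have : 0 < b ^ 40 := by positivity
    omega
  induction n with
  | zero =>
    intro G hGn hG T
    have hle : min (T.card + G.card - dl N x) ⌊(N : ℝ) * (1 - 1 / (8 * (x : ℝ) ^ 2))⌋₊ ≤ T.card := by
      refine (min_le_left _ _).trans ?_
      omega
    rw [Finset.Ico_eq_empty (by omega), Finset.prod_empty, mul_one]
    exact countExt_triv σ ρ G T
  | succ n ih =>
    intro G hGn hG T
    by_cases hle : min (T.card + G.card - dl N x) ⌊(N : ℝ) * (1 - 1 / (8 * (x : ℝ) ^ 2))⌋₊ ≤ T.card
    · rw [Finset.Ico_eq_empty (by omega), Finset.prod_empty, mul_one]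
      exact countExt_triv σ ρ G T
    · push Not at hle
      have hlt := lt_min_iff.1 hle
      have hlim : InLim N x T := by
        unfold InLim
        by_contra hcon
        push Not at hcon
        have h5 : ⌊(N : ℝ) * (1 - 1 / (8 * (x : ℝ) ^ 2))⌋₊ ≤ T.card := Nat.floor_le_of_le hcon.le
        omega
      have hcard := hA T hlim
      obtain ⟨i, hiG, hiA⟩ : ∃ i ∈ G, ¬ Atyp (σ i) x (ρ i) T := by
        by_contra hcon
        push Not at hcon
        have hsub : G ⊆ univ.filter (fun i => fc (ρ i) ≤ x ∧ Atyp (σ i) x (ρ i) T) := by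
          intro i hi
          rw [mem_filter]
          exact ⟨mem_univ _, (hG i hi).2, hcon i hi⟩
        have := card_le_card hsub
        omega
      have hav : (av (σ i) (ρ i) T : ℝ) ≤
          ((1 + 1 / (nx x : ℝ)) * (1 - (T.card : ℝ) / N)) * 2 ^ fc (ρ i) := by
        apply av_le_of_sub (ρ i) (hG i hiG).1
        intro r' hr' hfc
        by_contra hcon
        push Not at hcon
        exact hiA ⟨r', hr', hfc, Or.inr hcon⟩
      have hGe : (G.erase i).card = n := by
        rw [card_erase_of_mem hiG]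
        omega
      set P := ∏ u ∈ Ico (T.card + 1) (min (T.card + G.card - dl N x)
          ⌊(N : ℝ) * (1 - 1 / (8 * (x : ℝ) ^ 2))⌋₊), ((1 + 1 / (nx x : ℝ)) * (1 - (u : ℝ) / N))
        with hP
      have hPnn : 0 ≤ P := countExt_nonneg hN _ _
      have hstep : ∀ y ∈ (pts (ρ i)).filter (fun y => σ i y ∉ T),
          ((countExt σ ρ (G.erase i) (insert (σ i y) T)).card : ℝ) ≤
            (∏ j ∈ G.erase i, (2 : ℝ) ^ fc (ρ j)) * P := by
        intro y hy
        rw [mem_filter] at hy
        have h1 := ih (G.erase i) hGe (fun j hj => hG j (mem_of_mem_erase hj)) (insert (σ i y) T)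
        rw [card_insert_of_notMem hy.2] at h1
        have h2 : T.card + 1 + (G.erase i).card - dl N x = T.card + G.card - dl N x := by
          rw [hGe, hGn]
          congr 1
          omega
        rw [h2] at h1
        exact h1
      have hprodnn : 0 ≤ ∏ j ∈ G.erase i, (2 : ℝ) ^ fc (ρ j) := by positivity
      calc ((countExt σ ρ G T).card : ℝ)
          ≤ ∑ y ∈ (pts (ρ i)).filter (fun y => σ i y ∉ T),
            ((countExt σ ρ (G.erase i) (insert (σ i y) T)).card : ℝ) := by
            exact_mod_cast countExt_step σ ρ G T i hiG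
        _ ≤ ∑ y ∈ (pts (ρ i)).filter (fun y => σ i y ∉ T),
            ((∏ j ∈ G.erase i, (2 : ℝ) ^ fc (ρ j)) * P) := Finset.sum_le_sum hstep
        _ = (av (σ i) (ρ i) T : ℝ) * ((∏ j ∈ G.erase i, (2 : ℝ) ^ fc (ρ j)) * P) := by
            rw [Finset.sum_const, nsmul_eq_mul]
            rfl
        _ ≤ (((1 + 1 / (nx x : ℝ)) * (1 - (T.card : ℝ) / N)) * 2 ^ fc (ρ i)) *
            ((∏ j ∈ G.erase i, (2 : ℝ) ^ fc (ρ j)) * P) :=
            mul_le_mul_of_nonneg_right hav (mul_nonneg hprodnn hPnn)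
        _ = (2 ^ fc (ρ i) * ∏ j ∈ G.erase i, (2 : ℝ) ^ fc (ρ j)) *
            (((1 + 1 / (nx x : ℝ)) * (1 - (T.card : ℝ) / N)) * P) := by ring
        _ = _ := by
            rw [Finset.mul_prod_erase G (fun j => (2 : ℝ) ^ fc (ρ j)) hiG, hP,
              Finset.prod_eq_prod_Ico_succ_bot hle]

/-- Task K1.

Paper proof.  Induction on `|G|`.  Let `t = |T|`, `u₁ = min (t + |G| - Δ) ⌊lim⌋₊`.  If `u₁ ≤ t` the product
is empty and the bound is trivial (`card_pts`).  Otherwise `|G| > Δ` and `InLim N x T`, so by `hA` there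
is `i ∈ G` with `¬ Atyp (σ i) x (ρ i) T`, hence `av (σ i) (ρ i) T ≤ (1+1/F)(1-t/N) 2^{fc (ρ i)}`
(`av_le_of_sub`).  The choices of `z i` number at most that, and for every choice the rest is an
extension for `G \ {i}` and `T ∪ {σ i (z i)}`, which has `t + 1` elements. -/
theorem count_ext {σ : Fin (N + 1) → Lab b → Fin N} {x : ℕ} {ρ : Vis b N}
    (hB : Big b N x) (hA : ProA σ x ρ) (G : Finset (Fin (N + 1)))
    (hG : ∀ i ∈ G, nx x ≤ fc (ρ i) ∧ fc (ρ i) ≤ x) (T : Finset (Fin N)) :
    ((((Fintype.piFinset (fun i => if i ∈ G then pts (ρ i) else {fun _ => false})).filter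
      (fun z => (∀ i ∈ G, σ i (z i) ∉ T) ∧
        (∀ i ∈ G, ∀ j ∈ G, σ i (z i) = σ j (z j) → i = j))).card : ℕ) : ℝ)
      ≤ (∏ i ∈ G, (2 : ℝ) ^ fc (ρ i)) *
        ∏ u ∈ Ico T.card (min (T.card + G.card - dl N x) ⌊(N : ℝ) * (1 - 1 / (8 * (x : ℝ) ^ 2))⌋₊),
          ((1 + 1 / (nx x : ℝ)) * (1 - (u : ℝ) / N)) := by
  exact count_ext_aux hB hA G.card G rfl hG T

end H616TR
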