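import Mathlib

set_option autoImplicit false

/-!
# MP_ce949a: near-maximal tree-like resolution lower bounds (definitions)

Bit pigeonhole principle of bounded degree.  Pigeons `Fin (N+1)`, holes `Fin N`, every pigeon has `b`
bits, `σ i : Lab b → Fin N` sends the label of pigeon `i` to a hole.
-/

namespace H616TR

open Finset

/-- labels of a pigeon -/
abbrev Lab (b : ℕ) := Fin b → Bool
/-- partial labels, i.e. subcubes of the cube of labels -/
abbrev Par (b : ℕ) := Fin b → Option Bool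
/-- visible states: a partial label for every pigeon -/
abbrev Vis (b N : ℕ) := Fin (N + 1) → Par b

variable {b N : ℕ}

/-- free coordinates of a partial label -/
def fr (r : Par b) : Finset (Fin b) := univ.filter (fun t => r t = none)

/-- number of free coordinates -/
def fc (r : Par b) : ℕ := (fr r).card

/-- labels compatible with a partial label -/
def pts (r : Par b) : Finset (Lab b) := univ.filter (fun y => ∀ t v, r t = some v → y t = v)

/-- `r'` extends `r` (so `r'` is a subcube of `r`) -/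
def Sub (r r' : Par b) : Prop := ∀ t v, r t = some v → r' t = some v

/-- number of labels of the subcube `r` whose hole is not in `T` -/
def av (τ : Lab b → Fin N) (r : Par b) (T : Finset (Fin N)) : ℕ :=
  ((pts r).filter (fun y => τ y ∉ T)).card

/-- set coordinate `t` of a partial label to `v` -/
def up (r : Par b) (t : Fin b) (v : Bool) : Par b := Function.update r t (some v)

/-- set bit `t` of pigeon `i` to `v` -/
def upv (ρ : Vis b N) (i : Fin (N + 1)) (t : Fin b) (v : Bool) : Vis b N :=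
  Function.update ρ i (up (ρ i) t v)

/-- next level -/
def nx (x : ℕ) : ℕ := 16 * (Nat.log 2 x + 1)

/-- `Δ` for the scale with upper level `x` -/
def dl (N x : ℕ) : ℕ := N / x ^ 5

/-- length of a phase for the scale with upper level `x` -/
noncomputable def ph (N x : ℕ) : ℝ := (N : ℝ) / (8 * (x : ℝ) ^ 2 * (nx x : ℝ))

/-- availability threshold in phase `a` of the scale with upper level `x` -/
noncomputable def Kth (N x a : ℕ) : ℝ :=
  (1 - 1 / (nx x : ℝ)) * (1 - ((a : ℝ) + 1) * ph N x / N - 10 * (dl N x : ℝ) / N) * 2 ^ (nx x)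

/-- `T` is in the range in which typicality is required at the scale with upper level `x` -/
def InLim (N x : ℕ) (T : Finset (Fin N)) : Prop :=
  (T.card : ℝ) ≤ (N : ℝ) * (1 - 1 / (8 * (x : ℝ) ^ 2))

/-- some subcube of dimension `nx x` has atypically many or few available labels -/
def Atyp (τ : Lab b → Fin N) (x : ℕ) (r : Par b) (T : Finset (Fin N)) : Prop :=
  ∃ r', Sub r r' ∧ fc r' = nx x ∧
    ((av τ r' T : ℝ) < (1 - 1 / (nx x : ℝ)) * (1 - (T.card : ℝ) / N) * 2 ^ (nx x) ∨
      (1 + 1 / (nx x : ℝ)) * (1 - (T.card : ℝ) / N) * 2 ^ (nx x) < (av τ r' T : ℝ))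

noncomputable instance instDecSub (r r' : Par b) : Decidable (Sub r r') := Classical.dec _
noncomputable instance instDecInLim (N x : ℕ) (T : Finset (Fin N)) : Decidable (InLim N x T) :=
  Classical.dec _
noncomputable instance instDecAtyp (τ : Lab b → Fin N) (x : ℕ) (r : Par b) (T : Finset (Fin N)) :
    Decidable (Atyp τ x r T) := Classical.dec _

/-- typicality property (A) of a visible state at the scale with upper level `x` -/
def ProA (σ : Fin (N + 1) → Lab b → Fin N) (x : ℕ) (R : Vis b N) : Prop :=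
  ∀ T : Finset (Fin N), InLim N x T →
    (univ.filter (fun i => fc (R i) ≤ x ∧ Atyp (σ i) x (R i) T)).card ≤ dl N x

/-- monotone badness at the scale with upper level `x`: a pigeon with more than `x` free bits is bad
if none of its labels is available, a pigeon with at most `x` free bits is bad if some subcube of
dimension `nx x` has fewer than `K` available labels. -/
def BadS (τ : Lab b → Fin N) (x : ℕ) (K : ℝ) (r : Par b) (T : Finset (Fin N)) : Prop :=
  if x < fc r then av τ r T = 0 else ∃ r', Sub r r' ∧ fc r' = nx x ∧ (av τ r' T : ℝ) < K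

noncomputable instance instDecBadS (τ : Lab b → Fin N) (x : ℕ) (K : ℝ) (r : Par b)
    (T : Finset (Fin N)) : Decidable (BadS τ x K r T) := Classical.dec _

/-- hidden states: `C` committed pigeons, `y` their labels, `T` forbidden holes, `a` the phase,
`p` the number of premature commitments in this scale, `pc` those of the present phase, `pen` the
penalty -/
structure HS (b N : ℕ) where
  C : Finset (Fin (N + 1))
  y : Fin (N + 1) → Lab b
  T : Finset (Fin N)
  a : ℕ
  p : ℕ
  pc : Finset (Fin (N + 1))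
  pen : ℕ

/-- the basic consistency of a hidden state with a visible state, with all pigeons of level at most
`lev` committed -/
structure Core (σ : Fin (N + 1) → Lab b → Fin N) (lev : ℕ) (ρ : Vis b N) (s : HS b N) : Prop where
  low : ∀ i, fc (ρ i) ≤ lev → i ∈ s.C
  lab : ∀ i ∈ s.C, s.y i ∈ pts (ρ i)
  inT : ∀ i ∈ s.C, σ i (s.y i) ∈ s.T
  inj : ∀ i ∈ s.C, ∀ j ∈ s.C, σ i (s.y i) = σ j (s.y j) → i = j

/-- number of pigeons of level at most `lev` -/
def lowc (lev : ℕ) (ρ : Vis b N) : ℕ := (univ.filter (fun i => fc (ρ i) ≤ lev)).card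

/-- number of pigeons of level more than `lev` -/
def highc (lev : ℕ) (ρ : Vis b N) : ℕ := (univ.filter (fun i => lev < fc (ρ i))).card

/-- visible part of the running state at the scale with upper level `x`, started at `R` -/
structure RVis (σ : Fin (N + 1) → Lab b → Fin N) (x : ℕ) (R ρ : Vis b N) : Prop where
  sub : ∀ i, Sub (R i) (ρ i)
  A : ProA σ x R
  sh : (univ.filter (fun i => x < fc (R i))).card ≤ dl N x
  bb : ((∑ i ∈ univ.filter (fun i => x < fc (R i)), fc (R i) : ℕ) : ℝ) ≤ ((N : ℝ) + 1) / x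
  hi : (N : ℝ) / (x : ℝ) ^ 2 ≤ (highc (nx x) ρ : ℝ) + 1

/-- running hidden states at the scale with upper level `x`, started at `R` -/
structure RGood (σ : Fin (N + 1) → Lab b → Fin N) (x : ℕ) (R ρ : Vis b N) (s : HS b N) : Prop where
  core : Core σ (nx x) ρ s
  CL : ∀ Y : Finset (Fin N), Disjoint Y s.T → Y.card ≤ 4 * dl N x →
    2 * (univ.filter (fun i => i ∉ s.C ∧ BadS (σ i) x (Kth N x s.a) (ρ i) (s.T ∪ Y))).card ≤ Y.card
  unt : ∀ i, i ∉ s.C → x < fc (R i) → ρ i = R i
  pen : s.pen + (∑ i ∈ s.C.filter (fun i => nx x < fc (ρ i)), fc (ρ i))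
      + (∑ i ∈ univ.filter (fun i => i ∉ s.C ∧ x < fc (ρ i)), fc (ρ i))
    ≤ (∑ i ∈ univ.filter (fun i => x < fc (R i)), fc (R i)) + x * s.p
  ph1 : (s.T.card : ℝ) ≤ ((s.a : ℝ) + 1) * ph N x
  ph2 : (s.a : ℝ) * ph N x ≤ s.T.card + 6 * (dl N x : ℝ)
  prm : s.p ≤ s.a * dl N x + s.pc.card
  pcd : s.pc.card ≤ dl N x
  pcC : s.pc ⊆ s.C
  pcs : ∀ i ∈ s.pc, fc (R i) ≤ x ∧ BadS (σ i) x (Kth N x s.a) (R i) s.T
  siz : s.T.card + (univ.filter (fun i => i ∉ s.C ∧ x < fc (R i))).card
    ≤ s.C.card + 7 * dl N x + s.p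
  hic : (s.C.filter (fun i => nx x < fc (ρ i) ∧ fc (R i) ≤ x)).card ≤ s.p

/-- `∏_{t<c} N/(N-t)` -/
noncomputable def Ac (N c : ℕ) : ℝ := ∏ t ∈ range c, (N : ℝ) / ((N : ℝ) - t)

/-- the weight `2^{-b·low - Σ_{high} (b - fc)}` -/
noncomputable def wt (lev : ℕ) (ρ : Vis b N) : ℝ :=
  ∏ j, (if fc (ρ j) ≤ lev then (1 / 2 : ℝ) ^ b else (1 / 2 : ℝ) ^ (b - fc (ρ j)))

/-- probability of the visible state under uniform answers -/
noncomputable def P0 (ρ : Vis b N) : ℝ := ∏ j, (1 / 2 : ℝ) ^ (b - fc (ρ j))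

/-- running distributions of total mass `M` -/
def RunD (σ : Fin (N + 1) → Lab b → Fin N) (x : ℕ) (ρ : Vis b N) (M : ℝ) : Prop :=
  ∃ (ι : Type) (_ : Fintype ι) (μ : ι → ℝ) (s : ι → HS b N) (R : Vis b N) (L : ℝ),
    (∀ k, 0 ≤ μ k) ∧ ∑ k, μ k = M ∧ RVis σ x R ρ ∧ (∀ k, RGood σ x R ρ (s k)) ∧
    L ≤ 11 * ((N : ℝ) + 1) / x + 2 * ((N : ℝ) + 1) / nx x ∧
    ∀ z : Fin (N + 1) → Lab b,
      (∑ k, if (∀ j, fc (ρ j) ≤ nx x → (s k).y j = z j) then μ k / 2 ^ (s k).pen else 0)
        ≤ Ac N (lowc (nx x) ρ) * ((1 - 2 / (nx x : ℝ))⁻¹) ^ (lowc (nx x) ρ) * (2 : ℝ) ^ L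
            * wt (nx x) ρ

/-- visible part of the ended states at level `x` -/
structure EVis (x : ℕ) (ρ : Vis b N) : Prop where
  sh : highc x ρ ≤ dl N x
  bb : ((∑ i ∈ univ.filter (fun i => x < fc (ρ i)), fc (ρ i) : ℕ) : ℝ) ≤ ((N : ℝ) + 1) / x

/-- ended hidden states at level `x`: all pigeons of level at most `x` are committed -/
structure EGood (σ : Fin (N + 1) → Lab b → Fin N) (x : ℕ) (ρ : Vis b N) (s : HS b N) : Prop where
  core : Core σ x ρ s
  pen : (s.pen : ℝ) ≤ ((N : ℝ) + 1) / x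
  old : ∃ D : ℕ, (∀ Y : Finset (Fin N), Disjoint Y s.T → Y.card ≤ D →
      2 * (univ.filter (fun i => i ∉ s.C ∧ av (σ i) (ρ i) (s.T ∪ Y) = 0)).card ≤ Y.card) ∧
    (∀ T' : Finset (Fin N), InLim N x T' →
      2 * (univ.filter (fun i => i ∉ s.C ∧ av (σ i) (ρ i) T' = 0)).card ≤ D)

/-- ended distributions of total mass `M` -/
def EndD (σ : Fin (N + 1) → Lab b → Fin N) (x : ℕ) (ρ : Vis b N) (M : ℝ) : Prop :=
  ∃ (ι : Type) (_ : Fintype ι) (μ : ι → ℝ) (s : ι → HS b N) (L : ℝ),
    (∀ k, 0 ≤ μ k) ∧ ∑ k, μ k = M ∧ EVis x ρ ∧ (∀ k, EGood σ x ρ (s k)) ∧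
    L ≤ 8 * ((N : ℝ) + 1) / x ∧
    ∀ z : Fin (N + 1) → Lab b,
      (∑ k, if (∀ j, fc (ρ j) ≤ x → (s k).y j = z j) then μ k / 2 ^ (s k).pen else 0)
        ≤ Ac N (lowc x ρ) * (2 : ℝ) ^ L * wt x ρ

/-- smallest level at which a scale is run -/
def B0 : ℕ := 2 ^ 64

/-- standing numerical assumptions -/
structure Big (b N x : ℕ) : Prop where
  x0 : B0 ≤ x
  xb : x ≤ b
  Nb : b ^ 40 ≤ N

/-! ### The steering values -/

/-- game value (with fuel) of steering to a cube that is atypical for `T` -/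
noncomputable def vv (τ : Lab b → Fin N) (x : ℕ) (T : Finset (Fin N)) : ℕ → Par b → NNReal
  | 0, r => if Atyp τ x r T then 1 else 0
  | (n + 1), r => if fc r ≤ x then (if Atyp τ x r T then 1 else 0) else
      (fr r).sup (fun t => (vv τ x T n (up r t false) + vv τ x T n (up r t true)) / 2)

/-- game value of steering to a cube of level at most `x` that is atypical for `T` -/
noncomputable def V (τ : Lab b → Fin N) (x : ℕ) (T : Finset (Fin N)) (r : Par b) : NNReal :=
  vv τ x T (fc r) r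

/-- levels for which the typicality property has to be maintained -/
def Xset (b : ℕ) : Finset ℕ := (range (b + 1)).filter (fun x => B0 ≤ x ∧ 2 * x ^ 6 ≤ b)

/-- the failure potential -/
noncomputable def FF (σ : Fin (N + 1) → Lab b → Fin N) (ρ : Vis b N) : ℝ :=
  ∑ x ∈ Xset b, ∑ T ∈ (univ : Finset (Finset (Fin N))).filter (fun T => InLim N x T),
    ∑ S ∈ powersetCard (dl N x + 1) (univ : Finset (Fin (N + 1))),
      ∏ i ∈ S, ((V (σ i) x T (ρ i) : NNReal) : ℝ)

/-- average over all functions `τ : Lab b → Fin N` -/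
noncomputable def avg (f : (Lab b → Fin N) → ℝ) : ℝ :=
  (∑ τ : Lab b → Fin N, f τ) / (Fintype.card (Lab b → Fin N) : ℝ)

/-- the empty partial label -/
def emp : Par b := fun _ => none

/-- the initial expansion property of `σ` -/
def IniE (σ : Fin (N + 1) → Lab b → Fin N) : Prop :=
  ∀ Y : Finset (Fin N), Y.card ≤ 4 * dl N b →
    2 * (univ.filter (fun i => BadS (σ i) b (Kth N b 0) emp Y)).card ≤ Y.card

/-- the initial properties of `σ` -/
def Ini (σ : Fin (N + 1) → Lab b → Fin N) : Prop :=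
  ProA σ b (fun _ => emp) ∧ IniE σ

noncomputable instance instDecProA (σ : Fin (N + 1) → Lab b → Fin N) (x : ℕ) (R : Vis b N) :
    Decidable (ProA σ x R) := Classical.dec _
noncomputable instance instDecIniE (σ : Fin (N + 1) → Lab b → Fin N) : Decidable (IniE σ) :=
  Classical.dec _

end H616TR
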