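import Pool.Agent.H616R2.TR.Basic

set_option autoImplicit false

/-! Task N3: the product `Ac`. -/

namespace H616TR

open Finset

variable {b N : ℕ}

/-! ### Task N3: the product `Ac` -/

theorem Ac_succ (c : ℕ) : Ac N (c + 1) = Ac N c * ((N : ℝ) / ((N : ℝ) - c)) := by
  rw [Ac, prod_range_succ]; rfl

theorem Ac_zero : Ac N 0 = 1 := by simp [Ac]

theorem NumC_sub_pos {t : ℕ} (ht : t < N) : (0 : ℝ) < (N : ℝ) - t := by
  have : (t : ℝ) < N := by exact_mod_cast ht
  linarith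

theorem Ac_pos {c : ℕ} (hc : c ≤ N) : 0 < Ac N c := by
  unfold Ac
  refine prod_pos fun t ht => ?_
  have ht' : t < N := lt_of_lt_of_le (mem_range.1 ht) hc
  have h1 := NumC_sub_pos ht'
  have h2 : (0 : ℝ) < N := by exact_mod_cast lt_of_le_of_lt (Nat.zero_le t) ht'
  exact div_pos h2 h1

theorem Ac_nonneg {c : ℕ} (hc : c ≤ N + 1) : 0 ≤ Ac N c := by
  unfold Ac
  refine prod_nonneg fun t ht => ?_
  have ht' : t ≤ N := by have := mem_range.1 ht; omega
  have h1 : (t : ℝ) ≤ N := by exact_mod_cast ht'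
  exact div_nonneg (Nat.cast_nonneg _) (by linarith)

theorem Ac_mono {c c' : ℕ} (hc : c ≤ c') (hc' : c' ≤ N) : Ac N c ≤ Ac N c' := by
  induction c', hc using Nat.le_induction with
  | base => exact le_rfl
  | succ m hm ih =>
    refine (ih (by omega)).trans ?_
    rw [Ac_succ]
    have h1 := NumC_sub_pos (N := N) (t := m) (by omega)
    refine le_mul_of_one_le_right (Ac_pos (by omega)).le ?_
    rw [one_le_div h1]
    have : (0:ℝ) ≤ m := Nat.cast_nonneg _
    linarith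

theorem Ac_ico {c0 c1 : ℕ} (h : c0 ≤ c1) (hc : c1 ≤ N) :
    Ac N c1 * ∏ u ∈ Ico c0 c1, (1 - (u : ℝ) / N) = Ac N c0 := by
  induction c1, h using Nat.le_induction with
  | base => simp
  | succ m hm ih =>
    have h1 := NumC_sub_pos (N := N) (t := m) (by omega)
    have h2 : (0 : ℝ) < N := by exact_mod_cast (by omega : 0 < N)
    rw [prod_Ico_succ_top hm, Ac_succ, ← ih (by omega)]
    have h3 : (N : ℝ) / ((N : ℝ) - m) * (1 - (m : ℝ) / N) = 1 := by
      field_simp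
    calc Ac N m * ((N : ℝ) / ((N : ℝ) - m)) *
          ((∏ u ∈ Ico c0 m, (1 - (u : ℝ) / N)) * (1 - (m : ℝ) / N))
        = Ac N m * (∏ u ∈ Ico c0 m, (1 - (u : ℝ) / N)) *
          ((N : ℝ) / ((N : ℝ) - m) * (1 - (m : ℝ) / N)) := by ring
      _ = _ := by rw [h3, mul_one]

/-- `∏_{c0 ≤ t < c0 + n} (c0 + n - t) = n!` -/
theorem NumC_fact (c0 n : ℕ) :
    ∏ t ∈ Ico c0 (c0 + n), (((c0 + n : ℕ) : ℝ) - t) = (n.factorial : ℝ) := by
  rw [prod_Ico_eq_prod_range, Nat.add_sub_cancel_left, ← prod_range_add_one_eq_factorial,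
    ← prod_range_reflect]
  push_cast
  refine prod_congr rfl fun t ht => ?_
  have ht' := mem_range.1 ht
  have : ((n - 1 - t : ℕ) : ℝ) = (n : ℝ) - 1 - t := by
    rw [Nat.cast_sub (by omega), Nat.cast_sub (by omega)]
    simp
  rw [this]
  ring

/-- `Ac N (c0 + n) ≤ Ac N c0 * N^n / n!` -/
theorem NumC_ratio {c0 n : ℕ} (h : c0 + n ≤ N) :
    Ac N (c0 + n) ≤ Ac N c0 * ((N : ℝ) ^ n / n.factorial) := by
  have h1 : Ac N (c0 + n) = Ac N c0 * ∏ t ∈ Ico c0 (c0 + n), (N : ℝ) / ((N : ℝ) - t) := by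
    unfold Ac
    rw [prod_range_mul_prod_Ico _ (by omega)]
  rw [h1]
  refine mul_le_mul_of_nonneg_left ?_ (Ac_pos (by omega)).le
  calc ∏ t ∈ Ico c0 (c0 + n), (N : ℝ) / ((N : ℝ) - t)
      ≤ ∏ t ∈ Ico c0 (c0 + n), (N : ℝ) / (((c0 + n : ℕ) : ℝ) - t) := by
        refine prod_le_prod (fun t ht => ?_) fun t ht => ?_
        · have := mem_Ico.1 ht
          exact div_nonneg (Nat.cast_nonneg _) (NumC_sub_pos (by omega)).le
        · have ht' := mem_Ico.1 ht
          have h2 : (0:ℝ) < ((c0 + n : ℕ) : ℝ) - t := by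
            have : (t : ℝ) < ((c0 + n : ℕ) : ℝ) := by exact_mod_cast ht'.2
            linarith
          refine div_le_div_of_nonneg_left (Nat.cast_nonneg _) h2 ?_
          have : ((c0 + n : ℕ) : ℝ) ≤ N := by exact_mod_cast h
          linarith
    _ = (N : ℝ) ^ n / n.factorial := by
        rw [prod_div_distrib, NumC_fact, prod_const, Nat.card_Ico, Nat.add_sub_cancel_left]

theorem Ac_le {c : ℕ} (hc : c ≤ N) : Ac N c ≤ (2 : ℝ) ^ ((3 / 2 : ℝ) * N) := by
  refine (Ac_mono hc le_rfl).trans ?_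
  have h1 := NumC_ratio (N := N) (c0 := 0) (n := N) (by omega)
  rw [zero_add, Ac_zero, one_mul] at h1
  refine h1.trans ((Real.pow_div_factorial_le_exp (N : ℝ) (Nat.cast_nonneg _) N).trans ?_)
  rw [Real.rpow_def_of_pos (by norm_num)]
  apply Real.exp_le_exp.2
  have h2 := Real.log_two_gt_d9
  have h3 : (0:ℝ) ≤ N := Nat.cast_nonneg _
  nlinarith

/-- `Ac N c / Ac N c0 ≤ N^n/n! ≤ (x²)^n e^{N/x²}` for `n = c - c0 ≤ N/x²` -/
theorem Ac_gap {x c0 c : ℕ} (hx : B0 ≤ x) (h0 : c0 ≤ c) (hc : c ≤ N)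
    (hd : ((c - c0 : ℕ) : ℝ) ≤ (N : ℝ) / (x : ℝ) ^ 2) :
    Ac N c ≤ Ac N c0 * (2 : ℝ) ^ ((N : ℝ) / x) := by
  obtain ⟨n, rfl⟩ := Nat.exists_eq_add_of_le h0
  rw [Nat.add_sub_cancel_left] at hd
  refine (NumC_ratio hc).trans (mul_le_mul_of_nonneg_left ?_ (Ac_pos (by omega)).le)
  have hxB : ((2:ℝ) ^ 64) ≤ x := by
    have : B0 ≤ x := hx
    unfold B0 at this
    exact_mod_cast this
  have hx0 : (0:ℝ) < x := lt_of_lt_of_le (by norm_num) hxB
  set y : ℝ := (N : ℝ) / (x : ℝ) ^ 2 with hy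
  have hy0 : 0 ≤ y := by positivity
  have hNy : (N : ℝ) = (x : ℝ) ^ 2 * y := by rw [hy]; field_simp
  have e1 : (N : ℝ) ^ n / n.factorial = ((x : ℝ) ^ 2) ^ n * (y ^ n / n.factorial) := by
    rw [hNy, mul_pow]; ring
  have e2 : y ^ n / n.factorial ≤ Real.exp y := Real.pow_div_factorial_le_exp y hy0 n
  have hlog0 : 0 ≤ Real.log x := Real.log_nonneg (by linarith [show (1:ℝ) ≤ 2 ^ 64 by norm_num])
  have e3 : ((x : ℝ) ^ 2) ^ n ≤ Real.exp (y * (2 * Real.log x)) := by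
    have h3 : ((x : ℝ) ^ 2) ^ n = Real.exp (n * (2 * Real.log x)) := by
      rw [Real.exp_nat_mul, two_mul, Real.exp_add, Real.exp_log hx0]
      ring
    rw [h3]
    apply Real.exp_le_exp.2
    exact mul_le_mul_of_nonneg_right hd (by positivity)
  have hlog : 2 * Real.log x + 1 ≤ x * Real.log 2 := by
    have h4 : Real.log x ≤ 64 * Real.log 2 + (x / 2 ^ 64 - 1) := by
      have h5 : Real.log x = Real.log ((2:ℝ) ^ 64) + Real.log (x / 2 ^ 64) := by
        rw [← Real.log_mul (by norm_num) (by positivity)]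
        congr 1
        field_simp
      have h6 : Real.log (x / 2 ^ 64) ≤ x / 2 ^ 64 - 1 :=
        Real.log_le_sub_one_of_pos (by positivity)
      rw [h5, Real.log_pow]
      push_cast
      linarith
    have h7 := Real.log_two_gt_d9
    have h8 := Real.log_two_lt_d9
    have h9 : (x:ℝ) / 2 ^ 64 ≤ x / 100 := by
      apply div_le_div_of_nonneg_left hx0.le (by norm_num) (by norm_num)
    have h10 : (1000:ℝ) ≤ x := le_trans (by norm_num) hxB
    nlinarith
  rw [e1, Real.rpow_def_of_pos (by norm_num)]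
  calc ((x : ℝ) ^ 2) ^ n * (y ^ n / n.factorial)
      ≤ Real.exp (y * (2 * Real.log x)) * Real.exp y :=
        mul_le_mul e3 e2 (by positivity) (Real.exp_pos _).le
    _ = Real.exp (y * (2 * Real.log x + 1)) := by rw [← Real.exp_add]; congr 1; ring
    _ ≤ Real.exp (Real.log 2 * ((N : ℝ) / x)) := by
        apply Real.exp_le_exp.2
        have h11 : Real.log 2 * ((N : ℝ) / x) = y * (x * Real.log 2) := by
          rw [hNy]; field_simp
        rw [h11]
        exact mul_le_mul_of_nonneg_left hlog hy0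

end H616TR
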