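import Pool.Agent.H616R2.TR.NumB
import Pool.Agent.H616R2.TR.NumC

set_option autoImplicit false

/-! Task E1: end of a scale. -/

namespace H616TR

open Finset

variable {b N : ℕ}

theorem EndsA_wt_nonneg (lev : ℕ) (ρ : Vis b N) : 0 ≤ wt lev ρ := by
  unfold wt
  apply Finset.prod_nonneg
  intro j _
  split_ifs <;> positivity

theorem EndsA_x_pos {x : ℕ} (hx : B0 ≤ x) : (0 : ℝ) < x := by
  have : 0 < x := lt_of_lt_of_le (by unfold B0; positivity) hx
  exact_mod_cast this

theorem EndsA_N_pos {x : ℕ} (hB : Big b N x) : (0 : ℝ) < N := by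
  have h1 : 0 < b := lt_of_lt_of_le (lt_of_lt_of_le (by unfold B0; positivity) hB.x0) hB.xb
  have h2 : 0 < b ^ 40 := by positivity
  exact_mod_cast lt_of_lt_of_le h2 hB.Nb

/-- the visible part -/
theorem EndsA_vis {σ : Fin (N + 1) → Lab b → Fin N} {x : ℕ} {R ρ : Vis b N}
    (hB : Big b N x) (hV : RVis σ x R ρ)
    (hn : (highc (nx x) ρ : ℝ) < (N : ℝ) / (x : ℝ) ^ 2) : EVis (nx x) ρ := by
  have hx0 : (0 : ℝ) < x := EndsA_x_pos hB.x0
  have hF : 1000 * nx x < x := nx_lt hB.x0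
  have hF0 : 1000 ≤ nx x := nx_ge hB.x0
  have hFr : 1000 * (nx x : ℝ) ≤ x := by exact_mod_cast hF.le
  have hF0r : (1000 : ℝ) ≤ nx x := by exact_mod_cast hF0
  refine ⟨div_sq_le_dl hB hn, ?_⟩
  have h1 : ∑ i ∈ univ.filter (fun i => nx x < fc (ρ i)), fc (ρ i) ≤
      ∑ i ∈ univ.filter (fun i => nx x < fc (ρ i)), x +
        ∑ i ∈ univ.filter (fun i => x < fc (R i)), fc (R i) := by
    have e1 : ∑ i ∈ univ.filter (fun i => x < fc (R i)), fc (R i) =
        ∑ i : Fin (N + 1), (if x < fc (R i) then fc (R i) else 0) := by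
      rw [Finset.sum_filter]
    have e2 : ∑ i ∈ univ.filter (fun i => nx x < fc (ρ i)), fc (ρ i) ≤
        ∑ i ∈ univ.filter (fun i => nx x < fc (ρ i)), (x + (if x < fc (R i) then fc (R i) else 0)) := by
      apply Finset.sum_le_sum
      intro i _
      have h2 := fc_mono (hV.sub i)
      split_ifs with h3
      · omega
      · omega
    rw [Finset.sum_add_distrib] at e2
    refine e2.trans ?_
    rw [e1]
    apply Nat.add_le_add_left
    exact Finset.sum_le_sum_of_subset (Finset.filter_subset _ _)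
  rw [Finset.sum_const, smul_eq_mul] at h1
  have h2 : ((∑ i ∈ univ.filter (fun i => nx x < fc (ρ i)), fc (ρ i) : ℕ) : ℝ) ≤
      (highc (nx x) ρ : ℝ) * x + ((∑ i ∈ univ.filter (fun i => x < fc (R i)), fc (R i) : ℕ) : ℝ) := by
    exact_mod_cast h1
  have h3 := hV.bb
  have h4 : (highc (nx x) ρ : ℝ) * x ≤ (N : ℝ) / x := by
    calc (highc (nx x) ρ : ℝ) * x ≤ (N : ℝ) / (x : ℝ) ^ 2 * x :=
          mul_le_mul_of_nonneg_right hn.le hx0.le
      _ = (N : ℝ) / x := by field_simp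
  have h5 : (N : ℝ) / x ≤ ((N : ℝ) + 1) / x := by
    apply div_le_div_of_nonneg_right _ hx0.le
    linarith
  have h6 : ((N : ℝ) + 1) / x ≤ ((N : ℝ) + 1) / (1000 * nx x) := by
    apply div_le_div_of_nonneg_left _ (by positivity) hFr
    positivity
  have h7 : ((N : ℝ) + 1) / (1000 * nx x) = ((N : ℝ) + 1) / nx x / 1000 := by
    rw [mul_comm, div_mul_eq_div_div]
  have h8 : 0 ≤ ((N : ℝ) + 1) / nx x := by positivity
  linarith

/-- the thresholds are positive -/
theorem EndsA_Kth_pos {σ : Fin (N + 1) → Lab b → Fin N} {x : ℕ} {R ρ : Vis b N} {s : HS b N}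
    (hB : Big b N x) (hV : RVis σ x R ρ) (hs : RGood σ x R ρ s) : 0 < Kth N x s.a := by
  have hx0 : (0 : ℝ) < x := EndsA_x_pos hB.x0
  have hN : (0 : ℝ) < N := EndsA_N_pos hB
  have hF0 : 1000 ≤ nx x := nx_ge hB.x0
  have hF0r : (1000 : ℝ) ≤ nx x := by exact_mod_cast hF0
  obtain ⟨_, _, h1⟩ := run_size hB hV hs
  have h2 := hs.ph2
  have h3 : ph N x ≤ (N : ℝ) / (8 * (x : ℝ) ^ 2) := by
    unfold ph
    apply div_le_div_of_nonneg_left hN.le (by positivity)
    have : 0 ≤ 8 * (x : ℝ) ^ 2 := by positivity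
    exact le_mul_of_one_le_right this (by linarith)
  have h4 : (N : ℝ) * (1 - 1 / (8 * (x : ℝ) ^ 2)) = N - N / (8 * (x : ℝ) ^ 2) := by ring
  rw [h4] at h1
  have h5 : ((s.a : ℝ) + 1) * ph N x + 10 * (dl N x : ℝ) < N := by
    have : (0 : ℝ) ≤ dl N x := Nat.cast_nonneg _
    rw [add_mul, one_mul]
    linarith
  unfold Kth
  have h6 : 0 < 1 - 1 / (nx x : ℝ) := by
    rw [sub_pos, div_lt_one (by linarith)]
    linarith
  have h7 : 0 < 1 - ((s.a : ℝ) + 1) * ph N x / N - 10 * (dl N x : ℝ) / N := by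
    have e : 1 - ((s.a : ℝ) + 1) * ph N x / N - 10 * (dl N x : ℝ) / N =
        (N - (((s.a : ℝ) + 1) * ph N x + 10 * (dl N x : ℝ))) / N := by
      field_simp
      ring
    rw [e]
    apply div_pos _ hN
    linarith
  positivity

/-- one hidden state -/
theorem EndsA_good {σ : Fin (N + 1) → Lab b → Fin N} {x : ℕ} {R ρ : Vis b N} {s : HS b N}
    (hB : Big b N x) (hV : RVis σ x R ρ) (hs : RGood σ x R ρ s) : EGood σ (nx x) ρ s := by
  have hN : (0 : ℝ) < N := EndsA_N_pos hB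
  have hF0 : 1000 ≤ nx x := nx_ge hB.x0
  have hF0r : (1000 : ℝ) ≤ nx x := by exact_mod_cast hF0
  have hlow : ∀ i, i ∉ s.C → nx x < fc (ρ i) := by
    intro i hi
    by_contra h
    exact hi (hs.core.low i (not_lt.1 h))
  refine ⟨hs.core, run_pen hB hV hs, 4 * dl N x, ?_, ?_⟩
  · intro Y hY hYc
    refine le_trans ?_ (hs.CL Y hY hYc)
    apply Nat.mul_le_mul_left
    apply Finset.card_le_card
    intro i hi
    rw [Finset.mem_filter] at hi ⊢
    refine ⟨hi.1, hi.2.1, ?_⟩
    unfold BadS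
    split_ifs with h
    · exact hi.2.2
    · obtain ⟨r', h1, h2⟩ := exists_sub (hlow i hi.2.1).le
      refine ⟨r', h1, h2, ?_⟩
      have h3 : av (σ i) r' (s.T ∪ Y) = 0 := by
        have := av_mono (τ := σ i) h1 (s.T ∪ Y)
        omega
      rw [h3, Nat.cast_zero]
      exact EndsA_Kth_pos hB hV hs
  · intro T' hT'
    have h1 : univ.filter (fun i => i ∉ s.C ∧ av (σ i) (ρ i) T' = 0) ⊆
        univ.filter (fun i => fc (R i) ≤ x ∧ Atyp (σ i) x (R i) T') ∪
          univ.filter (fun i => x < fc (R i)) := by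
      intro i hi
      rw [Finset.mem_filter] at hi
      rw [Finset.mem_union, Finset.mem_filter, Finset.mem_filter]
      by_cases hx : x < fc (R i)
      · exact Or.inr ⟨Finset.mem_univ _, hx⟩
      · left
        refine ⟨Finset.mem_univ _, not_lt.1 hx, ?_⟩
        obtain ⟨r', h1, h2⟩ := exists_sub (hlow i hi.2.1).le
        refine ⟨r', (hV.sub i).trans h1, h2, Or.inl ?_⟩
        have h3 : av (σ i) r' T' = 0 := by
          have := av_mono (τ := σ i) h1 T'
          omega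
        rw [h3, Nat.cast_zero]
        have h4 : (T'.card : ℝ) < N := by
          have h5 : (T'.card : ℝ) ≤ (N : ℝ) * (1 - 1 / (8 * (nx x : ℝ) ^ 2)) := hT'
          have h6 : (0 : ℝ) < 1 / (8 * (nx x : ℝ) ^ 2) := by positivity
          have h7 : (0 : ℝ) < N * (1 / (8 * (nx x : ℝ) ^ 2)) := mul_pos hN h6
          rw [mul_sub, mul_one] at h5
          linarith
        have h7 : 0 < 1 - 1 / (nx x : ℝ) := by
          rw [sub_pos, div_lt_one (by linarith)]
          linarith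
        have h8 : 0 < 1 - (T'.card : ℝ) / N := by
          rw [sub_pos, div_lt_one hN]
          exact h4
        positivity
    have h2 := Finset.card_le_card h1
    have h3 := Finset.card_union_le (univ.filter (fun i => fc (R i) ≤ x ∧ Atyp (σ i) x (R i) T'))
      (univ.filter (fun i => x < fc (R i)))
    have h4 := hV.A T' (InLim.of_nx hB.x0 hT')
    have h5 := hV.sh
    omega

theorem EndsA_exp {F : ℝ} (hF : 1000 ≤ F) (c : ℕ) {n : ℝ} (hc : (c : ℝ) ≤ n) :
    ((1 - 2 / F)⁻¹) ^ c ≤ (2 : ℝ) ^ (5 * n / F) := by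
  have hF0 : 0 < F := by linarith
  have h1 : 0 < 1 - 2 / F := by
    rw [sub_pos, div_lt_one hF0]
    linarith
  have h2 : (1 - 2 / F)⁻¹ ≤ Real.exp (3 / F) := by
    rw [inv_le_comm₀ h1 (Real.exp_pos _), ← Real.exp_neg]
    have h3 : 3 / F ≤ 1 := by
      rw [div_le_one hF0]
      linarith
    have h4 : |-(3 / F)| ≤ 1 := by
      rw [abs_neg, abs_of_nonneg (by positivity)]
      exact h3
    have h5 := Real.abs_exp_sub_one_sub_id_le h4
    have h6 := (abs_le.1 h5).2
    have h7 : (-(3 / F)) ^ 2 ≤ 1 / F := by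
      rw [neg_sq, div_pow, div_le_div_iff₀ (by positivity) hF0]
      nlinarith
    have h8 : 2 / F = 3 / F - 1 / F := by ring
    rw [h8]
    linarith
  have h3 : Real.exp (3 / F) ≤ (2 : ℝ) ^ (5 / F) := by
    rw [Real.rpow_def_of_pos (by norm_num)]
    apply Real.exp_le_exp.2
    have := Real.log_two_gt_d9
    rw [show Real.log 2 * (5 / F) = (Real.log 2 * 5) / F by ring]
    apply div_le_div_of_nonneg_right _ hF0.le
    linarith
  calc ((1 - 2 / F)⁻¹) ^ c ≤ ((2 : ℝ) ^ (5 / F)) ^ c :=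
        pow_le_pow_left₀ (by positivity) (h2.trans h3) _
    _ = (2 : ℝ) ^ (5 / F * c) := by
        rw [Real.rpow_mul (by norm_num), Real.rpow_natCast]
    _ ≤ (2 : ℝ) ^ (5 * n / F) := by
        apply Real.rpow_le_rpow_of_exponent_le (by norm_num)
        rw [div_mul_eq_mul_div]
        apply div_le_div_of_nonneg_right _ hF0.le
        linarith

/-- Task E1.  A running distribution that has ended is an ended distribution at the next level.

Paper proof.  `EVis`: `div_sq_le_dl`; `∑_{F < fc} fc ≤ x * highc F ρ + ∑_{x < fc (R i)} fc (R i)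
≤ N/x + (N+1)/x ≤ (N+1)/F` (`fc_mono`).  `EGood`: `core`; `pen` is `run_pen`; `old` with `D = 4 * dl N x`:
first part from `CL` (a pigeon `i ∉ C` with no available label is `BadS`: if `fc (ρ i) ≤ x` take any
subcube of dimension `F`, `Kth > 0`), second part: such a pigeon of level `≤ x` has `fc (R i) ≤ x` (`unt`)
and is `Atyp` for `R i` and `T'` (`InLim.of_nx`; `av_mono`), at most `Δ` of these by `hV.A`, and at most
`Δ` uncommitted pigeons have level `> x`.  Mass: `c = lowc F ρ ≤ N` if there is a state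
(injectivity into `Fin N`), `(1-2/F)^{-c} ≤ 2^{5(N+1)/F}`, so `L' = L + 5(N+1)/F ≤ 8(N+1)/F`. -/
theorem run_end {σ : Fin (N + 1) → Lab b → Fin N} {x : ℕ} {ρ : Vis b N} {M : ℝ}
    (hB : Big b N x) (h : RunD σ x ρ M)
    (hn : (highc (nx x) ρ : ℝ) < (N : ℝ) / (x : ℝ) ^ 2) :
    EndD σ (nx x) ρ M := by
  obtain ⟨ι, hι, μ, s, R, L, h0, hM, hV, hs, hL, hmass⟩ := h
  have hx0 : (0 : ℝ) < x := EndsA_x_pos hB.x0
  have hF : 1000 * nx x < x := nx_lt hB.x0
  have hF0 : 1000 ≤ nx x := nx_ge hB.x0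
  have hFr : 1000 * (nx x : ℝ) ≤ x := by exact_mod_cast hF.le
  have hF0r : (1000 : ℝ) ≤ nx x := by exact_mod_cast hF0
  refine ⟨ι, hι, μ, s, L + 5 * ((N : ℝ) + 1) / nx x, h0, hM, EndsA_vis hB hV hn,
    fun k => EndsA_good hB hV (hs k), ?_, ?_⟩
  · have h1 : 11 * ((N : ℝ) + 1) / x ≤ 11 * ((N : ℝ) + 1) / (1000 * nx x) := by
      apply div_le_div_of_nonneg_left _ (by positivity) hFr
      positivity
    have h2 : 11 * ((N : ℝ) + 1) / (1000 * nx x) = 11 / 1000 * (((N : ℝ) + 1) / nx x) := by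
      field_simp
    have h3 : 0 ≤ ((N : ℝ) + 1) / nx x := by positivity
    have h4 : 2 * ((N : ℝ) + 1) / nx x = 2 * (((N : ℝ) + 1) / nx x) := by ring
    have h5 : 5 * ((N : ℝ) + 1) / nx x = 5 * (((N : ℝ) + 1) / nx x) := by ring
    have h6 : 8 * ((N : ℝ) + 1) / nx x = 8 * (((N : ℝ) + 1) / nx x) := by ring
    rw [h4] at hL
    rw [h5, h6]
    linarith
  · intro z
    refine (hmass z).trans ?_
    have hc : lowc (nx x) ρ ≤ N + 1 := by
      unfold lowc
      calc (univ.filter (fun i => fc (ρ i) ≤ nx x)).card ≤ (univ : Finset (Fin (N + 1))).card :=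
            Finset.card_filter_le _ _
        _ = N + 1 := by rw [Finset.card_univ, Fintype.card_fin]
    have h1 := EndsA_exp hF0r (lowc (nx x) ρ) (n := (N : ℝ) + 1) (by exact_mod_cast hc)
    have hA := Ac_nonneg (N := N) hc
    have hw := EndsA_wt_nonneg (nx x) ρ
    have h2 : (2 : ℝ) ^ (L + 5 * ((N : ℝ) + 1) / nx x) =
        (2 : ℝ) ^ (5 * ((N : ℝ) + 1) / nx x) * (2 : ℝ) ^ L := by
      rw [Real.rpow_add (by norm_num), mul_comm]
    rw [h2]
    have h3 : (0 : ℝ) < (2 : ℝ) ^ L := by positivity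
    apply mul_le_mul_of_nonneg_right _ hw
    rw [← mul_assoc]
    apply mul_le_mul_of_nonneg_right _ h3.le
    exact mul_le_mul_of_nonneg_left h1 hA

end H616TR
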