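import Pool.Agent.H616R2.TR.NumA
import Pool.Agent.H616R2.TR.NumC

set_option autoImplicit false

/-! Task E2: skipping a scale. -/

namespace H616TR

open Finset

variable {b N : ℕ}

theorem EndsB_lowc_le (lev : ℕ) (ρ : Vis b N) : lowc lev ρ ≤ N + 1 := by
  unfold lowc
  calc _ ≤ (univ : Finset (Fin (N + 1))).card := card_le_card (filter_subset _ _)
    _ = N + 1 := by simp

theorem EndsB_core_card {σ : Fin (N + 1) → Lab b → Fin N} {lev : ℕ} {ρ : Vis b N} {s : HS b N}
    (h : Core σ lev ρ s) : lowc lev ρ ≤ N := by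
  have h1 : lowc lev ρ ≤ s.C.card := by
    apply card_le_card
    intro i hi
    exact h.low i (by simpa using hi)
  have h2 : s.C.card ≤ (univ : Finset (Fin N)).card := by
    apply card_le_card_of_injOn (fun i => σ i (s.y i)) (fun _ _ => by simp)
    intro i hi j hj hij
    exact h.inj i hi j hj hij
  simp at h2
  omega

theorem EndsB_wt {x F : ℕ} (hFx : F ≤ x) (ρ : Vis b N) :
    (∏ j, (if F < fc (ρ j) ∧ fc (ρ j) ≤ x then (2 : ℝ) ^ fc (ρ j) else 1)) * wt x ρ = wt F ρ := by
  unfold wt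
  rw [← prod_mul_distrib]
  apply prod_congr rfl
  intro j _
  have hb := fc_le (ρ j)
  by_cases h1 : fc (ρ j) ≤ F
  · have h2 : fc (ρ j) ≤ x := h1.trans hFx
    have h3 : ¬ (F < fc (ρ j) ∧ fc (ρ j) ≤ x) := by omega
    rw [if_neg h3, if_pos h2, if_pos h1, one_mul]
  · by_cases h2 : fc (ρ j) ≤ x
    · have h3 : (F < fc (ρ j) ∧ fc (ρ j) ≤ x) := by omega
      rw [if_pos h3, if_pos h2, if_neg h1]
      have h4 : (1 / 2 : ℝ) ^ b = (1 / 2 : ℝ) ^ (b - fc (ρ j)) * (1 / 2 : ℝ) ^ fc (ρ j) := by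
        rw [← pow_add, Nat.sub_add_cancel hb]
      rw [h4, mul_comm, mul_assoc, ← mul_pow]
      norm_num
    · have h3 : ¬ (F < fc (ρ j) ∧ fc (ρ j) ≤ x) := by omega
      rw [if_neg h3, if_neg h2, if_neg h1, one_mul]

theorem EndsB_gap {x F : ℕ} (hFx : F ≤ x) (ρ : Vis b N) :
    lowc F ρ ≤ lowc x ρ ∧ lowc x ρ - lowc F ρ ≤ highc F ρ := by
  have h1 : univ.filter (fun i => fc (ρ i) ≤ F) ⊆ univ.filter (fun i => fc (ρ i) ≤ x) := by
    intro i hi
    simp only [mem_filter, mem_univ, true_and] at hi ⊢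
    omega
  refine ⟨card_le_card h1, ?_⟩
  unfold lowc highc
  rw [← card_sdiff_of_subset h1]
  apply card_le_card
  intro i hi
  simp only [mem_sdiff, mem_filter, mem_univ, true_and] at hi ⊢
  omega

/-- Task E2.  Skipping a scale.

Paper proof.  Same states.  `∑_{F<fc} fc ≤ x * highc F ρ + ∑_{x<fc} fc`.  Mass: for fixed `z` sum over the
labels in `pts (ρ i)` of the pigeons with `F < fc (ρ i) ≤ x`:
`≤ Ac N c * 2^L * wt x ρ * ∏ 2^{fc (ρ i)} = Ac N c * 2^L * wt F ρ` and
`Ac N c ≤ Ac N c' * 2^{N/x}` with `c' = lowc F ρ` (`Ac_gap`). -/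
theorem end_skip {σ : Fin (N + 1) → Lab b → Fin N} {x : ℕ} {ρ : Vis b N} {M : ℝ}
    (hB : Big b N x) (h : EndD σ x ρ M)
    (hn : (highc (nx x) ρ : ℝ) < (N : ℝ) / (x : ℝ) ^ 2) :
    EndD σ (nx x) ρ M := by
  obtain ⟨ι, hι, μ, s, L, hμ, hM, hE, hG, hL, hz⟩ := h
  have hx0 := hB.x0
  have h1 := nx_lt hx0
  have h2 := nx_ge hx0
  set F := nx x with hF
  have hFx : F ≤ x := by omega
  have hxp : (0 : ℝ) < x := Nat.cast_pos.2 (Nat.lt_of_le_of_lt (Nat.zero_le _) h1)
  have hFp : (0 : ℝ) < F := Nat.cast_pos.2 (Nat.lt_of_lt_of_le (by norm_num) h2)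
  have hratio : 1000 * (F : ℝ) ≤ x := by
    have h := (Nat.cast_le (α := ℝ)).2 h1.le
    rwa [Nat.cast_mul, Nat.cast_ofNat] at h
  have hN1 : (0 : ℝ) < (N : ℝ) + 1 := by positivity
  have key : ∀ c : ℝ, 0 ≤ c → c ≤ 1000 → c * (((N : ℝ) + 1) / x) ≤ ((N : ℝ) + 1) / F := by
    intro c hc hc'
    rw [← mul_div_assoc, div_le_div_iff₀ hxp hFp]
    have : c * F ≤ x := (mul_le_mul_of_nonneg_right hc' hFp.le).trans hratio
    calc c * ((N : ℝ) + 1) * F = ((N : ℝ) + 1) * (c * F) := by ring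
      _ ≤ ((N : ℝ) + 1) * x := mul_le_mul_of_nonneg_left this hN1.le
  have hNx : (N : ℝ) / x ≤ ((N : ℝ) + 1) / x := by
    gcongr; linarith
  have hgap := EndsB_gap hFx ρ
  refine ⟨ι, hι, μ, s, L + (N : ℝ) / x, hμ, hM, ⟨div_sq_le_dl hB hn, ?_⟩, ?_, ?_, ?_⟩
  · -- total number of free bits
    have e1 : (∑ i ∈ univ.filter (fun i => F < fc (ρ i)), fc (ρ i)) ≤
        x * highc F ρ + ∑ i ∈ univ.filter (fun i => x < fc (ρ i)), fc (ρ i) := by
      have e2 : (∑ i ∈ univ.filter (fun i => F < fc (ρ i)), fc (ρ i)) ≤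
          ∑ i ∈ univ.filter (fun i => F < fc (ρ i)), (x + if x < fc (ρ i) then fc (ρ i) else 0) := by
        apply sum_le_sum
        intro i _
        split_ifs <;> omega
      refine e2.trans ?_
      rw [sum_add_distrib, sum_const, smul_eq_mul, mul_comm]
      apply add_le_add (le_of_eq rfl)
      rw [← sum_filter, filter_filter]
      apply sum_le_sum_of_subset
      intro i hi
      simp only [mem_filter, mem_univ, true_and] at hi ⊢
      exact hi.2
    have e3 : ((∑ i ∈ univ.filter (fun i => F < fc (ρ i)), fc (ρ i) : ℕ) : ℝ) ≤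
        x * highc F ρ + ((∑ i ∈ univ.filter (fun i => x < fc (ρ i)), fc (ρ i) : ℕ) : ℝ) := by
      exact_mod_cast e1
    have e4 : (x : ℝ) * highc F ρ ≤ (N : ℝ) / x := by
      have : (x : ℝ) * highc F ρ ≤ x * ((N : ℝ) / (x : ℝ) ^ 2) := by
        apply mul_le_mul_of_nonneg_left hn.le hxp.le
      refine this.trans (le_of_eq ?_)
      field_simp
    have := key 2 (by norm_num) (by norm_num)
    linarith [hE.bb]
  · intro k
    have hk := hG k
    obtain ⟨D, hD1, hD2⟩ := hk.old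
    refine ⟨⟨fun i hi => hk.core.low i (hi.trans hFx), hk.core.lab, hk.core.inT, hk.core.inj⟩, ?_,
      D, hD1, fun T' hT' => hD2 T' (hT'.of_nx hx0)⟩
    have := key 1 (by norm_num) (by norm_num)
    linarith [hk.pen]
  · have := key 9 (by norm_num) (by norm_num)
    have h8 : ((N : ℝ) + 1) / F ≤ 8 * ((N : ℝ) + 1) / F := by
      gcongr; linarith
    have h9 : 8 * ((N : ℝ) + 1) / x = 8 * (((N : ℝ) + 1) / x) := by ring
    rw [h9] at hL
    linarith
  · intro z
    by_cases hne : IsEmpty ι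
    · rw [Finset.univ_eq_empty, sum_empty]
      have a1 := Ac_nonneg (N := N) (EndsB_lowc_le F ρ)
      have a2 : 0 ≤ wt F ρ := by
        unfold wt
        apply prod_nonneg
        intro j _
        split_ifs <;> positivity
      positivity
    rw [not_isEmpty_iff] at hne
    obtain ⟨k0⟩ := hne
    have hcN : lowc x ρ ≤ N := EndsB_core_card (hG k0).core
    set t : Fin (N + 1) → Finset (Lab b) := fun j =>
      if F < fc (ρ j) ∧ fc (ρ j) ≤ x then pts (ρ j) else {z j} with ht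
    have hcard : ((Fintype.piFinset t).card : ℝ) =
        ∏ j, (if F < fc (ρ j) ∧ fc (ρ j) ≤ x then (2 : ℝ) ^ fc (ρ j) else 1) := by
      rw [Fintype.card_piFinset, Nat.cast_prod]
      apply prod_congr rfl
      intro j _
      simp only [ht]
      split_ifs
      · rw [card_pts]; push_cast; rfl
      · simp
    have hterm : ∀ k, (if (∀ j, fc (ρ j) ≤ F → (s k).y j = z j) then μ k / 2 ^ (s k).pen else 0) ≤
        ∑ w ∈ Fintype.piFinset t,
          (if (∀ j, fc (ρ j) ≤ x → (s k).y j = w j) then μ k / 2 ^ (s k).pen else 0) := by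
      intro k
      have hnn : 0 ≤ μ k / 2 ^ (s k).pen := by have := hμ k; positivity
      split_ifs with hk
      · have hmem : (fun j => if F < fc (ρ j) ∧ fc (ρ j) ≤ x then (s k).y j else z j) ∈
            Fintype.piFinset t := by
          rw [Fintype.mem_piFinset]
          intro j
          simp only [ht]
          split_ifs with hj
          · exact (hG k).core.lab j ((hG k).core.low j hj.2)
          · simp
        refine le_trans (le_of_eq ?_) (single_le_sum (f := fun w : Fin (N + 1) → Lab b =>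
          (if (∀ j, fc (ρ j) ≤ x → (s k).y j = w j) then μ k / 2 ^ (s k).pen else 0))
          (fun w _ => by split_ifs; exacts [hnn, le_rfl]) hmem)
        rw [if_pos]
        intro j hj
        split_ifs with hj'
        · rfl
        · exact hk j (by omega)
      · exact sum_nonneg (fun w _ => by split_ifs; exacts [hnn, le_rfl])
    calc (∑ k, if (∀ j, fc (ρ j) ≤ F → (s k).y j = z j) then μ k / 2 ^ (s k).pen else 0)
        ≤ ∑ k, ∑ w ∈ Fintype.piFinset t,
          (if (∀ j, fc (ρ j) ≤ x → (s k).y j = w j) then μ k / 2 ^ (s k).pen else 0) :=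
          sum_le_sum fun k _ => hterm k
      _ = ∑ w ∈ Fintype.piFinset t, ∑ k,
          (if (∀ j, fc (ρ j) ≤ x → (s k).y j = w j) then μ k / 2 ^ (s k).pen else 0) :=
          sum_comm
      _ ≤ ∑ w ∈ Fintype.piFinset t, Ac N (lowc x ρ) * (2 : ℝ) ^ L * wt x ρ :=
          sum_le_sum fun w _ => hz w
      _ = Ac N (lowc x ρ) * (2 : ℝ) ^ L * (((Fintype.piFinset t).card : ℝ) * wt x ρ) := by
          rw [sum_const, nsmul_eq_mul]; ring
      _ = Ac N (lowc x ρ) * (2 : ℝ) ^ L * wt F ρ := by rw [hcard, EndsB_wt hFx]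
      _ ≤ (Ac N (lowc F ρ) * (2 : ℝ) ^ ((N : ℝ) / x)) * (2 : ℝ) ^ L * wt F ρ := by
          have a2 : 0 ≤ wt F ρ := by
            unfold wt
            apply prod_nonneg
            intro j _
            split_ifs <;> positivity
          have a3 := Ac_gap hx0 hgap.1 hcN (le_trans (by exact_mod_cast hgap.2) hn.le)
          gcongr
      _ = Ac N (lowc F ρ) * (2 : ℝ) ^ (L + (N : ℝ) / x) * wt F ρ := by
          rw [Real.rpow_add (by norm_num)]; ring

end H616TR
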