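import Pool.Agent.H616R2.TR.NumC

set_option autoImplicit false

/-! Task E3: mass of ended distributions. -/

namespace H616TR

open Finset

variable {b N : ℕ}

/-- Task E3.  The mass of an ended distribution: sum the bound over all labels of low pigeons.
`M ≤ 2^{(N+1)/x} ∏_{low} 2^{fc} * Ac N c * 2^L * wt x ρ`, and
`wt x ρ * ∏_{low} 2^{fc} = P0 ρ` (`Ac_le`). -/
theorem end_mass {σ : Fin (N + 1) → Lab b → Fin N} {x : ℕ} {ρ : Vis b N} {M : ℝ}
    (hx : 1000 ≤ x) (h : EndD σ x ρ M) :
    M ≤ 2 ^ (2 * (N + 1)) * P0 ρ := by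
  classical
  obtain ⟨ι, hι, μ, s, L, hμ, hM, _, hg, hL, hz⟩ := h
  have hP0 : 0 ≤ P0 ρ := Finset.prod_nonneg fun i _ => by positivity
  rcases isEmpty_or_nonempty ι with he | ⟨⟨k0⟩⟩
  · rw [← hM]
    simp only [Finset.univ_eq_empty, Finset.sum_empty]
    positivity
  -- the number of low pigeons is at most `N`
  have hlow : lowc x ρ ≤ N := by
    have hc := (hg k0).core
    have h1 : lowc x ρ ≤ (univ : Finset (Fin N)).card := by
      unfold lowc
      apply Finset.card_le_card_of_injOn (fun i => σ i ((s k0).y i))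
      · intro i _
        simp
      · intro i hi j hj hij
        simp only [Finset.coe_filter, Finset.mem_univ, true_and, Set.mem_ofPred_eq] at hi hj
        exact hc.inj i (hc.low i hi) j (hc.low j hj) hij
    simpa using h1
  have hxpos : (0 : ℝ) < x := by
    have : (1000 : ℝ) ≤ x := by exact_mod_cast hx
    linarith
  -- the set of labels
  set Z : Finset (Fin (N + 1) → Lab b) := Fintype.piFinset (fun j =>
    if fc (ρ j) ≤ x then pts (ρ j) else {fun _ => false}) with hZ
  have hZc : (Z.card : ℝ) = ∏ j, (if fc (ρ j) ≤ x then (2 : ℝ) ^ fc (ρ j) else 1) := by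
    rw [hZ, Fintype.card_piFinset]
    push_cast
    apply Finset.prod_congr rfl
    intro j _
    split_ifs
    · rw [card_pts]; push_cast; rfl
    · simp
  -- lower bound of the sum over `Z`
  have hlb : M ≤ 2 ^ (((N : ℝ) + 1) / x) * ∑ z ∈ Z,
      ∑ k, if (∀ j, fc (ρ j) ≤ x → (s k).y j = z j) then μ k / 2 ^ (s k).pen else 0 := by
    rw [Finset.sum_comm, ← hM, Finset.mul_sum]
    apply Finset.sum_le_sum
    intro k _
    have hc := (hg k).core
    set zk : Fin (N + 1) → Lab b := fun j => if fc (ρ j) ≤ x then (s k).y j else fun _ => false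
      with hzk
    have hzkZ : zk ∈ Z := by
      rw [hZ, Fintype.mem_piFinset]
      intro j
      simp only [hzk]
      split_ifs with hj
      · exact hc.lab j (hc.low j hj)
      · simp
    have h1 : μ k / 2 ^ (s k).pen ≤ ∑ z ∈ Z,
        (if (∀ j, fc (ρ j) ≤ x → (s k).y j = z j) then μ k / 2 ^ (s k).pen else 0) := by
      have h2 : (if (∀ j, fc (ρ j) ≤ x → (s k).y j = zk j) then μ k / 2 ^ (s k).pen else 0)
          = μ k / 2 ^ (s k).pen := by
        rw [if_pos]
        intro j hj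
        simp only [hzk, if_pos hj]
      refine h2.symm.le.trans ?_
      exact Finset.single_le_sum (f := fun z : Fin (N + 1) → Lab b =>
        if (∀ j, fc (ρ j) ≤ x → (s k).y j = z j) then μ k / 2 ^ (s k).pen else 0)
        (fun z _ => by
          have := hμ k
          positivity) hzkZ
    calc μ k = 2 ^ (s k).pen * (μ k / 2 ^ (s k).pen) := by
          field_simp
      _ ≤ 2 ^ (((N : ℝ) + 1) / x) * (μ k / 2 ^ (s k).pen) := by
          apply mul_le_mul_of_nonneg_right _ (by have := hμ k; positivity)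
          rw [← Real.rpow_natCast]
          exact Real.rpow_le_rpow_of_exponent_le (by norm_num) (hg k).pen
      _ ≤ _ := mul_le_mul_of_nonneg_left h1 (by positivity)
  -- upper bound
  have hub : ∑ z ∈ Z, (∑ k, if (∀ j, fc (ρ j) ≤ x → (s k).y j = z j) then
      μ k / 2 ^ (s k).pen else 0) ≤ Z.card * (Ac N (lowc x ρ) * (2 : ℝ) ^ L * wt x ρ) := by
    refine (Finset.sum_le_card_nsmul _ _ _ fun z _ => hz z).trans ?_
    rw [nsmul_eq_mul]
  have hwt : (Z.card : ℝ) * wt x ρ = P0 ρ := by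
    rw [hZc, wt, P0, ← Finset.prod_mul_distrib]
    apply Finset.prod_congr rfl
    intro j _
    split_ifs
    · have h1 : (1 / 2 : ℝ) ^ b = (1 / 2) ^ (b - fc (ρ j)) * (1 / 2) ^ fc (ρ j) := by
        rw [← pow_add, Nat.sub_add_cancel (fc_le _)]
      rw [h1, mul_comm, mul_assoc, ← mul_pow]
      norm_num
    · rw [one_mul]
  have hAc0 : 0 ≤ Ac N (lowc x ρ) := Ac_nonneg (by omega)
  calc M ≤ 2 ^ (((N : ℝ) + 1) / x) * (Z.card * (Ac N (lowc x ρ) * (2 : ℝ) ^ L * wt x ρ)) :=
        hlb.trans (mul_le_mul_of_nonneg_left hub (by positivity))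
    _ = (2 ^ (((N : ℝ) + 1) / x) * Ac N (lowc x ρ) * (2 : ℝ) ^ L) * (Z.card * wt x ρ) := by ring
    _ = (2 ^ (((N : ℝ) + 1) / x) * Ac N (lowc x ρ) * (2 : ℝ) ^ L) * P0 ρ := by rw [hwt]
    _ ≤ 2 ^ (2 * (N + 1)) * P0 ρ := by
      apply mul_le_mul_of_nonneg_right _ hP0
      calc 2 ^ (((N : ℝ) + 1) / x) * Ac N (lowc x ρ) * (2 : ℝ) ^ L
          ≤ 2 ^ (((N : ℝ) + 1) / x) * (2 : ℝ) ^ ((3 / 2 : ℝ) * N) * (2 : ℝ) ^ L := by
            apply mul_le_mul_of_nonneg_right _ (by positivity)
            exact mul_le_mul_of_nonneg_left (Ac_le hlow) (by positivity)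
        _ = (2 : ℝ) ^ (((N : ℝ) + 1) / x + (3 / 2 : ℝ) * N + L) := by
            rw [Real.rpow_add (by norm_num), Real.rpow_add (by norm_num)]
        _ ≤ (2 : ℝ) ^ ((2 * (N + 1) : ℕ) : ℝ) := by
            apply Real.rpow_le_rpow_of_exponent_le (by norm_num)
            push_cast
            have h1 : ((N : ℝ) + 1) / x ≤ ((N : ℝ) + 1) / 1000 := by
              apply div_le_div_of_nonneg_left (by positivity) (by norm_num)
              exact_mod_cast hx
            have h2 : 8 * ((N : ℝ) + 1) / x ≤ 8 * ((N : ℝ) + 1) / 1000 := by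
              apply div_le_div_of_nonneg_left (by positivity) (by norm_num)
              exact_mod_cast hx
            have h3 : (0 : ℝ) ≤ N := Nat.cast_nonneg N
            linarith
        _ = 2 ^ (2 * (N + 1)) := by rw [Real.rpow_natCast]

/-- Task E3.  Giving up: `∑ fc (ρ i) ≤ (N+1)(x+1) ≤ (N+1) B0`. -/
theorem give_up {σ : Fin (N + 1) → Lab b → Fin N} {x : ℕ} {ρ : Vis b N} {M : ℝ}
    (hx : 1000 ≤ x) (hx' : x < B0) (h : EndD σ x ρ M) :
    M ≤ (2 : ℝ) ^ ((B0 + 2) * (N + 1)) / (2 : ℝ) ^ (b * (N + 1)) := by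
  classical
  have hm := end_mass hx h
  obtain ⟨ι, hι, μ, s, L, hμ, hM, hv, hg, hL, hz⟩ := h
  refine hm.trans ?_
  -- the sum of the numbers of free bits
  have hsum : ∑ i, fc (ρ i) ≤ B0 * (N + 1) := by
    have h1 : ∑ i, fc (ρ i) = ∑ i ∈ univ.filter (fun i => x < fc (ρ i)), fc (ρ i)
        + ∑ i ∈ univ.filter (fun i => ¬ x < fc (ρ i)), fc (ρ i) :=
      (Finset.sum_filter_add_sum_filter_not _ _ _).symm
    have h2 : ∑ i ∈ univ.filter (fun i => x < fc (ρ i)), fc (ρ i) ≤ N + 1 := by
      have h3 := hv.bb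
      have h4 : ((N : ℝ) + 1) / x ≤ (N : ℝ) + 1 := by
        apply div_le_self (by positivity)
        have : (1000 : ℝ) ≤ x := by exact_mod_cast hx
        linarith
      have h5 := h3.trans h4
      exact_mod_cast h5
    have h3 : ∑ i ∈ univ.filter (fun i => ¬ x < fc (ρ i)), fc (ρ i) ≤ x * (N + 1) := by
      calc ∑ i ∈ univ.filter (fun i => ¬ x < fc (ρ i)), fc (ρ i)
          ≤ (univ.filter (fun i => ¬ x < fc (ρ i))).card • x := by
            apply Finset.sum_le_card_nsmul
            intro i hi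
            have := (Finset.mem_filter.1 hi).2
            omega
        _ ≤ (N + 1) * x := by
            rw [smul_eq_mul]
            apply Nat.mul_le_mul_right
            refine (Finset.card_filter_le _ _).trans ?_
            simp
        _ = x * (N + 1) := Nat.mul_comm _ _
    calc ∑ i, fc (ρ i) ≤ (N + 1) + x * (N + 1) := by rw [h1]; exact Nat.add_le_add h2 h3
      _ = (x + 1) * (N + 1) := by ring
      _ ≤ B0 * (N + 1) := Nat.mul_le_mul_right _ hx'
  have hP : P0 ρ * (2 : ℝ) ^ (b * (N + 1)) = 2 ^ (∑ i, fc (ρ i)) := by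
    have h1 : (2 : ℝ) ^ (b * (N + 1)) = ∏ _i : Fin (N + 1), (2 : ℝ) ^ b := by
      rw [Finset.prod_const, Finset.card_univ, Fintype.card_fin, pow_mul]
    rw [h1, P0, ← Finset.prod_mul_distrib, ← Finset.prod_pow_eq_pow_sum]
    apply Finset.prod_congr rfl
    intro i _
    have h2 : (2 : ℝ) ^ b = 2 ^ (b - fc (ρ i)) * 2 ^ fc (ρ i) := by
      rw [← pow_add, Nat.sub_add_cancel (fc_le _)]
    rw [h2, ← mul_assoc, ← mul_pow]
    norm_num
  rw [le_div_iff₀ (by positivity), mul_assoc, hP, ← pow_add]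
  apply pow_le_pow_right₀ (by norm_num)
  calc 2 * (N + 1) + ∑ i, fc (ρ i) ≤ 2 * (N + 1) + B0 * (N + 1) := Nat.add_le_add_left hsum _
    _ = (B0 + 2) * (N + 1) := by ring

/-- Task E3.  No running hidden state is consistent with a collision. -/
theorem run_collision {σ : Fin (N + 1) → Lab b → Fin N} {x : ℕ} {ρ : Vis b N} {M : ℝ}
    (h : RunD σ x ρ M) {i j : Fin (N + 1)} (hij : i ≠ j) {y y' : Lab b}
    (hi : ∀ t, ρ i t = some (y t)) (hj : ∀ t, ρ j t = some (y' t)) (hc : σ i y = σ j y') :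
    M ≤ 0 := by
  obtain ⟨ι, hι, μ, s, R, L, hμ, hM, _, hg, _, _⟩ := h
  have hfi : fc (ρ i) = 0 := by
    unfold fc fr
    rw [Finset.card_eq_zero, Finset.filter_eq_empty_iff]
    intro t _
    rw [hi t]
    simp
  have hfj : fc (ρ j) = 0 := by
    unfold fc fr
    rw [Finset.card_eq_zero, Finset.filter_eq_empty_iff]
    intro t _
    rw [hj t]
    simp
  have he : IsEmpty ι := by
    constructor
    intro k
    have hk := (hg k).core
    have h1 := hk.low i (by rw [hfi]; exact Nat.zero_le _)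
    have h2 := hk.low j (by rw [hfj]; exact Nat.zero_le _)
    have h3 : (s k).y i = y := by
      have := mem_pts.1 (hk.lab i h1)
      funext t
      exact this t (y t) (hi t)
    have h4 : (s k).y j = y' := by
      have := mem_pts.1 (hk.lab j h2)
      funext t
      exact this t (y' t) (hj t)
    apply hij
    apply hk.inj i h1 j h2
    rw [h3, h4, hc]
  rw [← hM]
  simp

end H616TR
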