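import Pool.Agent.H616R2.TR.Basic

set_option autoImplicit false

/-! Task F1: the failure potential. -/

namespace H616TR

open Finset

variable {b N : ℕ}

theorem Fail_vv_le (τ : Lab b → Fin N) (x : ℕ) (T : Finset (Fin N)) (n : ℕ) :
    ∀ r : Par b, vv τ x T n r ≤ 1 := by
  induction n with
  | zero =>
    intro r
    unfold vv
    split_ifs
    · exact le_rfl
    · exact zero_le_one
  | succ n ih =>
    intro r
    unfold vv
    split_ifs
    · exact le_rfl
    · exact zero_le_one
    · refine Finset.sup_le (fun t _ => ?_)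
      have h : vv τ x T n (up r t false) + vv τ x T n (up r t true) ≤ 1 + 1 :=
        add_le_add (ih _) (ih _)
      calc (vv τ x T n (up r t false) + vv τ x T n (up r t true)) / 2 ≤ (1 + 1) / 2 :=
            div_le_div_of_nonneg_right h zero_le_two
        _ = 1 := by norm_num

theorem V_le_one (τ : Lab b → Fin N) (x : ℕ) (T : Finset (Fin N)) (r : Par b) :
    V τ x T r ≤ 1 :=
  Fail_vv_le τ x T _ r

/-- value of a cube of dimension at most `x` -/
theorem V_low (τ : Lab b → Fin N) (x : ℕ) (T : Finset (Fin N)) (r : Par b) (h : fc r ≤ x) :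
    V τ x T r = if Atyp τ x r T then 1 else 0 := by
  unfold V
  cases hn : fc r with
  | zero => rw [vv]
  | succ n => rw [vv, if_pos h]

/-- value of a cube of dimension larger than `x` -/
theorem V_high (τ : Lab b → Fin N) (x : ℕ) (T : Finset (Fin N)) (r : Par b) (h : x < fc r) :
    V τ x T r = (fr r).sup (fun t => (V τ x T (up r t false) + V τ x T (up r t true)) / 2) := by
  unfold V
  cases hn : fc r with
  | zero => omega
  | succ n =>
    rw [vv, if_neg (by omega)]
    refine Finset.sup_congr rfl (fun t ht => ?_)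
    have h1 := fc_up (mem_fr.mp ht) false
    have h2 := fc_up (mem_fr.mp ht) true
    have e1 : fc (up r t false) = n := by omega
    have e2 : fc (up r t true) = n := by omega
    rw [e1, e2]

/-- supermartingale property (for low cubes: a subcube of a typical cube is typical) -/
theorem V_super (τ : Lab b → Fin N) (x : ℕ) (T : Finset (Fin N)) (r : Par b) (t : Fin b)
    (ht : r t = none) :
    ((V τ x T (up r t false) : NNReal) : ℝ) + ((V τ x T (up r t true) : NNReal) : ℝ)
      ≤ 2 * ((V τ x T r : NNReal) : ℝ) := by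
  rcases le_or_gt (fc r) x with h | h
  · have hu : ∀ v, ((V τ x T (up r t v) : NNReal) : ℝ) ≤ ((V τ x T r : NNReal) : ℝ) := by
      intro v
      have h1 := fc_up ht v
      rw [V_low τ x T r h, V_low τ x T (up r t v) (by omega)]
      by_cases hA : Atyp τ x (up r t v) T
      · have hA' : Atyp τ x r T := by
          obtain ⟨r', hr', h2⟩ := hA
          exact ⟨r', (sub_up ht v).trans hr', h2⟩
        rw [if_pos hA, if_pos hA']
      · rw [if_neg hA]
        rw [NNReal.coe_zero]
        exact NNReal.coe_nonneg _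
    have h1 := hu false
    have h2 := hu true
    linarith
  · have h1 : (V τ x T (up r t false) + V τ x T (up r t true)) / 2 ≤ V τ x T r := by
      rw [V_high τ x T r h]
      exact Finset.le_sup (f := fun t => (V τ x T (up r t false) + V τ x T (up r t true)) / 2)
        (mem_fr.mpr ht)
    have h2 : (((V τ x T (up r t false) + V τ x T (up r t true)) / 2 : NNReal) : ℝ) ≤
        ((V τ x T r : NNReal) : ℝ) := by exact_mod_cast h1
    push_cast at h2
    linarith

theorem FF_nonneg (σ : Fin (N + 1) → Lab b → Fin N) (ρ : Vis b N) : 0 ≤ FF σ ρ := by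
  unfold FF
  exact Finset.sum_nonneg (fun _ _ => Finset.sum_nonneg (fun _ _ => Finset.sum_nonneg
    (fun _ _ => Finset.prod_nonneg (fun _ _ => NNReal.coe_nonneg _))))

theorem P0_pos (ρ : Vis b N) : 0 < P0 ρ := by
  unfold P0
  exact Finset.prod_pos (fun _ _ => by positivity)

theorem P0_emp : P0 (fun _ => emp : Vis b N) = 1 := by
  unfold P0
  simp [fc_emp]

theorem P0_upv (ρ : Vis b N) (i : Fin (N + 1)) (t : Fin b) (ht : ρ i t = none) (v : Bool) :
    P0 (upv ρ i t v) = P0 ρ / 2 := by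
  classical
  unfold P0
  rw [← Finset.mul_prod_erase univ _ (Finset.mem_univ i),
    ← Finset.mul_prod_erase univ (fun j => (1 / 2 : ℝ) ^ (b - fc (ρ j))) (Finset.mem_univ i)]
  have h1 : ∏ j ∈ univ.erase i, (1 / 2 : ℝ) ^ (b - fc (upv ρ i t v j)) =
      ∏ j ∈ univ.erase i, (1 / 2 : ℝ) ^ (b - fc (ρ j)) := by
    refine Finset.prod_congr rfl (fun j hj => ?_)
    rw [upv_ne ρ i t v (Finset.ne_of_mem_erase hj)]
  rw [h1, upv_self]
  have h2 := fc_up ht v
  have h3 := fc_le (ρ i)
  have h4 : b - fc (up (ρ i) t v) = (b - fc (ρ i)) + 1 := by omega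
  rw [h4, pow_succ]
  ring

theorem Fail_FF_sum (σ : Fin (N + 1) → Lab b → Fin N) (ρ : Vis b N) (i : Fin (N + 1)) (t : Fin b)
    (ht : ρ i t = none) :
    FF σ (upv ρ i t false) + FF σ (upv ρ i t true) ≤ 2 * FF σ ρ := by
  classical
  unfold FF
  rw [← Finset.sum_add_distrib, Finset.mul_sum]
  refine Finset.sum_le_sum (fun x _ => ?_)
  rw [← Finset.sum_add_distrib, Finset.mul_sum]
  refine Finset.sum_le_sum (fun T _ => ?_)
  rw [← Finset.sum_add_distrib, Finset.mul_sum]
  refine Finset.sum_le_sum (fun S _ => ?_)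
  by_cases hi : i ∈ S
  · rw [← Finset.mul_prod_erase S (fun j => ((V (σ j) x T (upv ρ i t false j) : NNReal) : ℝ)) hi,
      ← Finset.mul_prod_erase S (fun j => ((V (σ j) x T (upv ρ i t true j) : NNReal) : ℝ)) hi,
      ← Finset.mul_prod_erase S (fun j => ((V (σ j) x T (ρ j) : NNReal) : ℝ)) hi]
    have h1 : ∀ v, ∏ j ∈ S.erase i, ((V (σ j) x T (upv ρ i t v j) : NNReal) : ℝ) =
        ∏ j ∈ S.erase i, ((V (σ j) x T (ρ j) : NNReal) : ℝ) := by
      intro v
      refine Finset.prod_congr rfl (fun j hj => ?_)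
      rw [upv_ne ρ i t v (Finset.ne_of_mem_erase hj)]
    rw [h1, h1, upv_self, upv_self, ← add_mul, ← mul_assoc]
    exact mul_le_mul_of_nonneg_right (V_super (σ i) x T (ρ i) t ht)
      (Finset.prod_nonneg (fun _ _ => NNReal.coe_nonneg _))
  · have h1 : ∀ v, ∏ j ∈ S, ((V (σ j) x T (upv ρ i t v j) : NNReal) : ℝ) =
        ∏ j ∈ S, ((V (σ j) x T (ρ j) : NNReal) : ℝ) := by
      intro v
      refine Finset.prod_congr rfl (fun j hj => ?_)
      have : j ≠ i := fun h => hi (h ▸ hj)
      rw [upv_ne ρ i t v this]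
    rw [h1, h1]
    linarith

theorem FF_super (σ : Fin (N + 1) → Lab b → Fin N) (ρ : Vis b N) (i : Fin (N + 1)) (t : Fin b)
    (ht : ρ i t = none) :
    P0 (upv ρ i t false) * FF σ (upv ρ i t false) + P0 (upv ρ i t true) * FF σ (upv ρ i t true)
      ≤ P0 ρ * FF σ ρ := by
  rw [P0_upv ρ i t ht, P0_upv ρ i t ht]
  have h1 := Fail_FF_sum σ ρ i t ht
  have h2 := P0_pos ρ
  nlinarith

theorem FF_fail (σ : Fin (N + 1) → Lab b → Fin N) (x : ℕ) (hx : x ∈ Xset b) (ρ : Vis b N)
    (h : ¬ ProA σ x ρ) : 1 ≤ FF σ ρ := by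
  classical
  unfold ProA at h
  push Not at h
  obtain ⟨T, hT, hc⟩ := h
  obtain ⟨S, hS, hSc⟩ := Finset.exists_subset_card_eq (Nat.succ_le_of_lt hc)
  have h1 : ∏ i ∈ S, ((V (σ i) x T (ρ i) : NNReal) : ℝ) = 1 := by
    refine Finset.prod_eq_one (fun i hi => ?_)
    have h2 := (Finset.mem_filter.mp (hS hi)).2
    rw [V_low _ _ _ _ h2.1, if_pos h2.2]
    simp
  have hpos : ∀ (x' : ℕ) (T' : Finset (Fin N)) (S' : Finset (Fin (N + 1))),
      0 ≤ ∏ i ∈ S', ((V (σ i) x' T' (ρ i) : NNReal) : ℝ) :=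
    fun _ _ _ => Finset.prod_nonneg (fun _ _ => NNReal.coe_nonneg _)
  unfold FF
  calc (1 : ℝ) = ∏ i ∈ S, ((V (σ i) x T (ρ i) : NNReal) : ℝ) := h1.symm
    _ ≤ ∑ S ∈ powersetCard (dl N x + 1) (univ : Finset (Fin (N + 1))),
        ∏ i ∈ S, ((V (σ i) x T (ρ i) : NNReal) : ℝ) := by
      refine Finset.single_le_sum (f := fun S => ∏ i ∈ S, ((V (σ i) x T (ρ i) : NNReal) : ℝ))
        (fun S' _ => hpos x T S') ?_
      rw [mem_powersetCard]
      exact ⟨Finset.subset_univ _, hSc⟩
    _ ≤ ∑ T ∈ (univ : Finset (Finset (Fin N))).filter (fun T => InLim N x T),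
        ∑ S ∈ powersetCard (dl N x + 1) (univ : Finset (Fin (N + 1))),
          ∏ i ∈ S, ((V (σ i) x T (ρ i) : NNReal) : ℝ) := by
      refine Finset.single_le_sum (f := fun T => ∑ S ∈ powersetCard (dl N x + 1)
        (univ : Finset (Fin (N + 1))), ∏ i ∈ S, ((V (σ i) x T (ρ i) : NNReal) : ℝ))
        (fun T' _ => Finset.sum_nonneg (fun S' _ => hpos x T' S')) ?_
      rw [mem_filter]
      exact ⟨Finset.mem_univ _, hT⟩
    _ ≤ _ := by
      refine Finset.single_le_sum (f := fun x => ∑ T ∈ (univ : Finset (Finset (Fin N))).filter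
        (fun T => InLim N x T), ∑ S ∈ powersetCard (dl N x + 1) (univ : Finset (Fin (N + 1))),
          ∏ i ∈ S, ((V (σ i) x T (ρ i) : NNReal) : ℝ))
        (fun x' _ => Finset.sum_nonneg (fun T' _ => Finset.sum_nonneg
          (fun S' _ => hpos x' T' S'))) hx

end H616TR
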