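import Pool.Agent.H616R2.TR.AtypP
import Pool.Agent.H616R2.TR.Fail

set_option autoImplicit false

/-! Task P4: the steering lemma. -/

namespace H616TR

open Finset

variable {b N : ℕ}

theorem Moment_av_congr {τ τ' : Lab b → Fin N} {r : Par b} (T : Finset (Fin N))
    (h : ∀ y ∈ pts r, τ y = τ' y) : av τ r T = av τ' r T := by
  unfold av
  congr 1
  apply Finset.filter_congr
  intro y hy
  rw [h y hy]

theorem Moment_Atyp_congr {τ τ' : Lab b → Fin N} {x : ℕ} {r : Par b} {T : Finset (Fin N)}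
    (h : ∀ y ∈ pts r, τ y = τ' y) : Atyp τ x r T ↔ Atyp τ' x r T := by
  unfold Atyp
  constructor
  · rintro ⟨r', h1, h2, h3⟩
    refine ⟨r', h1, h2, ?_⟩
    rwa [← Moment_av_congr T fun y hy => h y (pts_mono h1 hy)]
  · rintro ⟨r', h1, h2, h3⟩
    refine ⟨r', h1, h2, ?_⟩
    rwa [Moment_av_congr T fun y hy => h y (pts_mono h1 hy)]

theorem Moment_vv_dep (x : ℕ) (T : Finset (Fin N)) (n : ℕ) : ∀ (r : Par b) (τ τ' : Lab b → Fin N),
    (∀ y ∈ pts r, τ y = τ' y) → vv τ x T n r = vv τ' x T n r := by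
  induction n with
  | zero =>
    intro r τ τ' h
    simp only [vv, Moment_Atyp_congr h]
  | succ n ih =>
    intro r τ τ' h
    simp only [vv, Moment_Atyp_congr h]
    split_ifs
    · rfl
    · rfl
    · apply Finset.sup_congr rfl
      intro t ht
      have ht' : r t = none := mem_fr.1 ht
      rw [ih (up r t false) τ τ' fun y hy => h y (pts_mono (sub_up ht' false) hy),
        ih (up r t true) τ τ' fun y hy => h y (pts_mono (sub_up ht' true) hy)]

/-- `V τ x T r` only depends on the values of `τ` on `pts r` -/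
theorem V_dep (x : ℕ) (T : Finset (Fin N)) (r : Par b) (τ τ' : Lab b → Fin N)
    (h : ∀ y ∈ pts r, τ y = τ' y) : V τ x T r = V τ' x T r :=
  Moment_vv_dep x T (fc r) r τ τ' h

/-- Jensen's inequality for `exp` -/
theorem Moment_jensen [NeZero N] (f : (Lab b → Fin N) → ℝ) :
    Real.exp (avg f) ≤ avg (fun τ => Real.exp (f τ)) := by
  have h1 : avg (fun τ => Real.exp (avg f) * (1 - avg f) + Real.exp (avg f) * f τ) ≤
      avg (fun τ => Real.exp (f τ)) := by
    apply avg_mono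
    intro τ
    have h := Real.add_one_le_exp (f τ - avg f)
    have h2 : Real.exp (f τ) = Real.exp (avg f) * Real.exp (f τ - avg f) := by
      rw [← Real.exp_add]; congr 1; ring
    rw [h2]
    nlinarith [Real.exp_pos (avg f)]
  rw [avg_add, avg_const, avg_mul_const] at h1
  calc Real.exp (avg f) = Real.exp (avg f) * (1 - avg f) + Real.exp (avg f) * avg f := by ring
    _ ≤ _ := h1

/-- one step of the recursion for the exponential moments -/
theorem Moment_step [NeZero N] {x : ℕ} {T : Finset (Fin N)} {k : ℕ} {c M : ℝ} (hc : 0 ≤ c)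
    (hM : ∀ r : Par b, fc r = x + k →
      avg (fun τ => Real.exp (c * ((V τ x T r : NNReal) : ℝ))) ≤ M)
    (r : Par b) (hr : fc r = x + (k + 1)) :
    avg (fun τ => Real.exp ((2 * c) * ((V τ x T r : NNReal) : ℝ))) ≤
      1 + ((x : ℝ) + (k + 1)) * (M ^ 2 - 1) := by
  classical
  have hlt : x < fc r := by omega
  -- pointwise bound
  have hpt : ∀ τ : Lab b → Fin N, Real.exp ((2 * c) * ((V τ x T r : NNReal) : ℝ)) ≤
      1 + ∑ t ∈ fr r, (Real.exp (c * ((V τ x T (up r t false) : NNReal) : ℝ)) *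
        Real.exp (c * ((V τ x T (up r t true) : NNReal) : ℝ)) + (-1)) := by
    intro τ
    have hne : (fr r).Nonempty := by
      rw [← Finset.card_pos]
      show 0 < fc r
      omega
    obtain ⟨t, ht, hs⟩ := Finset.exists_mem_eq_sup (fr r) hne
      (fun t => (V τ x T (up r t false) + V τ x T (up r t true)) / 2)
    have hV := V_high τ x T r hlt
    rw [hs] at hV
    have hterm : Real.exp ((2 * c) * ((V τ x T r : NNReal) : ℝ)) =
        Real.exp (c * ((V τ x T (up r t false) : NNReal) : ℝ)) *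
        Real.exp (c * ((V τ x T (up r t true) : NNReal) : ℝ)) := by
      rw [← Real.exp_add, hV]
      congr 1
      push_cast
      ring
    rw [hterm]
    have hnn : ∀ s ∈ fr r, 0 ≤ (Real.exp (c * ((V τ x T (up r s false) : NNReal) : ℝ)) *
        Real.exp (c * ((V τ x T (up r s true) : NNReal) : ℝ)) + (-1)) := by
      intro s _
      have h1 : 1 ≤ Real.exp (c * ((V τ x T (up r s false) : NNReal) : ℝ)) :=
        Real.one_le_exp (by positivity)
      have h2 : 1 ≤ Real.exp (c * ((V τ x T (up r s true) : NNReal) : ℝ)) :=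
        Real.one_le_exp (by positivity)
      nlinarith
    have := Finset.single_le_sum hnn ht
    linarith
  refine (avg_mono hpt).trans ?_
  rw [avg_add, avg_const, avg_sum]
  have hterm : ∀ t ∈ fr r, avg (fun τ => Real.exp (c * ((V τ x T (up r t false) : NNReal) : ℝ)) *
        Real.exp (c * ((V τ x T (up r t true) : NNReal) : ℝ)) + (-1)) ≤ M ^ 2 - 1 := by
    intro t ht
    have ht' : r t = none := mem_fr.1 ht
    rw [avg_add, avg_const]
    have hdis : Disjoint (pts (up r t false)) (pts (up r t true)) := by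
      rw [Finset.disjoint_left]
      intro y h1 h2
      rw [mem_pts_up ht'] at h1 h2
      rw [h1.2] at h2
      exact absurd h2.2 (by simp)
    rw [avg_indep (pts (up r t false)) (pts (up r t true)) hdis]
    · have e0 := hM (up r t false) (by have := fc_up ht' false; omega)
      have e1 := hM (up r t true) (by have := fc_up ht' true; omega)
      have p0 : 0 ≤ avg (fun τ => Real.exp (c * ((V τ x T (up r t false) : NNReal) : ℝ))) :=
        avg_nonneg fun τ => (Real.exp_pos _).le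
      have p1 : 0 ≤ avg (fun τ => Real.exp (c * ((V τ x T (up r t true) : NNReal) : ℝ))) :=
        avg_nonneg fun τ => (Real.exp_pos _).le
      have := mul_le_mul e0 e1 p1 (p0.trans e0)
      nlinarith
    · intro τ τ' h
      rw [V_dep x T _ τ τ' h]
    · intro τ τ' h
      rw [V_dep x T _ τ τ' h]
  have hsum := Finset.sum_le_sum hterm
  rw [Finset.sum_const, nsmul_eq_mul] at hsum
  have hcard : ((fr r).card : ℝ) = (x : ℝ) + (k + 1) := by
    have : (fr r).card = x + (k + 1) := hr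
    rw [this]; push_cast; ring
  rw [hcard] at hsum
  linarith

/-- the basis of the recursion -/
theorem Moment_base [NeZero N] {x : ℕ} (hx : B0 ≤ x) {T : Finset (Fin N)} (hT : InLim N x T)
    {c B : ℝ} (hB : Real.exp c = B) (hB2 : B = 2 ^ (x ^ 8)) (hc : 0 ≤ c) (r : Par b)
    (hr : fc r = x) :
    avg (fun τ => Real.exp (c * ((V τ x T r : NNReal) : ℝ))) ≤ 1 + 1 / B := by
  classical
  have hpt : ∀ τ : Lab b → Fin N, Real.exp (c * ((V τ x T r : NNReal) : ℝ)) ≤
      1 + B * (if Atyp τ x r T then 1 else 0) := by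
    intro τ
    rw [V_low τ x T r hr.le]
    split_ifs
    · simp [hB]
    · simp
  refine (avg_mono hpt).trans ?_
  rw [avg_add, avg_const, avg_mul_const]
  have h := avg_Atyp_le hx (Nat.pos_of_ne_zero (NeZero.ne N)) r hr.le T hT
  have hBpos : 0 < B := by rw [← hB]; exact Real.exp_pos _
  have h2 : B * ((1 / 2 : ℝ) ^ (2 * x ^ 8)) = 1 / B := by
    have h4 : (2 : ℝ) ^ (x ^ 8) * (1 / 2 : ℝ) ^ (x ^ 8) = 1 := by
      rw [← mul_pow]; norm_num
    rw [hB2, two_mul, pow_add, ← mul_assoc, h4, one_mul, one_div, inv_pow, one_div]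
  have h3 := mul_le_mul_of_nonneg_left h hBpos.le
  rw [h2] at h3
  linarith

theorem Moment_num1 {x : ℕ} (hx : 7 ≤ x) : 6 * x ^ 6 ≤ 2 ^ (x ^ 2) := by
  have h1 : x ≤ 2 ^ x := Nat.lt_two_pow_self.le
  calc 6 * x ^ 6 ≤ 2 ^ 3 * (2 ^ x) ^ 6 := by
        apply Nat.mul_le_mul (by norm_num) (Nat.pow_le_pow_left h1 6)
    _ = 2 ^ (3 + x * 6) := by rw [← pow_mul, ← pow_add]
    _ ≤ 2 ^ (x ^ 2) := by
        apply Nat.pow_le_pow_right (by norm_num)
        nlinarith

theorem Moment_num2 {x : ℕ} (hx : 7 ≤ x) {k : ℕ} (hk : k ≤ x ^ 6) :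
    (6 * x ^ 6) ^ k ≤ 2 ^ (x ^ 8) := by
  calc (6 * x ^ 6) ^ k ≤ (6 * x ^ 6) ^ (x ^ 6) :=
        Nat.pow_le_pow_right (by positivity) hk
    _ ≤ (2 ^ (x ^ 2)) ^ (x ^ 6) := Nat.pow_le_pow_left (Moment_num1 hx) _
    _ = 2 ^ (x ^ 8) := by rw [← pow_mul]; congr 1; ring

theorem Moment_num3 {x : ℕ} (hx : 7 ≤ x) : 4 * (x + x ^ 6 + 1) ≤ 2 ^ (x ^ 8) := by
  have h1 : x ≤ x ^ 6 := Nat.le_self_pow (by norm_num) x
  calc 4 * (x + x ^ 6 + 1) ≤ 2 * (6 * x ^ 6) := by omega
    _ ≤ 2 * 2 ^ (x ^ 2) := Nat.mul_le_mul_left 2 (Moment_num1 hx)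
    _ = 2 ^ (x ^ 2 + 1) := by rw [pow_succ]; ring
    _ ≤ 2 ^ (x ^ 8) := by
        apply Nat.pow_le_pow_right (by norm_num)
        have : x ^ 8 = x ^ 2 * x ^ 6 := by ring
        rw [this]
        nlinarith [sq_nonneg x]

/-- phase 1 -/
theorem Moment_phase1 [NeZero N] {x : ℕ} (hx : B0 ≤ x) {T : Finset (Fin N)} (hT : InLim N x T)
    {c B : ℝ} (hB : Real.exp c = B) (hB2 : B = 2 ^ (x ^ 8)) (hc : 0 ≤ c) (k : ℕ)
    (hk : k ≤ x ^ 6) : ∀ (r : Par b), fc r = x + k →
    avg (fun τ => Real.exp ((c * 2 ^ k) * ((V τ x T r : NNReal) : ℝ))) ≤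
      1 + (6 * (x : ℝ) ^ 6) ^ k / B := by
  have hx7 : 7 ≤ x := le_trans (by norm_num [B0]) hx
  induction k with
  | zero =>
    intro r hr
    have := Moment_base hx hT hB hB2 hc r hr
    simpa using this
  | succ k ih =>
    intro r hr
    have hk' : k ≤ x ^ 6 := by omega
    have hstep := Moment_step (by positivity) (ih hk') r hr
    have hBpos : 0 < B := by rw [← hB]; exact Real.exp_pos _
    have e : (2 * (c * 2 ^ k)) = c * 2 ^ (k + 1) := by ring
    rw [e] at hstep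
    refine hstep.trans ?_
    set q : ℝ := (6 * (x : ℝ) ^ 6) ^ k / B with hq
    have hq0 : 0 ≤ q := by positivity
    have hq1 : q ≤ 1 := by
      rw [hq, div_le_one hBpos, hB2]
      exact_mod_cast Moment_num2 hx7 hk'
    have h1 : (1 + q) ^ 2 - 1 ≤ 3 * q := by nlinarith
    have h2 : ((x : ℝ) + (k + 1)) ≤ 2 * (x : ℝ) ^ 6 := by
      have h1 : x ≤ x ^ 6 := Nat.le_self_pow (by norm_num) x
      have : x + (k + 1) ≤ 2 * x ^ 6 := by omega
      exact_mod_cast this
    have h3 : ((x : ℝ) + (k + 1)) * ((1 + q) ^ 2 - 1) ≤ (2 * (x : ℝ) ^ 6) * (3 * q) := by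
      apply mul_le_mul h2 h1 _ (by positivity)
      nlinarith
    have h4 : (6 * (x : ℝ) ^ 6) ^ (k + 1) / B = (2 * (x : ℝ) ^ 6) * (3 * q) := by
      rw [hq, pow_succ]; ring
    rw [h4]
    linarith

/-- phase 2 -/
theorem Moment_phase2 [NeZero N] {x : ℕ} (hx : B0 ≤ x) {T : Finset (Fin N)} (hT : InLim N x T)
    {c B : ℝ} (hB : Real.exp c = B) (hB2 : B = 2 ^ (x ^ 8)) (hc : 0 ≤ c) (j : ℕ) :
    ∀ (r : Par b), fc r = x + (x ^ 6 + j) →
    avg (fun τ => Real.exp ((c * 2 ^ (x ^ 6 + j)) * ((V τ x T r : NNReal) : ℝ))) ≤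
      Real.exp (c * 2 ^ j) / (2 * ((x : ℝ) + (x ^ 6 + j) + 1)) := by
  have hx7 : 7 ≤ x := le_trans (by norm_num [B0]) hx
  have hBpos : 0 < B := by rw [← hB]; exact Real.exp_pos _
  induction j with
  | zero =>
    intro r hr
    have h := Moment_phase1 (b := b) hx hT hB hB2 hc (x ^ 6) le_rfl r hr
    refine h.trans ?_
    have hq1 : (6 * (x : ℝ) ^ 6) ^ (x ^ 6) / B ≤ 1 := by
      rw [div_le_one hBpos, hB2]
      exact_mod_cast Moment_num2 hx7 le_rfl
    have h2 : (2 : ℝ) ≤ Real.exp (c * 2 ^ 0) / (2 * ((x : ℝ) + (x ^ 6 + (0 : ℕ)) + 1)) := by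
      rw [le_div_iff₀ (by positivity), pow_zero, mul_one, hB, hB2]
      have := Moment_num3 hx7
      have h' : (4 * ((x : ℝ) + x ^ 6 + 1)) ≤ 2 ^ (x ^ 8) := by exact_mod_cast this
      push_cast
      linarith
    linarith
  | succ j ih =>
    intro r hr
    have hr' : fc r = x + ((x ^ 6 + j) + 1) := by rw [hr]; ring
    have hstep := Moment_step (c := c * 2 ^ (x ^ 6 + j)) (by positivity) ih r hr'
    have e : (2 * (c * 2 ^ (x ^ 6 + j))) = c * 2 ^ (x ^ 6 + (j + 1)) := by ring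
    rw [e] at hstep
    refine hstep.trans ?_
    push_cast
    set f : ℝ := (x : ℝ) + ((x : ℝ) ^ 6 + j) with hf
    have hf0 : 0 ≤ f := by positivity
    have e2 : (x : ℝ) + ((x : ℝ) ^ 6 + j + 1) = f + 1 := by rw [hf]; ring
    have e3 : (x : ℝ) + ((x : ℝ) ^ 6 + (j + 1)) + 1 = f + 2 := by rw [hf]; ring
    have e4 : Real.exp (c * 2 ^ (j + 1)) = Real.exp (c * 2 ^ j) ^ 2 := by
      rw [← Real.exp_nat_mul]; congr 1; push_cast; ring
    rw [e2, e3, e4]
    set E : ℝ := Real.exp (c * 2 ^ j) with hE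
    have hEpos : 0 < E := Real.exp_pos _
    have h1 : 1 + (f + 1) * ((E / (2 * (f + 1))) ^ 2 - 1) ≤ E ^ 2 / (4 * (f + 1)) := by
      have : (f + 1) * (E / (2 * (f + 1))) ^ 2 = E ^ 2 / (4 * (f + 1)) := by
        field_simp
        ring
      nlinarith
    refine h1.trans ?_
    apply div_le_div_of_nonneg_left (by positivity) (by positivity)
    linarith

/-- Task P4.  Average game value.

Paper proof.  Let `lam = x^8 * log 2` and for `f ≥ x` let `q_f = sup_{fc r = f} (avg exp(lam * 2^(f-x) * V r) - 1)`.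
* `q_x ≤ 2^{-2x^8} (e^{lam} - 1) ≤ 2^{-x^8}` (`V_low`, `avg_Atyp_le`).
* for `f > x`: `exp(lam 2^(f-x) V r) - 1 ≤ ∑_{t free} (exp(lam 2^(f-1-x) V r0) exp(lam 2^(f-1-x) V r1) - 1)`
  (`V_high`: the supremum is attained) and `V r0`, `V r1` are independent (`avg_indep`, `V_dep`), so
  `q_f ≤ f (2 q_{f-1} + q_{f-1}²)`.
* for `x ≤ f ≤ x + x^6`: `q_f ≤ (6 x^6)^{f-x} 2^{-x^8} ≤ 1` by induction.
* with `f* = x + x^6` and `f ≥ f*`: `1 + q_f ≤ f (1 + q_{f-1})²`, so
  `log (1 + q_f) ≤ 2^{f-f*} (log f* + 2) - (log f + 1)` or any similar bound by induction.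
* Jensen (convexity of `exp`, `avg` is an average) : `lam 2^{b-x} avg V ≤ log (1 + q_b)`, so
  `avg V ≤ 2^{-x^6} (log f* + 2) / lam ≤ 2^{-x^6}`. -/
theorem avg_V_le {x : ℕ} (hx : x ∈ Xset b) (hN : 0 < N) (T : Finset (Fin N))
    (hT : InLim N x T) :
    avg (fun τ => ((V τ x T (emp : Par b) : NNReal) : ℝ)) ≤ (1 / 2 : ℝ) ^ (x ^ 6) := by
  have : NeZero N := ⟨hN.ne'⟩
  simp only [Xset, Finset.mem_filter, Finset.mem_range] at hx
  obtain ⟨hxb, hx0, hx6⟩ := hx
  have hx7 : 7 ≤ x := le_trans (by norm_num [B0]) hx0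
  have h16 : x ≤ x ^ 6 := Nat.le_self_pow (by norm_num) x
  set c : ℝ := (x : ℝ) ^ 8 * Real.log 2 with hc
  have hlog : 0 < Real.log 2 := Real.log_pos (by norm_num)
  have hxpos : (0 : ℝ) < x := by
    have : 0 < x := by omega
    exact_mod_cast this
  have hcpos : 0 < c := by positivity
  have hB : Real.exp c = (2 : ℝ) ^ (x ^ 8) := by
    rw [hc, mul_comm, Real.exp_mul, Real.exp_log (by norm_num)]
    exact_mod_cast Real.rpow_natCast 2 (x ^ 8)
  obtain ⟨j, hj⟩ : ∃ j, b = x + (x ^ 6 + j) := ⟨b - x - x ^ 6, by omega⟩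
  have h := Moment_phase2 (b := b) (N := N) hx0 hT hB rfl hcpos.le j (emp : Par b)
    (by rw [fc_emp]; exact hj)
  have h2 := (Moment_jensen (N := N) (b := b)
    (fun τ => (c * 2 ^ (x ^ 6 + j)) * ((V τ x T (emp : Par b) : NNReal) : ℝ))).trans h
  rw [avg_mul_const] at h2
  have h3 : Real.exp (c * 2 ^ j) / (2 * ((x : ℝ) + (x ^ 6 + j) + 1)) ≤ Real.exp (c * 2 ^ j) := by
    apply div_le_self (Real.exp_pos _).le
    have : (0 : ℝ) ≤ (x : ℝ) + (x ^ 6 + j) := by positivity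
    linarith
  have h4 := Real.exp_le_exp.1 (h2.trans h3)
  set A := avg (fun τ => ((V τ x T (emp : Par b) : NNReal) : ℝ)) with hA
  have h5 : c * 2 ^ j * ((2 : ℝ) ^ (x ^ 6) * A) ≤ c * 2 ^ j * 1 := by
    calc c * 2 ^ j * ((2 : ℝ) ^ (x ^ 6) * A) = c * 2 ^ (x ^ 6 + j) * A := by rw [pow_add]; ring
      _ ≤ c * 2 ^ j := h4
      _ = c * 2 ^ j * 1 := by ring
  have h6 : (2 : ℝ) ^ (x ^ 6) * A ≤ 1 := le_of_mul_le_mul_left h5 (by positivity)
  rw [one_div, inv_pow, ← one_div, le_div_iff₀ (by positivity)]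
  linarith

end H616TR
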