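import Pool.Agent.H616R2.TR.AvgS
import Pool.Agent.H616R2.TR.Moment

set_option autoImplicit false

/-! Task X2. -/

namespace H616TR

open Finset

variable {b N : ℕ}

/-- the term of `x` -/
theorem ExA_term (hN0 : 0 < N) {x : ℕ} (hx : x ∈ Xset b) :
    avgS (fun σ : Fin (N + 1) → Lab b → Fin N =>
      ∑ T ∈ (univ : Finset (Finset (Fin N))).filter (fun T => InLim N x T),
      ∑ S ∈ powersetCard (dl N x + 1) (univ : Finset (Fin (N + 1))),
      ∏ i ∈ S, ((V (σ i) x T (emp : Par b) : NNReal) : ℝ))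
    ≤ 2 ^ N * (2 ^ (N + 1) * (1 / 2 : ℝ) ^ (x ^ 6 * (dl N x + 1))) := by
  have : NeZero N := ⟨hN0.ne'⟩
  rw [avgS_sum]
  calc ∑ T ∈ (univ : Finset (Finset (Fin N))).filter (fun T => InLim N x T),
        avgS (fun σ : Fin (N + 1) → Lab b → Fin N =>
          ∑ S ∈ powersetCard (dl N x + 1) (univ : Finset (Fin (N + 1))),
          ∏ i ∈ S, ((V (σ i) x T (emp : Par b) : NNReal) : ℝ))
      ≤ ∑ T ∈ (univ : Finset (Finset (Fin N))).filter (fun T => InLim N x T),
        (2 ^ (N + 1) * (1 / 2 : ℝ) ^ (x ^ 6 * (dl N x + 1))) := by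
        refine Finset.sum_le_sum fun T hT => ?_
        have hT' : InLim N x T := (Finset.mem_filter.1 hT).2
        rw [avgS_sum]
        calc ∑ S ∈ powersetCard (dl N x + 1) (univ : Finset (Fin (N + 1))),
              avgS (fun σ : Fin (N + 1) → Lab b → Fin N =>
                ∏ i ∈ S, ((V (σ i) x T (emp : Par b) : NNReal) : ℝ))
            ≤ ∑ S ∈ powersetCard (dl N x + 1) (univ : Finset (Fin (N + 1))),
              (1 / 2 : ℝ) ^ (x ^ 6 * (dl N x + 1)) := by
              refine Finset.sum_le_sum fun S hS => ?_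
              have hc : S.card = dl N x + 1 := (Finset.mem_powersetCard.1 hS).2
              rw [avgS_prod S (fun _ τ => ((V τ x T (emp : Par b) : NNReal) : ℝ)),
                Finset.prod_const, hc, pow_mul]
              refine pow_le_pow_left₀ ?_ (avg_V_le hx hN0 T hT') _
              unfold avg
              exact div_nonneg (Finset.sum_nonneg fun τ _ => NNReal.coe_nonneg _)
                (Nat.cast_nonneg _)
          _ = ((powersetCard (dl N x + 1) (univ : Finset (Fin (N + 1)))).card : ℝ) *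
              (1 / 2 : ℝ) ^ (x ^ 6 * (dl N x + 1)) := by
              rw [Finset.sum_const, nsmul_eq_mul]
          _ ≤ 2 ^ (N + 1) * (1 / 2 : ℝ) ^ (x ^ 6 * (dl N x + 1)) := by
              refine mul_le_mul_of_nonneg_right ?_ (by positivity)
              have : (powersetCard (dl N x + 1) (univ : Finset (Fin (N + 1)))).card
                  ≤ 2 ^ (N + 1) := by
                rw [Finset.card_powersetCard]
                simpa using Nat.choose_le_two_pow (N + 1) (dl N x + 1)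
              exact_mod_cast this
    _ = (((univ : Finset (Finset (Fin N))).filter (fun T => InLim N x T)).card : ℝ) *
        (2 ^ (N + 1) * (1 / 2 : ℝ) ^ (x ^ 6 * (dl N x + 1))) := by
        rw [Finset.sum_const, nsmul_eq_mul]
    _ ≤ 2 ^ N * (2 ^ (N + 1) * (1 / 2 : ℝ) ^ (x ^ 6 * (dl N x + 1))) := by
        refine mul_le_mul_of_nonneg_right ?_ (by positivity)
        have : ((univ : Finset (Finset (Fin N))).filter (fun T => InLim N x T)).card ≤ 2 ^ N := by
          refine (Finset.card_filter_le _ _).trans ?_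
          simp
        exact_mod_cast this

theorem ExA_exp (x : ℕ) (hx : 0 < x) : x * N ≤ x ^ 6 * (dl N x + 1) := by
  have h : N < x ^ 5 * (dl N x + 1) := by
    unfold dl
    have := Nat.lt_div_mul_add (a := N) (b := x ^ 5) (by positivity)
    calc N < N / x ^ 5 * x ^ 5 + x ^ 5 := this
      _ = x ^ 5 * (N / x ^ 5 + 1) := by ring
  calc x * N ≤ x * (x ^ 5 * (dl N x + 1)) := Nat.mul_le_mul_left _ h.le
    _ = x ^ 6 * (dl N x + 1) := by ring

/-- Task X2.  The average of the failure potential at the start: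
`∑_{x ∈ Xset b} 2^N * 2^{N+1} * 2^{-x^6 (Δ+1)}` with `x^6 (Δ+1) ≥ x N`. -/
theorem avgS_FF_le (hN : b ^ 40 ≤ N) (hb : B0 ≤ b) :
    avgS (fun σ : Fin (N + 1) → Lab b → Fin N => FF σ (fun _ => emp))
      ≤ (1 / 2 : ℝ) ^ (2 * (N + 1) + 4) := by
  have hB : (8 : ℕ) ≤ B0 := by unfold B0; norm_num
  have hb1 : 1 ≤ b := by omega
  have hbN : b ≤ N := (Nat.le_self_pow (by norm_num) b).trans hN
  have hN0 : 0 < N := by omega
  have e : (fun σ : Fin (N + 1) → Lab b → Fin N => FF σ (fun _ => emp)) = fun σ =>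
      ∑ x ∈ Xset b, ∑ T ∈ (univ : Finset (Finset (Fin N))).filter (fun T => InLim N x T),
      ∑ S ∈ powersetCard (dl N x + 1) (univ : Finset (Fin (N + 1))),
      ∏ i ∈ S, ((V (σ i) x T (emp : Par b) : NNReal) : ℝ) := rfl
  rw [e, avgS_sum]
  have h8 : ∀ x ∈ Xset b, avgS (fun σ : Fin (N + 1) → Lab b → Fin N =>
      ∑ T ∈ (univ : Finset (Finset (Fin N))).filter (fun T => InLim N x T),
      ∑ S ∈ powersetCard (dl N x + 1) (univ : Finset (Fin (N + 1))),
      ∏ i ∈ S, ((V (σ i) x T (emp : Par b) : NNReal) : ℝ)) ≤ (1 / 2 : ℝ) ^ (3 * N + 6) := by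
    intro x hx
    refine (ExA_term hN0 hx).trans ?_
    have hxB : B0 ≤ x := (Finset.mem_filter.1 hx).2.1
    have hexp : 5 * N + 7 ≤ x ^ 6 * (dl N x + 1) := by
      have h1 := ExA_exp (N := N) x (by omega)
      have h2 : 2 ^ 64 * N ≤ x * N := Nat.mul_le_mul_right _ hxB
      omega
    calc (2 : ℝ) ^ N * (2 ^ (N + 1) * (1 / 2 : ℝ) ^ (x ^ 6 * (dl N x + 1)))
        ≤ (2 : ℝ) ^ N * (2 ^ (N + 1) * (1 / 2 : ℝ) ^ (5 * N + 7)) := by
          refine mul_le_mul_of_nonneg_left (mul_le_mul_of_nonneg_left ?_ (by positivity))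
            (by positivity)
          exact pow_le_pow_of_le_one (by norm_num) (by norm_num) hexp
      _ = (2 ^ (2 * N + 1) * (1 / 2 : ℝ) ^ (2 * N + 1)) * (1 / 2 : ℝ) ^ (3 * N + 6) := by
          ring
      _ = (1 / 2 : ℝ) ^ (3 * N + 6) := by
          rw [← mul_pow]; norm_num
  have hcard : ((Xset b).card : ℝ) ≤ 2 ^ N := by
    have h1 : (Xset b).card ≤ b + 1 := by
      unfold Xset
      refine (Finset.card_filter_le _ _).trans ?_
      simp
    have h2 : b + 1 ≤ 2 ^ b := Nat.succ_le_of_lt Nat.lt_two_pow_self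
    have h3 : 2 ^ b ≤ 2 ^ N := Nat.pow_le_pow_right (by norm_num) hbN
    exact_mod_cast h1.trans (h2.trans h3)
  calc _ ≤ ∑ x ∈ Xset b, (1 / 2 : ℝ) ^ (3 * N + 6) := Finset.sum_le_sum h8
    _ = ((Xset b).card : ℝ) * (1 / 2 : ℝ) ^ (3 * N + 6) := by
        rw [Finset.sum_const, nsmul_eq_mul]
    _ ≤ 2 ^ N * (1 / 2 : ℝ) ^ (3 * N + 6) :=
        mul_le_mul_of_nonneg_right hcard (by positivity)
    _ = (2 ^ N * (1 / 2 : ℝ) ^ N) * (1 / 2 : ℝ) ^ (2 * (N + 1) + 4) := by ring
    _ = (1 / 2 : ℝ) ^ (2 * (N + 1) + 4) := by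
        rw [← mul_pow]; norm_num

end H616TR
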