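import Pool.Agent.H616R2.TR.AvgS
import Pool.Agent.H616R2.TR.AtypP

set_option autoImplicit false

/-! Task X3. -/

namespace H616TR

open Finset

variable {b N : ℕ}

/-- Task X3.  `ProA σ b emp` fails with probability at most `1/8`:
union bound over `T` and sets of `Δ + 1` pigeons, `avg_Atyp_le`. -/
theorem avgS_ProA_le (hN : b ^ 40 ≤ N) (hb : B0 ≤ b) :
    avgS (fun σ : Fin (N + 1) → Lab b → Fin N => if ProA σ b (fun _ => emp) then 0 else 1)
      ≤ 1 / 8 := by
  classical
  have hb1 : 1 ≤ b := le_trans (by unfold B0; norm_num) hb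
  have hN0 : 0 < N := lt_of_lt_of_le (pow_pos hb1 40) hN
  have : NeZero N := ⟨hN0.ne'⟩
  have h1 : ∀ σ : Fin (N + 1) → Lab b → Fin N,
      (if ProA σ b (fun _ => emp) then (0 : ℝ) else 1) ≤
        ∑ T ∈ (univ : Finset (Finset (Fin N))).filter (fun T => InLim N b T),
          ∑ S ∈ powersetCard (dl N b + 1) (univ : Finset (Fin (N + 1))),
            ∏ i ∈ S, (if Atyp (σ i) b emp T then (1 : ℝ) else 0) := by
    intro σ
    have hnn : ∀ T : Finset (Fin N), ∀ S : Finset (Fin (N + 1)),
        0 ≤ ∏ i ∈ S, (if Atyp (σ i) b emp T then (1 : ℝ) else 0) := by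
      intro T S
      exact Finset.prod_nonneg fun i _ => by split_ifs <;> norm_num
    split_ifs with h
    · exact Finset.sum_nonneg fun T _ => Finset.sum_nonneg fun S _ => hnn T S
    · unfold ProA at h
      push Not at h
      obtain ⟨T, hT, hc⟩ := h
      obtain ⟨S, hS, hSc⟩ := Finset.exists_subset_card_eq (Nat.succ_le_of_lt hc)
      have hone : ∏ i ∈ S, (if Atyp (σ i) b emp T then (1 : ℝ) else 0) = 1 := by
        apply Finset.prod_eq_one
        intro i hi
        have := hS hi
        rw [Finset.mem_filter] at this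
        rw [if_pos this.2.2]
      calc (1 : ℝ) = ∏ i ∈ S, (if Atyp (σ i) b emp T then (1 : ℝ) else 0) := hone.symm
        _ ≤ ∑ S ∈ powersetCard (dl N b + 1) (univ : Finset (Fin (N + 1))),
            ∏ i ∈ S, (if Atyp (σ i) b emp T then (1 : ℝ) else 0) :=
          Finset.single_le_sum (f := fun S : Finset (Fin (N + 1)) =>
            ∏ i ∈ S, (if Atyp (σ i) b emp T then (1 : ℝ) else 0)) (fun S _ => hnn T S)
            (Finset.mem_powersetCard.2 ⟨Finset.subset_univ _, hSc⟩)
        _ ≤ _ := Finset.single_le_sum (f := fun T : Finset (Fin N) =>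
            ∑ S ∈ powersetCard (dl N b + 1) (univ : Finset (Fin (N + 1))),
            ∏ i ∈ S, (if Atyp (σ i) b emp T then (1 : ℝ) else 0))
            (fun T _ => Finset.sum_nonneg fun S _ => hnn T S)
            (Finset.mem_filter.2 ⟨Finset.mem_univ _, hT⟩)
  refine (avgS_mono h1).trans ?_
  rw [avgS_sum]
  have h2 : ∀ T ∈ (univ : Finset (Finset (Fin N))).filter (fun T => InLim N b T),
      avgS (fun σ : Fin (N + 1) → Lab b → Fin N =>
        ∑ S ∈ powersetCard (dl N b + 1) (univ : Finset (Fin (N + 1))),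
            ∏ i ∈ S, (if Atyp (σ i) b emp T then (1 : ℝ) else 0)) ≤
        2 ^ (N + 1) * (1 / 2 : ℝ) ^ (2 * b ^ 8 * (dl N b + 1)) := by
    intro T hT
    rw [Finset.mem_filter] at hT
    rw [avgS_sum]
    have h3 : ∀ S ∈ powersetCard (dl N b + 1) (univ : Finset (Fin (N + 1))),
        avgS (fun σ : Fin (N + 1) → Lab b → Fin N =>
          ∏ i ∈ S, (if Atyp (σ i) b emp T then (1 : ℝ) else 0)) ≤
          (1 / 2 : ℝ) ^ (2 * b ^ 8 * (dl N b + 1)) := by
      intro S hS
      rw [Finset.mem_powersetCard] at hS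
      rw [avgS_prod S (fun _ τ => if Atyp τ b emp T then (1 : ℝ) else 0)]
      rw [pow_mul, ← hS.2, ← Finset.prod_const]
      apply Finset.prod_le_prod
      · intro i _
        exact avg_nonneg fun τ => by split_ifs <;> norm_num
      · intro i _
        exact avg_Atyp_le hb hN0 emp fc_emp.le T hT.2
    refine (Finset.sum_le_card_nsmul _ _ _ h3).trans ?_
    rw [nsmul_eq_mul]
    apply mul_le_mul_of_nonneg_right _ (by positivity)
    have h4 : (powersetCard (dl N b + 1) (univ : Finset (Fin (N + 1)))).card ≤ 2 ^ (N + 1) := by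
      calc (powersetCard (dl N b + 1) (univ : Finset (Fin (N + 1)))).card
          ≤ ((univ : Finset (Fin (N + 1))).powerset).card := by
            apply Finset.card_le_card
            intro S hS
            rw [Finset.mem_powerset]
            exact Finset.subset_univ _
        _ = 2 ^ (N + 1) := by
            rw [Finset.card_powerset]
            simp
    exact_mod_cast h4
  refine (Finset.sum_le_card_nsmul _ _ _ h2).trans ?_
  rw [nsmul_eq_mul]
  have h5 : ((((univ : Finset (Finset (Fin N))).filter (fun T => InLim N b T)).card : ℕ) : ℝ)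
      ≤ 2 ^ N := by
    have : ((univ : Finset (Finset (Fin N))).filter (fun T => InLim N b T)).card ≤ 2 ^ N := by
      refine (Finset.card_filter_le _ _).trans ?_
      rw [Finset.card_univ, Fintype.card_finset, Fintype.card_fin]
    exact_mod_cast this
  have h6 : N + (N + 1) + 3 ≤ 2 * b ^ 8 * (dl N b + 1) := by
    have h7 : N < b ^ 5 * (dl N b + 1) := by
      unfold dl
      exact Nat.lt_mul_div_succ N (pow_pos hb1 5)
    have h8 : 2 * b ^ 8 * (dl N b + 1) = 2 * b ^ 3 * (b ^ 5 * (dl N b + 1)) := by ring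
    have hb2 : 2 ≤ b := le_trans (by unfold B0; norm_num) hb
    have h9 : 2 ^ 3 ≤ b ^ 3 := Nat.pow_le_pow_left hb2 3
    rw [h8]
    calc N + (N + 1) + 3 ≤ 2 * 2 ^ 3 * (N + 1) := by omega
      _ ≤ 2 * b ^ 3 * (b ^ 5 * (dl N b + 1)) := by
        apply Nat.mul_le_mul
        · omega
        · omega
  calc ((((univ : Finset (Finset (Fin N))).filter (fun T => InLim N b T)).card : ℕ) : ℝ)
        * (2 ^ (N + 1) * (1 / 2 : ℝ) ^ (2 * b ^ 8 * (dl N b + 1)))
      ≤ 2 ^ N * (2 ^ (N + 1) * (1 / 2 : ℝ) ^ (N + (N + 1) + 3)) := by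
        apply mul_le_mul h5 _ (by positivity) (by positivity)
        apply mul_le_mul_of_nonneg_left _ (by positivity)
        exact pow_le_pow_of_le_one (by norm_num) (by norm_num) h6
    _ = 1 / 8 := by
        have e1 : (1 / 2 : ℝ) ^ (N + (N + 1) + 3) = (1 / 2) ^ N * (1 / 2) ^ (N + 1) * (1 / 8) := by
          rw [pow_add, pow_add]
          norm_num
        have e2 : (2 : ℝ) ^ N * (1 / 2) ^ N = 1 := by
          rw [← mul_pow]
          norm_num
        have e3 : (2 : ℝ) ^ (N + 1) * (1 / 2) ^ (N + 1) = 1 := by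
          rw [← mul_pow]
          norm_num
        rw [e1]
        calc (2 : ℝ) ^ N * (2 ^ (N + 1) * ((1 / 2) ^ N * (1 / 2) ^ (N + 1) * (1 / 8)))
            = ((2 : ℝ) ^ N * (1 / 2) ^ N) * (2 ^ (N + 1) * (1 / 2) ^ (N + 1)) * (1 / 8) := by ring
          _ = 1 / 8 := by rw [e2, e3]; norm_num

end H616TR
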