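import Pool.Agent.H616R2.TR.Avg
import Pool.Agent.H616R2.TR.NumA

set_option autoImplicit false

/-! Task X4: badness for small sets is rare. -/

namespace H616TR

open Finset

variable {b N : ℕ}

/-- number of labels in the subcube `r` with hole in `Y` -/
def exc_hit (τ : Lab b → Fin N) (r : Par b) (Y : Finset (Fin N)) : ℕ :=
  ((pts r).filter (fun y => τ y ∈ Y)).card

theorem exc_hit_add (τ : Lab b → Fin N) (r : Par b) (Y : Finset (Fin N)) :
    exc_hit τ r Y + av τ r Y = 2 ^ fc r := by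
  unfold exc_hit av
  rw [Finset.card_filter_add_card_filter_not, card_pts]

theorem exc_one [NeZero N] (r : Par b) (Y : Finset (Fin N)) (k : ℕ) (c : ℝ) (hc : 1 ≤ c) :
    avg (fun τ : Lab b → Fin N => if k ≤ exc_hit τ r Y then 1 else 0)
      ≤ (1 + ((Y.card : ℝ) / N) * (c - 1)) ^ (2 ^ fc r) / c ^ k := by
  classical
  have hc0 : 0 < c := by linarith
  have h1 : ∀ τ : Lab b → Fin N, (if k ≤ exc_hit τ r Y then (1 : ℝ) else 0) ≤
      (1 / c ^ k) * ∏ y ∈ pts r, (if τ y ∈ Y then c else 1) := by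
    intro τ
    have h2 : ∏ y ∈ pts r, (if τ y ∈ Y then c else 1) = c ^ exc_hit τ r Y := by
      rw [Finset.prod_ite]
      simp [exc_hit]
    rw [h2]
    split_ifs with h
    · rw [one_div, inv_mul_eq_div, le_div_iff₀ (by positivity), one_mul]
      exact pow_le_pow_right₀ hc h
    · positivity
  have hN0 : (N : ℝ) ≠ 0 := by
    have := NeZero.ne N
    exact_mod_cast this
  refine (avg_mono h1).trans ?_
  rw [avg_mul_const]
  rw [avg_prod (pts r) (fun _ h => if h ∈ Y then c else 1)]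
  rw [Finset.prod_const, card_pts]
  have h3 : (∑ h : Fin N, (if h ∈ Y then c else (1 : ℝ))) / (N : ℝ) =
      1 + ((Y.card : ℝ) / N) * (c - 1) := by
    have h4 : ∑ h : Fin N, (if h ∈ Y then c else (1 : ℝ)) = (N : ℝ) + (Y.card : ℝ) * (c - 1) := by
      have h5 : ∀ h : Fin N, (if h ∈ Y then c else (1 : ℝ)) = 1 + (if h ∈ Y then (c - 1) else 0) := by
        intro h; split_ifs <;> ring
      simp only [h5]
      rw [Finset.sum_add_distrib, Finset.sum_ite_mem, Finset.univ_inter]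
      simp
      ring
    rw [h4]
    field_simp
  rw [h3]
  rw [one_div, inv_mul_eq_div]

theorem exc_kth_le (hN : b ^ 40 ≤ N) (hb : B0 ≤ b) :
    Kth N b 0 ≤ (1 - 1 / (nx b : ℝ)) * 2 ^ (nx b) := by
  have hbig : Big b N b := ⟨hb, le_rfl, hN⟩
  have h1 := ph_pos hbig
  have h2 : (1000 : ℝ) ≤ nx b := by exact_mod_cast nx_ge hb
  have h3 : (0 : ℝ) ≤ 1 - 1 / (nx b : ℝ) := by
    rw [sub_nonneg, div_le_one (by linarith)]; linarith
  unfold Kth
  have h4 : (1 - ((0 : ℕ) + 1 : ℝ) * ph N b / N - 10 * (dl N b : ℝ) / N) ≤ 1 := by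
    have h5 : (0 : ℝ) ≤ ((0 : ℕ) + 1 : ℝ) * ph N b / N := by
      have := h1.le
      positivity
    have h6 : (0 : ℝ) ≤ 10 * (dl N b : ℝ) / N := by positivity
    linarith
  have h7 : (1 - 1 / (nx b : ℝ)) * (1 - ((0 : ℕ) + 1 : ℝ) * ph N b / N - 10 * (dl N b : ℝ) / N) ≤
      (1 - 1 / (nx b : ℝ)) * 1 := mul_le_mul_of_nonneg_left h4 h3
  rw [mul_one] at h7
  exact mul_le_mul_of_nonneg_right h7 (by positivity)

theorem exc_bad (hN : b ^ 40 ≤ N) (hb : B0 ≤ b) (τ : Lab b → Fin N) (Y : Finset (Fin N))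
    (h : BadS τ b (Kth N b 0) emp Y) :
    ∃ r : Par b, fc r = nx b ∧ 2 ^ (nx b) / nx b ≤ exc_hit τ r Y := by
  unfold BadS at h
  rw [fc_emp, if_neg (lt_irrefl _)] at h
  obtain ⟨r, _, hr, hav⟩ := h
  refine ⟨r, hr, ?_⟩
  have h1 := exc_hit_add τ r Y
  rw [hr] at h1
  have h2 := exc_kth_le hN hb
  have h3 : (1000 : ℝ) ≤ nx b := by exact_mod_cast nx_ge hb
  have h4 : (exc_hit τ r Y : ℝ) + (av τ r Y : ℝ) = 2 ^ (nx b) := by exact_mod_cast h1
  have h5 : (2 : ℝ) ^ (nx b) / nx b < exc_hit τ r Y := by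
    have : (1 - 1 / (nx b : ℝ)) * 2 ^ (nx b) = 2 ^ (nx b) - 2 ^ (nx b) / nx b := by ring
    linarith
  have h6 : ((2 ^ (nx b) / nx b : ℕ) : ℝ) ≤ (2 : ℝ) ^ (nx b) / nx b := by
    have := @Nat.cast_div_le ℝ _ _ _ (2 ^ (nx b)) (nx b)
    simpa using this
  exact_mod_cast (h6.trans h5.le)

theorem exc_sq {n : ℕ} (h : 7 ≤ n) : n + 6 ≤ n ^ 2 := by nlinarith

theorem exc_card_par : Fintype.card (Par b) = 3 ^ b := by
  simp [Par]

theorem exc_num {p : ℝ} {k F : ℕ} (hb : B0 ≤ b) (hp : 0 < p) (hp4 : p ≤ 4 / (b : ℝ) ^ 5)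
    (hF0 : 1000 ≤ F) (hF : 1000 * F < b) (hk : k = 2 ^ F / F) (hk2 : b + 6 ≤ k) :
    3 ^ b * ((1 + p * ((1 + (1 / (F : ℝ)) / p) - 1)) ^ (2 ^ F) / (1 + (1 / (F : ℝ)) / p) ^ k)
      ≤ p ^ 4 / 2 ^ b := by
  have hF0' : (1000 : ℝ) ≤ F := by exact_mod_cast hF0
  have hFpos : (0 : ℝ) < F := by linarith
  have hb0 : (1000 : ℝ) ≤ b := by
    have : (1000 * F : ℝ) < b := by exact_mod_cast hF
    linarith
  have hbpos : (0 : ℝ) < b := by linarith
  have hF' : (1000 * F : ℝ) < b := by exact_mod_cast hF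
  have e1 : 1 + p * ((1 + (1 / (F : ℝ)) / p) - 1) = 1 + 1 / (F : ℝ) := by
    field_simp
    ring
  rw [e1]
  -- upper bound of the numerator
  have h1 : (1 + 1 / (F : ℝ)) ^ (2 ^ F) ≤ Real.exp ((k : ℝ) + 1) := by
    have h2 : (1 + 1 / (F : ℝ)) ≤ Real.exp (1 / (F : ℝ)) := by
      have := Real.add_one_le_exp (1 / (F : ℝ))
      linarith
    have h3 : (1 + 1 / (F : ℝ)) ^ (2 ^ F) ≤ (Real.exp (1 / (F : ℝ))) ^ (2 ^ F) :=
      pow_le_pow_left₀ (by positivity) h2 _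
    rw [← Real.exp_nat_mul] at h3
    refine h3.trans (Real.exp_le_exp.2 ?_)
    have h4 : 2 ^ F < (k + 1) * F := by
      rw [hk]
      have := Nat.lt_div_mul_add (a := 2 ^ F) (b := F) (by omega)
      calc 2 ^ F < 2 ^ F / F * F + F := this
        _ = (2 ^ F / F + 1) * F := by ring
    have h5 : ((2 ^ F : ℕ) : ℝ) ≤ ((k : ℝ) + 1) * F := by
      have : ((2 ^ F : ℕ) : ℝ) < (((k + 1) * F : ℕ) : ℝ) := by exact_mod_cast h4
      push_cast at this ⊢
      exact this.le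
    rw [mul_one_div, div_le_iff₀ hFpos]
    exact h5
  -- lower bound of the denominator
  have h6 : ((1 / (F : ℝ)) / p) ^ k ≤ (1 + (1 / (F : ℝ)) / p) ^ k :=
    pow_le_pow_left₀ (by positivity) (by linarith) _
  have h7 : (1 + 1 / (F : ℝ)) ^ (2 ^ F) / (1 + (1 / (F : ℝ)) / p) ^ k ≤
      Real.exp ((k : ℝ) + 1) / ((1 / (F : ℝ)) / p) ^ k :=
    div_le_div₀ (by positivity) h1 (by positivity) h6
  have h8 : Real.exp ((k : ℝ) + 1) / ((1 / (F : ℝ)) / p) ^ k =
      Real.exp 1 * (Real.exp 1 * F * p) ^ k := by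
    rw [Real.exp_add, show ((k : ℝ)) = (k : ℝ) * 1 by ring, Real.exp_nat_mul]
    rw [mul_pow, mul_pow]
    rw [div_pow, div_pow, one_pow]
    field_simp
  rw [h8] at h7
  have he : Real.exp 1 < 3 := lt_trans Real.exp_one_lt_d9 (by norm_num)
  have he0 : 0 < Real.exp 1 := Real.exp_pos _
  set q := Real.exp 1 * F * p with hq
  have hq0 : 0 < q := by positivity
  have hq1 : q ≤ b * p / 2 := by
    have : Real.exp 1 * F ≤ b / 2 := by nlinarith
    rw [hq]; nlinarith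
  have hq2 : q ≤ 1 / (b : ℝ) ^ 4 := by
    have h9 : Real.exp 1 * F ≤ b / 4 := by nlinarith
    have h10 : q ≤ (b / 4) * (4 / (b : ℝ) ^ 5) := by
      rw [hq]
      exact mul_le_mul h9 hp4 hp.le (by positivity)
    have h11 : (b / 4 : ℝ) * (4 / (b : ℝ) ^ 5) = 1 / (b : ℝ) ^ 4 := by
      field_simp
    linarith
  have hb4 : 1 / (b : ℝ) ^ 4 ≤ 1 := by
    rw [div_le_one (by positivity)]
    exact one_le_pow₀ (by linarith)
  have hq3 : q ^ k ≤ (b * p / 2) ^ 4 * (1 / (b : ℝ) ^ 4) ^ (b + 1) := by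
    have h12 : q ^ k = q ^ 4 * q ^ (k - 4) := by
      rw [← pow_add]; congr 1; omega
    rw [h12]
    have h13 : q ^ 4 ≤ (b * p / 2) ^ 4 := pow_le_pow_left₀ hq0.le hq1 4
    have h14 : q ^ (k - 4) ≤ (1 / (b : ℝ) ^ 4) ^ (k - 4) := pow_le_pow_left₀ hq0.le hq2 _
    have h15 : (1 / (b : ℝ) ^ 4) ^ (k - 4) ≤ (1 / (b : ℝ) ^ 4) ^ (b + 1) :=
      pow_le_pow_of_le_one (by positivity) hb4 (by omega)
    exact mul_le_mul h13 (h14.trans h15) (by positivity) (by positivity)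
  have hfin : 3 ^ b * (Real.exp 1 * ((b * p / 2) ^ 4 * (1 / (b : ℝ) ^ 4) ^ (b + 1)))
      ≤ p ^ 4 / 2 ^ b := by
    have h16 : 3 ^ b * (Real.exp 1 * ((b * p / 2) ^ 4 * (1 / (b : ℝ) ^ 4) ^ (b + 1))) =
        (Real.exp 1 / 16) * p ^ 4 * (3 * (1 / (b : ℝ) ^ 4)) ^ b := by
      rw [pow_succ, mul_pow 3]
      have h21 : (b * p / 2) ^ 4 * (1 / (b : ℝ) ^ 4) = p ^ 4 / 16 := by
        field_simp
        norm_num
      calc 3 ^ b * (Real.exp 1 * ((b * p / 2) ^ 4 * ((1 / (b : ℝ) ^ 4) ^ b * (1 / (b : ℝ) ^ 4))))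
          = 3 ^ b * (Real.exp 1 * (((b * p / 2) ^ 4 * (1 / (b : ℝ) ^ 4)) * (1 / (b : ℝ) ^ 4) ^ b)) := by
            ring
        _ = _ := by rw [h21]; ring
    rw [h16]
    have h17 : (3 * (1 / (b : ℝ) ^ 4)) ≤ 1 / 2 := by
      have h18 : (6 : ℝ) ≤ (b : ℝ) ^ 4 := by
        have : (1000 : ℝ) ^ 4 ≤ (b : ℝ) ^ 4 := pow_le_pow_left₀ (by norm_num) hb0 4
        linarith
      rw [mul_one_div, div_le_div_iff₀ (by positivity) (by norm_num)]
      linarith
    have h19 : (3 * (1 / (b : ℝ) ^ 4)) ^ b ≤ (1 / 2) ^ b := pow_le_pow_left₀ (by positivity) h17 _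
    have h20 : Real.exp 1 / 16 ≤ 1 := by linarith
    calc (Real.exp 1 / 16) * p ^ 4 * (3 * (1 / (b : ℝ) ^ 4)) ^ b
        ≤ 1 * p ^ 4 * (1 / 2) ^ b := by
          apply mul_le_mul _ h19 (by positivity) (by positivity)
          exact mul_le_mul_of_nonneg_right h20 (by positivity)
      _ = p ^ 4 / 2 ^ b := by
          rw [one_mul, one_div, inv_pow]; rfl
  refine le_trans ?_ hfin
  apply mul_le_mul_of_nonneg_left _ (by positivity)
  refine h7.trans ?_
  exact mul_le_mul_of_nonneg_left hq3 he0.le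

/-- Task X4.  One pigeon is bad for a small set `Y` of holes, with `y = |Y| ≤ 4Δ(b)`, with probability at most
`(y/N)^4 / 2^b`.

Paper proof: `fc emp = b ≤ b`, so badness means that some subcube `r'` of dimension `F = nx b` (at most
`3^b` of them) has fewer than `K = Kth N b 0` available labels, i.e. more than `2^F - K ≥ 2^F/(2F) =: k0`
labels with hole in `Y` (`K ≤ (1-1/F) 2^F`).  For a fixed `r'` the probability is at most
`C(2^F, k0) (y/N)^{k0} ≤ (e 2^F y/(k0 N))^{k0} ≤ (6 F y/N)^{k0}` (or `exp` moment with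
`E exp(λ X) ≤ exp (2^F (y/N) e^λ)`), with `y/N ≤ 4/b^5` and `k0 ≥ b^10`. -/
theorem avg_ini_le (hN : b ^ 40 ≤ N) (hb : B0 ≤ b) (Y : Finset (Fin N))
    (hY : Y.card ≤ 4 * dl N b) :
    avg (fun τ : Lab b → Fin N => if BadS τ b (Kth N b 0) emp Y then 1 else 0)
      ≤ ((Y.card : ℝ) / N) ^ 4 / 2 ^ b := by
  classical
  have hbig : Big b N b := ⟨hb, le_rfl, hN⟩
  have hb0 : 0 < b := lt_of_lt_of_le (by unfold B0; positivity) hb
  have hN0 : 0 < N := lt_of_lt_of_le (by positivity) hN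
  have : NeZero N := ⟨hN0.ne'⟩
  have hNr : (0 : ℝ) < N := by exact_mod_cast hN0
  have hF := nx_lt hb
  have hF0 := nx_ge hb
  -- size of k
  have hk2 : b + 6 ≤ 2 ^ (nx b) / nx b := by
    rw [Nat.le_div_iff_mul_le (by omega)]
    have h1 := pow_le_two_nx b
    have h2 : (b + 6) * nx b ≤ (b + 6) * b := Nat.mul_le_mul_left _ (by omega)
    have h3 : (b + 6) * b ≤ b ^ 16 := by
      have hb7 : 7 ≤ b := by
        have h7 : 1000 * 1000 ≤ 1000 * nx b := Nat.mul_le_mul_left _ hF0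
        have h8 : 7 ≤ 1000 * 1000 := by norm_num
        exact h8.trans (h7.trans hF.le)
      have h4 : b + 6 ≤ b ^ 2 := exc_sq hb7
      calc (b + 6) * b ≤ b ^ 2 * b := Nat.mul_le_mul_right _ h4
        _ = b ^ 3 := by ring
        _ ≤ b ^ 16 := Nat.pow_le_pow_right hb0 (by norm_num)
    omega
  have h1 : ∀ τ : Lab b → Fin N, (if BadS τ b (Kth N b 0) emp Y then (1 : ℝ) else 0) ≤
      ∑ r ∈ (univ : Finset (Par b)).filter (fun r => fc r = nx b),
        (if 2 ^ (nx b) / nx b ≤ exc_hit τ r Y then 1 else 0) := by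
    intro τ
    split_ifs with h
    · obtain ⟨r, hr, hr2⟩ := exc_bad hN hb τ Y h
      have h2 : (if 2 ^ (nx b) / nx b ≤ exc_hit τ r Y then (1 : ℝ) else 0) = 1 := if_pos hr2
      refine h2.symm.le.trans ?_
      refine Finset.single_le_sum (f := fun r => (if 2 ^ (nx b) / nx b ≤ exc_hit τ r Y then (1 : ℝ) else 0)) ?_ ?_
      · intro r _
        show (0 : ℝ) ≤ if 2 ^ (nx b) / nx b ≤ exc_hit τ r Y then (1 : ℝ) else 0
        split_ifs <;> norm_num
      · simp [hr]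
    · refine Finset.sum_nonneg (fun r _ => ?_)
      split_ifs <;> norm_num
  rcases Nat.eq_zero_or_pos Y.card with hy0 | hypos
  · -- Y empty
    have h2 : ∀ τ : Lab b → Fin N, (if BadS τ b (Kth N b 0) emp Y then (1 : ℝ) else 0) ≤
        (fun _ => (0 : ℝ)) τ := by
      intro τ
      split_ifs with h
      · exfalso
        obtain ⟨r, hr, hr2⟩ := exc_bad hN hb τ Y h
        have h3 : exc_hit τ r Y = 0 := by
          rw [Finset.card_eq_zero] at hy0
          subst hy0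
          simp [exc_hit]
        omega
      · exact le_rfl
    refine (avg_mono h2).trans ?_
    rw [avg_const]
    positivity
  · have hp : (0 : ℝ) < (Y.card : ℝ) / N := by
      have : (0 : ℝ) < (Y.card : ℝ) := by exact_mod_cast hypos
      positivity
    have hp4 : (Y.card : ℝ) / N ≤ 4 / (b : ℝ) ^ 5 := by
      have h2 := dl_le hbig
      have h3 : (Y.card : ℝ) ≤ 4 * (dl N b : ℝ) := by exact_mod_cast hY
      have hbr : (0 : ℝ) < b := by exact_mod_cast hb0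
      rw [div_le_div_iff₀ hNr (by positivity)]
      have h4 : (Y.card : ℝ) ≤ 4 * ((N : ℝ) / (b : ℝ) ^ 5) := by linarith
      calc (Y.card : ℝ) * (b : ℝ) ^ 5 ≤ 4 * ((N : ℝ) / (b : ℝ) ^ 5) * (b : ℝ) ^ 5 :=
            mul_le_mul_of_nonneg_right h4 (by positivity)
        _ = 4 * N := by field_simp
    refine (avg_mono h1).trans ?_
    rw [avg_sum]
    have hc : (1 : ℝ) ≤ 1 + (1 / (nx b : ℝ)) / ((Y.card : ℝ) / N) := by
      have : (0 : ℝ) ≤ (1 / (nx b : ℝ)) / ((Y.card : ℝ) / N) := by positivity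
      linarith
    have h2 : ∀ r ∈ (univ : Finset (Par b)).filter (fun r => fc r = nx b),
        avg (fun τ : Lab b → Fin N => if 2 ^ (nx b) / nx b ≤ exc_hit τ r Y then 1 else 0) ≤
        (1 + ((Y.card : ℝ) / N) * ((1 + (1 / (nx b : ℝ)) / ((Y.card : ℝ) / N)) - 1)) ^ (2 ^ nx b) /
          (1 + (1 / (nx b : ℝ)) / ((Y.card : ℝ) / N)) ^ (2 ^ (nx b) / nx b) := by
      intro r hr
      have h3 : fc r = nx b := (Finset.mem_filter.1 hr).2
      have h4 := exc_one r Y (2 ^ (nx b) / nx b) _ hc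
      rw [h3] at h4
      exact h4
    refine (Finset.sum_le_sum h2).trans ?_
    rw [Finset.sum_const, nsmul_eq_mul]
    have h5 : ((((univ : Finset (Par b)).filter (fun r => fc r = nx b)).card : ℕ) : ℝ) ≤ 3 ^ b := by
      have : ((univ : Finset (Par b)).filter (fun r => fc r = nx b)).card ≤ 3 ^ b := by
        rw [← exc_card_par (b := b), ← Finset.card_univ]
        exact Finset.card_filter_le _ _
      exact_mod_cast this
    refine (mul_le_mul_of_nonneg_right h5 (by positivity)).trans ?_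
    exact exc_num hb hp hp4 hF0 hF rfl hk2


end H616TR
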