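import Pool.Agent.H616R2.TR.AvgS
import Pool.Agent.H616R2.TR.ExC

set_option autoImplicit false

/-! Task X5: initial expansion. -/

namespace H616TR

open Finset

variable {b N : ℕ}

theorem ExD_choose (n y : ℕ) (hy : 0 < y) : (n.choose y : ℝ) ≤ (3 * n / y) ^ y := by
  have hy' : (0 : ℝ) < y := by exact_mod_cast hy
  have h1 : (n.choose y : ℝ) ≤ (n : ℝ) ^ y / (y.factorial : ℝ) := Nat.choose_le_pow_div y n
  have h2 : (y : ℝ) ^ y / (y.factorial : ℝ) ≤ Real.exp y :=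
    Real.pow_div_factorial_le_exp (y : ℝ) hy'.le y
  have h3 : Real.exp (y : ℝ) ≤ 3 ^ y := by
    have : Real.exp (y : ℝ) = (Real.exp 1) ^ y := by
      rw [← Real.exp_nat_mul, mul_one]
    rw [this]
    exact pow_le_pow_left₀ (Real.exp_pos 1).le (by linarith [Real.exp_one_lt_d9]) y
  have hf : (0 : ℝ) < (y.factorial : ℝ) := by exact_mod_cast y.factorial_pos
  have h4 : (y : ℝ) ^ y ≤ 3 ^ y * (y.factorial : ℝ) := by
    have := h2.trans h3
    rwa [div_le_iff₀ hf] at this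
  refine h1.trans ?_
  rw [div_pow, mul_pow, div_le_div_iff₀ hf (pow_pos hy' y)]
  have hn : (0 : ℝ) ≤ (n : ℝ) ^ y := by positivity
  nlinarith [mul_le_mul_of_nonneg_left h4 hn]

theorem ExD_term (n y : ℕ) (hy : 0 < y) (hyn : y ≤ n) (hb : 17 ≤ b) :
    (n.choose y : ℝ) * ((n + 1).choose (y / 2 + 1) : ℝ) *
      (((y : ℝ) / n) ^ 4 / 2 ^ b) ^ (y / 2 + 1) ≤ (1 / 32 : ℝ) ^ (y + 1) := by
  have hy' : (0 : ℝ) < y := by exact_mod_cast hy
  have hn' : (0 : ℝ) < n := lt_of_lt_of_le hy' (by exact_mod_cast hyn)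
  have hyn' : (y : ℝ) ≤ n := by exact_mod_cast hyn
  have hn1 : (1 : ℝ) ≤ n := by exact_mod_cast (le_trans hy hyn)
  set s := y / 2 + 1 with hs
  have hys : y + 1 ≤ 2 * s := by omega
  have hs0 : 0 < s := by omega
  have hs' : (0 : ℝ) < s := by exact_mod_cast hs0
  have hys' : (y : ℝ) + 1 ≤ 2 * s := by exact_mod_cast hys
  have h1 : (n.choose y : ℝ) ≤ ((3 * n / y) ^ 2) ^ s := by
    refine (ExD_choose n y hy).trans ?_
    rw [← pow_mul]
    refine pow_le_pow_right₀ ?_ (by omega)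
    rw [le_div_iff₀ hy']
    linarith
  have h2 : ((n + 1).choose s : ℝ) ≤ (12 * n / y) ^ s := by
    refine (ExD_choose (n + 1) s hs0).trans ?_
    refine pow_le_pow_left₀ (by positivity) ?_ s
    rw [div_le_div_iff₀ hs' hy']
    push_cast
    nlinarith [mul_le_mul_of_nonneg_left hys' hn'.le]
  have h3 : (n.choose y : ℝ) * ((n + 1).choose s : ℝ) * (((y : ℝ) / n) ^ 4 / 2 ^ b) ^ s
      ≤ ((3 * n / y) ^ 2) ^ s * (12 * n / y) ^ s * (((y : ℝ) / n) ^ 4 / 2 ^ b) ^ s := by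
    gcongr
  refine h3.trans ?_
  rw [← mul_pow, ← mul_pow]
  have h4 : (3 * (n : ℝ) / y) ^ 2 * (12 * n / y) * (((y : ℝ) / n) ^ 4 / 2 ^ b)
      = 108 * (y / n) / 2 ^ b := by
    field_simp
    ring
  rw [h4]
  have h5 : 108 * ((y : ℝ) / n) / 2 ^ b ≤ (1 / 32) ^ 2 := by
    have h6 : (y : ℝ) / n ≤ 1 := by rw [div_le_one hn']; exact hyn'
    have h7 : (2 : ℝ) ^ 17 ≤ 2 ^ b := pow_le_pow_right₀ (by norm_num) hb
    rw [div_le_iff₀ (by positivity)]
    have h8 : 108 * ((y : ℝ) / n) ≤ 108 := by linarith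
    refine h8.trans ?_
    nlinarith
  calc (108 * ((y : ℝ) / n) / 2 ^ b) ^ s ≤ ((1 / 32 : ℝ) ^ 2) ^ s := by
        refine pow_le_pow_left₀ (by positivity) h5 s
    _ = (1 / 32 : ℝ) ^ (2 * s) := by rw [pow_mul]
    _ ≤ (1 / 32 : ℝ) ^ (y + 1) := pow_le_pow_of_le_one (by norm_num) (by norm_num) hys

theorem ExD_geom (M : ℕ) : ∑ y ∈ range M, (1 / 32 : ℝ) ^ (y + 1) ≤ 1 / 8 := by
  have : ∑ y ∈ range M, (1 / 32 : ℝ) ^ (y + 1) ≤ 1 / 31 * (1 - (1 / 32) ^ M) := by
    induction M with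
    | zero => simp
    | succ M ih =>
      rw [Finset.sum_range_succ]
      have : (1 / 32 : ℝ) ^ (M + 1) = (1 / 32) ^ M * (1 / 32) := pow_succ _ _
      rw [this]
      nlinarith [ih]
  have h2 : (0 : ℝ) ≤ (1 / 32) ^ M := by positivity
  linarith

/-- Task X5.  The initial expansion property fails with probability at most `1/8`.

Paper proof: for `y = |Y|` failure for `Y` gives a set `S` of `s = y/2 + 1` pigeons (`2s > y`, `s ≥ 1`) all bad
for `Y`; the sum over `y ≥ 1` is `∑_y C(N,y) C(N+1,s) ((y/N)^4/2^b)^s`.  With `C(N,y) ≤ (3N/y)^y`,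
`C(N+1,s) ≤ (3(N+1)/s)^s ≤ (12 N/y)^s` and `y ≤ 2s - 1 < 2s`, the term is at most
`(9 (N/y)^2 * 12 (N/y) * (y/N)^4 / 2^b)^s ≤ (108 / 2^b)^s`.  (For `y = 0` no pigeon is bad.) -/
theorem avgS_ini_le (hN : b ^ 40 ≤ N) (hb : B0 ≤ b) :
    avgS (fun σ : Fin (N + 1) → Lab b → Fin N => if IniE σ then 0 else 1) ≤ 1 / 8 := by
  have hb17 : 17 ≤ b := le_trans (by unfold B0; norm_num) hb
  have hN0 : N ≠ 0 := by
    have : 1 ≤ b ^ 40 := Nat.one_le_pow _ _ (by omega)
    omega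
  have : NeZero N := ⟨hN0⟩
  have hdl : 4 * dl N b ≤ N := by
    unfold dl
    have h1 : 4 ≤ b ^ 5 := by
      calc 4 ≤ b := by omega
        _ = b ^ 1 := (pow_one b).symm
        _ ≤ b ^ 5 := Nat.pow_le_pow_right (by omega) (by norm_num)
    calc 4 * (N / b ^ 5) ≤ b ^ 5 * (N / b ^ 5) := Nat.mul_le_mul_right _ h1
      _ ≤ N := Nat.mul_div_le N (b ^ 5)
  set ind : Finset (Fin N) → (Lab b → Fin N) → ℝ :=
    fun Y τ => if BadS τ b (Kth N b 0) emp Y then 1 else 0 with hind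
  have hind0 : ∀ Y τ, 0 ≤ ind Y τ := by
    intro Y τ
    simp only [hind]
    split_ifs <;> norm_num
  have hle : ∀ σ : Fin (N + 1) → Lab b → Fin N, (if IniE σ then (0 : ℝ) else 1) ≤
      ∑ y ∈ range (4 * dl N b + 1), ∑ Y ∈ powersetCard y (univ : Finset (Fin N)),
        ∑ S ∈ powersetCard (y / 2 + 1) (univ : Finset (Fin (N + 1))),
          ∏ i ∈ S, ind Y (σ i) := by
    intro σ
    have hnn3 : ∀ (Y : Finset (Fin N)) (S : Finset (Fin (N + 1))), 0 ≤ ∏ i ∈ S, ind Y (σ i) :=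
      fun Y S => Finset.prod_nonneg fun i _ => hind0 Y (σ i)
    have hnn2 : ∀ (y : ℕ) (Y : Finset (Fin N)),
        0 ≤ ∑ S ∈ powersetCard (y / 2 + 1) (univ : Finset (Fin (N + 1))), ∏ i ∈ S, ind Y (σ i) :=
      fun y Y => Finset.sum_nonneg fun S _ => hnn3 Y S
    have hnn1 : ∀ (y : ℕ), 0 ≤ ∑ Y ∈ powersetCard y (univ : Finset (Fin N)),
        ∑ S ∈ powersetCard (y / 2 + 1) (univ : Finset (Fin (N + 1))), ∏ i ∈ S, ind Y (σ i) :=
      fun y => Finset.sum_nonneg fun Y _ => hnn2 y Y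
    by_cases h : IniE σ
    · rw [if_pos h]
      exact Finset.sum_nonneg fun y _ => hnn1 y
    · rw [if_neg h]
      unfold IniE at h
      push Not at h
      obtain ⟨Y, hY, hbad⟩ := h
      have hcard : Y.card / 2 + 1 ≤
          (univ.filter (fun i => BadS (σ i) b (Kth N b 0) emp Y)).card := by omega
      obtain ⟨S, hS, hSc⟩ := Finset.exists_subset_card_eq hcard
      have e1 : (1 : ℝ) = ∏ i ∈ S, ind Y (σ i) := by
        symm
        apply Finset.prod_eq_one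
        intro i hi
        have := hS hi
        rw [mem_filter] at this
        simp only [hind]
        rw [if_pos this.2]
      rw [e1]
      refine le_trans ?_ (Finset.single_le_sum (fun y _ => hnn1 y)
        (Finset.mem_range.2 (Nat.lt_succ_of_le hY)))
      refine le_trans ?_ (Finset.single_le_sum (fun Z _ => hnn2 Y.card Z)
        (Finset.mem_powersetCard.2 ⟨Finset.subset_univ Y, rfl⟩))
      exact Finset.single_le_sum (f := fun S => ∏ i ∈ S, ind Y (σ i)) (fun S _ => hnn3 Y S)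
        (Finset.mem_powersetCard.2 ⟨Finset.subset_univ S, hSc⟩)
  refine (avgS_mono hle).trans ?_
  rw [avgS_sum]
  refine le_trans (Finset.sum_le_sum (g := fun y => (1 / 32 : ℝ) ^ (y + 1)) ?_) (ExD_geom _)
  intro y hy
  have hyd : y ≤ 4 * dl N b := Nat.lt_succ_iff.1 (Finset.mem_range.1 hy)
  rw [avgS_sum]
  have hYb : ∀ Y ∈ powersetCard y (univ : Finset (Fin N)),
      avgS (fun σ : Fin (N + 1) → Lab b → Fin N =>
        ∑ S ∈ powersetCard (y / 2 + 1) (univ : Finset (Fin (N + 1))), ∏ i ∈ S, ind Y (σ i))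
      ≤ ((N + 1).choose (y / 2 + 1) : ℝ) * (((y : ℝ) / N) ^ 4 / 2 ^ b) ^ (y / 2 + 1) := by
    intro Y hY
    rw [mem_powersetCard] at hY
    rw [avgS_sum]
    have hS : ∀ S ∈ powersetCard (y / 2 + 1) (univ : Finset (Fin (N + 1))),
        avgS (fun σ : Fin (N + 1) → Lab b → Fin N => ∏ i ∈ S, ind Y (σ i))
          ≤ (((y : ℝ) / N) ^ 4 / 2 ^ b) ^ (y / 2 + 1) := by
      intro S hS
      rw [mem_powersetCard] at hS
      rw [avgS_prod S (fun _ => ind Y)]
      rw [Finset.prod_const, hS.2]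
      refine pow_le_pow_left₀ (avg_nonneg (hind0 Y)) ?_ _
      have := avg_ini_le hN hb Y (by rw [hY.2]; exact hyd)
      rw [hY.2] at this
      exact this
    refine (Finset.sum_le_card_nsmul _ _ _ hS).trans ?_
    rw [nsmul_eq_mul, card_powersetCard, card_univ, Fintype.card_fin]
  refine (Finset.sum_le_card_nsmul _ _ _ hYb).trans ?_
  rw [nsmul_eq_mul, card_powersetCard, card_univ, Fintype.card_fin]
  rcases Nat.eq_zero_or_pos y with h0 | h0
  · subst h0
    simp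
  · have := ExD_term (b := b) N y h0 (hyd.trans hdl) hb17
    rw [mul_assoc] at this
    exact this

end H616TR
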