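import Pool.Agent.H616R2.TR.ExA
import Pool.Agent.H616R2.TR.ExB
import Pool.Agent.H616R2.TR.ExD

set_option autoImplicit false

/-! Existence of a good labelling. -/

namespace H616TR

open Finset

variable {b N : ℕ}

theorem ExE_avgS_mul (c : ℝ) (f : (Fin (N + 1) → Lab b → Fin N) → ℝ) :
    avgS (fun σ => c * f σ) = c * avgS f := by
  unfold avgS
  rw [← Finset.mul_sum, mul_div_assoc]

theorem ExE_FF_nonneg (σ : Fin (N + 1) → Lab b → Fin N) (ρ : Vis b N) : 0 ≤ FF σ ρ := by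
  unfold FF
  exact Finset.sum_nonneg fun x _ => Finset.sum_nonneg fun T _ => Finset.sum_nonneg fun S _ =>
    Finset.prod_nonneg fun i _ => NNReal.coe_nonneg _

/-- Task X6.  Existence of a good labelling. -/
theorem exists_good (hN : b ^ 40 ≤ N) (hb : B0 ≤ b) :
    ∃ σ : Fin (N + 1) → Lab b → Fin N, Ini σ ∧
      FF σ (fun _ => emp) ≤ (1 / 2 : ℝ) ^ (2 * (N + 1) + 2) := by
  have hb0 : 0 < b := lt_of_lt_of_le (by norm_num [B0]) hb
  have hN0 : 0 < N := lt_of_lt_of_le (Nat.pow_pos hb0) hN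
  have : NeZero N := ⟨hN0.ne'⟩
  obtain ⟨σ, hσ⟩ := exists_le_avgS (b := b) (N := N)
    (fun σ => (2 : ℝ) ^ (2 * (N + 1) + 2) * FF σ (fun _ => emp)
      + (if ProA σ b (fun _ => emp) then 0 else 1) + (if IniE σ then 0 else 1))
  have h1 : avgS (fun σ : Fin (N + 1) → Lab b → Fin N =>
      (2 : ℝ) ^ (2 * (N + 1) + 2) * FF σ (fun _ => emp)
      + (if ProA σ b (fun _ => emp) then 0 else 1) + (if IniE σ then 0 else 1)) ≤ 1 / 2 := by
    rw [avgS_add, avgS_add, ExE_avgS_mul]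
    have e1 := avgS_FF_le (b := b) (N := N) hN hb
    have e2 := avgS_ProA_le (b := b) (N := N) hN hb
    have e3 := avgS_ini_le (b := b) (N := N) hN hb
    have e4 : (2 : ℝ) ^ (2 * (N + 1) + 2) * (1 / 2 : ℝ) ^ (2 * (N + 1) + 4) = 1 / 4 := by
      rw [show 2 * (N + 1) + 4 = (2 * (N + 1) + 2) + 2 from rfl, pow_add (1 / 2 : ℝ) _ 2,
        ← mul_assoc, ← mul_pow]
      norm_num
    have e5 : (2 : ℝ) ^ (2 * (N + 1) + 2) *
        avgS (fun σ : Fin (N + 1) → Lab b → Fin N => FF σ (fun _ => emp)) ≤ 1 / 4 := by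
      rw [← e4]
      exact mul_le_mul_of_nonneg_left e1 (by positivity)
    linarith
  have h2 := hσ.trans h1
  have h0 : 0 ≤ (2 : ℝ) ^ (2 * (N + 1) + 2) * FF σ (fun _ => emp) :=
    mul_nonneg (by positivity) (ExE_FF_nonneg _ _)

  by_cases hA : ProA σ b (fun _ => emp)
  · by_cases hI : IniE σ
    · refine ⟨σ, ⟨hA, hI⟩, ?_⟩
      rw [if_pos hA, if_pos hI] at h2
      have h3 : (2 : ℝ) ^ (2 * (N + 1) + 2) * FF σ (fun _ => emp) ≤ 1 := by linarith
      rw [one_div, inv_pow, ← one_div, le_div_iff₀ (by positivity), mul_comm]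
      exact h3
    · rw [if_neg hI] at h2
      split_ifs at h2 <;> linarith
  · rw [if_neg hA] at h2
    split_ifs at h2 <;> linarith

end H616TR
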