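import Pool.Agent.H616R2.TR.StepA

set_option autoImplicit false

/-! Task Q1. -/

namespace H616TR

open Finset

variable {b N : ℕ}

theorem QueryA_cond {x : ℕ} {ρ : Vis b N} (i : Fin (N + 1)) (t : Fin b) (ht : ρ i t = none)
    (hf : fc (ρ i) ≤ nx x) (v : Bool) (j : Fin (N + 1)) :
    fc (upv ρ i t v j) ≤ nx x ↔ fc (ρ j) ≤ nx x := by
  by_cases hj : j = i
  · subst hj
    rw [upv_self]
    have := fc_up ht v
    constructor
    · intro _; exact hf
    · intro _; omega
  · rw [upv_ne ρ i t v hj]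

theorem QueryA_lowc {x : ℕ} {ρ : Vis b N} (i : Fin (N + 1)) (t : Fin b) (ht : ρ i t = none)
    (hf : fc (ρ i) ≤ nx x) (v : Bool) : lowc (nx x) (upv ρ i t v) = lowc (nx x) ρ := by
  unfold lowc
  congr 1
  exact Finset.filter_congr fun j _ => QueryA_cond i t ht hf v j

theorem QueryA_wt {x : ℕ} {ρ : Vis b N} (i : Fin (N + 1)) (t : Fin b) (ht : ρ i t = none)
    (hf : fc (ρ i) ≤ nx x) (v : Bool) : wt (nx x) (upv ρ i t v) = wt (nx x) ρ := by
  unfold wt
  refine Finset.prod_congr rfl fun j _ => ?_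
  by_cases hj : j = i
  · subst hj
    rw [if_pos hf, if_pos ((QueryA_cond j t ht hf v j).2 hf)]
  · rw [upv_ne ρ i t v hj]

theorem QueryA_half {σ : Fin (N + 1) → Lab b → Fin N} {x : ℕ} {ρ R : Vis b N}
    (hB : Big b N x) {ι : Type} [Fintype ι] (μ : ι → ℝ) (s : ι → HS b N) (L : ℝ)
    (hμ : ∀ k, 0 ≤ μ k) (hV : RVis σ x R ρ) (hs : ∀ k, RGood σ x R ρ (s k))
    (hL : L ≤ 11 * ((N : ℝ) + 1) / x + 2 * ((N : ℝ) + 1) / nx x)
    (hz : ∀ z : Fin (N + 1) → Lab b,
      (∑ k, if (∀ j, fc (ρ j) ≤ nx x → (s k).y j = z j) then μ k / 2 ^ (s k).pen else 0)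
        ≤ Ac N (lowc (nx x) ρ) * ((1 - 2 / (nx x : ℝ))⁻¹) ^ (lowc (nx x) ρ) * (2 : ℝ) ^ L
            * wt (nx x) ρ)
    (hne : (N : ℝ) / (x : ℝ) ^ 2 ≤ (highc (nx x) ρ : ℝ))
    (i : Fin (N + 1)) (t : Fin b) (ht : ρ i t = none) (hf : fc (ρ i) ≤ nx x) (v : Bool) :
    RunD σ x (upv ρ i t v) (∑ k ∈ univ.filter (fun k => (s k).y i t = v), μ k) := by
  classical
  refine ⟨{k // (s k).y i t = v}, inferInstance, fun k => μ k.1, fun k => s k.1, R, L,
    fun k => hμ k.1, ?_, rvis_step hV hne i t ht v, ?_, hL, ?_⟩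
  · exact (Finset.sum_subtype (univ.filter (fun k => (s k).y i t = v)) (by simp) μ).symm
  · rintro ⟨k, hk⟩
    have h1 := perm_step hB hV (hs k) i ((hs k).core.low i hf) t ht
    rw [hk] at h1
    have h2 : ({ s k with pen := (s k).pen + penInc x (fc (ρ i)) } : HS b N) = s k := by
      have h3 : penInc x (fc (ρ i)) = 0 := by
        unfold penInc
        rw [if_pos hf]
      rw [h3, Nat.add_zero]
    rw [h2] at h1
    exact h1
  · intro z
    rw [QueryA_lowc i t ht hf v, QueryA_wt i t ht hf v]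
    refine le_trans ?_ (hz z)
    have h1 : ∀ k : ι, (if (∀ j, fc (upv ρ i t v j) ≤ nx x → (s k).y j = z j) then
        μ k / 2 ^ (s k).pen else 0) =
        (if (∀ j, fc (ρ j) ≤ nx x → (s k).y j = z j) then μ k / 2 ^ (s k).pen else 0) := by
      intro k
      have h2 : (∀ j, fc (upv ρ i t v j) ≤ nx x → (s k).y j = z j) ↔
          (∀ j, fc (ρ j) ≤ nx x → (s k).y j = z j) := by
        refine forall_congr' fun j => ?_
        rw [QueryA_cond i t ht hf v j]
      by_cases h3 : ∀ j, fc (ρ j) ≤ nx x → (s k).y j = z j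
      · rw [if_pos h3, if_pos (h2.2 h3)]
      · rw [if_neg h3, if_neg (fun h => h3 (h2.1 h))]
    calc (∑ k : {k // (s k).y i t = v}, if (∀ j, fc (upv ρ i t v j) ≤ nx x → (s k.1).y j = z j)
          then μ k.1 / 2 ^ (s k.1).pen else 0)
        = ∑ k : {k // (s k).y i t = v}, (if (∀ j, fc (ρ j) ≤ nx x → (s k.1).y j = z j)
          then μ k.1 / 2 ^ (s k.1).pen else 0) := Finset.sum_congr rfl fun k _ => h1 k.1
      _ = ∑ k ∈ univ.filter (fun k => (s k).y i t = v),
            (if (∀ j, fc (ρ j) ≤ nx x → (s k).y j = z j) then μ k / 2 ^ (s k).pen else 0) :=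
          (Finset.sum_subtype (univ.filter (fun k => (s k).y i t = v)) (by simp)
            (fun k => if (∀ j, fc (ρ j) ≤ nx x → (s k).y j = z j)
              then μ k / 2 ^ (s k).pen else 0)).symm
      _ ≤ _ := by
          refine Finset.sum_le_sum_of_subset_of_nonneg (Finset.filter_subset _ _) ?_
          intro k _ _
          split_ifs
          · exact div_nonneg (hμ k) (by positivity)
          · exact le_rfl

/-- Task Q1.  The queried pigeon has level at most `F = nx x`.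

Proof: all hidden states have the pigeon committed; `ι_v = {k // (s k).y i t = v}`, `perm_step`
(penalty increment `0`); `lowc` and `wt` do not change. -/
theorem run_query_low {σ : Fin (N + 1) → Lab b → Fin N} {x : ℕ} {ρ : Vis b N} {M : ℝ}
    (hB : Big b N x) (h : RunD σ x ρ M)
    (hne : (N : ℝ) / (x : ℝ) ^ 2 ≤ (highc (nx x) ρ : ℝ))
    (i : Fin (N + 1)) (t : Fin b) (ht : ρ i t = none) (hf : fc (ρ i) ≤ nx x) :
    ∃ M0 M1, M ≤ M0 + M1 ∧ RunD σ x (upv ρ i t false) M0 ∧ RunD σ x (upv ρ i t true) M1 := by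
  obtain ⟨ι, _, μ, s, R, L, hμ, hM, hV, hs, hL, hz⟩ := h
  refine ⟨∑ k ∈ univ.filter (fun k => (s k).y i t = false), μ k,
    ∑ k ∈ univ.filter (fun k => (s k).y i t = true), μ k, ?_,
    QueryA_half hB μ s L hμ hV hs hL hz hne i t ht hf false,
    QueryA_half hB μ s L hμ hV hs hL hz hne i t ht hf true⟩
  rw [← hM]
  have h1 := Finset.sum_filter_add_sum_filter_not (univ : Finset ι)
    (fun k => (s k).y i t = false) μ
  have h2 : univ.filter (fun k => ¬ (s k).y i t = false) =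
      univ.filter (fun k => (s k).y i t = true) := by
    refine Finset.filter_congr fun k _ => ?_
    simp
  rw [h2] at h1
  exact h1.symm.le

end H616TR
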