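import Pool.Agent.H616R2.TR.NumA

set_option autoImplicit false

/-! Task N2: sizes of running hidden states (helper477). -/

namespace H616TR

open Finset

variable {b N : ℕ}

/-- the basic numerical facts in one place; `u` is `N / x²` -/
theorem numB_facts {x : ℕ} (hB : Big b N x) :
    (1000 : ℝ) ≤ (nx x : ℝ) ∧ 10 ^ 6 * (nx x : ℝ) ^ 2 ≤ (x : ℝ) ∧ (1 : ℝ) ≤ (x : ℝ) ∧
    (0 : ℝ) < (N : ℝ) ∧ 10 ^ 6 * (x : ℝ) ≤ (N : ℝ) / (x : ℝ) ^ 2 ∧
    (dl N x : ℝ) ≤ (N : ℝ) / (x : ℝ) ^ 2 / (x : ℝ) ^ 3 := by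
  have hF : (1000 : ℝ) ≤ (nx x : ℝ) := by exact_mod_cast nx_ge hB.x0
  have h6 : 2 * (nx x : ℝ) ^ 6 ≤ (x : ℝ) := by exact_mod_cast two_nx6_le hB.x0
  have hF0 : (0 : ℝ) < (nx x : ℝ) := by linarith
  have hF4 : (10 : ℝ) ^ 6 ≤ (nx x : ℝ) ^ 4 := by
    have h1 : (1000 : ℝ) ^ 4 ≤ (nx x : ℝ) ^ 4 := pow_le_pow_left₀ (by norm_num) hF 4
    have h2 : (10 : ℝ) ^ 6 ≤ 1000 ^ 4 := by norm_num
    exact h2.trans h1
  have hFX : 10 ^ 6 * (nx x : ℝ) ^ 2 ≤ (x : ℝ) := by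
    have h1 : 10 ^ 6 * (nx x : ℝ) ^ 2 ≤ (nx x : ℝ) ^ 4 * (nx x : ℝ) ^ 2 :=
      mul_le_mul_of_nonneg_right hF4 (by positivity)
    have h2 : (nx x : ℝ) ^ 4 * (nx x : ℝ) ^ 2 = (nx x : ℝ) ^ 6 := by ring
    have h3 : (0 : ℝ) ≤ (nx x : ℝ) ^ 6 := by positivity
    linarith
  have hX1 : (10 : ℝ) ^ 6 ≤ (x : ℝ) := by
    have h1 : (1 : ℝ) ≤ (nx x : ℝ) ^ 2 := one_le_pow₀ (by linarith)
    nlinarith
  have hX0 : (0 : ℝ) < (x : ℝ) := by
    have : (0 : ℝ) < 10 ^ 6 := by norm_num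
    linarith
  have hNx : (x : ℝ) ^ 40 ≤ (N : ℝ) := by
    have h1 : x ^ 40 ≤ N := (Nat.pow_le_pow_left hB.xb 40).trans hB.Nb
    exact_mod_cast h1
  have hN0 : (0 : ℝ) < (N : ℝ) := lt_of_lt_of_le (by positivity) hNx
  refine ⟨hF, hFX, by linarith [show (1 : ℝ) ≤ 10 ^ 6 by norm_num], hN0, ?_, ?_⟩
  · rw [le_div_iff₀ (by positivity)]
    refine le_trans ?_ hNx
    have h1 : (x : ℝ) ^ 4 ≤ (x : ℝ) ^ 40 :=
      pow_le_pow_right₀ (by linarith [show (1 : ℝ) ≤ 10 ^ 6 by norm_num]) (by norm_num)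
    refine le_trans ?_ h1
    have h2 : 10 ^ 6 * (x : ℝ) * (x : ℝ) ^ 2 ≤ (x : ℝ) * (x : ℝ) * (x : ℝ) ^ 2 := by
      gcongr
    calc 10 ^ 6 * (x : ℝ) * (x : ℝ) ^ 2 ≤ (x : ℝ) * (x : ℝ) * (x : ℝ) ^ 2 := h2
      _ = (x : ℝ) ^ 4 := by ring
  · have h1 := dl_le hB
    rw [div_div]
    have h2 : (x : ℝ) ^ 2 * (x : ℝ) ^ 3 = (x : ℝ) ^ 5 := by ring
    rw [h2]
    exact h1

/-- `F u / x ≤ u / (10⁶ F)` -/
theorem numB_small {X F u : ℝ} (hF : 1000 ≤ F) (hX : 10 ^ 6 * F ^ 2 ≤ X) (hX0 : 0 < X)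
    (hu : 0 ≤ u) : F * u / X ≤ u / (10 ^ 6 * F) := by
  have hF0 : 0 < F := by linarith
  rw [div_le_div_iff₀ hX0 (by positivity)]
  calc F * u * (10 ^ 6 * F) = u * (10 ^ 6 * F ^ 2) := by ring
    _ ≤ u * X := mul_le_mul_of_nonneg_left hX hu

theorem numB_small' {X F u : ℝ} (hF : 1000 ≤ F) (hX : 10 ^ 6 * F ^ 2 ≤ X) (hX1 : 1 ≤ X)
    (hu : 0 ≤ u) : u / X ^ 3 ≤ u / (10 ^ 6 * F) := by
  have hF0 : 0 < F := by linarith
  have h1 : 10 ^ 6 * F ≤ X ^ 3 := by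
    have h2 : X ≤ X ^ 3 := by
      calc X = X ^ 1 := (pow_one X).symm
        _ ≤ X ^ 3 := pow_le_pow_right₀ hX1 (by norm_num)
    have h3 : 10 ^ 6 * F ≤ 10 ^ 6 * F ^ 2 := by nlinarith
    linarith
  exact div_le_div_of_nonneg_left hu (by positivity) h1

theorem numB_p {σ : Fin (N + 1) → Lab b → Fin N} {x : ℕ} {R ρ : Vis b N} {s : HS b N}
    (hB : Big b N x) (hs : RGood σ x R ρ s) :
    (s.p : ℝ) ≤ 17 * ((nx x : ℝ) * ((N : ℝ) / (x : ℝ) ^ 2) / (x : ℝ)) := by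
  obtain ⟨hF, hFX, hX1, hN0, hu, hD⟩ := numB_facts hB
  set X : ℝ := (x : ℝ) with hXdef
  set F : ℝ := (nx x : ℝ) with hFdef
  set u : ℝ := (N : ℝ) / X ^ 2 with hudef
  set D : ℝ := (dl N x : ℝ) with hDdef
  have hX0 : 0 < X := by linarith
  have hF0 : 0 < F := by linarith
  have hu0 : 0 ≤ u := by positivity
  have hNu : (N : ℝ) = u * X ^ 2 := by
    rw [hudef]
    field_simp
  have hD0 : 0 ≤ D := Nat.cast_nonneg _
  have h1 : (s.p : ℝ) ≤ ((s.a : ℝ) + 1) * D := by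
    have h2 : s.p ≤ s.a * dl N x + dl N x := hs.prm.trans (Nat.add_le_add_left hs.pcd _)
    have h3 : (s.p : ℝ) ≤ (s.a : ℝ) * D + D := by
      rw [hDdef]
      exact_mod_cast h2
    linarith
  have hT : (s.T.card : ℝ) ≤ (N : ℝ) := by
    have h2 : s.T.card ≤ N := by
      have := Finset.card_le_univ s.T
      rwa [Fintype.card_fin] at this
    exact_mod_cast h2
  have hDN : 6 * D ≤ (N : ℝ) := by
    have h2 : u / X ^ 3 ≤ u / (10 ^ 6 * F) := numB_small' hF hFX hX1 hu0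
    have h3 : u / (10 ^ 6 * F) ≤ u / 6 := by
      apply div_le_div_of_nonneg_left hu0 (by norm_num)
      nlinarith
    have h4 : u ≤ (N : ℝ) := by
      rw [hNu]
      have : (1 : ℝ) ≤ X ^ 2 := one_le_pow₀ hX1
      nlinarith
    linarith
  have h5 : (s.a : ℝ) * ph N x ≤ 2 * (N : ℝ) := by
    have := hs.ph2
    linarith
  have h6 : (s.a : ℝ) ≤ 16 * X ^ 2 * F := by
    unfold ph at h5
    rw [← hXdef, ← hFdef] at h5
    have h7 : (s.a : ℝ) * ((N : ℝ) / (8 * X ^ 2 * F)) = (N : ℝ) * ((s.a : ℝ) / (8 * X ^ 2 * F)) := by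
      ring
    rw [h7] at h5
    have h8 : (s.a : ℝ) / (8 * X ^ 2 * F) ≤ 2 := by
      by_contra hcon
      rw [not_le] at hcon
      nlinarith
    rw [div_le_iff₀ (by positivity)] at h8
    linarith
  have hXF : 1 ≤ X ^ 2 * F := by
    have h9 : (1 : ℝ) ≤ X ^ 2 := one_le_pow₀ hX1
    nlinarith
  calc (s.p : ℝ) ≤ ((s.a : ℝ) + 1) * D := h1
    _ ≤ (17 * (X ^ 2 * F)) * (u / X ^ 3) := by
        apply mul_le_mul _ hD hD0 (by positivity)
        linarith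
    _ = 17 * (F * u / X) := by
        field_simp

theorem numB_T {σ : Fin (N + 1) → Lab b → Fin N} {x : ℕ} {R ρ : Vis b N} {s : HS b N}
    (hV : RVis σ x R ρ) (hs : RGood σ x R ρ s) :
    s.T.card ≤ lowc (nx x) ρ + 8 * dl N x + 2 * s.p := by
  have h1 : s.C.card ≤ lowc (nx x) ρ + (s.C.filter (fun i => nx x < fc (ρ i) ∧ fc (R i) ≤ x)).card +
      (univ.filter (fun i => x < fc (R i))).card := by
    have h2 : s.C ⊆ ((univ.filter (fun i => fc (ρ i) ≤ nx x)) ∪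
        (s.C.filter (fun i => nx x < fc (ρ i) ∧ fc (R i) ≤ x))) ∪
        (univ.filter (fun i => x < fc (R i))) := by
      intro i hi
      simp only [Finset.mem_union, Finset.mem_filter, Finset.mem_univ, true_and]
      by_cases h3 : fc (ρ i) ≤ nx x
      · exact Or.inl (Or.inl h3)
      · by_cases h4 : fc (R i) ≤ x
        · exact Or.inl (Or.inr ⟨hi, not_le.1 h3, h4⟩)
        · exact Or.inr (not_le.1 h4)
    refine (Finset.card_le_card h2).trans ?_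
    refine (Finset.card_union_le _ _).trans ?_
    refine Nat.add_le_add_right ?_ _
    exact Finset.card_union_le _ _
  have h5 := hs.siz
  have h6 := hs.hic
  have h7 := hV.sh
  omega

theorem numB_low (lev : ℕ) (ρ : Vis b N) : lowc lev ρ + highc lev ρ = N + 1 := by
  unfold lowc highc
  have h1 := Finset.card_filter_add_card_filter_not (s := (univ : Finset (Fin (N + 1))))
    (fun i => fc (ρ i) ≤ lev)
  have h2 : (univ.filter (fun i : Fin (N + 1) => ¬ fc (ρ i) ≤ lev)) =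
      univ.filter (fun i => lev < fc (ρ i)) := by
    apply Finset.filter_congr
    intro i _
    exact not_le
  rw [h2, Finset.card_univ, Fintype.card_fin] at h1
  exact h1

/-- Task N2.  Size bounds for running hidden states (`hV.hi` gives `highc`; `p ≤ (a+1)Δ` and
`a·ph ≤ |T| + 6Δ ≤ N + 6Δ` give the bound for `p`; `|T| ≤ |C| + 7Δ + p`, `|C| ≤ lowc + Δ + p` by `hic` and
`sh`; `lowc + highc = N + 1`). -/
theorem run_size {σ : Fin (N + 1) → Lab b → Fin N} {x : ℕ} {R ρ : Vis b N} {s : HS b N}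
    (hB : Big b N x) (hV : RVis σ x R ρ) (hs : RGood σ x R ρ s) :
    (s.p : ℝ) ≤ (N : ℝ) / (x : ℝ) ^ 2 / (100 * (nx x : ℝ)) ∧
    (s.T.card : ℝ) ≤ (lowc (nx x) ρ : ℝ) + (N : ℝ) / (x : ℝ) ^ 2 / (30 * (nx x : ℝ)) ∧
    (s.T.card : ℝ) + 100 * (dl N x : ℝ) + 100 ≤ (N : ℝ) * (1 - 1 / (8 * (x : ℝ) ^ 2)) := by
  have hp := numB_p hB hs
  obtain ⟨hF, hFX, hX1, hN0, hu, hD⟩ := numB_facts hB
  have hT0 := numB_T hV hs
  have hl := numB_low (nx x) ρ
  have hhi := hV.hi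
  set X : ℝ := (x : ℝ) with hXdef
  set F : ℝ := (nx x : ℝ) with hFdef
  set u : ℝ := (N : ℝ) / X ^ 2 with hudef
  set D : ℝ := (dl N x : ℝ) with hDdef
  have hX0 : 0 < X := by linarith
  have hF0 : 0 < F := by linarith
  have hu0 : 0 ≤ u := by positivity
  have hs1 := numB_small hF hFX hX0 hu0
  have hs2 := numB_small' hF hFX hX1 hu0
  set w : ℝ := u / (10 ^ 6 * F) with hw
  have hw0 : 0 ≤ w := by positivity
  have hp' : (s.p : ℝ) ≤ 17 * w := by linarith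
  have hD' : D ≤ w := by linarith
  have hw1 : u / (100 * F) = 10 ^ 4 * w := by
    rw [hw]
    field_simp
    norm_num
  have hw2 : 8 * w + 2 * (17 * w) ≤ u / (30 * F) := by
    have h1 : u / (30 * F) = 10 ^ 6 / 30 * w := by
      rw [hw]
      field_simp
    rw [h1]
    have : (8 : ℝ) * w + 2 * (17 * w) = 42 * w := by ring
    rw [this]
    exact mul_le_mul_of_nonneg_right (by norm_num) hw0
  have hT : (s.T.card : ℝ) ≤ (lowc (nx x) ρ : ℝ) + 8 * D + 2 * (s.p : ℝ) := by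
    rw [hDdef]
    exact_mod_cast hT0
  have hT2 : (s.T.card : ℝ) ≤ (lowc (nx x) ρ : ℝ) + u / (30 * F) := by linarith
  refine ⟨?_, hT2, ?_⟩
  · rw [hw1]
    have : 17 * w ≤ 10 ^ 4 * w := mul_le_mul_of_nonneg_right (by norm_num) hw0
    linarith
  · have hl' : (lowc (nx x) ρ : ℝ) + (highc (nx x) ρ : ℝ) = (N : ℝ) + 1 := by exact_mod_cast hl
    have h1 : (N : ℝ) * (1 - 1 / (8 * X ^ 2)) = (N : ℝ) - u / 8 := by
      rw [hudef]
      field_simp
    rw [h1]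
    have h2 : u / (30 * F) ≤ u / 30 := by
      apply div_le_div_of_nonneg_left hu0 (by norm_num)
      linarith
    have h3 : w ≤ u / 10 ^ 6 := by
      rw [hw]
      apply div_le_div_of_nonneg_left hu0 (by norm_num)
      nlinarith
    have h4 : (10 : ℝ) ^ 6 ≤ u := by nlinarith
    linarith

/-- Task N2.  The penalty of a running hidden state (ended or not). -/
theorem run_pen {σ : Fin (N + 1) → Lab b → Fin N} {x : ℕ} {R ρ : Vis b N} {s : HS b N}
    (hB : Big b N x) (hV : RVis σ x R ρ) (hs : RGood σ x R ρ s) :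
    (s.pen : ℝ) ≤ ((N : ℝ) + 1) / (nx x : ℝ) := by
  have hp := numB_p hB hs
  obtain ⟨hF, hFX, hX1, hN0, hu, hD⟩ := numB_facts hB
  have hbb := hV.bb
  have hpen : s.pen ≤ (∑ i ∈ univ.filter (fun i => x < fc (R i)), fc (R i)) + x * s.p :=
    le_trans (Nat.le_add_right _ _) (le_trans (Nat.le_add_right _ _) hs.pen)
  have hpen' : (s.pen : ℝ) ≤
      ((∑ i ∈ univ.filter (fun i => x < fc (R i)), fc (R i) : ℕ) : ℝ) + (x : ℝ) * (s.p : ℝ) := by
    exact_mod_cast hpen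
  set X : ℝ := (x : ℝ) with hXdef
  set F : ℝ := (nx x : ℝ) with hFdef
  set u : ℝ := (N : ℝ) / X ^ 2 with hudef
  have hX0 : 0 < X := by linarith
  have hF0 : 0 < F := by linarith
  have h1 : X * (s.p : ℝ) ≤ 17 * (F * u) := by
    calc X * (s.p : ℝ) ≤ X * (17 * (F * u / X)) := mul_le_mul_of_nonneg_left hp hX0.le
      _ = 17 * (F * u) := by field_simp
  have hFXle : 1000 * F ≤ X := by nlinarith
  have h2 : ((N : ℝ) + 1) / X ≤ ((N : ℝ) + 1) / F / 2 := by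
    rw [div_div]
    apply div_le_div_of_nonneg_left (by positivity) (by positivity)
    linarith
  have h3 : 17 * (F * u) ≤ ((N : ℝ) + 1) / F / 2 := by
    have h4 : 17 * (F * u) ≤ (N : ℝ) / F / 2 := by
      rw [hudef, div_div, le_div_iff₀ (by positivity)]
      have h5 : 17 * (F * ((N : ℝ) / X ^ 2)) * (F * 2) = (N : ℝ) * (34 * F ^ 2 / X ^ 2) := by
        field_simp
        ring
      rw [h5]
      have h6 : 34 * F ^ 2 / X ^ 2 ≤ 1 := by
        rw [div_le_one (by positivity)]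
        nlinarith
      nlinarith
    have h7 : (N : ℝ) / F / 2 ≤ ((N : ℝ) + 1) / F / 2 := by
      gcongr
      linarith
    linarith
  linarith

/-- Task N2.  A pigeon about to be committed has many available labels. -/
theorem avail_bound {σ : Fin (N + 1) → Lab b → Fin N} {x : ℕ} {R ρ : Vis b N} {s : HS b N}
    (hB : Big b N x) (hV : RVis σ x R ρ) (hs : RGood σ x R ρ s)
    (i : Fin (N + 1)) (hi : i ∉ s.C) (hfc : fc (ρ i) = nx x + 1) :
    (1 - 2 / (nx x : ℝ)) * (1 - (lowc (nx x) ρ : ℝ) / N) * 2 ^ (nx x + 1)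
      ≤ (av (σ i) (ρ i) s.T : ℝ) := by
  have hp := numB_p hB hs
  have hnx := nx_lt hB.x0
  obtain ⟨hF, hFX, hX1, hN0, hu, hD⟩ := numB_facts hB
  have hT0 := numB_T hV hs
  have hl := numB_low (nx x) ρ
  have hhi := hV.hi
  -- not bad
  have hnb : ¬ BadS (σ i) x (Kth N x s.a) (ρ i) s.T := by
    intro hbad
    have h1 := hs.CL ∅ (Finset.disjoint_empty_left _) (by simp)
    rw [Finset.union_empty, Finset.card_empty] at h1
    have h2 : i ∈ univ.filter (fun i => i ∉ s.C ∧ BadS (σ i) x (Kth N x s.a) (ρ i) s.T) := by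
      rw [Finset.mem_filter]
      exact ⟨Finset.mem_univ _, hi, hbad⟩
    have h3 := Finset.card_pos.2 ⟨i, h2⟩
    omega
  have hxf : ¬ x < fc (ρ i) := by
    rw [hfc]
    omega
  unfold BadS at hnb
  rw [if_neg hxf] at hnb
  push Not at hnb
  set κ : ℝ := (1 - 1 / (nx x : ℝ)) *
    (1 - ((s.a : ℝ) + 1) * ph N x / N - 10 * (dl N x : ℝ) / N) with hκ
  have hav := av_ge_of_sub (τ := σ i) (T := s.T) (F := nx x) (κ := κ) (ρ i) (by omega)
    (fun r' h1 h2 => hnb r' h1 h2)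
  rw [hfc] at hav
  refine le_trans ?_ hav
  apply mul_le_mul_of_nonneg_right _ (by positivity)
  rw [hκ]
  -- numerical part
  set X : ℝ := (x : ℝ) with hXdef
  set F : ℝ := (nx x : ℝ) with hFdef
  set u : ℝ := (N : ℝ) / X ^ 2 with hudef
  set D : ℝ := (dl N x : ℝ) with hDdef
  set l : ℝ := (lowc (nx x) ρ : ℝ) with hldef
  have hX0 : 0 < X := by linarith
  have hF0 : 0 < F := by linarith
  have hu0 : 0 ≤ u := by positivity
  have hs1 := numB_small hF hFX hX0 hu0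
  have hs2 := numB_small' hF hFX hX1 hu0
  set w : ℝ := u / (10 ^ 6 * F) with hw
  have hw0 : 0 ≤ w := by positivity
  have hp' : (s.p : ℝ) ≤ 17 * w := by linarith
  have hD' : D ≤ w := by linarith
  have hFw : F * w = u / 10 ^ 6 := by
    rw [hw]
    field_simp
  have hT : (s.T.card : ℝ) ≤ l + 8 * D + 2 * (s.p : ℝ) := by
    rw [hDdef, hldef]
    exact_mod_cast hT0
  have hl' : l + (highc (nx x) ρ : ℝ) = (N : ℝ) + 1 := by
    rw [hldef]
    exact_mod_cast hl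
  have hph : ((s.a : ℝ) + 1) * ph N x ≤ l + 58 * w + ph N x - 10 * D + 10 * w := by
    have h1 := hs.ph2
    rw [add_mul, one_mul]
    linarith
  have hFph : F * ph N x = u / 8 := by
    unfold ph
    rw [← hXdef, ← hFdef, hudef]
    field_simp
  have hu6 : (10 : ℝ) ^ 6 ≤ u := by nlinarith
  -- `h = 1 - l/N ≥ F δ`
  have hkey : F * (68 * w + ph N x) ≤ (N : ℝ) - l := by
    rw [mul_add, hFph]
    have h1 : F * (68 * w) = 68 * (u / 10 ^ 6) := by
      rw [← hFw]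
      ring
    rw [h1]
    linarith
  have h1 : 1 - l / (N : ℝ) - (68 * w + ph N x) / N ≤
      1 - ((s.a : ℝ) + 1) * ph N x / N - 10 * D / N := by
    have h2 : (((s.a : ℝ) + 1) * ph N x + 10 * D) / N ≤ (l + (68 * w + ph N x)) / N := by
      apply div_le_div_of_nonneg_right _ hN0.le
      linarith
    rw [add_div, add_div] at h2
    linarith
  have hF1 : 0 ≤ 1 - 1 / F := by
    rw [sub_nonneg, div_le_one hF0]
    linarith
  refine le_trans ?_ (mul_le_mul_of_nonneg_left h1 hF1)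
  -- (1 - 2/F) h ≤ (1 - 1/F)(h - δ)
  set h : ℝ := 1 - l / (N : ℝ) with hh
  set δ : ℝ := (68 * w + ph N x) / N with hδ
  have hδ0 : 0 ≤ δ := by
    have := (ph_pos hB).le
    positivity
  have h3 : F * δ ≤ h := by
    rw [hδ, hh, ← mul_div_assoc, div_le_iff₀ hN0, sub_mul, one_mul, div_mul_cancel₀ _ hN0.ne']
    exact hkey
  have h4 : δ ≤ h / F := by
    rw [le_div_iff₀ hF0]
    linarith
  have h5 : (1 - 2 / F) * h = (1 - 1 / F) * h - h / F := by
    field_simp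
    ring
  have h6 : (1 - 1 / F) * (h - δ) = (1 - 1 / F) * h - (1 - 1 / F) * δ := by ring
  have h7 : (1 - 1 / F) * δ ≤ δ := by
    have h8 : 0 ≤ 1 / F := by positivity
    exact mul_le_of_le_one_left hδ0 (by linarith)
  rw [h5, h6]
  linarith

end H616TR
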