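import Pool.Agent.H616R2.TR.C1
import Pool.Agent.H616R2.TR.NumB

set_option autoImplicit false

/-! Task S2: commitment of a pigeon. -/

namespace H616TR

open Finset

variable {b N : ℕ}

/-- Variant of `closure_commit` with the additional conclusion `2 * S.card ≤ D`. -/
theorem StepB_closure {P H : Type} [Fintype P] [DecidableEq P] [Fintype H] [DecidableEq H]
    (U : Finset P) (bad : P → Finset H → Prop) [∀ i T, Decidable (bad i T)]
    (opts : P → Finset H) (T : Finset H) (D : ℕ)
    (hmono : ∀ i T1 T2, T1 ⊆ T2 → bad i T1 → bad i T2)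
    (hloc : ∀ i T1, bad i T1 → bad i (T1 ∩ opts i))
    (hA : ∀ T1 : Finset H, T1.card ≤ T.card + 2 * D + 1 →
      2 * (U.filter (fun i => bad i T1)).card ≤ D)
    (hCL : ∀ Y : Finset H, Disjoint Y T → Y.card ≤ D →
      2 * (U.filter (fun i => bad i (T ∪ Y))).card ≤ Y.card)
    (h : H) (hh : h ∉ T) :
    ∃ (S : Finset P) (η : P → H) (T' : Finset H), S ⊆ U ∧ insert h T ⊆ T' ∧
      T'.card ≤ T.card + 1 + 2 * S.card ∧
      (∀ i ∈ S, η i ∈ opts i ∧ η i ∈ T' ∧ η i ∉ insert h T) ∧
      (∀ i ∈ S, ∀ j ∈ S, η i = η j → i = j) ∧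
      (∀ i ∈ S, bad i T') ∧
      (∀ Y : Finset H, Disjoint Y T' → Y.card ≤ D →
        2 * ((U \ S).filter (fun i => bad i (T' ∪ Y))).card ≤ Y.card) ∧
      2 * S.card ≤ D := by
  classical
  set T0 := insert h T with hT0
  let fam : Finset (Finset H) := univ.filter (fun Y => Disjoint Y T0 ∧ Y.card ≤ D ∧
    Y.card < 2 * (U.filter (fun i => bad i (T0 ∪ Y))).card)
  have hT0c : T0.card = T.card + 1 := Finset.card_insert_of_notMem hh
  rcases fam.eq_empty_or_nonempty with hfam | hfam
  · refine ⟨∅, fun _ => h, T0, Finset.empty_subset _, le_refl _, ?_, ?_, ?_, ?_, ?_, ?_⟩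
    · simp [hT0c]
    · simp
    · simp
    · simp
    · intro Y hY hYD
      by_contra hcon
      push Not at hcon
      have : Y ∈ fam := by
        simp only [fam, Finset.mem_filter, Finset.mem_univ, true_and]
        refine ⟨hY, hYD, ?_⟩
        simpa using hcon
      rw [hfam] at this
      simp at this
    · simp
  · obtain ⟨Y2, hY2, hmax⟩ := Finset.exists_max_image fam Finset.card hfam
    simp only [fam, Finset.mem_filter, Finset.mem_univ, true_and] at hY2
    obtain ⟨hY2d, hY2D, hY2c⟩ := hY2
    set S := U.filter (fun i => bad i (T0 ∪ Y2)) with hS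
    have hS2 : 2 * S.card ≤ D := by
      apply hA
      refine (Finset.card_union_le _ _).trans ?_
      omega
    have hhall : ∀ S3 : Finset P, S3 ⊆ S → S3.card ≤ (S3.biUnion (fun i => opts i ∩ Y2)).card := by
      intro S3 hS3
      set Y3 := S3.biUnion (fun i => opts i ∩ Y2) with hY3
      rcases S3.eq_empty_or_nonempty with he | hne
      · simp [he]
      have h1 := hCL (insert h Y3 \ T) Finset.sdiff_disjoint (by
        refine (Finset.card_le_card Finset.sdiff_subset).trans ?_
        refine (Finset.card_insert_le _ _).trans ?_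
        have h2 : Y3.card ≤ Y2.card := Finset.card_le_card (by
          intro z hz
          rw [hY3, Finset.mem_biUnion] at hz
          obtain ⟨i, -, hz⟩ := hz
          exact (Finset.mem_inter.mp hz).2)
        omega)
      have h3 : S3 ⊆ U.filter (fun i => bad i (T ∪ (insert h Y3 \ T))) := by
        intro i hi
        have h4 := hS3 hi
        rw [hS, Finset.mem_filter] at h4
        rw [Finset.mem_filter]
        refine ⟨h4.1, hmono i _ _ ?_ (hloc i _ h4.2)⟩
        intro z hz
        rw [Finset.mem_inter, Finset.mem_union] at hz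
        rw [Finset.mem_union, Finset.mem_sdiff, Finset.mem_insert]
        by_cases hzT : z ∈ T
        · exact Or.inl hzT
        · right
          refine ⟨?_, hzT⟩
          rcases hz.1 with hz1 | hz1
          · rw [hT0, Finset.mem_insert] at hz1
            rcases hz1 with hz1 | hz1
            · exact Or.inl hz1
            · exact absurd hz1 hzT
          · right
            rw [hY3, Finset.mem_biUnion]
            exact ⟨i, hi, Finset.mem_inter.mpr ⟨hz.2, hz1⟩⟩
      have h5 := Finset.card_le_card h3
      have h6 : (insert h Y3 \ T).card ≤ Y3.card + 1 :=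
        (Finset.card_le_card Finset.sdiff_subset).trans (Finset.card_insert_le _ _)
      have h7 : 1 ≤ S3.card := Finset.card_pos.mpr hne
      omega
    have hhall2 : ∃ f : {i // i ∈ S} → H, Function.Injective f ∧
        ∀ i, f i ∈ (fun i : {i // i ∈ S} => opts i.1 ∩ Y2) i := by
      rw [← Finset.all_card_le_biUnion_card_iff_exists_injective]
      intro s
      have h1 := hhall (s.map (Function.Embedding.subtype _)) (by
        intro i hi
        rw [Finset.mem_map] at hi
        obtain ⟨j, -, rfl⟩ := hi
        exact j.2)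
      rw [Finset.card_map] at h1
      refine h1.trans (Finset.card_le_card ?_)
      intro z hz
      rw [Finset.mem_biUnion] at hz ⊢
      obtain ⟨i, hi, hz⟩ := hz
      rw [Finset.mem_map] at hi
      obtain ⟨j, hj, rfl⟩ := hi
      exact ⟨j, hj, hz⟩
    obtain ⟨f, hf1, hf2⟩ := hhall2
    refine ⟨S, fun i => if hi : i ∈ S then f ⟨i, hi⟩ else h, T0 ∪ Y2, Finset.filter_subset _ _,
      Finset.subset_union_left, ?_, ?_, ?_, ?_, ?_, hS2⟩
    · refine (Finset.card_union_le _ _).trans ?_
      omega
    · intro i hi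
      have h1 := hf2 ⟨i, hi⟩
      simp only [Finset.mem_inter] at h1
      simp only [hi, dif_pos]
      refine ⟨h1.1, Finset.mem_union_right _ h1.2, ?_⟩
      exact Finset.disjoint_left.mp hY2d h1.2
    · intro i hi j hj he
      simp only [hi, hj, dif_pos] at he
      have := hf1 he
      simpa using this
    · intro i hi
      rw [hS, Finset.mem_filter] at hi
      exact hi.2
    · intro Y hY hYD
      by_contra hcon
      push Not at hcon
      set S3 := (U \ S).filter (fun i => bad i (T0 ∪ Y2 ∪ Y)) with hS3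
      have hYne : Y ≠ ∅ := by
        rintro rfl
        have : S3 = ∅ := by
          rw [hS3, Finset.filter_eq_empty_iff]
          intro i hi
          rw [Finset.union_empty]
          intro hb
          rw [Finset.mem_sdiff] at hi
          apply hi.2
          rw [hS, Finset.mem_filter]
          exact ⟨hi.1, hb⟩
        rw [this] at hcon
        simp at hcon
      have hYpos : 1 ≤ Y.card := Finset.card_pos.mpr (Finset.nonempty_iff_ne_empty.mpr hYne)
      have hdY : Disjoint Y2 Y := (Finset.disjoint_of_subset_right Finset.subset_union_right hY).symm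
      have hcard : (Y2 ∪ Y).card = Y2.card + Y.card := Finset.card_union_of_disjoint hdY
      have hsub : S ∪ S3 ⊆ U.filter (fun i => bad i (T0 ∪ (Y2 ∪ Y))) := by
        intro i hi
        rw [Finset.mem_filter]
        rcases Finset.mem_union.mp hi with h1 | h1
        · rw [hS, Finset.mem_filter] at h1
          exact ⟨h1.1, hmono i _ _ (Finset.union_subset_union_right Finset.subset_union_left) h1.2⟩
        · rw [hS3, Finset.mem_filter, Finset.mem_sdiff, Finset.union_assoc] at h1
          exact ⟨h1.1.1, h1.2⟩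
      have hdS : Disjoint S S3 := by
        rw [Finset.disjoint_left]
        intro i hi hi'
        rw [hS3, Finset.mem_filter, Finset.mem_sdiff] at hi'
        exact hi'.1.2 hi
      have h1 := Finset.card_le_card hsub
      rw [Finset.card_union_of_disjoint hdS] at h1
      have h2 : 2 * (U.filter (fun i => bad i (T0 ∪ (Y2 ∪ Y)))).card ≤ D := by
        apply hA
        refine (Finset.card_union_le _ _).trans ?_
        omega
      have h3 : Y2 ∪ Y ∈ fam := by
        simp only [fam, Finset.mem_filter, Finset.mem_univ, true_and]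
        refine ⟨?_, by omega, by omega⟩
        rw [Finset.disjoint_union_left]
        exact ⟨hY2d, Finset.disjoint_of_subset_right Finset.subset_union_left hY⟩
      have h4 := hmax _ h3
      omega

/-- a pigeon of start level at most `x` that is bad is atypical -/
theorem StepB_atyp {σ : Fin (N + 1) → Lab b → Fin N} {x a : ℕ} (hB : Big b N x)
    {j : Fin (N + 1)} {r r0 : Par b} {T1 : Finset (Fin N)} (hsub : Sub r0 r) (hx : fc r0 ≤ x)
    (hbad : BadS (σ j) x (Kth N x a) r T1)
    (hT : (T1.card : ℝ) ≤ ((a : ℝ) + 1) * ph N x + 10 * (dl N x : ℝ)) :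
    Atyp (σ j) x r0 T1 := by
  have h1 := BadS.sub hsub hx hbad
  unfold BadS at h1
  rw [if_neg (by omega)] at h1
  obtain ⟨r', h2, h3, h4⟩ := h1
  exact ⟨r', h2, h3, Or.inl (lt_of_lt_of_le h4 (Kth_le hB hT))⟩

theorem StepB_count {σ : Fin (N + 1) → Lab b → Fin N} {x : ℕ} {R ρ : Vis b N} {s : HS b N}
    (hB : Big b N x) (hV : RVis σ x R ρ) (hs : RGood σ x R ρ s) (T1 : Finset (Fin N))
    (hT1 : T1.card ≤ s.T.card + 8 * dl N x + 1)
    (A : Finset (Fin (N + 1))) (hA : ∀ j ∈ A, fc (R j) ≤ x ∧ ∃ r, Sub (R j) r ∧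
      BadS (σ j) x (Kth N x s.a) r T1) : A.card ≤ dl N x := by
  have hd := dl_pos hB
  have hd' : (1 : ℝ) ≤ (dl N x : ℝ) := by exact_mod_cast hd
  have hT1' : (T1.card : ℝ) ≤ s.T.card + 8 * dl N x + 1 := by exact_mod_cast hT1
  have hlim : InLim N x T1 := by
    have h3 := (run_size hB hV hs).2.2
    unfold InLim
    linarith
  refine le_trans (Finset.card_le_card ?_) (hV.A T1 hlim)
  intro j hj
  obtain ⟨h1, r, h2, h3⟩ := hA j hj
  rw [Finset.mem_filter]
  refine ⟨Finset.mem_univ _, h1, StepB_atyp hB h2 h1 h3 ?_⟩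
  have := hs.ph1
  linarith

theorem StepB_sum (A : Finset (Fin (N + 1))) (P : Fin (N + 1) → Prop) [DecidablePred P]
    (f : Fin (N + 1) → ℕ) :
    (∑ j ∈ A.filter P, f j) = ∑ j, if (j ∈ A ∧ P j) then f j else 0 := by
  rw [← Finset.sum_filter]
  apply Finset.sum_congr
  · ext j; simp
  · intros; rfl

/-- Task S2.  Commitment of an uncommitted pigeon `i` to an available label `y0`, together with the
answer to the query.

Paper proof.  Apply `closure_commit` with `P = Fin (N+1)`, `H = Fin N`, `U = {j | j ∉ s.C ∧ j ≠ i}`,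
`bad j T = BadS (σ j) x (Kth N x s.a) (ρ j) T`, `opts j = (pts (ρ j)).image (σ j)`, `T = s.T`,
`D = 4 * dl N x`, `h = σ i y0`.
* `hA`: for `T₁` with `|T₁| ≤ |s.T| + 8Δ + 1` we have `InLim N x T₁` (`run_size`) and
  `Kth N x s.a ≤ (1-η)(1-|T₁|/N) 2^F` (`Kth_le` with `ph1`, `dl_pos`); a bad `j ∉ s.C` with
  `fc (ρ j) ≤ x` has `fc (R j) ≤ x` (by `unt`), is bad for `R j` (`BadS.sub`), hence
  `Atyp (σ j) x (R j) T₁`; there are at most `Δ` such `j` (`hV.A`), and at most `Δ` uncommitted `j` with
  `fc (R j) > x` (`hV.sh`).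
* `hCL` from `hs.CL`.
It gives `S, η, T'`.  Choose labels `y'_j ∈ pts (ρ j)` with `σ j (y'_j) = η j` for `j ∈ S`.  New state:
`C' = insert i (s.C ∪ S)`, labels `y0` at `i`, `y'_j` on `S`, old ones otherwise, `T'`,
`p' = s.p + |S_mid|` where `S_mid = {j ∈ S | fc (R j) ≤ x}`,
`a' =` the least number `≥ s.a` with `|T'| ≤ (a'+1)·ph`; if `a' = s.a` then `pc' = s.pc ∪ S_mid`, otherwise
`pc' = ∅` (use `p ≤ aΔ + |pc| ≤ (a+1)Δ`); `pen' = pen + (if x < fc (ρ i) then 1 else 0)`.
If `i` is of level `F+1` it becomes low after the answer. -/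
theorem commit_step {σ : Fin (N + 1) → Lab b → Fin N} {x : ℕ} {R ρ : Vis b N} {s : HS b N}
    (hB : Big b N x) (hV : RVis σ x R ρ) (hs : RGood σ x R ρ s)
    (i : Fin (N + 1)) (hi : i ∉ s.C) (t : Fin b) (ht : ρ i t = none)
    (hlev : x < fc (ρ i) ∨ fc (ρ i) = nx x + 1)
    (y0 : Lab b) (hy0 : y0 ∈ pts (ρ i)) (hy : σ i y0 ∉ s.T) :
    ∃ s' : HS b N, RGood σ x R (upv ρ i t (y0 t)) s' ∧ s'.y i = y0 ∧
      (∀ j ∈ s.C, s'.y j = s.y j) ∧
      s'.pen = s.pen + (if x < fc (ρ i) then 1 else 0) := by
  classical
  have hd := dl_pos hB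
  have hnx := nx_lt hB.x0
  have hΔR : (1 : ℝ) ≤ (dl N x : ℝ) := by exact_mod_cast hd
  obtain ⟨S, η, T', hSU, hTT', hTc, hη, hηi, hSb, hCL', hSc⟩ :=
    StepB_closure (univ.filter (fun j => j ∉ s.C ∧ j ≠ i))
      (fun j T => BadS (σ j) x (Kth N x s.a) (ρ j) T) (fun j => (pts (ρ j)).image (σ j)) s.T
      (4 * dl N x) (fun j T1 T2 h h' => BadS.mono h h') (fun j T1 h => BadS.loc h)
      (by
        intro T1 hT1
        have h1 : ((univ.filter (fun j => j ∉ s.C ∧ j ≠ i)).filter
            (fun j => BadS (σ j) x (Kth N x s.a) (ρ j) T1)).card ≤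
            (univ.filter (fun j => (fc (R j) ≤ x ∧
              BadS (σ j) x (Kth N x s.a) (ρ j) T1))).card +
            (univ.filter (fun j => x < fc (R j))).card := by
          refine le_trans (Finset.card_le_card ?_) (Finset.card_union_le _ _)
          intro j hj
          simp only [Finset.mem_filter, Finset.mem_univ, true_and, Finset.mem_union] at hj ⊢
          rcases le_or_gt (fc (R j)) x with h | h
          · exact Or.inl ⟨h, hj.2⟩
          · exact Or.inr h
        have h2 : (univ.filter (fun j => (fc (R j) ≤ x ∧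
              BadS (σ j) x (Kth N x s.a) (ρ j) T1))).card ≤ dl N x := by
          apply StepB_count hB hV hs T1 (by omega)
          intro j hj
          rw [Finset.mem_filter] at hj
          exact ⟨hj.2.1, ρ j, hV.sub j, hj.2.2⟩
        have h3 := hV.sh
        omega)
      (by
        intro Y hY hYc
        refine le_trans (Nat.mul_le_mul_left 2 (Finset.card_le_card ?_)) (hs.CL Y hY hYc)
        intro j hj
        simp only [Finset.mem_filter, Finset.mem_univ, true_and] at hj ⊢
        exact ⟨hj.1.1, hj.2⟩)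
      (σ i y0) hy
  have hTsub : s.T ⊆ T' := (Finset.subset_insert _ _).trans hTT'
  have hhT : σ i y0 ∈ T' := hTT' (Finset.mem_insert_self _ _)
  have hSC : ∀ j ∈ S, j ∉ s.C ∧ j ≠ i := fun j hj => by
    have := hSU hj
    simpa using this
  have hlab : ∀ j ∈ S, ∃ y, y ∈ pts (ρ j) ∧ σ j y = η j := by
    intro j hj
    have := (hη j hj).1
    simpa using this
  choose! yS hyS1 hyS2 using hlab
  -- the new phase
  have hphp := ph_pos hB
  have hexa : ∃ a, s.a ≤ a ∧ (T'.card : ℝ) ≤ ((a : ℝ) + 1) * ph N x := by
    obtain ⟨m, hm⟩ := exists_nat_ge ((T'.card : ℝ) / ph N x)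
    refine ⟨max s.a m, le_max_left _ _, ?_⟩
    rw [div_le_iff₀ hphp] at hm
    refine hm.trans ?_
    apply mul_le_mul_of_nonneg_right _ hphp.le
    push_cast
    have := le_max_right (s.a : ℝ) (m : ℝ)
    linarith
  set a' := Nat.find hexa with ha'
  have ha1 : s.a ≤ a' := (Nat.find_spec hexa).1
  have ha2 : (T'.card : ℝ) ≤ ((a' : ℝ) + 1) * ph N x := (Nat.find_spec hexa).2
  have hKK : Kth N x a' ≤ Kth N x s.a := Kth_anti hB ha1
  set Sm := S.filter (fun j => fc (R j) ≤ x) with hSm
  have hSmS : Sm ⊆ S := Finset.filter_subset _ _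
  have hTcc : (s.T.card : ℝ) ≤ T'.card := by exact_mod_cast Finset.card_le_card hTsub
  -- the premature commitments of the phase
  have hpcb : ∀ j ∈ s.pc ∪ Sm, fc (R j) ≤ x ∧ BadS (σ j) x (Kth N x s.a) (R j) T' := by
    intro j hj
    rcases Finset.mem_union.mp hj with h | h
    · exact ⟨(hs.pcs j h).1, BadS.mono hTsub (hs.pcs j h).2⟩
    · rw [hSm, Finset.mem_filter] at h
      exact ⟨h.2, BadS.sub (hV.sub j) h.2 (hSb j h.1)⟩
  have hpcc : (s.pc ∪ Sm).card ≤ dl N x := by
    apply StepB_count hB hV hs T' (by omega)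
    intro j hj
    exact ⟨(hpcb j hj).1, R j, Sub.refl _, (hpcb j hj).2⟩
  have hpcdisj : Disjoint s.pc Sm := by
    rw [Finset.disjoint_left]
    intro j hj hj'
    exact (hSC j (hSmS hj')).1 (hs.pcC hj)
  have hpcu : (s.pc ∪ Sm).card = s.pc.card + Sm.card := Finset.card_union_of_disjoint hpcdisj
  have hρne : ∀ j, j ≠ i → upv ρ i t (y0 t) j = ρ j := fun j hj => upv_ne ρ i t _ hj
  have hρi : upv ρ i t (y0 t) i = up (ρ i) t (y0 t) := upv_self ρ i t _
  have hfci : fc (up (ρ i) t (y0 t)) + 1 = fc (ρ i) := fc_up ht _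
  let y' : Fin (N + 1) → Lab b := fun j => if j = i then y0 else if j ∈ S then yS j else s.y j
  have hy'i : y' i = y0 := by simp [y']
  have hy'S : ∀ j ∈ S, y' j = yS j := by
    intro j hj
    simp [y', (hSC j hj).2, hj]
  have hy'C : ∀ j ∈ s.C, y' j = s.y j := by
    intro j hj
    have h1 : j ≠ i := fun h => hi (h ▸ hj)
    have h2 : j ∉ S := fun h => (hSC j h).1 hj
    simp [y', h1, h2]
  have hmemC : ∀ j, j ∈ insert i (s.C ∪ S) ↔ j = i ∨ j ∈ s.C ∨ j ∈ S := by
    intro j; simp
  have hCdisj : Disjoint s.C S := by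
    rw [Finset.disjoint_left]
    intro j hj hj'
    exact (hSC j hj').1 hj
  have hCcard : (insert i (s.C ∪ S)).card = s.C.card + S.card + 1 := by
    rw [Finset.card_insert_of_notMem, Finset.card_union_of_disjoint hCdisj]
    simp only [Finset.mem_union, not_or]
    exact ⟨hi, fun h => (hSC i h).2 rfl⟩
  refine ⟨⟨insert i (s.C ∪ S), y', T', a', s.p + Sm.card,
    if a' = s.a then s.pc ∪ Sm else ∅, s.pen + (if x < fc (ρ i) then 1 else 0)⟩,
    ?_, hy'i, hy'C, rfl⟩
  constructor
  · -- core
    constructor
    · intro j hj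
      show j ∈ insert i (s.C ∪ S)
      rw [hmemC]
      by_cases hji : j = i
      · exact Or.inl hji
      · rw [hρne j hji] at hj
        exact Or.inr (Or.inl (hs.core.low j hj))
    · intro j hj
      change j ∈ insert i (s.C ∪ S) at hj
      show y' j ∈ pts (upv ρ i t (y0 t) j)
      rw [hmemC] at hj
      rcases hj with h | h | h
      · subst h
        rw [hy'i, hρi, mem_pts_up ht]
        exact ⟨hy0, rfl⟩
      · have h1 : j ≠ i := fun h' => hi (h' ▸ h)
        rw [hy'C j h, hρne j h1]
        exact hs.core.lab j h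
      · rw [hy'S j h, hρne j (hSC j h).2]
        exact hyS1 j h
    · intro j hj
      change j ∈ insert i (s.C ∪ S) at hj
      show σ j (y' j) ∈ T'
      rw [hmemC] at hj
      rcases hj with h | h | h
      · subst h
        rw [hy'i]
        exact hhT
      · rw [hy'C j h]
        exact hTsub (hs.core.inT j h)
      · rw [hy'S j h, hyS2 j h]
        exact (hη j h).2.1
    · intro j hj k hk he
      change j ∈ insert i (s.C ∪ S) at hj
      change k ∈ insert i (s.C ∪ S) at hk
      change σ j (y' j) = σ k (y' k) at he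
      rw [hmemC] at hj hk
      rcases hj with h | h | h <;> rcases hk with h' | h' | h'
      · rw [h, h']
      · exfalso
        subst h
        rw [hy'i, hy'C k h'] at he
        exact hy (he ▸ hs.core.inT k h')
      · exfalso
        subst h
        rw [hy'i, hy'S k h', hyS2 k h'] at he
        exact (hη k h').2.2 (he ▸ Finset.mem_insert_self _ _)
      · exfalso
        subst h'
        rw [hy'i, hy'C j h] at he
        exact hy (he ▸ hs.core.inT j h)
      · rw [hy'C j h, hy'C k h'] at he
        exact hs.core.inj j h k h' he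
      · exfalso
        rw [hy'C j h, hy'S k h', hyS2 k h'] at he
        exact (hη k h').2.2 (Finset.mem_insert_of_mem (he ▸ hs.core.inT j h))
      · exfalso
        subst h'
        rw [hy'i, hy'S j h, hyS2 j h] at he
        exact (hη j h).2.2 (he.symm ▸ Finset.mem_insert_self _ _)
      · exfalso
        rw [hy'C k h', hy'S j h, hyS2 j h] at he
        exact (hη j h).2.2 (Finset.mem_insert_of_mem (he.symm ▸ hs.core.inT k h'))
      · rw [hy'S j h, hyS2 j h, hy'S k h', hyS2 k h'] at he
        exact hηi j h k h' he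
  · -- CL
    intro Y hY hYc
    refine le_trans (Nat.mul_le_mul_left 2 (Finset.card_le_card ?_)) (hCL' Y hY hYc)
    intro j hj
    rw [Finset.mem_filter] at hj
    obtain ⟨-, hj1, hj2⟩ := hj
    change j ∉ insert i (s.C ∪ S) at hj1
    rw [hmemC] at hj1
    push Not at hj1
    obtain ⟨hji, hjC, hjS⟩ := hj1
    rw [hρne j hji] at hj2
    rw [Finset.mem_filter, Finset.mem_sdiff, Finset.mem_filter]
    exact ⟨⟨⟨Finset.mem_univ _, hjC, hji⟩, hjS⟩, BadS.monoK hKK hj2⟩
  · -- unt
    intro j hj hx
    change j ∉ insert i (s.C ∪ S) at hj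
    rw [hmemC] at hj
    push Not at hj
    rw [hρne j hj.1]
    exact hs.unt j hj.2.1 hx
  · -- pen
    show s.pen + (if x < fc (ρ i) then 1 else 0) +
      (∑ j ∈ (insert i (s.C ∪ S)).filter (fun j => nx x < fc (upv ρ i t (y0 t) j)),
        fc (upv ρ i t (y0 t) j)) +
      (∑ j ∈ univ.filter (fun j => j ∉ insert i (s.C ∪ S) ∧ x < fc (upv ρ i t (y0 t) j)),
        fc (upv ρ i t (y0 t) j)) ≤
      (∑ j ∈ univ.filter (fun j => x < fc (R j)), fc (R j)) + x * (s.p + Sm.card)
    have hold := hs.pen
    rw [StepB_sum, Finset.sum_filter] at hold ⊢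
    have hi1 : (if x < fc (ρ i) then 1 else 0) =
        ∑ j, if j = i then (if x < fc (ρ i) then 1 else 0) else 0 := by
      rw [Finset.sum_ite_eq' univ i]
      simp
    have hsm : x * Sm.card = ∑ j, if j ∈ Sm then x else 0 := by
      rw [← Finset.sum_filter, Finset.sum_const, smul_eq_mul, mul_comm]
      congr 2
      ext j; simp
    have key : ∀ j, (if j = i then (if x < fc (ρ i) then 1 else 0) else 0) +
        (if (j ∈ insert i (s.C ∪ S) ∧ nx x < fc (upv ρ i t (y0 t) j)) then
          fc (upv ρ i t (y0 t) j) else 0) +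
        (if (j ∉ insert i (s.C ∪ S) ∧ x < fc (upv ρ i t (y0 t) j)) then
          fc (upv ρ i t (y0 t) j) else 0) ≤
        (if (j ∈ s.C ∧ nx x < fc (ρ j)) then fc (ρ j) else 0) +
        (if (j ∉ s.C ∧ x < fc (ρ j)) then fc (ρ j) else 0) + (if j ∈ Sm then x else 0) := by
      intro j
      by_cases hji : j = i
      · subst hji
        rw [hρi]
        have h0 : j ∈ insert j (s.C ∪ S) := Finset.mem_insert_self _ _
        simp only [h0, hi, if_true, true_and, not_true_eq_false, false_and, if_false,
          not_false_eq_true]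
        rcases hlev with h | h
        · simp only [h, if_true]
          split_ifs <;> omega
        · have h1 : ¬ (x < fc (ρ j)) := by omega
          have h2 : ¬ (nx x < fc (up (ρ j) t (y0 t))) := by omega
          simp [h1, h2]
      · rw [hρne j hji]
        simp only [hji, if_false]
        have h0 : j ∈ insert i (s.C ∪ S) ↔ j ∈ s.C ∨ j ∈ S := by
          rw [hmemC]; simp [hji]
        simp only [h0]
        by_cases hjC : j ∈ s.C
        · simp [hjC]
        · by_cases hjS : j ∈ S
          · simp only [hjC, hjS, or_true, true_and, not_true_eq_false, false_and, if_false,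
              not_false_eq_true]
            by_cases hm : fc (R j) ≤ x
            · have h1 : j ∈ Sm := by rw [hSm, Finset.mem_filter]; exact ⟨hjS, hm⟩
              have h2 : fc (ρ j) ≤ x := (fc_mono (hV.sub j)).trans hm
              simp only [h1, if_true]
              split_ifs <;> omega
            · have h1 : ρ j = R j := hs.unt j hjC (by omega)
              have h2 : x < fc (ρ j) := by rw [h1]; omega
              simp only [h2, if_true]
              split_ifs <;> omega
          · simp only [hjC, hjS, or_self, false_and, if_false, not_false_eq_true, true_and]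
            omega
    have hsum := Finset.sum_le_sum (fun j (_ : j ∈ (univ : Finset (Fin (N + 1)))) => key j)
    simp only [Finset.sum_add_distrib] at hsum
    rw [← hi1, ← hsm] at hsum
    rw [mul_add]
    omega
  · -- ph1
    exact ha2
  · -- ph2
    show (a' : ℝ) * ph N x ≤ (T'.card : ℝ) + 6 * (dl N x : ℝ)
    rcases eq_or_lt_of_le ha1 with h | h
    · rw [← h]
      have := hs.ph2
      linarith
    · have hlt : a' - 1 < Nat.find hexa := by omega
      have hm := Nat.find_min hexa hlt
      push Not at hm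
      have h2 := hm (by omega)
      have h3 : ((a' - 1 : ℕ) : ℝ) + 1 = (a' : ℝ) := by
        have : a' - 1 + 1 = a' := by omega
        exact_mod_cast this
      rw [h3] at h2
      linarith
  · -- prm
    show s.p + Sm.card ≤ a' * dl N x + (if a' = s.a then s.pc ∪ Sm else ∅).card
    have h1 := hs.prm
    by_cases h : a' = s.a
    · rw [if_pos h, h, hpcu]
      omega
    · rw [if_neg h]
      have h2 : s.a + 1 ≤ a' := by omega
      have h3 : (s.a + 1) * dl N x ≤ a' * dl N x := Nat.mul_le_mul_right _ h2
      rw [add_mul, one_mul] at h3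
      simp only [Finset.card_empty]
      omega
  · -- pcd
    show (if a' = s.a then s.pc ∪ Sm else ∅).card ≤ dl N x
    split_ifs
    · exact hpcc
    · simp
  · -- pcC
    show (if a' = s.a then s.pc ∪ Sm else ∅) ⊆ insert i (s.C ∪ S)
    split_ifs
    · intro j hj
      rw [hmemC]
      rcases Finset.mem_union.mp hj with h | h
      · exact Or.inr (Or.inl (hs.pcC h))
      · exact Or.inr (Or.inr (hSmS h))
    · simp
  · -- pcs
    intro j hj
    change j ∈ (if a' = s.a then s.pc ∪ Sm else ∅) at hj
    show fc (R j) ≤ x ∧ BadS (σ j) x (Kth N x a') (R j) T'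
    by_cases h : a' = s.a
    · rw [if_pos h] at hj
      rw [h]
      exact hpcb j hj
    · rw [if_neg h] at hj
      simp at hj
  · -- siz
    show T'.card + (univ.filter (fun j => j ∉ insert i (s.C ∪ S) ∧ x < fc (R j))).card
      ≤ (insert i (s.C ∪ S)).card + 7 * dl N x + (s.p + Sm.card)
    have h1 := hs.siz
    have h2 : (univ.filter (fun j => j ∉ insert i (s.C ∪ S) ∧ x < fc (R j))).card +
        (S \ Sm).card ≤ (univ.filter (fun j => j ∉ s.C ∧ x < fc (R j))).card := by
      rw [← Finset.card_union_of_disjoint]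
      · apply Finset.card_le_card
        intro j hj
        rcases Finset.mem_union.mp hj with h | h
        · rw [Finset.mem_filter, hmemC] at h
          push Not at h
          rw [Finset.mem_filter]
          exact ⟨Finset.mem_univ _, h.2.1.2.1, h.2.2⟩
        · rw [Finset.mem_sdiff, hSm, Finset.mem_filter] at h
          push Not at h
          rw [Finset.mem_filter]
          exact ⟨Finset.mem_univ _, (hSC j h.1).1, h.2 h.1⟩
      · rw [Finset.disjoint_left]
        intro j hj hj'
        rw [Finset.mem_filter, hmemC] at hj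
        push Not at hj
        rw [Finset.mem_sdiff] at hj'
        exact hj.2.1.2.2 hj'.1
    have h3 : (S \ Sm).card + Sm.card = S.card := Finset.card_sdiff_add_card_eq_card hSmS
    rw [hCcard]
    omega
  · -- hic
    show ((insert i (s.C ∪ S)).filter
      (fun j => nx x < fc (upv ρ i t (y0 t) j) ∧ fc (R j) ≤ x)).card ≤ s.p + Sm.card
    refine le_trans ?_ (Nat.add_le_add_right hs.hic _)
    refine le_trans (Finset.card_le_card ?_) (Finset.card_union_le _ _)
    intro j hj
    rw [Finset.mem_filter, hmemC] at hj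
    rw [Finset.mem_union, Finset.mem_filter]
    obtain ⟨hj1, hj2, hj3⟩ := hj
    rcases hj1 with h | h | h
    · exfalso
      subst h
      rw [hρi] at hj2
      have h4 := fc_mono (hV.sub j)
      rcases hlev with h5 | h5 <;> omega
    · have h1 : j ≠ i := fun h' => hi (h' ▸ h)
      rw [hρne j h1] at hj2
      exact Or.inl ⟨h, hj2, hj3⟩
    · right
      rw [hSm, Finset.mem_filter]
      exact ⟨h, hj3⟩

end H616TR
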