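import Pool.Agent.H616R2.TR.StepA
import Pool.Agent.H616R2.TR.StepB

set_option autoImplicit false

/-! Task Q2. -/

namespace H616TR

open Finset

variable {b N : ℕ}

/-- queries of a pigeon of level at least `F + 2` do not change the set of low pigeons -/
theorem QueryB_low {x : ℕ} {ρ : Vis b N} {i : Fin (N + 1)} {t : Fin b} (ht : ρ i t = none)
    (hf : nx x + 1 < fc (ρ i)) (v : Bool) (j : Fin (N + 1)) :
    fc (upv ρ i t v j) ≤ nx x ↔ fc (ρ j) ≤ nx x := by
  by_cases hj : j = i
  · subst hj
    rw [upv_self]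
    have := fc_up ht v
    omega
  · rw [upv_ne _ _ _ _ hj]

theorem QueryB_lowc {x : ℕ} {ρ : Vis b N} {i : Fin (N + 1)} {t : Fin b} (ht : ρ i t = none)
    (hf : nx x + 1 < fc (ρ i)) (v : Bool) : lowc (nx x) (upv ρ i t v) = lowc (nx x) ρ := by
  unfold lowc
  congr 1
  apply Finset.filter_congr
  intro j _
  exact QueryB_low ht hf v j

theorem QueryB_wt {x : ℕ} {ρ : Vis b N} {i : Fin (N + 1)} {t : Fin b} (ht : ρ i t = none)
    (hf : nx x + 1 < fc (ρ i)) (v : Bool) : wt (nx x) (upv ρ i t v) = wt (nx x) ρ / 2 := by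
  unfold wt
  rw [← Finset.mul_prod_erase univ _ (Finset.mem_univ i),
    ← Finset.mul_prod_erase univ (fun j => if fc (ρ j) ≤ nx x then (1 / 2 : ℝ) ^ b else
      (1 / 2 : ℝ) ^ (b - fc (ρ j))) (Finset.mem_univ i)]
  have h1 : ∏ j ∈ univ.erase i, (if fc (upv ρ i t v j) ≤ nx x then (1 / 2 : ℝ) ^ b else
      (1 / 2 : ℝ) ^ (b - fc (upv ρ i t v j))) =
      ∏ j ∈ univ.erase i, (if fc (ρ j) ≤ nx x then (1 / 2 : ℝ) ^ b else
      (1 / 2 : ℝ) ^ (b - fc (ρ j))) := by
    apply Finset.prod_congr rfl
    intro j hj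
    rw [upv_ne _ _ _ _ (Finset.ne_of_mem_erase hj)]
  rw [h1, upv_self]
  have h2 := fc_up ht v
  have h3 := fc_le (ρ i)
  rw [if_neg (by omega), if_neg (by omega)]
  have h4 : b - fc (up (ρ i) t v) = (b - fc (ρ i)) + 1 := by omega
  rw [h4, pow_succ]
  ring

theorem QueryB_sum {ι : Type} [Fintype ι] (P : ι → Prop) [DecidablePred P] (f : ι → ℝ) :
    ∑ k : {k // P k}, f k.1 = ∑ k, if P k then f k else 0 := by
  rw [← Finset.sum_filter]
  exact (Finset.sum_subtype (univ.filter P) (by simp) f).symm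

open Classical in
/-- Task Q2.  The queried pigeon has level at least `F + 2`.

Proof: for a hidden state `k` with `i ∈ C` use `perm_step` (branch `y i t`, same mass, penalty `+1`);
with `i ∉ C` and `fc (ρ i) ≤ x` use `uni_step` (both branches, mass `μ/2`, same penalty);
with `i ∉ C` and `x < fc (ρ i)` pick an available label `y0` (`CL` with `Y = ∅` says that `i` is not
bad, `av_pos_iff`) and use `commit_step` (branch `y0 t`, same mass, penalty `+1`).
`lowc` is unchanged and `wt (upv ρ i t v) = wt ρ / 2`. -/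
theorem run_query_high {σ : Fin (N + 1) → Lab b → Fin N} {x : ℕ} {ρ : Vis b N} {M : ℝ}
    (hB : Big b N x) (h : RunD σ x ρ M)
    (hne : (N : ℝ) / (x : ℝ) ^ 2 ≤ (highc (nx x) ρ : ℝ))
    (i : Fin (N + 1)) (t : Fin b) (ht : ρ i t = none) (hf : nx x + 1 < fc (ρ i)) :
    ∃ M0 M1, M ≤ M0 + M1 ∧ RunD σ x (upv ρ i t false) M0 ∧ RunD σ x (upv ρ i t true) M1 := by
  obtain ⟨ι, hι, μ, s, R, L, hμ, hM, hV, hG, hL, hz⟩ := h
  -- labels used in the answers
  have hy : ∀ k, ∃ y0 : Lab b, (i ∈ (s k).C → y0 = (s k).y i) ∧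
      (i ∉ (s k).C → x < fc (ρ i) → y0 ∈ pts (ρ i) ∧ σ i y0 ∉ (s k).T) := by
    intro k
    by_cases hi : i ∈ (s k).C
    · exact ⟨(s k).y i, fun _ => rfl, fun h => absurd hi h⟩
    · by_cases hx : x < fc (ρ i)
      · have h1 := (hG k).CL ∅ (Finset.disjoint_empty_left _) (by simp)
        rw [Finset.card_empty, Nat.le_zero, Nat.mul_eq_zero] at h1
        have h2 : (univ.filter (fun j => j ∉ (s k).C ∧
            BadS (σ j) x (Kth N x (s k).a) (ρ j) ((s k).T ∪ ∅))).card = 0 := by
          rcases h1 with h1 | h1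
          · omega
          · exact h1
        rw [Finset.card_eq_zero, Finset.filter_eq_empty_iff] at h2
        have h3 := h2 (Finset.mem_univ i)
        have h4 : ¬ BadS (σ i) x (Kth N x (s k).a) (ρ i) (s k).T := by
          intro h5
          apply h3
          rw [Finset.union_empty]
          exact ⟨hi, h5⟩
        unfold BadS at h4
        rw [if_pos hx] at h4
        obtain ⟨y, hy1, hy2⟩ := av_pos_iff.1 h4
        exact ⟨y, fun h => absurd h hi, fun _ _ => ⟨hy1, hy2⟩⟩
      · exact ⟨(s k).y i, fun h => absurd h hi, fun _ h => absurd h hx⟩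
  choose yy hyC hyN using hy
  set Bk : ι → Prop := fun k => i ∉ (s k).C ∧ fc (ρ i) ≤ x with hBk
  set P : Bool → ι → Prop := fun v k => Bk k ∨ yy k t = v with hP
  have hnew : ∀ v k, P v k → ∃ s' : HS b N, RGood σ x R (upv ρ i t v) s' ∧
      (∀ j, fc (ρ j) ≤ nx x → s'.y j = (s k).y j) ∧
      s'.pen = (s k).pen + (if Bk k then 0 else 1) := by
    intro v k hPk
    by_cases hb : Bk k
    · refine ⟨s k, uni_step hB hV (hG k) i hb.1 t ht hf hb.2 v, fun _ _ => rfl, ?_⟩
      rw [if_pos hb, Nat.add_zero]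
    · have hyt : yy k t = v := by
        rcases hPk with h | h
        · exact absurd h hb
        · exact h
      by_cases hi : i ∈ (s k).C
      · have h1 := perm_step hB hV (hG k) i hi t ht
        have h2 := hyC k hi
        rw [← h2, hyt] at h1
        refine ⟨_, h1, fun _ _ => rfl, ?_⟩
        rw [if_neg hb]
        show (s k).pen + penInc x (fc (ρ i)) = (s k).pen + 1
        unfold penInc
        rw [if_neg (by omega), if_neg (by omega)]
      · have hx : x < fc (ρ i) := by
          by_contra hx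
          exact hb ⟨hi, by omega⟩
        obtain ⟨h3, h4⟩ := hyN k hi hx
        obtain ⟨s', h5, h6, h7, h8⟩ := commit_step hB hV (hG k) i hi t ht (Or.inl hx)
          (yy k) h3 h4
        rw [hyt] at h5
        refine ⟨s', h5, fun j hj => h7 j ((hG k).core.low j hj), ?_⟩
        rw [h8, if_pos hx, if_neg hb]
  have hne' : Nonempty (HS b N) := ⟨⟨∅, fun _ _ => false, ∅, 0, 0, ∅, 0⟩⟩
  choose! s' hs1 hs2 hs3 using hnew
  set c : ι → ℝ := fun k => if Bk k then 1 / 2 else 1 with hc
  have hc0 : ∀ k, 0 ≤ c k := by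
    intro k
    simp only [hc]
    split_ifs <;> norm_num
  have hrun : ∀ v, RunD σ x (upv ρ i t v) (∑ k, if P v k then c k * μ k else 0) := by
    intro v
    refine ⟨{k // P v k}, inferInstance, fun k => c k.1 * μ k.1, fun k => s' v k.1, R, L,
      fun k => mul_nonneg (hc0 k.1) (hμ k.1), ?_, rvis_step hV hne i t ht v,
      fun k => hs1 v k.1 k.2, hL, ?_⟩
    · exact QueryB_sum (P v) (fun k => c k * μ k)
    · intro z
      have h1 : ∀ k : {k // P v k},
          (if (∀ j, fc (upv ρ i t v j) ≤ nx x → (s' v k.1).y j = z j) then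
            c k.1 * μ k.1 / 2 ^ (s' v k.1).pen else 0) =
          1 / 2 * (if (∀ j, fc (ρ j) ≤ nx x → (s k.1).y j = z j) then
            μ k.1 / 2 ^ (s k.1).pen else 0) := by
        rintro ⟨k, hk⟩
        have h2 : (∀ j, fc (upv ρ i t v j) ≤ nx x → (s' v k).y j = z j) ↔
            (∀ j, fc (ρ j) ≤ nx x → (s k).y j = z j) := by
          apply forall_congr'
          intro j
          rw [QueryB_low ht hf v j]
          constructor
          · intro h hj
            rw [← hs2 v k hk j hj]
            exact h hj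
          · intro h hj
            rw [hs2 v k hk j hj]
            exact h hj
        have h3 : c k * μ k / 2 ^ (s' v k).pen = 1 / 2 * (μ k / 2 ^ (s k).pen) := by
          rw [hs3 v k hk]
          simp only [hc]
          by_cases hb : Bk k
          · rw [if_pos hb, if_pos hb, Nat.add_zero]
            ring
          · rw [if_neg hb, if_neg hb, pow_succ]
            ring
        by_cases h4 : ∀ j, fc (ρ j) ≤ nx x → (s k).y j = z j
        · rw [if_pos (h2.2 h4), if_pos h4]
          exact h3
        · rw [if_neg (fun h => h4 (h2.1 h)), if_neg h4, mul_zero]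
      have h5 : ∀ k : ι, 0 ≤ (if (∀ j, fc (ρ j) ≤ nx x → (s k).y j = z j) then
          μ k / 2 ^ (s k).pen else 0) := by
        intro k
        split_ifs
        · exact div_nonneg (hμ k) (by positivity)
        · exact le_rfl
      have h6 : ∑ k : {k // P v k}, (if (∀ j, fc (ρ j) ≤ nx x → (s k.1).y j = z j) then
            μ k.1 / 2 ^ (s k.1).pen else 0) ≤
          ∑ k, (if (∀ j, fc (ρ j) ≤ nx x → (s k).y j = z j) then
            μ k / 2 ^ (s k).pen else 0) := by
        rw [QueryB_sum (P v) (fun k => if (∀ j, fc (ρ j) ≤ nx x → (s k).y j = z j) then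
            μ k / 2 ^ (s k).pen else 0)]
        apply Finset.sum_le_sum
        intro k _
        by_cases hk : P v k
        · rw [if_pos hk]
        · rw [if_neg hk]
          exact h5 k
      have h7 := hz z
      rw [QueryB_lowc ht hf v, QueryB_wt ht hf v]
      calc ∑ k : {k // P v k}, (if (∀ j, fc (upv ρ i t v j) ≤ nx x → (s' v k.1).y j = z j) then
            c k.1 * μ k.1 / 2 ^ (s' v k.1).pen else 0)
          = ∑ k : {k // P v k}, 1 / 2 * (if (∀ j, fc (ρ j) ≤ nx x → (s k.1).y j = z j) then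
            μ k.1 / 2 ^ (s k.1).pen else 0) := Finset.sum_congr rfl fun k _ => h1 k
        _ = 1 / 2 * ∑ k : {k // P v k}, (if (∀ j, fc (ρ j) ≤ nx x → (s k.1).y j = z j) then
            μ k.1 / 2 ^ (s k.1).pen else 0) := by rw [Finset.mul_sum]
        _ ≤ 1 / 2 * (Ac N (lowc (nx x) ρ) * ((1 - 2 / (nx x : ℝ))⁻¹) ^ (lowc (nx x) ρ) *
            (2 : ℝ) ^ L * wt (nx x) ρ) :=
            mul_le_mul_of_nonneg_left (h6.trans h7) (by norm_num)
        _ = Ac N (lowc (nx x) ρ) * ((1 - 2 / (nx x : ℝ))⁻¹) ^ (lowc (nx x) ρ) *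
            (2 : ℝ) ^ L * (wt (nx x) ρ / 2) := by ring
  refine ⟨_, _, ?_, hrun false, hrun true⟩
  rw [← Finset.sum_add_distrib, ← hM]
  apply Finset.sum_le_sum
  intro k _
  by_cases hb : Bk k
  · have e1 : P false k := Or.inl hb
    have e2 : P true k := Or.inl hb
    have e3 : c k = 1 / 2 := by simp only [hc]; rw [if_pos hb]
    rw [if_pos e1, if_pos e2, e3]
    linarith
  · have e3 : c k = 1 := by simp only [hc]; rw [if_neg hb]
    rw [e3]
    rcases Bool.eq_false_or_eq_true (yy k t) with hyt | hyt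
    rotate_left
    · have e1 : P false k := Or.inr hyt
      rw [if_pos e1]
      have : 0 ≤ (if P true k then 1 * μ k else 0) := by
        split_ifs
        · rw [one_mul]; exact hμ k
        · exact le_rfl
      linarith
    · have e1 : P true k := Or.inr hyt
      rw [if_pos e1]
      have : 0 ≤ (if P false k then 1 * μ k else 0) := by
        split_ifs
        · rw [one_mul]; exact hμ k
        · exact le_rfl
      linarith

end H616TR
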