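import Pool.Agent.H616R2.TR.StepA
import Pool.Agent.H616R2.TR.StepB
import Pool.Agent.H616R2.TR.NumC

set_option autoImplicit false

/-! Task Q3. -/

namespace H616TR

open Finset

variable {b N : ℕ}

theorem QueryC_fc_i {ρ : Vis b N} {i : Fin (N + 1)} {t : Fin b} {x : ℕ} (ht : ρ i t = none)
    (hf : fc (ρ i) = nx x + 1) (v : Bool) : fc (upv ρ i t v i) = nx x := by
  rw [upv_self]
  have := fc_up ht v
  omega

theorem QueryC_lowc {ρ : Vis b N} {i : Fin (N + 1)} {t : Fin b} {x : ℕ} (ht : ρ i t = none)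
    (hf : fc (ρ i) = nx x + 1) (v : Bool) :
    lowc (nx x) (upv ρ i t v) = lowc (nx x) ρ + 1 := by
  unfold lowc
  have h1 : (univ.filter (fun j => fc (upv ρ i t v j) ≤ nx x)) =
      insert i (univ.filter (fun j => fc (ρ j) ≤ nx x)) := by
    ext j
    simp only [mem_filter, mem_univ, true_and, mem_insert]
    by_cases hj : j = i
    · subst hj
      simp [QueryC_fc_i ht hf v]
    · rw [upv_ne ρ i t v hj]
      simp [hj]
  rw [h1, card_insert_of_notMem]
  simp only [mem_filter, mem_univ, true_and]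
  omega

theorem QueryC_wt {ρ : Vis b N} {i : Fin (N + 1)} {t : Fin b} {x : ℕ} (ht : ρ i t = none)
    (hf : fc (ρ i) = nx x + 1) (v : Bool) :
    wt (nx x) (upv ρ i t v) = wt (nx x) ρ * (1 / 2 : ℝ) ^ (nx x + 1) := by
  unfold wt
  rw [← mul_prod_erase univ _ (mem_univ i), ← mul_prod_erase univ (fun j =>
    (if fc (ρ j) ≤ nx x then (1 / 2 : ℝ) ^ b else (1 / 2 : ℝ) ^ (b - fc (ρ j)))) (mem_univ i)]
  have h1 : ∏ j ∈ univ.erase i, (if fc (upv ρ i t v j) ≤ nx x then (1 / 2 : ℝ) ^ b
      else (1 / 2 : ℝ) ^ (b - fc (upv ρ i t v j))) =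
      ∏ j ∈ univ.erase i, (if fc (ρ j) ≤ nx x then (1 / 2 : ℝ) ^ b
        else (1 / 2 : ℝ) ^ (b - fc (ρ j))) := by
    refine prod_congr rfl fun j hj => ?_
    rw [upv_ne ρ i t v (ne_of_mem_erase hj)]
  rw [h1, QueryC_fc_i ht hf v, if_pos le_rfl, if_neg (by omega), hf]
  have h2 : nx x + 1 ≤ b := by rw [← hf]; exact fc_le _
  have h3 : (1 / 2 : ℝ) ^ b = (1 / 2 : ℝ) ^ (b - (nx x + 1)) * (1 / 2 : ℝ) ^ (nx x + 1) := by
    rw [← pow_add]
    congr 1
    omega
  rw [h3]
  ring

theorem QueryC_low_lt {x : ℕ} {ρ : Vis b N} (hB : Big b N x)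
    (hne : (N : ℝ) / (x : ℝ) ^ 2 ≤ (highc (nx x) ρ : ℝ)) : lowc (nx x) ρ < N := by
  have h1 : lowc (nx x) ρ + highc (nx x) ρ = N + 1 := by
    unfold lowc highc
    have := Finset.card_filter_add_card_filter_not (s := (univ : Finset (Fin (N + 1))))
      (fun i => fc (ρ i) ≤ nx x)
    simp only [not_le] at this
    rw [this, card_univ, Fintype.card_fin]
  have hx : 2 ≤ x := le_trans (by unfold B0; norm_num) hB.x0
  have hxN : x ^ 40 ≤ N := le_trans (Nat.pow_le_pow_left hB.xb 40) hB.Nb
  have h2 : 2 * x ^ 2 ≤ N := by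
    refine le_trans ?_ hxN
    calc 2 * x ^ 2 ≤ x * x ^ 2 := Nat.mul_le_mul_right _ hx
      _ = x ^ 3 := by ring
      _ ≤ x ^ 40 := Nat.pow_le_pow_right (by omega) (by norm_num)
  have h3 : (2 : ℝ) ≤ (N : ℝ) / (x : ℝ) ^ 2 := by
    have hx0 : (0 : ℝ) < (x : ℝ) ^ 2 := by positivity
    rw [le_div_iff₀ hx0]
    exact_mod_cast h2
  have h4 : (2 : ℝ) ≤ (highc (nx x) ρ : ℝ) := h3.trans hne
  have h5 : 2 ≤ highc (nx x) ρ := by exact_mod_cast h4
  omega

/-- Task Q3.  The queried pigeon has level exactly `F + 1`.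

Proof: for a hidden state `k` with `i ∈ C` use `perm_step` (branch `y i t`, same mass, penalty
`+(F+1)`); with `i ∉ C` use `commit_step` for every available label `y0` (mass `μ / av`, branch
`y0 t`, same penalty).  Now `lowc` increases by one, `wt (upv ρ i t v) = wt ρ * (1/2)^(F+1)`.
For a given `z` only the label `y0 = z i` contributes, and
`av ≥ (1-2/F)(1-c/N) 2^(F+1)` by `avail_bound`; use `Ac_succ`. -/
theorem run_query_mid {σ : Fin (N + 1) → Lab b → Fin N} {x : ℕ} {ρ : Vis b N} {M : ℝ}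
    (hB : Big b N x) (h : RunD σ x ρ M)
    (hne : (N : ℝ) / (x : ℝ) ^ 2 ≤ (highc (nx x) ρ : ℝ))
    (i : Fin (N + 1)) (t : Fin b) (ht : ρ i t = none) (hf : fc (ρ i) = nx x + 1) :
    ∃ M0 M1, M ≤ M0 + M1 ∧ RunD σ x (upv ρ i t false) M0 ∧ RunD σ x (upv ρ i t true) M1 := by
  classical
  obtain ⟨ι, hι, μ, s, R, L, hμ, hM, hV, hG, hL, hz⟩ := h
  have hxF : nx x + 1 ≤ x := by
    have := nx_lt hB.x0
    omega
  have hF1 := nx_ge hB.x0
  have hcN := QueryC_low_lt hB hne
  set c := lowc (nx x) ρ with hc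
  -- the constants
  have hNpos : (0 : ℝ) < N := by
    have : 0 < N := by omega
    exact_mod_cast this
  have hcN' : (c : ℝ) < N := by exact_mod_cast hcN
  have hFr : (1000 : ℝ) ≤ (nx x : ℝ) := by exact_mod_cast hF1
  have hF2 : 0 < 1 - 2 / (nx x : ℝ) := by
    have : 2 / (nx x : ℝ) < 1 := by
      rw [div_lt_one (by linarith)]
      linarith
    linarith
  have hF3 : 1 - 2 / (nx x : ℝ) ≤ 1 := by
    have : 0 ≤ 2 / (nx x : ℝ) := by positivity
    linarith
  have hc1 : 0 < 1 - (c : ℝ) / N := by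
    have : (c : ℝ) / N < 1 := by rw [div_lt_one hNpos]; exact hcN'
    linarith
  have hc2 : 1 - (c : ℝ) / N ≤ 1 := by
    have : 0 ≤ (c : ℝ) / N := by positivity
    linarith
  set A : ℝ := (1 / 2 : ℝ) ^ (nx x + 1) * (1 - 2 / (nx x : ℝ))⁻¹ * ((N : ℝ) / ((N : ℝ) - c))
    with hA
  have hNc : (N : ℝ) / ((N : ℝ) - c) = (1 - (c : ℝ) / N)⁻¹ := by
    rw [← inv_div]
    congr 1
    field_simp
  have hA1 : (1 / 2 : ℝ) ^ (nx x + 1) ≤ A := by
    rw [hA, hNc]
    have h1 : 1 ≤ (1 - 2 / (nx x : ℝ))⁻¹ := (one_le_inv₀ hF2).2 hF3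
    have h2 : 1 ≤ (1 - (c : ℝ) / N)⁻¹ := (one_le_inv₀ hc1).2 hc2
    have h3 : (0 : ℝ) < (1 / 2 : ℝ) ^ (nx x + 1) := by positivity
    calc (1 / 2 : ℝ) ^ (nx x + 1) = (1 / 2 : ℝ) ^ (nx x + 1) * 1 * 1 := by ring
      _ ≤ _ := by gcongr
  have hApos : 0 < A := lt_of_lt_of_le (by positivity) hA1
  have hav : ∀ k, i ∉ (s k).C → (A⁻¹ ≤ (av (σ i) (ρ i) (s k).T : ℝ)) := by
    intro k hk
    have h1 := avail_bound hB hV (hG k) i hk hf
    have h2 : A⁻¹ = (1 - 2 / (nx x : ℝ)) * (1 - (c : ℝ) / N) * 2 ^ (nx x + 1) := by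
      rw [hA, hNc, mul_inv, mul_inv, inv_inv, inv_inv, one_div, inv_pow, inv_inv]
      ring
    rw [h2]
    exact h1
  have hav0 : ∀ k, i ∉ (s k).C → (0 : ℝ) < (av (σ i) (ρ i) (s k).T : ℝ) := fun k hk =>
    lt_of_lt_of_le (inv_pos.2 hApos) (hav k hk)
  -- possible labels of the pigeon
  let P : ι → Lab b → Prop := fun k y =>
    (i ∈ (s k).C ∧ y = (s k).y i) ∨ (i ∉ (s k).C ∧ y ∈ pts (ρ i) ∧ σ i y ∉ (s k).T)
  have : Nonempty (HS b N) := ⟨⟨∅, fun _ _ => false, ∅, 0, 0, ∅, 0⟩⟩
  have hst : ∀ k y, P k y → ∃ s' : HS b N, RGood σ x R (upv ρ i t (y t)) s' ∧ s'.y i = y ∧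
      (∀ j ∈ (s k).C, s'.y j = (s k).y j) ∧
      s'.pen = (s k).pen + (if i ∈ (s k).C then nx x + 1 else 0) := by
    intro k y hP
    rcases hP with ⟨hk, hy⟩ | ⟨hk, hy, hyT⟩
    · refine ⟨{ s k with pen := (s k).pen + penInc x (fc (ρ i)) }, ?_, hy.symm, fun _ _ => rfl, ?_⟩
      · rw [hy]
        exact perm_step hB hV (hG k) i hk t ht
      · rw [if_pos hk]
        show (s k).pen + penInc x (fc (ρ i)) = _
        unfold penInc
        rw [if_neg (by omega), if_pos hf]
    · obtain ⟨s', h1, h2, h3, h4⟩ := commit_step hB hV (hG k) i hk t ht (Or.inr hf) y hy hyT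
      refine ⟨s', h1, h2, h3, ?_⟩
      rw [h4, if_neg hk, if_neg (by omega)]
  choose! st hst1 hst2 hst3 hst4 using hst
  let m : ι → ℝ := fun k => if i ∈ (s k).C then μ k else μ k / (av (σ i) (ρ i) (s k).T : ℝ)
  have hm0 : ∀ k, 0 ≤ m k := by
    intro k
    simp only [m]
    split_ifs with hk
    · exact hμ k
    · exact div_nonneg (hμ k) (Nat.cast_nonneg _)
  -- number of labels
  have hcnt : ∀ k, ∑ y : Lab b, (if P k y then m k else 0) = μ k := by
    intro k
    rw [← Finset.sum_filter, Finset.sum_const, nsmul_eq_mul]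
    by_cases hk : i ∈ (s k).C
    · have h1 : (univ.filter fun y => P k y) = {(s k).y i} := by
        ext y
        simp [P, hk]
      rw [h1, card_singleton]
      simp [m, hk]
    · have h1 : (univ.filter fun y => P k y) = (pts (ρ i)).filter (fun y => σ i y ∉ (s k).T) := by
        ext y
        simp [P, hk]
      rw [h1]
      have h2 : (((pts (ρ i)).filter (fun y => σ i y ∉ (s k).T)).card : ℝ) =
        (av (σ i) (ρ i) (s k).T : ℝ) := rfl
      rw [h2]
      simp only [m, if_neg hk]
      rw [mul_div_assoc', mul_div_cancel_left₀ _ (hav0 k hk).ne']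
  -- one branch
  have hbranch : ∀ v : Bool, RunD σ x (upv ρ i t v)
      (∑ k, ∑ y : Lab b, (if P k y ∧ y t = v then m k else 0)) := by
    intro v
    refine ⟨{q : ι × Lab b // P q.1 q.2 ∧ q.2 t = v}, inferInstance, fun q => m q.1.1,
      fun q => st q.1.1 q.1.2, R, L, fun q => hm0 _, ?_, rvis_step hV hne i t ht v, ?_, hL, ?_⟩
    · rw [← Finset.sum_subtype (univ.filter fun q : ι × Lab b => P q.1 q.2 ∧ q.2 t = v)
        (by simp) (fun q => m q.1), Finset.sum_filter, Fintype.sum_prod_type]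
    · rintro ⟨⟨k, y⟩, hP, hy⟩
      have h1 := hst1 k y hP
      have hy' : y t = v := hy
      rw [hy'] at h1
      exact h1
    · intro z
      rw [← Finset.sum_subtype (univ.filter fun q : ι × Lab b => P q.1 q.2 ∧ q.2 t = v)
        (by simp) (fun q => if (∀ j, fc (upv ρ i t v j) ≤ nx x → (st q.1 q.2).y j = z j)
          then m q.1 / 2 ^ (st q.1 q.2).pen else 0), Finset.sum_filter, Fintype.sum_prod_type]
      have hk : ∀ k, ∑ y : Lab b, (if P k y ∧ y t = v then
          (if (∀ j, fc (upv ρ i t v j) ≤ nx x → (st k y).y j = z j)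
            then m k / 2 ^ (st k y).pen else 0) else 0) ≤
          (if (∀ j, fc (ρ j) ≤ nx x → (s k).y j = z j) then μ k / 2 ^ (s k).pen else 0) * A := by
        intro k
        have h1 : ∀ y : Lab b, (if P k y ∧ y t = v then
          (if (∀ j, fc (upv ρ i t v j) ≤ nx x → (st k y).y j = z j)
            then m k / 2 ^ (st k y).pen else 0) else 0) ≤ if y = z i then
            (if (∀ j, fc (ρ j) ≤ nx x → (s k).y j = z j) then μ k / 2 ^ (s k).pen else 0) * A
            else 0 := by
          intro y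
          have hR : 0 ≤ (if y = z i then
            (if (∀ j, fc (ρ j) ≤ nx x → (s k).y j = z j) then μ k / 2 ^ (s k).pen else 0) * A
            else 0) := by
            split_ifs
            · exact mul_nonneg (div_nonneg (hμ k) (by positivity)) hApos.le
            · simp
            · exact le_rfl
          by_cases hP : P k y ∧ y t = v
          · rw [if_pos hP]
            by_cases hj : ∀ j, fc (upv ρ i t v j) ≤ nx x → (st k y).y j = z j
            · rw [if_pos hj]
              have hyz : y = z i := by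
                rw [← hst2 k y hP.1]
                exact hj i (QueryC_fc_i ht hf v).le
              have hold : ∀ j, fc (ρ j) ≤ nx x → (s k).y j = z j := by
                intro j hjl
                have hji : j ≠ i := by
                  rintro rfl
                  omega
                rw [← hst3 k y hP.1 j ((hG k).core.low j hjl)]
                refine hj j ?_
                rw [upv_ne ρ i t v hji]
                exact hjl
              rw [if_pos hyz, if_pos hold, hst4 k y hP.1]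
              by_cases hkC : i ∈ (s k).C
              · rw [if_pos hkC]
                simp only [m, if_pos hkC]
                have e : μ k / 2 ^ ((s k).pen + (nx x + 1)) =
                    μ k / 2 ^ (s k).pen * (1 / 2 : ℝ) ^ (nx x + 1) := by
                  rw [pow_add, one_div, inv_pow]
                  field_simp
                rw [e]
                exact mul_le_mul_of_nonneg_left hA1 (div_nonneg (hμ k) (by positivity))
              · rw [if_neg hkC, add_zero]
                simp only [m, if_neg hkC]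
                rw [div_right_comm, div_eq_mul_inv _ (av (σ i) (ρ i) (s k).T : ℝ)]
                refine mul_le_mul_of_nonneg_left ?_ (div_nonneg (hμ k) (by positivity))
                rw [inv_le_comm₀ (hav0 k hkC) hApos]
                exact hav k hkC
            · rw [if_neg hj]
              exact hR
          · rw [if_neg hP]
            exact hR
        refine (Finset.sum_le_sum fun y _ => h1 y).trans ?_
        rw [Finset.sum_ite_eq' univ (z i)]
        simp
      refine (Finset.sum_le_sum fun k _ => hk k).trans ?_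
      rw [← Finset.sum_mul]
      refine (mul_le_mul_of_nonneg_right (hz z) hApos.le).trans ?_
      rw [QueryC_lowc ht hf v, QueryC_wt ht hf v, Ac_succ, ← hc, pow_succ, hA]
      refine le_of_eq ?_
      ring
  refine ⟨_, _, ?_, hbranch false, hbranch true⟩
  rw [← Finset.sum_add_distrib, ← hM]
  refine le_of_eq (Finset.sum_congr rfl fun k _ => ?_)
  rw [← Finset.sum_add_distrib, ← hcnt k]
  refine Finset.sum_congr rfl fun y _ => ?_
  by_cases hP : P k y
  · cases hy : y t <;> simp [hP]
  · simp [hP]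

end H616TR
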