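import Pool.Agent.H616R2.TR.SwitchA
import Pool.Agent.H616R2.TR.Count
import Pool.Agent.H616R2.TR.NumC

set_option autoImplicit false

/-! Task W2: change of scale for distributions. -/

namespace H616TR

open Finset

variable {b N : ℕ}

theorem SwitchB_Ac_top : Ac N (N + 1) = 0 := by
  rw [Ac]
  refine prod_eq_zero (mem_range.2 (Nat.lt_succ_self N)) ?_
  simp

theorem SwitchB_wt {x F : ℕ} (hF : F ≤ x) (ρ : Vis b N) :
    wt x ρ * ∏ i ∈ univ.filter (fun i => F < fc (ρ i) ∧ fc (ρ i) ≤ x), (2 : ℝ) ^ fc (ρ i) =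
      wt F ρ := by
  rw [wt, wt, prod_filter, ← prod_mul_distrib]
  refine prod_congr rfl fun j _ => ?_
  have hb : fc (ρ j) ≤ b := fc_le _
  by_cases h1 : fc (ρ j) ≤ F
  · rw [if_pos (h1.trans hF), if_pos h1, if_neg (by omega), mul_one]
  · by_cases h2 : fc (ρ j) ≤ x
    · rw [if_pos h2, if_neg h1, if_pos ⟨by omega, h2⟩]
      obtain ⟨d, hd⟩ := Nat.exists_eq_add_of_le hb
      have e1 : b - fc (ρ j) = d := by omega
      have e2 : (1 / 2 : ℝ) ^ b = (1 / 2 : ℝ) ^ fc (ρ j) * (1 / 2 : ℝ) ^ d := by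
        rw [← pow_add, ← hd]
      rw [e1, e2, mul_comm ((1 / 2 : ℝ) ^ fc (ρ j)), mul_assoc, ← mul_pow]
      norm_num
    · rw [if_neg h2, if_neg h1, if_neg (by omega), mul_one]

theorem SwitchB_card {x F : ℕ} (hF : F ≤ x) (ρ : Vis b N) :
    lowc F ρ + (univ.filter (fun i => F < fc (ρ i) ∧ fc (ρ i) ≤ x)).card = lowc x ρ := by
  rw [lowc, lowc, ← card_union_of_disjoint]
  · congr 1
    ext i
    simp only [mem_union, mem_filter, mem_univ, true_and]
    omega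
  · rw [disjoint_left]
    intro i h1 h2
    simp only [mem_filter, mem_univ, true_and] at h1 h2
    omega

theorem SwitchB_pow {F n m : ℕ} (hF : 1 ≤ F) (hn : n ≤ m) :
    (1 + 1 / (F : ℝ)) ^ n ≤ (2 : ℝ) ^ ((3 / 2 : ℝ) * m / F) := by
  have hF0 : (0 : ℝ) < F := by exact_mod_cast hF
  have h1 : 1 + 1 / (F : ℝ) ≤ Real.exp (1 / F) := by
    have := Real.add_one_le_exp (1 / (F : ℝ))
    linarith
  have h2 : (1 + 1 / (F : ℝ)) ^ n ≤ Real.exp (1 / F) ^ n :=
    pow_le_pow_left₀ (by positivity) h1 n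
  refine h2.trans ?_
  rw [← Real.exp_nat_mul, Real.rpow_def_of_pos (by norm_num : (0:ℝ) < 2)]
  apply Real.exp_le_exp.2
  have hl : (0.6931471803 : ℝ) < Real.log 2 := Real.log_two_gt_d9
  have hn' : (n : ℝ) ≤ m := by exact_mod_cast hn
  have hm0 : (0 : ℝ) ≤ m := Nat.cast_nonneg m
  have e : Real.log 2 * ((3 / 2 : ℝ) * m / F) = (Real.log 2 * (3 / 2) * m) * (1 / F) := by ring
  rw [e]
  apply mul_le_mul_of_nonneg_right _ (by positivity)
  nlinarith

theorem SwitchB_c1 {x c : ℕ} (hB : Big b N x) (hc : c ≤ N) :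
    ((c - min (c - dl N x) ⌊(N : ℝ) * (1 - 1 / (8 * (x : ℝ) ^ 2))⌋₊ : ℕ) : ℝ) ≤
      (N : ℝ) / (x : ℝ) ^ 2 := by
  have hx1 : (2 : ℝ) ^ 64 ≤ x := by
    have := hB.x0
    rw [B0] at this
    exact_mod_cast this
  have hx2 : (2 : ℝ) ≤ x := le_trans (by norm_num) hx1
  have hx0 : (0 : ℝ) < x := by linarith
  have hNx : (x : ℝ) ^ 40 ≤ N := by
    have h1 : x ^ 40 ≤ b ^ 40 := Nat.pow_le_pow_left hB.xb 40
    exact_mod_cast h1.trans hB.Nb
  have hN0 : (0 : ℝ) < N := lt_of_lt_of_le (by positivity) hNx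
  have hNx2 : (2 : ℝ) ≤ (N : ℝ) / (x : ℝ) ^ 2 := by
    rw [le_div_iff₀ (by positivity)]
    refine le_trans ?_ hNx
    have h1 : (2 : ℝ) * x ^ 2 ≤ x ^ 38 * x ^ 2 := by
      apply mul_le_mul_of_nonneg_right _ (by positivity)
      calc (2 : ℝ) ≤ x := hx2
        _ = x ^ 1 := (pow_one _).symm
        _ ≤ x ^ 38 := pow_le_pow_right₀ (by linarith) (by norm_num)
    calc _ ≤ (x : ℝ) ^ 38 * x ^ 2 := h1
      _ = x ^ 40 := by rw [← pow_add]
  set l : ℕ := ⌊(N : ℝ) * (1 - 1 / (8 * (x : ℝ) ^ 2))⌋₊ with hl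
  have hl1 : (N : ℝ) * (1 - 1 / (8 * (x : ℝ) ^ 2)) < l + 1 := Nat.lt_floor_add_one _
  have e : (N : ℝ) * (1 - 1 / (8 * (x : ℝ) ^ 2)) = N - (N / (x : ℝ) ^ 2) / 8 := by
    field_simp
  rw [e] at hl1
  have hd : (dl N x : ℝ) ≤ (N : ℝ) / (x : ℝ) ^ 2 := by
    refine (dl_le hB).trans ?_
    apply div_le_div_of_nonneg_left hN0.le (by positivity)
    exact pow_le_pow_right₀ (by linarith) (by norm_num)
  rcases le_total (c - dl N x) l with h | h
  · rw [min_eq_left h]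
    have h2 : c - (c - dl N x) ≤ dl N x := by omega
    have h3 : ((c - (c - dl N x) : ℕ) : ℝ) ≤ (dl N x : ℝ) := by exact_mod_cast h2
    linarith
  · rw [min_eq_right h]
    rcases le_total c l with h4 | h4
    · have : c - l = 0 := by omega
      rw [this]
      simp only [Nat.cast_zero]
      positivity
    · rw [Nat.cast_sub h4]
      have : (c : ℝ) ≤ N := by exact_mod_cast hc
      linarith

/-- the product of the weights of the extensions -/
theorem SwitchB_prod {x c c' : ℕ} (hB : Big b N x) (hc : c ≤ N) (hcc : c' ≤ c) :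
    (∏ u ∈ Ico c' (min (c - dl N x) ⌊(N : ℝ) * (1 - 1 / (8 * (x : ℝ) ^ 2))⌋₊),
        ((1 + 1 / (nx x : ℝ)) * (1 - (u : ℝ) / N))) * Ac N c ≤
      Ac N c' * ((2 : ℝ) ^ ((3 / 2 : ℝ) * ((N + 1 : ℕ) : ℝ) / (nx x : ℕ)) *
        (2 : ℝ) ^ ((N : ℝ) / x)) := by
  set c1 : ℕ := min (c - dl N x) ⌊(N : ℝ) * (1 - 1 / (8 * (x : ℝ) ^ 2))⌋₊ with hc1
  have hF := nx_ge hB.x0
  have hgap := SwitchB_c1 hB hc
  rw [← hc1] at hgap
  have hc1c : c1 ≤ c := (min_le_left _ _).trans (Nat.sub_le _ _)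
  have hA0 : 0 < Ac N c' := Ac_pos (hcc.trans hc)
  rw [prod_mul_distrib, prod_const, Nat.card_Ico]
  have hp : (1 + 1 / (nx x : ℝ)) ^ (c1 - c') ≤
      (2 : ℝ) ^ ((3 / 2 : ℝ) * ((N + 1 : ℕ) : ℝ) / (nx x : ℕ)) :=
    SwitchB_pow (by omega) (by omega)
  have hq0 : 0 ≤ ∏ u ∈ Ico c' c1, (1 - (u : ℝ) / N) := by
    refine prod_nonneg fun u hu => ?_
    have h1 : u ≤ N := ((mem_Ico.1 hu).2.le.trans hc1c).trans hc
    have h2 : (u : ℝ) ≤ N := by exact_mod_cast h1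
    have h3 : (u : ℝ) / N ≤ 1 := div_le_one_of_le₀ h2 (Nat.cast_nonneg N)
    linarith
  have hq : (∏ u ∈ Ico c' c1, (1 - (u : ℝ) / N)) * Ac N c ≤ Ac N c' * (2 : ℝ) ^ ((N : ℝ) / x) := by
    rcases le_total c' c1 with h | h
    · have h1 := Ac_gap hB.x0 hc1c hc hgap
      have h2 := Ac_ico (N := N) h (hc1c.trans hc)
      calc _ ≤ (∏ u ∈ Ico c' c1, (1 - (u : ℝ) / N)) * (Ac N c1 * (2 : ℝ) ^ ((N : ℝ) / x)) :=
            mul_le_mul_of_nonneg_left h1 hq0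
        _ = (Ac N c1 * ∏ u ∈ Ico c' c1, (1 - (u : ℝ) / N)) * (2 : ℝ) ^ ((N : ℝ) / x) := by ring
        _ = _ := by rw [h2]
    · rw [Ico_eq_empty_of_le h, prod_empty, one_mul]
      refine Ac_gap hB.x0 hcc hc (le_trans ?_ hgap)
      have : c - c' ≤ c - c1 := by omega
      exact_mod_cast this
  have hE : (0:ℝ) < (2 : ℝ) ^ ((3 / 2 : ℝ) * ((N + 1 : ℕ) : ℝ) / (nx x : ℕ)) :=
    Real.rpow_pos_of_pos (by norm_num) _
  have hAc : 0 ≤ Ac N c := (Ac_pos hc).le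
  calc _ = (1 + 1 / (nx x : ℝ)) ^ (c1 - c') * ((∏ u ∈ Ico c' c1, (1 - (u : ℝ) / N)) * Ac N c) := by
        ring
    _ ≤ (2 : ℝ) ^ ((3 / 2 : ℝ) * ((N + 1 : ℕ) : ℝ) / (nx x : ℕ)) *
        ((∏ u ∈ Ico c' c1, (1 - (u : ℝ) / N)) * Ac N c) :=
        mul_le_mul_of_nonneg_right hp (mul_nonneg hq0 hAc)
    _ ≤ (2 : ℝ) ^ ((3 / 2 : ℝ) * ((N + 1 : ℕ) : ℝ) / (nx x : ℕ)) *
        (Ac N c' * (2 : ℝ) ^ ((N : ℝ) / x)) := mul_le_mul_of_nonneg_left hq hE.le
    _ = _ := by ring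

/-- Task W2.  Change of scale for distributions.

Paper proof.  Same index type and masses, states from `switch_det`, `R = ρ`,
`L' = L + 2(N+1)/x + (3/2)(N+1)/F`.  Let `c = lowc x ρ`, `c' = lowc F ρ`, `G = {i | F < fc (ρ i) ≤ x}`, so
`|G| = c - c'`.  Fix `z'`; if no state matches `z'` on the pigeons of level `≤ F` the sum is `0`.  Otherwise the
holes `T₀` of `z'` on these pigeons are distinct, `|T₀| = c'`.  The sum of `μ k` over the `k` matching `z'` is at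
most the sum over the extensions `z''` of `z'` counted in `count_ext` (with `T = T₀`) of the sums over the `k`
matching `z''` on the pigeons of level `≤ x`; each of these is at most
`2^{(N+1)/x} * Ac N c * 2^L * wt x ρ` (using `hs.pen`).  Finally
`wt x ρ * ∏_{i∈G} 2^{fc (ρ i)} = wt F ρ`, `(1+1/F)^{#} ≤ 2^{(3/2)(N+1)/F}`, and with
`c1 = min (c - Δ) ⌊lim⌋₊` one has `Ac N c ≤ Ac N (max c1 c') * 2^{N/x}` (`Ac_gap`) and `Ac_ico`. -/
theorem switch_mass {σ : Fin (N + 1) → Lab b → Fin N} {x : ℕ} {ρ : Vis b N} {M : ℝ}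
    (hB : Big b N x) (h : EndD σ x ρ M) (hA : ProA σ x ρ)
    (hne : (N : ℝ) / (x : ℝ) ^ 2 ≤ (highc (nx x) ρ : ℝ)) :
    RunD σ x ρ M := by
  classical
  obtain ⟨ι, iF, μ, s, L, hμ, hM, hV, hs, hL, hz⟩ := h
  have hdet := fun k => switch_det hB hV hA hne (hs k)
  choose s' hg hpen hlab using hdet
  have hF1000 := nx_ge hB.x0
  have hFx : nx x < x := by have := nx_lt hB.x0; omega
  have hx0 : (0 : ℝ) < x := by
    have : 0 < x := by omega
    exact_mod_cast this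
  have hF0 : (0 : ℝ) < (nx x : ℝ) := by
    have : 0 < nx x := by omega
    exact_mod_cast this
  set F : ℕ := nx x with hFdef
  refine ⟨ι, iF, μ, s', ρ, L + 2 * ((N : ℝ) + 1) / x + (3 / 2 : ℝ) * ((N : ℝ) + 1) / F, hμ, hM, ?_,
    hg, ?_, ?_⟩
  · refine ⟨fun i => Sub.refl _, hA, hV.sh, hV.bb, ?_⟩
    linarith
  · have h1 : 0 ≤ ((N : ℝ) + 1) / x := by positivity
    have h2 : 0 ≤ ((N : ℝ) + 1) / F := by positivity
    have e1 : 8 * ((N : ℝ) + 1) / x = 8 * (((N : ℝ) + 1) / x) := by ring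
    have e2 : 2 * ((N : ℝ) + 1) / x = 2 * (((N : ℝ) + 1) / x) := by ring
    have e3 : 3 / 2 * ((N : ℝ) + 1) / F = 3 / 2 * (((N : ℝ) + 1) / F) := by ring
    have e4 : 11 * ((N : ℝ) + 1) / x = 11 * (((N : ℝ) + 1) / x) := by ring
    have e5 : 2 * ((N : ℝ) + 1) / F = 2 * (((N : ℝ) + 1) / F) := by ring
    rw [e1] at hL
    rw [e2, e3, e4, e5]
    linarith
  intro z'
  set c : ℕ := lowc x ρ with hcdef
  set c' : ℕ := lowc F ρ with hc'def
  set G : Finset (Fin (N + 1)) := univ.filter (fun i => F < fc (ρ i) ∧ fc (ρ i) ≤ x) with hGdef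
  have hcard : c' + G.card = c := SwitchB_card hFx.le ρ
  have hcN1 : c ≤ N + 1 := by
    rw [hcdef, lowc]
    exact (card_le_univ _).trans (by simp)
  have hc'N1 : c' ≤ N + 1 := by omega
  have hwt0 : 0 ≤ wt F ρ := by
    rw [wt]
    refine prod_nonneg fun j _ => ?_
    split_ifs <;> positivity
  have hwtx0 : 0 ≤ wt x ρ := by
    rw [wt]
    refine prod_nonneg fun j _ => ?_
    split_ifs <;> positivity
  have hinv : 1 ≤ (1 - 2 / (F : ℝ))⁻¹ := by
    have h1 : (2 : ℝ) / F < 1 := by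
      rw [div_lt_one hF0]
      have : (1000 : ℝ) ≤ F := by exact_mod_cast hF1000
      linarith
    have h2 : (0 : ℝ) < 2 / F := by positivity
    exact (one_le_inv₀ (by linarith)).2 (by linarith)
  have hRHS : 0 ≤ Ac N c' * ((1 - 2 / (F : ℝ))⁻¹) ^ c' *
      (2 : ℝ) ^ (L + 2 * ((N : ℝ) + 1) / x + (3 / 2 : ℝ) * ((N : ℝ) + 1) / F) * wt F ρ := by
    have h1 := Ac_nonneg hc'N1
    have h2 : (0 : ℝ) ≤ (1 - 2 / (F : ℝ))⁻¹ := by linarith
    have h3 := (Real.rpow_pos_of_pos (by norm_num : (0:ℝ) < 2)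
      (L + 2 * ((N : ℝ) + 1) / x + (3 / 2 : ℝ) * ((N : ℝ) + 1) / F)).le
    positivity
  have hsum : (∑ k, if (∀ j, fc (ρ j) ≤ F → (s' k).y j = z' j) then μ k / 2 ^ (s' k).pen else 0) =
      ∑ k, if (∀ j, fc (ρ j) ≤ F → (s k).y j = z' j) then μ k else 0 := by
    refine sum_congr rfl fun k _ => ?_
    rw [hpen k, pow_zero, div_one]
    refine if_congr ?_ rfl rfl
    constructor
    · intro h j hj
      rw [← hlab k j hj, h j hj]
    · intro h j hj
      rw [hlab k j hj, h j hj]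
  rw [hsum]
  by_cases hex : ∃ k, ∀ j, fc (ρ j) ≤ F → (s k).y j = z' j
  swap
  · push Not at hex
    rw [sum_eq_zero]
    · exact hRHS
    · intro k _
      rw [if_neg]
      push Not
      exact hex k
  obtain ⟨k0, hk0⟩ := hex
  set T0 : Finset (Fin N) := (univ.filter (fun i => fc (ρ i) ≤ F)).image (fun i => σ i (z' i)) with hT0
  have hT0card : T0.card = c' := by
    rw [hT0, card_image_of_injOn, hc'def, lowc]
    intro i hi j hj hij
    simp only [coe_filter, mem_univ, true_and, Set.mem_setOf_eq] at hi hj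
    simp only at hij
    rw [← hk0 i hi, ← hk0 j hj] at hij
    exact (hs k0).core.inj i ((hs k0).core.low i (hi.trans hFx.le)) j
      ((hs k0).core.low j (hj.trans hFx.le)) hij
  have hcount := count_ext hB hA G (fun i hi => by
    rw [hGdef, mem_filter] at hi
    exact ⟨hi.2.1.le, hi.2.2⟩) T0
  set Ext := (Fintype.piFinset (fun i => if i ∈ G then pts (ρ i) else {fun _ => false})).filter
      (fun z => (∀ i ∈ G, σ i (z i) ∉ T0) ∧
        (∀ i ∈ G, ∀ j ∈ G, σ i (z i) = σ j (z j) → i = j)) with hExt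
  rw [hT0card, hcard] at hcount
  set full : (Fin (N + 1) → Lab b) → (Fin (N + 1) → Lab b) :=
    fun z j => if j ∈ G then z j else z' j with hfull
  -- each state matching `z'` matches an extension
  have hstep1 : (∑ k, if (∀ j, fc (ρ j) ≤ F → (s k).y j = z' j) then μ k else 0) ≤
      ∑ z ∈ Ext, ∑ k, if (∀ j, fc (ρ j) ≤ x → (s k).y j = full z j) then μ k else 0 := by
    rw [sum_comm]
    refine sum_le_sum fun k _ => ?_
    have hnn : ∀ z ∈ Ext, 0 ≤ (if (∀ j, fc (ρ j) ≤ x → (s k).y j = full z j) then μ k else 0) := by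
      intro z _
      split_ifs
      · exact hμ k
      · exact le_rfl
    by_cases hm : ∀ j, fc (ρ j) ≤ F → (s k).y j = z' j
    swap
    · rw [if_neg hm]
      exact sum_nonneg hnn
    rw [if_pos hm]
    have hcore := (hs k).core
    have hGC : ∀ i ∈ G, i ∈ (s k).C := by
      intro i hi
      rw [hGdef, mem_filter] at hi
      exact hcore.low i hi.2.2
    have hzE : (fun i => if i ∈ G then (s k).y i else fun _ => false) ∈ Ext := by
      rw [hExt, mem_filter, Fintype.mem_piFinset]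
      refine ⟨?_, ?_, ?_⟩
      · intro i
        by_cases hi : i ∈ G
        · simp only [if_pos hi]
          exact hcore.lab i (hGC i hi)
        · simp only [if_neg hi, mem_singleton]
      · intro i hi
        simp only [if_pos hi]
        intro hmem
        rw [hT0, mem_image] at hmem
        obtain ⟨j, hj, hji⟩ := hmem
        simp only [mem_filter, mem_univ, true_and] at hj
        rw [← hm j hj] at hji
        have := hcore.inj j (hcore.low j (hj.trans hFx.le)) i (hGC i hi) hji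
        subst this
        rw [hGdef, mem_filter] at hi
        omega
      · intro i hi j hj hij
        simp only [if_pos hi, if_pos hj] at hij
        exact hcore.inj i (hGC i hi) j (hGC j hj) hij
    refine le_trans ?_ (single_le_sum hnn hzE)
    rw [if_pos]
    intro j hj
    simp only [hfull]
    by_cases hjG : j ∈ G
    · simp only [if_pos hjG]
    · simp only [if_neg hjG]
      apply hm
      by_contra hcon
      apply hjG
      rw [hGdef, mem_filter]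
      exact ⟨mem_univ _, by omega, hj⟩
  have hE1 : (0:ℝ) < (2 : ℝ) ^ (((N : ℝ) + 1) / x) := Real.rpow_pos_of_pos (by norm_num) _
  -- each inner sum
  have hstep2 : ∀ z ∈ Ext, (∑ k, if (∀ j, fc (ρ j) ≤ x → (s k).y j = full z j) then μ k else 0) ≤
      (2 : ℝ) ^ (((N : ℝ) + 1) / x) * (Ac N c * (2 : ℝ) ^ L * wt x ρ) := by
    intro z _
    refine le_trans ?_ (mul_le_mul_of_nonneg_left (hz (full z)) hE1.le)
    rw [mul_sum]
    refine sum_le_sum fun k _ => ?_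
    by_cases hm : ∀ j, fc (ρ j) ≤ x → (s k).y j = full z j
    · rw [if_pos hm, if_pos hm]
      have h1 : (2 : ℝ) ^ (s k).pen ≤ (2 : ℝ) ^ (((N : ℝ) + 1) / x) := by
        rw [← Real.rpow_natCast]
        exact Real.rpow_le_rpow_of_exponent_le (by norm_num) (hs k).pen
      have h2 : (0 : ℝ) < (2 : ℝ) ^ (s k).pen := by positivity
      rw [mul_div_assoc', le_div_iff₀ h2, mul_comm]
      exact mul_le_mul_of_nonneg_right h1 (hμ k)
    · rw [if_neg hm, if_neg hm, mul_zero]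
  have hstep3 : (∑ k, if (∀ j, fc (ρ j) ≤ F → (s k).y j = z' j) then μ k else 0) ≤
      (Ext.card : ℝ) * ((2 : ℝ) ^ (((N : ℝ) + 1) / x) * (Ac N c * (2 : ℝ) ^ L * wt x ρ)) := by
    refine hstep1.trans ?_
    have := sum_le_card_nsmul Ext _ _ hstep2
    rwa [nsmul_eq_mul] at this
  rcases Nat.lt_or_ge N c with hcN | hcN
  · have hc1 : c = N + 1 := by omega
    refine hstep3.trans ?_
    rw [hc1, SwitchB_Ac_top]
    simpa using hRHS
  have hprod := SwitchB_prod hB hcN (by omega : c' ≤ c)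
  have hEL : (0:ℝ) < (2 : ℝ) ^ L := Real.rpow_pos_of_pos (by norm_num) _
  have hAcc : 0 ≤ Ac N c := (Ac_pos hcN).le
  have hAcc' : 0 ≤ Ac N c' := (Ac_pos (by omega)).le
  refine hstep3.trans ?_
  set Pr : ℝ := ∏ u ∈ Ico c' (min (c - dl N x) ⌊(N : ℝ) * (1 - 1 / (8 * (x : ℝ) ^ 2))⌋₊),
        ((1 + 1 / (F : ℝ)) * (1 - (u : ℝ) / N)) with hPr
  set W2 : ℝ := ∏ i ∈ G, (2 : ℝ) ^ fc (ρ i) with hW2
  have hwt : wt x ρ * W2 = wt F ρ := SwitchB_wt hFx.le ρ
  have hexp : (2 : ℝ) ^ ((3 / 2 : ℝ) * ((N + 1 : ℕ) : ℝ) / (F : ℕ)) * (2 : ℝ) ^ ((N : ℝ) / x) *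
      ((2 : ℝ) ^ (((N : ℝ) + 1) / x) * (2 : ℝ) ^ L) ≤
      (2 : ℝ) ^ (L + 2 * ((N : ℝ) + 1) / x + (3 / 2 : ℝ) * ((N : ℝ) + 1) / F) := by
    rw [← Real.rpow_add (by norm_num), ← Real.rpow_add (by norm_num), ← Real.rpow_add (by norm_num)]
    apply Real.rpow_le_rpow_of_exponent_le (by norm_num)
    have h1 : (N : ℝ) / x ≤ ((N : ℝ) + 1) / x := by gcongr; linarith
    have e2 : 2 * ((N : ℝ) + 1) / x = 2 * (((N : ℝ) + 1) / x) := by ring
    rw [e2]
    push_cast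
    linarith
  calc (Ext.card : ℝ) * ((2 : ℝ) ^ (((N : ℝ) + 1) / x) * (Ac N c * (2 : ℝ) ^ L * wt x ρ))
      ≤ (W2 * Pr) * ((2 : ℝ) ^ (((N : ℝ) + 1) / x) * (Ac N c * (2 : ℝ) ^ L * wt x ρ)) := by
        apply mul_le_mul_of_nonneg_right hcount
        positivity
    _ = (Pr * Ac N c) * ((2 : ℝ) ^ (((N : ℝ) + 1) / x) * (2 : ℝ) ^ L * (wt x ρ * W2)) := by ring
    _ ≤ (Ac N c' * ((2 : ℝ) ^ ((3 / 2 : ℝ) * ((N + 1 : ℕ) : ℝ) / (F : ℕ)) *
        (2 : ℝ) ^ ((N : ℝ) / x))) * ((2 : ℝ) ^ (((N : ℝ) + 1) / x) * (2 : ℝ) ^ L * (wt x ρ * W2)) := by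
        apply mul_le_mul_of_nonneg_right hprod
        rw [hwt]
        positivity
    _ = Ac N c' * ((2 : ℝ) ^ ((3 / 2 : ℝ) * ((N + 1 : ℕ) : ℝ) / (F : ℕ)) * (2 : ℝ) ^ ((N : ℝ) / x) *
      ((2 : ℝ) ^ (((N : ℝ) + 1) / x) * (2 : ℝ) ^ L)) * wt F ρ := by rw [hwt]; ring
    _ ≤ Ac N c' * (2 : ℝ) ^ (L + 2 * ((N : ℝ) + 1) / x + (3 / 2 : ℝ) * ((N : ℝ) + 1) / F) * wt F ρ := by
        gcongr
    _ = Ac N c' * 1 * (2 : ℝ) ^ (L + 2 * ((N : ℝ) + 1) / x + (3 / 2 : ℝ) * ((N : ℝ) + 1) / F) * wt F ρ := by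
        rw [mul_one]
    _ ≤ _ := by
        have h1 : (1 : ℝ) ≤ ((1 - 2 / (F : ℝ))⁻¹) ^ c' := one_le_pow₀ hinv
        gcongr

end H616TR
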