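import Pool.Agent.H616R2.TR.Tree
import Pool.Agent.H616R2.TR.QueryA
import Pool.Agent.H616R2.TR.QueryB
import Pool.Agent.H616R2.TR.QueryC
import Pool.Agent.H616R2.TR.SwitchB
import Pool.Agent.H616R2.TR.EndsA
import Pool.Agent.H616R2.TR.EndsB
import Pool.Agent.H616R2.TR.EndsC
import Pool.Agent.H616R2.TR.Fail
import Pool.Agent.H616R2.TR.ExE

set_option autoImplicit false

/-! Final assembly. -/

namespace H616TR

open Finset

variable {b N : ℕ}

/-- the mass bound when giving up -/
noncomputable def WW (b N : ℕ) : ℝ := (2 : ℝ) ^ ((B0 + 2) * (N + 1)) / (2 : ℝ) ^ (b * (N + 1))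

/-- the failure term -/
noncomputable def PS (σ : Fin (N + 1) → Lab b → Fin N) (ρ : Vis b N) : ℝ :=
  2 ^ (2 * (N + 1)) * (P0 ρ * FF σ ρ)

theorem WW_nonneg : 0 ≤ WW b N := by unfold WW; positivity

theorem PS_nonneg (σ : Fin (N + 1) → Lab b → Fin N) (ρ : Vis b N) : 0 ≤ PS σ ρ := by
  unfold PS
  have := P0_pos ρ
  have := FF_nonneg σ ρ
  positivity

theorem norm_end (hN : b ^ 40 ≤ N) {σ : Fin (N + 1) → Lab b → Fin N} {ρ : Vis b N} {M : ℝ} :
    ∀ x : ℕ, 1000 ≤ x → x ≤ b → 2 * x ^ 6 ≤ b → EndD σ x ρ M →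
      M ≤ WW b N + PS σ ρ ∨
        ∃ x', Big b N x' ∧ RunD σ x' ρ M ∧ (N : ℝ) / (x' : ℝ) ^ 2 ≤ (highc (nx x') ρ : ℝ) := by
  intro x
  induction x using Nat.strong_induction_on with
  | _ x ih =>
    intro hx1 hxb hx6 h
    by_cases hx : B0 ≤ x
    · have hB : Big b N x := ⟨hx, hxb, hN⟩
      have h1 := nx_lt hx
      have h2 := nx_ge hx
      by_cases hn : (highc (nx x) ρ : ℝ) < (N : ℝ) / (x : ℝ) ^ 2
      · have := end_skip hB h hn
        refine ih (nx x) (by omega) h2 (by omega) ?_ this
        have := two_nx6_le hx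
        omega
      · push Not at hn
        by_cases hA : ProA σ x ρ
        · exact Or.inr ⟨x, hB, switch_mass hB h hA hn, hn⟩
        · left
          have hxs : x ∈ Xset b := by
            simp only [Xset, mem_filter, mem_range]
            exact ⟨by omega, hx, hx6⟩
          have h3 := end_mass hx1 h
          have h4 := FF_fail σ x hxs ρ hA
          have h5 := P0_pos ρ
          have h6 : (2 : ℝ) ^ (2 * (N + 1)) * P0 ρ ≤ PS σ ρ := by
            unfold PS
            have : P0 ρ ≤ P0 ρ * FF σ ρ := le_mul_of_one_le_right h5.le h4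
            gcongr
          have := WW_nonneg (b := b) (N := N)
          linarith
    · left
      have h3 := give_up hx1 (not_le.1 hx) h
      have := PS_nonneg σ ρ
      unfold WW
      linarith

theorem norm_run {σ : Fin (N + 1) → Lab b → Fin N} {ρ : Vis b N} {M : ℝ} {x : ℕ}
    (hB : Big b N x) (h : RunD σ x ρ M) :
    M ≤ WW b N + PS σ ρ ∨
      ∃ x', Big b N x' ∧ RunD σ x' ρ M ∧ (N : ℝ) / (x' : ℝ) ^ 2 ≤ (highc (nx x') ρ : ℝ) := by
  by_cases hn : (highc (nx x) ρ : ℝ) < (N : ℝ) / (x : ℝ) ^ 2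
  · have h1 := run_end hB h hn
    have h2 := nx_lt hB.x0
    have h3 := nx_ge hB.x0
    have h4 := two_nx6_le hB.x0
    have h5 := hB.xb
    exact norm_end hB.Nb (nx x) h3 (by omega) (by omega) h1
  · push Not at hn
    exact Or.inr ⟨x, hB, h, hn⟩

theorem run_query {σ : Fin (N + 1) → Lab b → Fin N} {x : ℕ} {ρ : Vis b N} {M : ℝ}
    (hB : Big b N x) (h : RunD σ x ρ M)
    (hne : (N : ℝ) / (x : ℝ) ^ 2 ≤ (highc (nx x) ρ : ℝ))
    (i : Fin (N + 1)) (t : Fin b) (ht : ρ i t = none) :
    ∃ M0 M1, M ≤ M0 + M1 ∧ RunD σ x (upv ρ i t false) M0 ∧ RunD σ x (upv ρ i t true) M1 := by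
  rcases lt_trichotomy (fc (ρ i)) (nx x + 1) with h1 | h1 | h1
  · exact run_query_low hB h hne i t ht (by omega)
  · exact run_query_mid hB h hne i t ht h1
  · exact run_query_high hB h hne i t ht h1

theorem PS_super (σ : Fin (N + 1) → Lab b → Fin N) (ρ : Vis b N) (i : Fin (N + 1)) (t : Fin b)
    (ht : ρ i t = none) :
    PS σ (upv ρ i t false) + PS σ (upv ρ i t true) ≤ PS σ ρ := by
  unfold PS
  have := FF_super σ ρ i t ht
  rw [← mul_add]
  gcongr

theorem fc_emp' : fc (emp : Par b) = b := fc_emp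

theorem run_init (hb : B0 ≤ b) (hN : b ^ 40 ≤ N) (σ : Fin (N + 1) → Lab b → Fin N)
    (hσ : Ini σ) : RunD σ b (fun _ => emp) 1 := by
  have hB : Big b N b := ⟨hb, le_refl b, hN⟩
  have hlt := nx_lt hb
  have hbpos : 0 < b := by unfold B0 at hb; omega
  have hphp := ph_pos hB
  have hnb : ¬ b < fc (emp : Par b) := by rw [fc_emp]; omega
  have hnn : nx b < fc (emp : Par b) := by rw [fc_emp]; omega
  have hhigh : highc (nx b) (fun _ => emp : Vis b N) = N + 1 := by
    simp [highc, hnn]
  have hlow : lowc (nx b) (fun _ => emp : Vis b N) = 0 := by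
    simp [lowc, hnn]
  refine ⟨Unit, inferInstance, fun _ => 1,
    fun _ => ⟨∅, fun _ _ => false, ∅, 0, 0, ∅, 0⟩, fun _ => emp, 0, fun _ => zero_le_one,
    by simp, ?_, ?_, ?_, ?_⟩
  · refine ⟨fun i => Sub.refl _, hσ.1, ?_, ?_, ?_⟩
    · simp [hnb]
    · have : (univ.filter (fun i : Fin (N + 1) => b < fc ((fun _ => emp : Vis b N) i))) = ∅ := by
        apply filter_eq_empty_iff.2
        intro i _
        exact hnb
      rw [this, sum_empty, Nat.cast_zero]
      positivity
    · rw [hhigh]
      have hN0 : (0 : ℝ) ≤ N := Nat.cast_nonneg N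
      have hb1 : (1 : ℝ) ≤ (b : ℝ) ^ 2 := by
        have : (1 : ℝ) ≤ b := by exact_mod_cast hbpos
        nlinarith
      have : (N : ℝ) / (b : ℝ) ^ 2 ≤ N := div_le_self hN0 hb1
      push_cast
      linarith
  · intro _
    refine ⟨⟨?_, ?_, ?_, ?_⟩, ?_, ?_, ?_, ?_, ?_, ?_, ?_, ?_, ?_, ?_, ?_⟩
    · intro i hi
      exact absurd hi (by simpa using hnn)
    · intro i hi
      simp at hi
    · intro i hi
      simp at hi
    · intro i hi
      simp at hi
    · intro Y _ hY
      have := hσ.2 Y hY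
      simpa using this
    · intro i _ _
      rfl
    · simp [hnb]
    · simp only [card_empty, Nat.cast_zero, zero_add, one_mul]
      exact hphp.le
    · simp
    · simp
    · simp
    · simp
    · intro i hi
      simp at hi
    · simp [hnb]
    · simp
  · positivity
  · intro z
    rw [hlow, Ac_zero]
    have hwt : wt (nx b) (fun _ => emp : Vis b N) = 1 := by
      unfold wt
      apply prod_eq_one
      intro j _
      have : ¬ fc ((fun _ => emp : Vis b N) j) ≤ nx b := not_le.2 hnn
      rw [if_neg this]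
      simp [fc_emp]
    rw [hwt]
    simp only [pow_zero, Real.rpow_zero, mul_one, univ_unique, sum_singleton, div_one]
    split_ifs <;> norm_num

/-! ### The formula -/

/-- projection of an assignment to the pigeon variables -/
def prj {n : ℕ} (e : Fin (N + 1) × Fin b → Fin n) (ρ : Fin n → Option Bool) : Vis b N :=
  fun i t => ρ (e (i, t))

/-- collision clause -/
def ccl {n : ℕ} (e : Fin (N + 1) × Fin b → Fin n) (i j : Fin (N + 1)) (y y' : Lab b) :
    Finset (Fin n × Bool) :=
  univ.image (fun t => (e (i, t), !y t)) ∪ univ.image (fun t => (e (j, t), !y' t))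

/-- the formula -/
def form {n : ℕ} (e : Fin (N + 1) × Fin b → Fin n) (σ : Fin (N + 1) → Lab b → Fin N) :
    Finset (Finset (Fin n × Bool)) :=
  ((univ : Finset (Fin (N + 1) × Fin (N + 1) × Lab b × Lab b)).filter
    (fun q => q.1 ≠ q.2.1 ∧ σ q.1 q.2.2.1 = σ q.2.1 q.2.2.2)).image
    (fun q => ccl e q.1 q.2.1 q.2.2.1 q.2.2.2)

theorem card_ccl {n : ℕ} (e : Fin (N + 1) × Fin b → Fin n) (i j : Fin (N + 1)) (y y' : Lab b) :
    (ccl e i j y y').card ≤ 2 * b := by
  unfold ccl
  refine (card_union_le _ _).trans ?_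
  have h1 : (univ.image (fun t : Fin b => (e (i, t), !y t))).card ≤ b := by
    refine card_image_le.trans ?_
    simp
  have h2 : (univ.image (fun t : Fin b => (e (j, t), !y' t))).card ≤ b := by
    refine card_image_le.trans ?_
    simp
  omega

theorem form_unsat {n : ℕ} (e : Fin (N + 1) × Fin b → Fin n)
    (σ : Fin (N + 1) → Lab b → Fin N) (α : Fin n → Bool) :
    ∃ C ∈ form e σ, ∀ l ∈ C, α l.1 ≠ l.2 := by
  obtain ⟨i, j, hij, h⟩ := Fintype.exists_ne_map_eq_of_card_lt
    (fun i : Fin (N + 1) => σ i (fun t => α (e (i, t)))) (by simp)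
  refine ⟨ccl e i j (fun t => α (e (i, t))) (fun t => α (e (j, t))), ?_, ?_⟩
  · unfold form
    rw [mem_image]
    exact ⟨(i, j, (fun t => α (e (i, t))), (fun t => α (e (j, t)))), by simp [hij, h], rfl⟩
  · intro l hl
    unfold ccl at hl
    rw [mem_union, mem_image, mem_image] at hl
    rcases hl with ⟨t, _, rfl⟩ | ⟨t, _, rfl⟩ <;> simp

theorem prj_update {n : ℕ} (e : Fin (N + 1) × Fin b → Fin n) (he : Function.Injective e)
    (ρ : Fin n → Option Bool) (i : Fin (N + 1)) (t : Fin b) (v : Bool) :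
    prj e (Function.update ρ (e (i, t)) (some v)) = upv (prj e ρ) i t v := by
  funext j u
  unfold prj
  by_cases hj : j = i
  · subst hj
    rw [upv_self]
    unfold up
    by_cases hu : u = t
    · subst hu
      simp
    · rw [Function.update_of_ne (fun h => hu (by simpa using he h)), Function.update_of_ne hu]
  · rw [upv_ne _ _ _ _ hj, Function.update_of_ne (fun h => hj (by
      have := he h
      exact (Prod.mk.inj this).1))]

theorem prj_update_dummy {n : ℕ} (e : Fin (N + 1) × Fin b → Fin n)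
    (ρ : Fin n → Option Bool) (x : Fin n) (hx : ∀ p, e p ≠ x) (v : Option Bool) :
    prj e (Function.update ρ x v) = prj e ρ := by
  funext j u
  unfold prj
  rw [Function.update_of_ne (hx _)]

theorem size_bound (hb : B0 ≤ b) (hN : b ^ 40 ≤ N) {n : ℕ}
    (e : Fin (N + 1) × Fin b → Fin n) (he : Function.Injective e) :
    ∃ F : Finset (Finset (Fin n × Bool)),
      (∀ C ∈ F, C.card ≤ 2 * b) ∧
      (∀ α : Fin n → Bool, ∃ C ∈ F, ∀ l ∈ C, α l.1 ≠ l.2) ∧
      ∀ s : ℕ,
        (∀ P : Finset (Fin n × Bool) → ℕ → Prop,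
          (∀ C ∈ F, P C 1) →
          (∀ (C D : Finset (Fin n × Bool)) (x : Fin n) (a b : ℕ),
            P C a → P D b → (x, true) ∈ C → (x, false) ∈ D →
            P (C.erase (x, true) ∪ D.erase (x, false)) (a + b + 1)) →
          P ∅ s) →
        3 / 4 ≤ (s : ℝ) * WW b N := by
  obtain ⟨σ, hσ, hF⟩ := exists_good hN hb
  refine ⟨form e σ, ?_, form_unsat e σ, ?_⟩
  · intro C hC
    unfold form at hC
    rw [mem_image] at hC
    obtain ⟨q, _, rfl⟩ := hC
    exact card_ccl _ _ _ _ _
  · intro s hs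
    have key := tree_lb (form e σ) (fun ρ M => ∃ x, Big b N x ∧ RunD σ x (prj e ρ) M)
      (fun ρ => PS σ (prj e ρ)) (WW b N) WW_nonneg (fun ρ => PS_nonneg σ _) ?_ ?_ s hs 1 ?_
    · have h1 : PS σ (prj e (fun _ => none)) ≤ 1 / 4 := by
        have : prj e (fun _ => none) = (fun _ => emp : Vis b N) := rfl
        rw [this]
        unfold PS
        rw [P0_emp, one_mul]
        have h2 : (2 : ℝ) ^ (2 * (N + 1)) * FF σ (fun _ => emp)
            ≤ 2 ^ (2 * (N + 1)) * (1 / 2 : ℝ) ^ (2 * (N + 1) + 2) := by gcongr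
        refine h2.trans (le_of_eq ?_)
        rw [pow_add, ← mul_assoc, ← mul_pow]
        norm_num
      linarith
    · rintro ρ M ⟨x, _, hx⟩ C hC hf
      have h0 : M ≤ 0 := by
        unfold form at hC
        rw [mem_image] at hC
        obtain ⟨⟨i, j, y, y'⟩, hq, rfl⟩ := hC
        simp only [mem_filter, mem_univ, true_and] at hq
        refine run_collision hx hq.1 (y := y) (y' := y') ?_ ?_ hq.2
        · intro t
          have := hf (e (i, t), !y t) (by
            unfold ccl
            exact mem_union_left _ (mem_image_of_mem _ (mem_univ t)))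
          simpa [prj] using this
        · intro t
          have := hf (e (j, t), !y' t) (by
            unfold ccl
            exact mem_union_right _ (mem_image_of_mem _ (mem_univ t)))
          simpa [prj] using this
      have := WW_nonneg (b := b) (N := N)
      have := PS_nonneg σ (prj e ρ)
      linarith
    · rintro ρ M ⟨x, hB, hx⟩ v hv
      by_cases hr : ∃ p, e p = v
      · obtain ⟨⟨i, t⟩, rfl⟩ := hr
        rcases norm_run hB hx with h | ⟨x', hB', hx', hne⟩
        · exact Or.inl h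
        · right; left
          obtain ⟨M0, M1, hle, h0, h1⟩ := run_query hB' hx' hne i t hv
          refine ⟨M0, M1, hle, ⟨x', hB', ?_⟩, ⟨x', hB', ?_⟩, ?_⟩
          · rw [prj_update e he]; exact h0
          · rw [prj_update e he]; exact h1
          · simp only [prj_update e he]
            exact PS_super σ _ i t hv
      · push Not at hr
        right; right
        refine ⟨⟨x, hB, ?_⟩, ?_⟩
        · rw [prj_update_dummy e ρ v hr]; exact hx
        · simp only [prj_update_dummy e ρ v hr]
          exact le_refl _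
    · exact ⟨b, ⟨hb, le_refl b, hN⟩, run_init hb hN σ hσ⟩

end H616TR
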