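import Pool.Agent.H616R2.TR.Final

set_option autoImplicit false

/-! The main theorem. -/

namespace H616TR

open Finset

/-- an embedding of the pigeon variables -/
theorem exists_emb {b N n : ℕ} (h : (N + 1) * b ≤ n) :
    ∃ e : Fin (N + 1) × Fin b → Fin n, Function.Injective e := by
  have hc : Fintype.card (Fin (N + 1) × Fin b) ≤ Fintype.card (Fin n) := by
    simpa using h
  obtain ⟨f⟩ := Function.Embedding.nonempty_of_card_le hc
  exact ⟨f, f.injective⟩

theorem size_pos {n : ℕ} {F : Finset (Finset (Fin n × Bool))} {s : ℕ}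
    (hs : ∀ P : Finset (Fin n × Bool) → ℕ → Prop,
          (∀ C ∈ F, P C 1) →
          (∀ (C D : Finset (Fin n × Bool)) (x : Fin n) (a b : ℕ),
            P C a → P D b → (x, true) ∈ C → (x, false) ∈ D →
            P (C.erase (x, true) ∪ D.erase (x, false)) (a + b + 1)) →
          P ∅ s) : 1 ≤ s :=
  hs (fun _ s => 1 ≤ s) (fun _ _ => le_refl 1) (fun _ _ _ a b _ _ _ _ => by omega)

theorem log_bound {b N s : ℕ} (h : (3 : ℝ) / 4 ≤ (s : ℝ) * WW b N) :
    ((b : ℝ) - ((B0 : ℕ) : ℝ) - 2) * ((N : ℝ) + 1) - 1 ≤ Real.logb 2 (s : ℝ) := by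
  have hs : 0 < (s : ℝ) := by
    rcases Nat.eq_zero_or_pos s with h0 | h0
    · subst h0
      norm_num at h
    · exact_mod_cast h0
  have h2 : (2 : ℝ) ^ (((b : ℝ) - ((B0 : ℕ) : ℝ) - 2) * ((N : ℝ) + 1) - 1) ≤ s := by
    have e1 : (2 : ℝ) ^ (((b : ℝ) - ((B0 : ℕ) : ℝ) - 2) * ((N : ℝ) + 1) - 1)
        = (2 : ℝ) ^ (b * (N + 1)) / (2 : ℝ) ^ ((B0 + 2) * (N + 1)) / 2 := by
      rw [Real.rpow_sub (by norm_num), Real.rpow_one]
      congr 1
      rw [← Real.rpow_natCast, ← Real.rpow_natCast, ← Real.rpow_sub (by norm_num)]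
      congr 1
      push_cast
      ring
    rw [e1]
    unfold WW at h
    have p1 : (0 : ℝ) < (2 : ℝ) ^ (b * (N + 1)) := by positivity
    have p2 : (0 : ℝ) < (2 : ℝ) ^ ((B0 + 2) * (N + 1)) := by positivity
    rw [div_le_iff₀ (by norm_num), div_le_iff₀ p2]
    rw [← mul_div_assoc, le_div_iff₀ p1] at h
    nlinarith
  rw [Real.le_logb_iff_rpow_le (by norm_num) hs]
  exact h2

theorem main_statement :
    ∃ c : ℝ, 0 < c ∧ ∀ k : ℕ, 1 ≤ k → ∃ N : ℕ, ∀ n : ℕ, N ≤ n →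
      ∃ F : Finset (Finset (Fin n × Bool)),
        (∀ C ∈ F, C.card ≤ k) ∧
        (∀ α : Fin n → Bool, ∃ C ∈ F, ∀ l ∈ C, α l.1 ≠ l.2) ∧
        ∀ s : ℕ,
          (∀ P : Finset (Fin n × Bool) → ℕ → Prop,
            (∀ C ∈ F, P C 1) →
            (∀ (C D : Finset (Fin n × Bool)) (x : Fin n) (a b : ℕ),
              P C a → P D b → (x, true) ∈ C → (x, false) ∈ D →
              P (C.erase (x, true) ∪ D.erase (x, false)) (a + b + 1)) →
            P ∅ s) →
          (1 - c / (k : ℝ)) * (n : ℝ) ≤ Real.logb 2 (s : ℝ) := by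
  have hB0 : (0 : ℝ) ≤ ((B0 : ℕ) : ℝ) := Nat.cast_nonneg _
  refine ⟨3 * (((B0 : ℕ) : ℝ) + 4), by positivity, ?_⟩
  intro k hk
  have hk0 : (0 : ℝ) < k := by exact_mod_cast hk
  by_cases hkb : k < 2 * B0
  · -- small `k`: trivial
    refine ⟨1, fun n hn => ?_⟩
    let x0 : Fin n := ⟨0, hn⟩
    refine ⟨{{(x0, true)}, {(x0, false)}}, ?_, ?_, ?_⟩
    · intro C hC
      simp only [mem_insert, mem_singleton] at hC
      rcases hC with rfl | rfl <;> simpa using hk
    · intro α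
      rcases hα : α x0 with _ | _
      · exact ⟨{(x0, true)}, by simp, by simp [hα]⟩
      · exact ⟨{(x0, false)}, by simp, by simp [hα]⟩
    · intro s hs
      have h1 := size_pos hs
      have h2 : 0 ≤ Real.logb 2 (s : ℝ) :=
        Real.logb_nonneg (by norm_num) (by exact_mod_cast h1)
      have h3 : (k : ℝ) < 2 * ((B0 : ℕ) : ℝ) := by exact_mod_cast hkb
      have h4 : 1 ≤ 3 * (((B0 : ℕ) : ℝ) + 4) / k := by
        rw [le_div_iff₀ hk0]
        linarith
      have h5 : (0 : ℝ) ≤ n := Nat.cast_nonneg _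
      have h6 : (1 - 3 * (((B0 : ℕ) : ℝ) + 4) / k) * (n : ℝ) ≤ 0 :=
        mul_nonpos_of_nonpos_of_nonneg (by linarith) h5
      linarith
  · push Not at hkb
    -- `b` bits per pigeon
    obtain ⟨b, hb⟩ : ∃ b, b = k / 2 := ⟨_, rfl⟩
    have hb0 : B0 ≤ b := by omega
    have hbk : 2 * b ≤ k := by omega
    have hkb' : k ≤ 2 * b + 1 := by omega
    have hbpos : 0 < b := lt_of_lt_of_le (by unfold B0; positivity) hb0
    refine ⟨(b ^ 40 + b + 2) * b, fun n hn => ?_⟩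
    obtain ⟨N, hN⟩ : ∃ N, N = n / b - 1 := ⟨_, rfl⟩
    have hq : b ^ 40 + b + 2 ≤ n / b := (Nat.le_div_iff_mul_le hbpos).2 hn
    have hN1 : N + 1 = n / b := by omega
    have hN40 : b ^ 40 ≤ N := by omega
    have hle : (N + 1) * b ≤ n := by rw [hN1]; exact Nat.div_mul_le_self n b
    have hlt : n < (N + 2) * b := by
      have h1 := Nat.div_add_mod n b
      have h2 := Nat.mod_lt n hbpos
      have h3 : (N + 2) * b = b * (n / b) + b := by rw [← hN1]; ring
      omega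
    obtain ⟨e, he⟩ := exists_emb hle
    obtain ⟨F, hF1, hF2, hF3⟩ := size_bound hb0 hN40 e he
    refine ⟨F, fun C hC => (hF1 C hC).trans hbk, hF2, ?_⟩
    intro s hs
    refine le_trans ?_ (log_bound (hF3 s hs))
    have r1 : ((n : ℕ) : ℝ) ≤ ((N : ℝ) + 2) * b := by exact_mod_cast hlt.le
    have r2 : ((N : ℝ) + 1) * b ≤ n := by exact_mod_cast hle
    have r3 : (k : ℝ) ≤ 3 * b := by
      have : k ≤ 3 * b := by omega
      exact_mod_cast this
    have r4 : (b : ℝ) + 1 ≤ N := by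
      have : b + 1 ≤ N := by omega
      exact_mod_cast this
    have hbR : (0 : ℝ) < b := by exact_mod_cast hbpos
    have r5 : ((N : ℝ) + 1) / 3 ≤ (n : ℝ) / k := by
      rw [div_le_div_iff₀ (by norm_num) hk0]
      nlinarith
    have r6 : (((B0 : ℕ) : ℝ) + 4) * ((N : ℝ) + 1) ≤ 3 * (((B0 : ℕ) : ℝ) + 4) / k * n := by
      have : 3 * (((B0 : ℕ) : ℝ) + 4) / k * n = 3 * (((B0 : ℕ) : ℝ) + 4) * ((n : ℝ) / k) := by
        ring
      rw [this]
      nlinarith
    nlinarith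

end H616TR
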