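import Pool.Agent.H616R2.TR.NumB

set_option autoImplicit false

/-! Task S1: easy queries for a single hidden state. -/

namespace H616TR

open Finset

variable {b N : ℕ}

/-- penalty increment for a query of an already committed pigeon of level `f` -/
def penInc (x f : ℕ) : ℕ := if f ≤ nx x then 0 else if f = nx x + 1 then nx x + 1 else 1

theorem StepA_fc_upv_le {ρ : Vis b N} {i : Fin (N + 1)} {t : Fin b} (ht : ρ i t = none) (v : Bool)
    (j : Fin (N + 1)) : fc (upv ρ i t v j) ≤ fc (ρ j) := by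
  by_cases h : j = i
  · subst h
    rw [upv_self]
    have := fc_up ht v
    omega
  · rw [upv_ne _ _ _ _ h]

/-- the visible part of the state survives a query (easy, task S1) -/
theorem rvis_step {σ : Fin (N + 1) → Lab b → Fin N} {x : ℕ} {R ρ : Vis b N}
    (hV : RVis σ x R ρ) (hne : (N : ℝ) / (x : ℝ) ^ 2 ≤ (highc (nx x) ρ : ℝ))
    (i : Fin (N + 1)) (t : Fin b) (ht : ρ i t = none) (v : Bool) :
    RVis σ x R (upv ρ i t v) := by
  refine ⟨?_, hV.A, hV.sh, hV.bb, ?_⟩
  · intro j
    by_cases h : j = i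
    · subst h
      rw [upv_self]
      exact (hV.sub j).trans (sub_up ht v)
    · rw [upv_ne _ _ _ _ h]
      exact hV.sub j
  · have h1 : highc (nx x) ρ ≤ highc (nx x) (upv ρ i t v) + 1 := by
      unfold highc
      have : (univ.filter (fun j => nx x < fc (ρ j)))
          ⊆ insert i (univ.filter (fun j => nx x < fc (upv ρ i t v j))) := by
        intro j hj
        rw [mem_filter] at hj
        rw [mem_insert, mem_filter]
        by_cases h : j = i
        · exact Or.inl h
        · right
          rw [upv_ne _ _ _ _ h]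
          exact ⟨mem_univ _, hj.2⟩
      exact (card_le_card this).trans (card_insert_le _ _)
    have h2 : (highc (nx x) ρ : ℝ) ≤ (highc (nx x) (upv ρ i t v) : ℝ) + 1 := by exact_mod_cast h1
    linarith

/-- Task S1.  A query of a committed pigeon is answered by its label. -/
theorem perm_step {σ : Fin (N + 1) → Lab b → Fin N} {x : ℕ} {R ρ : Vis b N} {s : HS b N}
    (hB : Big b N x) (hV : RVis σ x R ρ) (hs : RGood σ x R ρ s)
    (i : Fin (N + 1)) (hi : i ∈ s.C) (t : Fin b) (ht : ρ i t = none) :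
    RGood σ x R (upv ρ i t (s.y i t)) { s with pen := s.pen + penInc x (fc (ρ i)) } := by
  have hne : ∀ j, j ∉ s.C → j ≠ i := fun j hj h => hj (h ▸ hi)
  have hupv : ∀ j, j ∉ s.C → upv ρ i t (s.y i t) j = ρ j := fun j hj => upv_ne _ _ _ _ (hne j hj)
  have hfci := fc_up ht (s.y i t)
  have hfc' : fc (upv ρ i t (s.y i t) i) + 1 = fc (ρ i) := by rw [upv_self]; exact hfci
  refine ⟨⟨?_, ?_, ?_, ?_⟩, ?_, ?_, ?_, ?_, ?_, ?_, ?_, ?_, ?_, ?_, ?_⟩
  · -- low
    intro j hj
    by_cases h : j = i
    · subst h; exact hi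
    · rw [upv_ne _ _ _ _ h] at hj
      exact hs.core.low j hj
  · -- lab
    intro j hj
    show s.y j ∈ _
    by_cases h : j = i
    · subst h
      rw [upv_self, mem_pts_up ht]
      exact ⟨hs.core.lab j hj, rfl⟩
    · rw [upv_ne _ _ _ _ h]
      exact hs.core.lab j hj
  · exact hs.core.inT
  · exact hs.core.inj
  · -- CL
    intro Y hY hc
    refine le_trans ?_ (hs.CL Y hY hc)
    refine Nat.mul_le_mul_left 2 (card_le_card ?_)
    intro j hj
    rw [mem_filter] at hj ⊢
    refine ⟨hj.1, hj.2.1, ?_⟩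
    have := hj.2.2
    rwa [hupv j hj.2.1] at this
  · -- unt
    intro j hj hx
    rw [hupv j hj]
    exact hs.unt j hj hx
  · -- pen
    show s.pen + penInc x (fc (ρ i)) + _ + _ ≤ _
    have h3 : (∑ j ∈ univ.filter (fun j => j ∉ s.C ∧ x < fc (upv ρ i t (s.y i t) j)),
        fc (upv ρ i t (s.y i t) j))
        = ∑ j ∈ univ.filter (fun j => j ∉ s.C ∧ x < fc (ρ j)), fc (ρ j) := by
      have e : (univ.filter (fun j => j ∉ s.C ∧ x < fc (upv ρ i t (s.y i t) j)))
          = univ.filter (fun j => j ∉ s.C ∧ x < fc (ρ j)) := by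
        apply filter_congr
        intro j _
        constructor
        · rintro ⟨h1, h2⟩
          rw [hupv j h1] at h2
          exact ⟨h1, h2⟩
        · rintro ⟨h1, h2⟩
          refine ⟨h1, ?_⟩
          rw [hupv j h1]
          exact h2
      rw [e]
      apply sum_congr rfl
      intro j hj
      rw [mem_filter] at hj
      rw [hupv j hj.2.1]
    have h2 : penInc x (fc (ρ i))
        + (∑ j ∈ s.C.filter (fun j => nx x < fc (upv ρ i t (s.y i t) j)),
            fc (upv ρ i t (s.y i t) j))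
        ≤ ∑ j ∈ s.C.filter (fun j => nx x < fc (ρ j)), fc (ρ j) := by
      rw [sum_filter, sum_filter, ← add_sum_erase _ _ hi, ← add_sum_erase _ _ hi]
      have e : (∑ j ∈ s.C.erase i, if nx x < fc (upv ρ i t (s.y i t) j)
          then fc (upv ρ i t (s.y i t) j) else 0)
          = ∑ j ∈ s.C.erase i, if nx x < fc (ρ j) then fc (ρ j) else 0 := by
        apply sum_congr rfl
        intro j hj
        rw [upv_ne _ _ _ _ (ne_of_mem_erase hj)]
      rw [e]
      have e2 : penInc x (fc (ρ i)) + (if nx x < fc (upv ρ i t (s.y i t) i)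
          then fc (upv ρ i t (s.y i t) i) else 0) ≤ if nx x < fc (ρ i) then fc (ρ i) else 0 := by
        unfold penInc
        split_ifs <;> omega
      omega
    have := hs.pen
    have h4 := h3.le
    show s.pen + penInc x (fc (ρ i))
      + (∑ j ∈ s.C.filter (fun j => nx x < fc (upv ρ i t (s.y i t) j)),
            fc (upv ρ i t (s.y i t) j))
      + (∑ j ∈ univ.filter (fun j => j ∉ s.C ∧ x < fc (upv ρ i t (s.y i t) j)),
        fc (upv ρ i t (s.y i t) j)) ≤ _ + x * s.p
    omega
  · exact hs.ph1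
  · exact hs.ph2
  · exact hs.prm
  · exact hs.pcd
  · exact hs.pcC
  · exact hs.pcs
  · exact hs.siz
  · -- hic
    refine le_trans (card_le_card ?_) hs.hic
    intro j hj
    rw [mem_filter] at hj ⊢
    exact ⟨hj.1, lt_of_lt_of_le hj.2.1 (StepA_fc_upv_le ht _ j), hj.2.2⟩

/-- Task S1.  A query of an uncommitted pigeon of level in `(F+1, x]` keeps the hidden state. -/
theorem uni_step {σ : Fin (N + 1) → Lab b → Fin N} {x : ℕ} {R ρ : Vis b N} {s : HS b N}
    (hB : Big b N x) (hV : RVis σ x R ρ) (hs : RGood σ x R ρ s)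
    (i : Fin (N + 1)) (hi : i ∉ s.C) (t : Fin b) (ht : ρ i t = none)
    (h1 : nx x + 1 < fc (ρ i)) (h2 : fc (ρ i) ≤ x) (v : Bool) :
    RGood σ x R (upv ρ i t v) s := by
  have hne : ∀ j ∈ s.C, j ≠ i := fun j hj h => hi (h ▸ hj)
  have hupv : ∀ j ∈ s.C, upv ρ i t v j = ρ j := fun j hj => upv_ne _ _ _ _ (hne j hj)
  have hfci := fc_up ht v
  have hfc' : fc (upv ρ i t v i) + 1 = fc (ρ i) := by rw [upv_self]; exact hfci
  refine ⟨⟨?_, ?_, ?_, ?_⟩, ?_, ?_, ?_, ?_, ?_, ?_, ?_, ?_, ?_, ?_, ?_⟩
  · -- low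
    intro j hj
    by_cases h : j = i
    · subst h; omega
    · rw [upv_ne _ _ _ _ h] at hj
      exact hs.core.low j hj
  · -- lab
    intro j hj
    rw [hupv j hj]
    exact hs.core.lab j hj
  · exact hs.core.inT
  · exact hs.core.inj
  · -- CL
    intro Y hY hc
    refine le_trans ?_ (hs.CL Y hY hc)
    refine Nat.mul_le_mul_left 2 (card_le_card ?_)
    intro j hj
    rw [mem_filter] at hj ⊢
    refine ⟨hj.1, hj.2.1, ?_⟩
    have h3 := hj.2.2
    by_cases h : j = i
    · subst h
      rw [upv_self] at h3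
      exact h3.sub (sub_up ht v) h2
    · rwa [upv_ne _ _ _ _ h] at h3
  · -- unt
    intro j hj hx
    by_cases h : j = i
    · subst h
      have := hs.unt j hj hx
      rw [this] at h2
      omega
    · rw [upv_ne _ _ _ _ h]
      exact hs.unt j hj hx
  · -- pen
    have h3 : (∑ j ∈ univ.filter (fun j => j ∉ s.C ∧ x < fc (upv ρ i t v j)),
        fc (upv ρ i t v j))
        = ∑ j ∈ univ.filter (fun j => j ∉ s.C ∧ x < fc (ρ j)), fc (ρ j) := by
      have hni : ∀ j, x < fc (upv ρ i t v j) ∨ x < fc (ρ j) → j ≠ i := by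
        rintro j hj rfl
        rcases hj with hj | hj <;> omega
      have e : (univ.filter (fun j => j ∉ s.C ∧ x < fc (upv ρ i t v j)))
          = univ.filter (fun j => j ∉ s.C ∧ x < fc (ρ j)) := by
        apply filter_congr
        intro j _
        constructor
        · rintro ⟨h3, h4⟩
          have := hni j (Or.inl h4)
          rw [upv_ne _ _ _ _ this] at h4
          exact ⟨h3, h4⟩
        · rintro ⟨h3, h4⟩
          have := hni j (Or.inr h4)
          rw [upv_ne _ _ _ _ this]
          exact ⟨h3, h4⟩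
      rw [e]
      apply sum_congr rfl
      intro j hj
      rw [mem_filter] at hj
      rw [upv_ne _ _ _ _ (hni j (Or.inr hj.2.2))]
    have h4 : (∑ j ∈ s.C.filter (fun j => nx x < fc (upv ρ i t v j)), fc (upv ρ i t v j))
        = ∑ j ∈ s.C.filter (fun j => nx x < fc (ρ j)), fc (ρ j) := by
      rw [sum_filter, sum_filter]
      apply sum_congr rfl
      intro j hj
      rw [hupv j hj]
    rw [h3, h4]
    exact hs.pen
  · exact hs.ph1
  · exact hs.ph2
  · exact hs.prm
  · exact hs.pcd
  · exact hs.pcC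
  · exact hs.pcs
  · exact hs.siz
  · -- hic
    refine le_trans (card_le_card ?_) hs.hic
    intro j hj
    rw [mem_filter] at hj ⊢
    exact ⟨hj.1, lt_of_lt_of_le hj.2.1 (StepA_fc_upv_le ht _ j), hj.2.2⟩

end H616TR
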