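import Pool.Agent.H616R2.TR.C2
import Pool.Agent.H616R2.TR.C3
import Pool.Agent.H616R2.TR.NumA

set_option autoImplicit false

/-! Task W1: change of scale for one hidden state. -/

namespace H616TR

open Finset

variable {b N : ℕ}

/-- no label is available iff all options are forbidden -/
theorem SwitchA_av {τ : Lab b → Fin N} {r : Par b} {T : Finset (Fin N)} :
    av τ r T = 0 ↔ (pts r).image τ ⊆ T := by
  constructor
  · intro h z hz
    obtain ⟨y, hy, rfl⟩ := mem_image.mp hz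
    by_contra hn
    exact (av_pos_iff.mpr ⟨y, hy, hn⟩) h
  · intro h
    by_contra hn
    obtain ⟨y, hy, hyT⟩ := av_pos_iff.mp hn
    exact hyT (h (mem_image_of_mem τ hy))

/-- a bad pigeon of level at most `x` is atypical if the threshold is below the typical value -/
theorem SwitchA_atyp {τ : Lab b → Fin N} {x : ℕ} {K : ℝ} {r : Par b} {T : Finset (Fin N)}
    (hr : fc r ≤ x) (hK : K ≤ (1 - 1 / (nx x : ℝ)) * (1 - (T.card : ℝ) / N) * 2 ^ (nx x))
    (h : BadS τ x K r T) : Atyp τ x r T := by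
  unfold BadS at h
  rw [if_neg (not_lt.mpr hr)] at h
  obtain ⟨r', h1, h2, h3⟩ := h
  exact ⟨r', h1, h2, Or.inl (h3.trans_le hK)⟩

theorem SwitchA_num {x : ℕ} (hB : Big b N x) :
    1 + 11 * (dl N x : ℝ) ≤ 7 / 8 * ((N : ℝ) / (x : ℝ) ^ 2) := by
  have hx : (2 : ℝ) ^ 64 ≤ x := by
    have := hB.x0
    unfold B0 at this
    exact_mod_cast this
  have hx0 : (0 : ℝ) < x := lt_of_lt_of_le (by positivity) hx
  have hx1 : (1 : ℝ) ≤ x := le_trans (by norm_num) hx
  have hNx : (x : ℝ) ^ 3 ≤ N := by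
    have h1 : x ^ 40 ≤ N := (Nat.pow_le_pow_left hB.xb 40).trans hB.Nb
    have h2 : x ^ 3 ≤ x ^ 40 := Nat.pow_le_pow_right (by
      have := hB.x0; unfold B0 at this; omega) (by norm_num)
    exact_mod_cast h2.trans h1
  set Q : ℝ := (N : ℝ) / (x : ℝ) ^ 2 with hQ
  have hQx : (x : ℝ) ≤ Q := by
    rw [hQ, le_div_iff₀ (by positivity)]
    calc (x : ℝ) * (x : ℝ) ^ 2 = (x : ℝ) ^ 3 := by ring
      _ ≤ (N : ℝ) := hNx
  have h1 : (dl N x : ℝ) ≤ Q / x ^ 3 := by
    refine (dl_le hB).trans (le_of_eq ?_)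
    rw [hQ, div_div]; congr 1; ring
  have h2 : Q / x ^ 3 ≤ Q / 100 := by
    apply div_le_div_of_nonneg_left (by linarith) (by norm_num)
    calc (100 : ℝ) ≤ x := le_trans (by norm_num) hx
      _ = x ^ 1 := (pow_one _).symm
      _ ≤ x ^ 3 := pow_le_pow_right₀ hx1 (by norm_num)
  have h3 : (100 : ℝ) ≤ Q := le_trans (le_trans (by norm_num) hx) hQx
  linarith

/-- Task W1.  Change of scale for one hidden state.

Paper proof.  Let `F = nx x`, `Low' = {i | fc (ρ i) ≤ F}`, `G = {i | F < fc (ρ i) ≤ x}` (all committed in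
`s`), `Uo = sᶜ.C` (all of level `> x`), `Kp = {i ∈ s.C | fc (ρ i) ≤ F ∨ x < fc (ρ i)}` the pigeons that stay
committed, `T0 = {σ i (s.y i) | i ∈ Kp} ⊆ s.T`.
`|T0| ≤ |Kp| ≤ N + 1 - N/x² + Δ`.  Let `a' = ⌊(|T0| + 6Δ)/ph⌋₊`.
Apply `closure_switch` with `bad i T = BadS (σ i) x (Kth N x a') (ρ i) T`, `M i = σ i (s.y i)`, `U = Uo`.
`hA`: for `|Y| ≤ 10Δ`, `InLim N x (T0 ∪ Y)` and `Kth N x a' ≤ (1-η)(1-|T0 ∪ Y|/N)2^F` (`Kth_le`), so a bad
`i ∈ G` is atypical; at most `Δ` of these (`hA`), and `|Uo| ≤ Δ` (`hV.sh`).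
Let `S = {i ∈ G ∪ Uo | bad i (T0 ∪ Y0)}`.  For `i ∈ S ∩ Uo` all options are in `T0 ∪ Y0`;
`sdr_switch` (with `To = s.T`, `D` from `hs.old`; `2|S ∩ Uo| ≤ D` by the second part of `hs.old`) gives new
labels with distinct holes in `Y0 \ s.T`.
New state: `C' = Kp ∪ S`, labels as before on `s.C`, new ones on `S ∩ Uo`, `T' = T0 ∪ Y0`, phase `a'`,
`p' = |S ∩ G|`, `pc' = S ∩ G`, `pen' = 0`, `R = ρ`. -/
theorem switch_det {σ : Fin (N + 1) → Lab b → Fin N} {x : ℕ} {ρ : Vis b N}
    (hB : Big b N x) (hV : EVis x ρ) (hA : ProA σ x ρ)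
    (hne : (N : ℝ) / (x : ℝ) ^ 2 ≤ (highc (nx x) ρ : ℝ)) {s : HS b N} (hs : EGood σ x ρ s) :
    ∃ s' : HS b N, RGood σ x ρ ρ s' ∧ s'.pen = 0 ∧
      ∀ j, fc (ρ j) ≤ nx x → s'.y j = s.y j := by
  classical
  have hFx : nx x < x := by
    have := nx_lt hB.x0
    omega
  set F := nx x with hF
  set Δ := dl N x with hΔ
  set Uo : Finset (Fin (N + 1)) := univ.filter (fun i => i ∉ s.C) with hUo
  set G : Finset (Fin (N + 1)) := univ.filter (fun i => F < fc (ρ i) ∧ fc (ρ i) ≤ x) with hG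
  set Kp : Finset (Fin (N + 1)) := s.C.filter (fun i => fc (ρ i) ≤ F ∨ x < fc (ρ i)) with hKp
  set T0 : Finset (Fin N) := Kp.image (fun i => σ i (s.y i)) with hT0
  have hUx : ∀ i, i ∉ s.C → x < fc (ρ i) := by
    intro i hi
    by_contra h
    exact hi (hs.core.low i (not_lt.mp h))
  have hGC : ∀ i ∈ G, i ∈ s.C := fun i hi => hs.core.low i (mem_filter.mp hi).2.2
  have hKC : ∀ i ∈ Kp, i ∈ s.C := fun i hi => (mem_filter.mp hi).1
  have hT0s : T0 ⊆ s.T := by
    intro z hz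
    obtain ⟨i, hi, rfl⟩ := mem_image.mp hz
    exact hs.core.inT i (hKC i hi)
  have hGK : Disjoint G Kp := by
    rw [disjoint_left]
    intro i hi hi'
    have h1 := (mem_filter.mp hi).2
    have h2 := (mem_filter.mp hi').2
    omega
  -- cardinalities
  have hcK : (Kp.card : ℝ) ≤ (N : ℝ) + 1 + Δ - (N : ℝ) / (x : ℝ) ^ 2 := by
    have h1 : G.card + Kp.card ≤ N + 1 := by
      rw [← card_union_of_disjoint hGK]
      exact (card_le_univ _).trans (by simp)
    have h2 : highc F ρ ≤ G.card + highc x ρ := by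
      unfold highc
      rw [hG]
      refine (card_le_card ?_).trans (card_union_le _ _)
      intro i hi
      rw [mem_filter] at hi
      rw [mem_union, mem_filter, mem_filter]
      by_cases h : x < fc (ρ i)
      · exact Or.inr ⟨mem_univ _, h⟩
      · exact Or.inl ⟨mem_univ _, hi.2, not_lt.mp h⟩
    have h3 : highc x ρ ≤ Δ := hV.sh
    have h4 : (highc F ρ : ℝ) + Kp.card ≤ N + 1 + Δ := by
      have : highc F ρ + Kp.card ≤ N + 1 + Δ := by omega
      exact_mod_cast this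
    linarith
  have hcT0 : T0.card ≤ Kp.card := card_image_le
  have hnum := SwitchA_num hB
  have hlim : ∀ Y : Finset (Fin N), Y.card ≤ 10 * Δ → InLim N x (T0 ∪ Y) := by
    intro Y hY
    unfold InLim
    have h1 : ((T0 ∪ Y).card : ℝ) ≤ (Kp.card : ℝ) + 10 * Δ := by
      have : (T0 ∪ Y).card ≤ Kp.card + 10 * Δ :=
        (card_union_le _ _).trans (add_le_add hcT0 hY)
      exact_mod_cast this
    have h2 : (N : ℝ) * (1 - 1 / (8 * (x : ℝ) ^ 2)) =
        N - 1 / 8 * ((N : ℝ) / (x : ℝ) ^ 2) := by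
      have hx0 : (0 : ℝ) < x := by
        have := hB.x0
        unfold B0 at this
        exact_mod_cast (by omega : 0 < x)
      field_simp
    rw [h2]
    linarith
  -- the phase
  have hph := ph_pos hB
  set a' : ℕ := ⌊((T0.card : ℝ) + 6 * Δ) / ph N x⌋₊ with ha'
  have ha1 : (T0.card : ℝ) + 6 * Δ < ((a' : ℝ) + 1) * ph N x := by
    have := Nat.lt_floor_add_one (((T0.card : ℝ) + 6 * Δ) / ph N x)
    rwa [div_lt_iff₀ hph] at this
  have ha2 : (a' : ℝ) * ph N x ≤ (T0.card : ℝ) + 6 * Δ := by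
    have := Nat.floor_le (a := ((T0.card : ℝ) + 6 * Δ) / ph N x) (by positivity)
    rwa [le_div_iff₀ hph] at this
  have hKth : ∀ Y : Finset (Fin N), Y.card ≤ 10 * Δ →
      Kth N x a' ≤ (1 - 1 / (nx x : ℝ)) * (1 - ((T0 ∪ Y).card : ℝ) / N) * 2 ^ (nx x) := by
    intro Y hY
    refine Kth_le hB ?_
    have h1 : ((T0 ∪ Y).card : ℝ) ≤ (T0.card : ℝ) + 10 * Δ := by
      have : (T0 ∪ Y).card ≤ T0.card + 10 * Δ :=
        (card_union_le _ _).trans (by omega)
      exact_mod_cast this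
    have h2 : (0 : ℝ) ≤ Δ := by positivity
    linarith
  have hbadG : ∀ Y : Finset (Fin N), Y.card ≤ 10 * Δ →
      (G.filter (fun i => BadS (σ i) x (Kth N x a') (ρ i) (T0 ∪ Y))).card ≤ Δ := by
    intro Y hY
    refine (card_le_card ?_).trans (hA (T0 ∪ Y) (hlim Y hY))
    intro i hi
    rw [mem_filter] at hi
    have h1 := (mem_filter.mp hi.1).2.2
    rw [mem_filter]
    exact ⟨mem_univ _, h1, SwitchA_atyp h1 (hKth Y hY) hi.2⟩
  have hUoc : Uo.card ≤ Δ := by
    refine (card_le_card ?_).trans hV.sh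
    intro i hi
    rw [mem_filter]
    exact ⟨mem_univ _, hUx i (mem_filter.mp hi).2⟩
  obtain ⟨Y0, hY0d, hY0c, hY0M, hY0CL⟩ := closure_switch G Uo
    (fun i T => BadS (σ i) x (Kth N x a') (ρ i) T) (fun i => σ i (s.y i)) T0 Δ
    (fun i T1 T2 h12 h => h.mono h12)
    (by
      intro i hi hz
      obtain ⟨j, hj, hji⟩ := mem_image.mp hz
      have := hs.core.inj j (hKC j hj) i (hGC i hi) hji
      subst this
      exact disjoint_left.mp hGK hi hj)
    (by
      intro Y hY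
      rw [filter_union]
      refine (card_union_le _ _).trans ?_
      have h1 := hbadG Y hY
      have h2 : (Uo.filter (fun i => BadS (σ i) x (Kth N x a') (ρ i) (T0 ∪ Y))).card ≤ Δ :=
        (card_filter_le _ _).trans hUoc
      omega)
  have hY010 : Y0.card ≤ 10 * Δ := by omega
  set SG : Finset (Fin (N + 1)) :=
    G.filter (fun i => BadS (σ i) x (Kth N x a') (ρ i) (T0 ∪ Y0)) with hSG
  set SU : Finset (Fin (N + 1)) :=
    Uo.filter (fun i => BadS (σ i) x (Kth N x a') (ρ i) (T0 ∪ Y0)) with hSU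
  have hSUn : ∀ i ∈ SU, i ∉ s.C := fun i hi => (mem_filter.mp (mem_filter.mp hi).1).2
  have hSGG : ∀ i ∈ SG, i ∈ G := fun i hi => (mem_filter.mp hi).1
  have hSGC : ∀ i ∈ SG, i ∈ s.C := fun i hi => hGC i (hSGG i hi)
  have hSUav : ∀ i ∈ SU, av (σ i) (ρ i) (T0 ∪ Y0) = 0 := by
    intro i hi
    have h := (mem_filter.mp hi).2
    unfold BadS at h
    rwa [if_pos (hUx i (hSUn i hi))] at h
  obtain ⟨D, hD1, hD2⟩ := hs.old
  haveI hNe616 : Nonempty (Fin N) := by
    have h1 : 0 < b := lt_of_lt_of_le (by unfold B0; positivity) (hB.x0.trans hB.xb)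
    have h2 : 0 < b ^ 40 := pow_pos h1 40
    exact ⟨⟨0, lt_of_lt_of_le h2 hB.Nb⟩⟩
  obtain ⟨η, hη, hηi⟩ := sdr_switch Uo SU (fun i => (pts (ρ i)).image (σ i)) T0 s.T Y0 D
    (filter_subset _ _) hT0s (fun i hi => SwitchA_av.mp (hSUav i hi))
    (by
      intro Y hYd hYc
      refine le_trans ?_ (hD1 Y hYd hYc)
      refine Nat.mul_le_mul_left 2 (card_le_card ?_)
      intro i hi
      rw [mem_filter] at hi
      rw [mem_filter]
      exact ⟨mem_univ _, (mem_filter.mp hi.1).2, SwitchA_av.mpr hi.2⟩)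
    (by
      refine le_trans ?_ (hD2 (T0 ∪ Y0) (hlim Y0 hY010))
      refine Nat.mul_le_mul_left 2 (card_le_card ?_)
      intro i hi
      rw [mem_filter]
      exact ⟨mem_univ _, hSUn i hi, hSUav i hi⟩)
  have hlab : ∀ i : Fin (N + 1), ∃ w : Lab b, i ∈ SU → w ∈ pts (ρ i) ∧ σ i w = η i := by
    intro i
    by_cases hi : i ∈ SU
    · obtain ⟨w, hw1, hw2⟩ := mem_image.mp (hη i hi).1
      exact ⟨w, fun _ => ⟨hw1, hw2⟩⟩
    · exact ⟨s.y i, fun h => absurd h hi⟩
  choose w hw using hlab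
  set y' : Fin (N + 1) → Lab b := fun i => if i ∈ SU then w i else s.y i with hy'
  have hy'U : ∀ i ∈ SU, y' i = w i := fun i hi => if_pos hi
  have hy'C : ∀ i ∈ s.C, y' i = s.y i := fun i hi => if_neg (fun h => hSUn i h hi)
  have hC' : ∀ i ∈ Kp ∪ (SG ∪ SU), i ∈ s.C ∨ i ∈ SU := by
    intro i hi
    rw [mem_union, mem_union] at hi
    rcases hi with h | h | h
    · exact Or.inl (hKC i h)
    · exact Or.inl (hSGC i h)
    · exact Or.inr h
  have hC'2 : ∀ i ∈ Kp ∪ (SG ∪ SU), F < fc (ρ i) → fc (ρ i) ≤ x → i ∈ SG := by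
    intro i hi h1 h2
    rw [mem_union, mem_union] at hi
    rcases hi with h | h | h
    · have := (mem_filter.mp h).2; omega
    · exact h
    · have := hUx i (hSUn i h); omega
  have hnC' : ∀ i, i ∉ Kp ∪ (SG ∪ SU) → i ∈ G ∪ Uo ∧
      ¬ BadS (σ i) x (Kth N x a') (ρ i) (T0 ∪ Y0) := by
    intro i hi
    rw [mem_union, mem_union] at hi
    push Not at hi
    obtain ⟨h1, h2, h3⟩ := hi
    by_cases hC : i ∈ s.C
    · have hiG : i ∈ G := by
        rw [hG, mem_filter]
        refine ⟨mem_univ _, ?_⟩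
        by_contra hcon
        apply h1
        rw [hKp, mem_filter]
        exact ⟨hC, by omega⟩
      exact ⟨mem_union_left _ hiG, fun hb => h2 (mem_filter.mpr ⟨hiG, hb⟩)⟩
    · have hiU : i ∈ Uo := mem_filter.mpr ⟨mem_univ _, hC⟩
      exact ⟨mem_union_right _ hiU, fun hb => h3 (mem_filter.mpr ⟨hiU, hb⟩)⟩
  refine ⟨⟨Kp ∪ (SG ∪ SU), y', T0 ∪ Y0, a', SG.card, SG, 0⟩, ?_, rfl, ?_⟩
  · refine ⟨⟨?_, ?_, ?_, ?_⟩, ?_, ?_, ?_, ?_, ?_, ?_, ?_, ?_, ?_, ?_, ?_⟩
    · -- low
      intro i hi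
      refine mem_union_left _ (mem_filter.mpr ⟨hs.core.low i (hi.trans hFx.le), Or.inl hi⟩)
    · -- lab
      intro i hi
      change y' i ∈ pts (ρ i)
      rcases hC' i hi with h | h
      · rw [hy'C i h]; exact hs.core.lab i h
      · rw [hy'U i h]; exact (hw i h).1
    · -- inT
      intro i hi
      change σ i (y' i) ∈ T0 ∪ Y0
      have hi' : i ∈ Kp ∪ (SG ∪ SU) := hi
      rw [mem_union, mem_union] at hi'
      rcases hi' with h | h | h
      · rw [hy'C i (hKC i h)]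
        exact mem_union_left _ (mem_image_of_mem (fun i => σ i (s.y i)) h)
      · rw [hy'C i (hSGC i h)]
        exact mem_union_right _ (hY0M i (hSGG i h) (mem_filter.mp h).2)
      · rw [hy'U i h, (hw i h).2]
        exact mem_union_right _ (hη i h).2.1
    · -- inj
      intro i hi j hj hij
      change σ i (y' i) = σ j (y' j) at hij
      rcases hC' i hi with h | h <;> rcases hC' j hj with h' | h'
      · rw [hy'C i h, hy'C j h'] at hij
        exact hs.core.inj i h j h' hij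
      · rw [hy'C i h, hy'U j h', (hw j h').2] at hij
        exact absurd (hij ▸ hs.core.inT i h) (hη j h').2.2
      · rw [hy'U i h, hy'C j h', (hw i h).2] at hij
        exact absurd (hij.symm ▸ hs.core.inT j h') (hη i h).2.2
      · rw [hy'U i h, hy'U j h', (hw i h).2, (hw j h').2] at hij
        exact hηi i h j h' hij
    · -- CL
      intro Y hYd hYc
      refine le_trans (Nat.mul_le_mul_left 2 (card_le_card ?_)) (hY0CL Y hYd hYc)
      intro i hi
      rw [mem_filter] at hi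
      obtain ⟨-, hi1, hi2⟩ := hi
      obtain ⟨h1, h2⟩ := hnC' i hi1
      exact mem_filter.mpr ⟨h1, hi2, h2⟩
    · -- unt
      intro i _ _
      rfl
    · -- pen
      change 0 + (∑ i ∈ (Kp ∪ (SG ∪ SU)).filter (fun i => nx x < fc (ρ i)), fc (ρ i)) +
        (∑ i ∈ univ.filter (fun i => i ∉ Kp ∪ (SG ∪ SU) ∧ x < fc (ρ i)), fc (ρ i)) ≤
        (∑ i ∈ univ.filter (fun i => x < fc (ρ i)), fc (ρ i)) + x * SG.card
      have e1 : (∑ i ∈ (Kp ∪ (SG ∪ SU)).filter (fun i => nx x < fc (ρ i)), fc (ρ i)) ≤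
          (∑ i ∈ (Kp ∪ (SG ∪ SU)).filter (fun i => x < fc (ρ i)), fc (ρ i)) + x * SG.card := by
        rw [← sum_filter_add_sum_filter_not ((Kp ∪ (SG ∪ SU)).filter (fun i => nx x < fc (ρ i)))
          (fun i => x < fc (ρ i))]
        refine add_le_add (sum_le_sum_of_subset ?_) ?_
        · intro i hi
          rw [mem_filter, mem_filter] at hi
          exact mem_filter.mpr ⟨hi.1.1, hi.2⟩
        · have h1 : ((Kp ∪ (SG ∪ SU)).filter (fun i => nx x < fc (ρ i))).filter
              (fun i => ¬ x < fc (ρ i)) ⊆ SG := by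
            intro i hi
            rw [mem_filter, mem_filter] at hi
            exact hC'2 i hi.1.1 hi.1.2 (not_lt.mp hi.2)
          refine (sum_le_sum_of_subset h1).trans ?_
          rw [mul_comm, ← smul_eq_mul]
          exact sum_le_card_nsmul _ _ _ fun i hi => (mem_filter.mp (hSGG i hi)).2.2
      have e2 : (∑ i ∈ (Kp ∪ (SG ∪ SU)).filter (fun i => x < fc (ρ i)), fc (ρ i)) +
          (∑ i ∈ univ.filter (fun i => i ∉ Kp ∪ (SG ∪ SU) ∧ x < fc (ρ i)), fc (ρ i)) =
          ∑ i ∈ univ.filter (fun i => x < fc (ρ i)), fc (ρ i) := by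
        rw [← sum_union]
        · congr 1
          ext i
          simp only [mem_union, mem_filter, mem_univ, true_and]
          tauto
        · rw [disjoint_left]
          intro i hi hi'
          exact (mem_filter.mp hi').2.1 (mem_filter.mp hi).1
      omega
    · -- ph1
      change ((T0 ∪ Y0).card : ℝ) ≤ ((a' : ℝ) + 1) * ph N x
      have h1 : ((T0 ∪ Y0).card : ℝ) ≤ (T0.card : ℝ) + 6 * Δ := by
        have : (T0 ∪ Y0).card ≤ T0.card + 6 * Δ :=
          (card_union_le _ _).trans (by omega)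
        exact_mod_cast this
      linarith
    · -- ph2
      change (a' : ℝ) * ph N x ≤ ((T0 ∪ Y0).card : ℝ) + 6 * (Δ : ℝ)
      have h1 : (T0.card : ℝ) ≤ ((T0 ∪ Y0).card : ℝ) := by
        exact_mod_cast card_le_card subset_union_left
      linarith
    · -- prm
      change SG.card ≤ a' * Δ + SG.card
      omega
    · -- pcd
      exact hbadG Y0 hY010
    · -- pcC
      exact subset_union_left.trans subset_union_right
    · -- pcs
      intro i hi
      exact ⟨(mem_filter.mp (hSGG i hi)).2.2, (mem_filter.mp hi).2⟩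
    · -- siz
      change (T0 ∪ Y0).card + (univ.filter (fun i => i ∉ Kp ∪ (SG ∪ SU) ∧ x < fc (ρ i))).card ≤
        (Kp ∪ (SG ∪ SU)).card + 7 * Δ + SG.card
      have h1 : (T0 ∪ Y0).card ≤ Kp.card + 6 * Δ :=
        (card_union_le _ _).trans (by omega)
      have h2 : Kp.card ≤ (Kp ∪ (SG ∪ SU)).card := card_le_card subset_union_left
      have h3 : (univ.filter (fun i => i ∉ Kp ∪ (SG ∪ SU) ∧ x < fc (ρ i))).card ≤ Δ := by
        refine (card_le_card ?_).trans hV.sh
        intro i hi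
        rw [mem_filter] at hi
        exact mem_filter.mpr ⟨mem_univ _, hi.2.2⟩
      omega
    · -- hic
      change ((Kp ∪ (SG ∪ SU)).filter (fun i => nx x < fc (ρ i) ∧ fc (ρ i) ≤ x)).card ≤ SG.card
      refine card_le_card ?_
      intro i hi
      rw [mem_filter] at hi
      exact hC'2 i hi.1 hi.2.1 hi.2.2
  · intro j hj
    exact hy'C j (hs.core.low j (hj.trans hFx.le))

end H616TR
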