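import Pool.Agent.H616R2.TR.Avg

set_option autoImplicit false

/-! Task P2: Chernoff bounds. -/

namespace H616TR

open Finset

variable {b N : ℕ}

/-! ### Task P2: Chernoff bounds and atypical cubes -/

/-- exponential moments of the number of available labels -/
theorem Tail_moment [NeZero N] (r : Par b) (T : Finset (Fin N)) (s : ℝ) (hs : |s| ≤ 1) :
    avg (fun τ : Lab b → Fin N => Real.exp (s * (av τ r T : ℝ))) ≤
      Real.exp ((1 - (T.card : ℝ) / N) * 2 ^ fc r * (s + s ^ 2)) := by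
  have hN : (0 : ℝ) < N := by
    have := NeZero.pos N
    exact_mod_cast this
  have hTN : (T.card : ℝ) ≤ N := by
    have := T.card_le_univ
    rw [Fintype.card_fin] at this
    exact_mod_cast this
  have hq : 0 ≤ 1 - (T.card : ℝ) / N := by
    rw [sub_nonneg, div_le_one hN]
    exact hTN
  have h1 : ∀ τ : Lab b → Fin N, Real.exp (s * (av τ r T : ℝ)) =
      ∏ y ∈ pts r, (fun (_ : Lab b) (h : Fin N) => Real.exp (s * if h ∉ T then 1 else 0)) y (τ y) := by
    intro τ
    rw [← Real.exp_sum, ← Finset.mul_sum]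
    congr 2
    unfold av
    rw [Finset.card_filter]
    push_cast
    rfl
  have h2 : avg (fun τ : Lab b → Fin N => Real.exp (s * (av τ r T : ℝ))) =
      ∏ y ∈ pts r, ((∑ h : Fin N, Real.exp (s * if h ∉ T then 1 else 0)) / (N : ℝ)) := by
    rw [show (fun τ : Lab b → Fin N => Real.exp (s * (av τ r T : ℝ))) = fun τ => ∏ y ∈ pts r,
      (fun (_ : Lab b) (h : Fin N) => Real.exp (s * if h ∉ T then 1 else 0)) y (τ y) from
      funext h1]
    exact avg_prod (N := N) (pts r)
      (fun (_ : Lab b) (h : Fin N) => Real.exp (s * if h ∉ T then 1 else 0))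
  have h3 : (∑ h : Fin N, Real.exp (s * if h ∉ T then 1 else 0)) / (N : ℝ) =
      1 + (1 - (T.card : ℝ) / N) * (Real.exp s - 1) := by
    have e1 : ∀ h : Fin N, Real.exp (s * if h ∉ T then 1 else 0) =
        Real.exp s - (if h ∈ T then (Real.exp s - 1) else 0) := by
      intro h
      by_cases hh : h ∈ T <;> simp [hh]
    simp only [e1, Finset.sum_sub_distrib, Finset.sum_const, Finset.card_univ, Fintype.card_fin,
      nsmul_eq_mul, Finset.sum_ite_mem, Finset.univ_inter]
    field_simp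
    ring
  rw [h2, Finset.prod_const, h3, card_pts]
  have h4 : 1 + (1 - (T.card : ℝ) / N) * (Real.exp s - 1) ≤
      Real.exp ((1 - (T.card : ℝ) / N) * (s + s ^ 2)) := by
    have h5 := Real.abs_exp_sub_one_sub_id_le hs
    have h6 : Real.exp s - 1 ≤ s + s ^ 2 := by
      have := (abs_le.mp h5).2
      linarith
    have h7 := Real.add_one_le_exp ((1 - (T.card : ℝ) / N) * (s + s ^ 2))
    have h8 := mul_le_mul_of_nonneg_left h6 hq
    linarith
  have h5 : 0 ≤ 1 + (1 - (T.card : ℝ) / N) * (Real.exp s - 1) := by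
    rw [← h3]
    apply div_nonneg _ hN.le
    exact Finset.sum_nonneg fun _ _ => (Real.exp_pos _).le
  refine (pow_le_pow_left₀ h5 h4 _).trans (le_of_eq ?_)
  rw [← Real.exp_nat_mul]
  congr 1
  push_cast
  ring

/-- upper tail: with `q = 1 - |T|/N`, `n = 2^{fc r}`, `η ≤ 1`:
`Pr[av > (1+η) q n] ≤ exp(-η² q n / 4)` -/
theorem chern_up [NeZero N] (r : Par b) (T : Finset (Fin N)) (η : ℝ) (h0 : 0 < η) (h1 : η ≤ 1) :
    avg (fun τ => if (1 + η) * (1 - (T.card : ℝ) / N) * 2 ^ fc r < (av τ r T : ℝ) then 1 else 0)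
      ≤ Real.exp (-(η ^ 2 * (1 - (T.card : ℝ) / N) * 2 ^ fc r / 4)) := by
  have h2 : ∀ τ : Lab b → Fin N,
      (if (1 + η) * (1 - (T.card : ℝ) / N) * 2 ^ fc r < (av τ r T : ℝ) then (1 : ℝ) else 0) ≤
      Real.exp (-(η / 2 * ((1 + η) * (1 - (T.card : ℝ) / N) * 2 ^ fc r))) *
        Real.exp (η / 2 * (av τ r T : ℝ)) := by
    intro τ
    split_ifs with h
    · rw [← Real.exp_add]
      apply Real.one_le_exp
      have := mul_le_mul_of_nonneg_left h.le (by linarith : 0 ≤ η / 2)
      linarith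
    · positivity
  refine (avg_mono h2).trans ?_
  rw [avg_mul_const]
  have h3 := Tail_moment (N := N) r T (η / 2) (by rw [abs_of_pos (by linarith)]; linarith)
  refine (mul_le_mul_of_nonneg_left h3 (Real.exp_pos _).le).trans (le_of_eq ?_)
  rw [← Real.exp_add]
  congr 1
  ring

/-- lower tail -/
theorem chern_down [NeZero N] (r : Par b) (T : Finset (Fin N)) (η : ℝ) (h0 : 0 < η) (h1 : η ≤ 1) :
    avg (fun τ => if (av τ r T : ℝ) < (1 - η) * (1 - (T.card : ℝ) / N) * 2 ^ fc r then 1 else 0)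
      ≤ Real.exp (-(η ^ 2 * (1 - (T.card : ℝ) / N) * 2 ^ fc r / 4)) := by
  have h2 : ∀ τ : Lab b → Fin N,
      (if (av τ r T : ℝ) < (1 - η) * (1 - (T.card : ℝ) / N) * 2 ^ fc r then (1 : ℝ) else 0) ≤
      Real.exp (η / 2 * ((1 - η) * (1 - (T.card : ℝ) / N) * 2 ^ fc r)) *
        Real.exp (-(η / 2) * (av τ r T : ℝ)) := by
    intro τ
    split_ifs with h
    · rw [← Real.exp_add]
      apply Real.one_le_exp
      have := mul_le_mul_of_nonneg_left h.le (by linarith : 0 ≤ η / 2)
      linarith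
    · positivity
  refine (avg_mono h2).trans ?_
  rw [avg_mul_const]
  have h3 := Tail_moment (N := N) r T (-(η / 2))
    (by rw [abs_neg, abs_of_pos (by linarith)]; linarith)
  refine (mul_le_mul_of_nonneg_left h3 (Real.exp_pos _).le).trans (le_of_eq ?_)
  rw [← Real.exp_add]
  congr 1
  ring


end H616TR
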