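import Mathlib

set_option autoImplicit false

/-! Task T1: the tree lemma. -/

namespace H616TR

open Finset

/-- a partial assignment falsifies a clause -/
def Fals {n : ℕ} (ρ : Fin n → Option Bool) (C : Finset (Fin n × Bool)) : Prop :=
  ∀ l ∈ C, ρ l.1 = some (!l.2)

theorem Fals.update {n : ℕ} {ρ : Fin n → Option Bool} {C : Finset (Fin n × Bool)} {x : Fin n}
    {v : Bool} (hx : ρ x = none) (h : Fals ρ (C.erase (x, v))) :
    Fals (Function.update ρ x (some (!v))) C := by
  intro l hl
  by_cases hlx : l.1 = x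
  · by_cases hlv : l.2 = v
    · rw [hlx, Function.update_self, hlv]
    · exfalso
      have : l ∈ C.erase (x, v) := by
        rw [mem_erase]
        refine ⟨fun e => hlv (by rw [e]), hl⟩
      have := h l this
      rw [hlx, hx] at this
      cases this
  · rw [Function.update_of_ne hlx]
    refine h l ?_
    rw [mem_erase]
    exact ⟨fun e => hlx (by rw [e]), hl⟩

/-- The tree lemma.  `D ρ M` means: there is a distribution of total mass `M` at the partial
assignment `ρ`. -/
theorem tree_lb {n : ℕ} (F : Finset (Finset (Fin n × Bool)))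
    (D : (Fin n → Option Bool) → ℝ → Prop) (Ψ : (Fin n → Option Bool) → ℝ) (W : ℝ)
    (hW : 0 ≤ W) (hΨ : ∀ ρ, 0 ≤ Ψ ρ)
    (hax : ∀ ρ M, D ρ M → ∀ C ∈ F, Fals ρ C → M ≤ W + Ψ ρ)
    (hstep : ∀ ρ M, D ρ M → ∀ x, ρ x = none → M ≤ W + Ψ ρ ∨
      (∃ M0 M1, M ≤ M0 + M1 ∧ D (Function.update ρ x (some false)) M0 ∧
        D (Function.update ρ x (some true)) M1 ∧
        Ψ (Function.update ρ x (some false)) + Ψ (Function.update ρ x (some true)) ≤ Ψ ρ) ∨
      (D (Function.update ρ x (some false)) M ∧ Ψ (Function.update ρ x (some false)) ≤ Ψ ρ))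
    (s : ℕ)
    (hs : ∀ P : Finset (Fin n × Bool) → ℕ → Prop,
      (∀ C ∈ F, P C 1) →
      (∀ (C D : Finset (Fin n × Bool)) (x : Fin n) (a b : ℕ),
        P C a → P D b → (x, true) ∈ C → (x, false) ∈ D →
        P (C.erase (x, true) ∪ D.erase (x, false)) (a + b + 1)) →
      P ∅ s)
    (M : ℝ) (hM : D (fun _ => none) M) :
    M ≤ s * W + Ψ (fun _ => none) := by
  have key := hs (fun C s => 1 ≤ s ∧ ∀ ρ M, Fals ρ C → D ρ M → M ≤ s * W + Ψ ρ) ?_ ?_
  · exact key.2 _ _ (fun l hl => by simp at hl) hM
  · intro C hC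
    refine ⟨le_refl 1, ?_⟩
    intro ρ M hρ hD
    have := hax ρ M hD C hC hρ
    simpa using this
  · rintro C D' x a b ⟨ha, hC⟩ ⟨hb, hD'⟩ hxC hxD
    refine ⟨by omega, ?_⟩
    intro ρ M hρ hD
    have hρC : Fals ρ (C.erase (x, true)) := fun l hl => hρ l (mem_union_left _ hl)
    have hρD : Fals ρ (D'.erase (x, false)) := fun l hl => hρ l (mem_union_right _ hl)
    have ha' : (1 : ℝ) ≤ a := by exact_mod_cast ha
    have hb' : (1 : ℝ) ≤ b := by exact_mod_cast hb
    push_cast
    rcases hx : ρ x with _ | v
    · rcases hstep ρ M hD x hx with h | ⟨M0, M1, hle, h0, h1, hΨ'⟩ | ⟨h0, hΨ'⟩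
      · nlinarith
      · have e0 := hC (Function.update ρ x (some false)) M0
          (by simpa using Fals.update hx hρC) h0
        have e1 := hD' (Function.update ρ x (some true)) M1
          (by simpa using Fals.update hx hρD) h1
        nlinarith
      · have e0 := hC (Function.update ρ x (some false)) M
          (by simpa using Fals.update hx hρC) h0
        nlinarith
    · cases v
      · -- `x` is false: `C` is falsified
        have hC' : Fals ρ C := by
          intro l hl
          by_cases hlx : l = (x, true)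
          · rw [hlx]; simpa using hx
          · exact hρC l (mem_erase.2 ⟨hlx, hl⟩)
        have := hC ρ M hC' hD
        nlinarith
      · have hD'' : Fals ρ D' := by
          intro l hl
          by_cases hlx : l = (x, false)
          · rw [hlx]; simpa using hx
          · exact hρD l (mem_erase.2 ⟨hlx, hl⟩)
        have := hD' ρ M hD'' hD
        nlinarith

end H616TR
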